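import Pool.Agent.Y997.OBL.Stm
import Pool.Agent.Y989.FR.T_TWO3

/-!
Project OBL, job AA: the slit event has probability at most `C / m`.
-/

set_option autoImplicit false

namespace Pool.Agent.Y997.OBL.AA

open H974 H12S Finset H984P H984N Pool.Agent.Y989.FR
open Pool.Agent.W92.DP (DTB DLR shc)
open Pool.Agent.Y997.OBL
open Pool.Agent.Y989.FR.TWO3 (re_ends re_of_ends adj_near mem_bdB_iff firstX BX hok)

theorem blk_boxE (m : ℕ) : blk (0, 0) m = boxE m := by
  unfold blk boxE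
  simp

theorem SE_congr {m : ℕ} {F F' : Set Edg} (h : F ∩ ↑(boxE m) = F' ∩ ↑(boxE m)) :
    SE m F ↔ SE m F' := by
  unfold SE
  rw [h]

theorem SE_anti {m m' : ℕ} (h : m' ≤ m) {F : Set Edg} (hF : SE m F) : SE m' F := by
  obtain ⟨⟨u, hu, hur⟩, hr⟩ := hF
  have hsub : (↑(boxE m') : Set Edg) ⊆ ↑(boxE m) := by
    apply Finset.coe_subset.2
    unfold boxE
    apply RE_subset <;> omega
  refine ⟨?_, ?_⟩
  · have h0 : BX (0, 0) m' (0, 0) := by
      unfold BX inR
      simp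
    have h5 : (F ∩ ↑(boxE m)) ∩ ↑(blk (0, 0) m') ⊆ F ∩ ↑(boxE m') := by
      rw [blk_boxE]
      rintro e ⟨⟨h1, -⟩, h2⟩
      exact ⟨h1, h2⟩
    rcases firstX (k := m') h0 hur with ⟨h1, h2⟩ | ⟨y, hy, h2⟩
    · refine ⟨u, ?_, h2.mono h5⟩
      rw [mem_bdB_iff] at hu ⊢
      refine ⟨h1, ?_⟩
      unfold BX inR at h1
      simp only at h1 hu ⊢
      omega
    · exact ⟨y, hy, h2.mono h5⟩
  · rintro r ⟨h1, h2, h3⟩ h4
    exact hr r ⟨h1, h2, by omega⟩ (h4.mono (Set.inter_subset_inter_right _ hsub))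

theorem reach_of_shc {F : Set Edg} {v a b : Vtx} (h : Reach (shc v F) a b) :
    Reach F (a.1 + v.1, a.2 + v.2) (b.1 + v.1, b.2 + v.2) := by
  induction h with
  | refl => exact Reach.refl _ _
  | tail _ hs ih =>
    refine ih.trans (Adj.reach ?_)
    obtain ⟨⟨x, y, t⟩, he, hc⟩ := hs
    refine ⟨(x + v.1, y + v.2, t), he, ?_⟩
    cases t
    · rcases hc with ⟨h1, h2⟩ | ⟨h1, h2⟩
      · left
        rw [← h1, ← h2]
        simp only [src_mk, tgt_false, Prod.mk.injEq, true_and]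
        ring
      · right
        rw [← h1, ← h2]
        simp only [src_mk, tgt_false, Prod.mk.injEq, true_and]
        ring
    · rcases hc with ⟨h1, h2⟩ | ⟨h1, h2⟩
      · left
        rw [← h1, ← h2]
        simp only [src_mk, tgt_true, Prod.mk.injEq, true_and, and_true]
        ring
      · right
        rw [← h1, ← h2]
        simp only [src_mk, tgt_true, Prod.mk.injEq, true_and, and_true]
        ring

theorem shc_reach {F : Set Edg} {v a b : Vtx} (h : Reach F a b) :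
    Reach (shc v F) (a.1 - v.1, a.2 - v.2) (b.1 - v.1, b.2 - v.2) := by
  induction h with
  | refl => exact Reach.refl _ _
  | tail _ hs ih =>
    refine ih.trans (Adj.reach ?_)
    obtain ⟨⟨x, y, t⟩, he, hc⟩ := hs
    refine ⟨(x - v.1, y - v.2, t), ?_, ?_⟩
    · show (x - v.1 + v.1, y - v.2 + v.2, t) ∈ F
      rw [sub_add_cancel, sub_add_cancel]
      exact he
    · cases t
      · rcases hc with ⟨h1, h2⟩ | ⟨h1, h2⟩
        · left
          rw [← h1, ← h2]
          simp only [src_mk, tgt_false, Prod.mk.injEq, true_and]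
          ring
        · right
          rw [← h1, ← h2]
          simp only [src_mk, tgt_false, Prod.mk.injEq, true_and]
          ring
      · rcases hc with ⟨h1, h2⟩ | ⟨h1, h2⟩
        · left
          rw [← h1, ← h2]
          simp only [src_mk, tgt_true, Prod.mk.injEq, true_and, and_true]
          ring
        · right
          rw [← h1, ← h2]
          simp only [src_mk, tgt_true, Prod.mk.injEq, true_and, and_true]
          ring

theorem mem_shc_mp {s t : ℤ} {F : Finset Edg} (e : Edg) :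
    e ∈ shc (s, t) (↑((trl s t).mp F) : Set Edg) ↔ e ∈ F := by
  show (e.1 + s, e.2.1 + t, e.2.2) ∈ (↑((trl s t).mp F) : Set Edg) ↔ _
  rw [Finset.mem_coe, LSym.mem_mp]
  have : (trl s t).φ.symm (e.1 + s, e.2.1 + t, e.2.2) = e := by
    rw [Equiv.symm_apply_eq]
    rfl
  rw [this]

theorem shc_mp {s t : ℤ} {F : Finset Edg} :
    shc (s, t) (↑((trl s t).mp F) : Set Edg) = ↑F := by
  ext e
  rw [mem_shc_mp]
  rfl

theorem ok : Ok (fun _ : Edg => (1 / 2 : ℝ)) := fun _ => ⟨by norm_num, by norm_num⟩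

/-- Translation invariance. -/
theorem pr_shift {m n : ℕ} {s : ℤ} (h : -(n : ℤ) ≤ -(m : ℤ) + s ∧ (m : ℤ) + s ≤ n) (hmn : m ≤ n) :
    PQ (1 / 2) (boxE n) (fun F => SE m (shc (s, 0) (↑F : Set Edg))) =
      PQ (1 / 2) (boxE m) (fun F => SE m (↑F : Set Edg)) := by
  have h1 : (trl s 0).mp (boxE m) ⊆ boxE n := by
    unfold boxE
    rw [trl_RE]
    apply RE_subset <;> omega
  have h2 : PQ (1 / 2) (boxE n) (fun F => SE m (shc (s, 0) (↑F : Set Edg))) =
      PQ (1 / 2) ((trl s 0).mp (boxE m)) (fun F => SE m (shc (s, 0) (↑F : Set Edg))) := by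
    apply Pr_local h1
    intro F _
    apply SE_congr
    ext e
    have h3 : e ∈ shc (s, 0) (↑((trl s 0).mp (boxE m)) : Set Edg) ↔ e ∈ boxE m := mem_shc_mp e
    constructor
    · rintro ⟨h4, h5⟩
      refine ⟨?_, h5⟩
      show (e.1 + s, e.2.1 + 0, e.2.2) ∈ (↑(F ∩ (trl s 0).mp (boxE m)) : Set Edg)
      rw [Finset.coe_inter]
      exact ⟨h4, h3.2 h5⟩
    · rintro ⟨h4, h5⟩
      refine ⟨?_, h5⟩
      have h4 : (e.1 + s, e.2.1 + 0, e.2.2) ∈ (↑(F ∩ (trl s 0).mp (boxE m)) : Set Edg) := h4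
      rw [Finset.coe_inter] at h4
      exact h4.1
  rw [h2]
  unfold PQ
  rw [LSym.pr]
  apply Pr_congr
  intro F _
  rw [shc_mp]

theorem key (C : ℝ) (hC : ∀ (c : ℤ × ℤ) (R N : ℕ) (S : Finset Edg)
    (E : ℕ → Finset Edg → Prop) (u : ℕ → Finset Edg → Vtx), 1 ≤ R →
    (∀ F, F ⊆ S → ∀ j < N, E j F → sd (u j F) c ≤ R ∧
      ∃ w ∈ bdB c (2 * R), Reach (↑F ∩ ↑(blk c (2 * R))) (u j F) w) →
    (∀ F, F ⊆ S → ∀ j < N, ∀ i < j, E i F → E j F →
      ¬ Reach (↑F ∩ ↑(blk c (2 * R))) (u i F) (u j F)) →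
    ∑ j ∈ Finset.range N, PQ (1 / 2) S (E j) ≤ C) (m : ℕ) (hm : 1 ≤ m) :
    (m : ℝ) * PQ (1 / 2) (boxE (3 * m)) (fun F => SE (3 * m) (↑F : Set Edg)) ≤ C := by
  have h := hC (0, 0) m m (boxE (4 * m))
    (fun j F => SE (3 * m) (shc ((j : ℤ) + 1, 0) (↑F : Set Edg))) (fun j _ => ((j : ℤ) + 1, 0)) hm
    ?_ ?_
  · have h1 : ∀ j ∈ Finset.range m, PQ (1 / 2) (boxE (4 * m))
        (fun F => SE (3 * m) (shc ((j : ℤ) + 1, 0) (↑F : Set Edg))) =
        PQ (1 / 2) (boxE (3 * m)) (fun F => SE (3 * m) (↑F : Set Edg)) := by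
      intro j hj
      rw [Finset.mem_range] at hj
      apply pr_shift
      · push_cast
        omega
      · omega
    rw [Finset.sum_congr rfl h1, Finset.sum_const, Finset.card_range, nsmul_eq_mul] at h
    exact h
  · intro F _ j hj hE
    refine ⟨?_, ?_⟩
    · unfold sd
      rw [max_le_iff, abs_le, abs_le]
      simp only
      omega
    · obtain ⟨⟨u, hu, hur⟩, -⟩ := hE
      have h1 := reach_of_shc (hur.mono Set.inter_subset_left)
      simp only [zero_add, add_zero] at h1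
      have h0 : BX (0, 0) (2 * m) ((j : ℤ) + 1, 0) := by
        unfold BX inR
        push_cast
        omega
      rcases firstX (k := 2 * m) h0 h1 with ⟨h2, h3⟩ | ⟨y, hy, h2⟩
      · refine ⟨_, ?_, h3⟩
        rw [mem_bdB_iff] at hu ⊢
        refine ⟨h2, ?_⟩
        unfold BX inR at h2
        push_cast at h2 hu ⊢
        omega
      · exact ⟨y, hy, h2⟩
  · intro F _ j hj i hi hEi _ hr
    have h1 := shc_reach (v := ((i : ℤ) + 1, 0)) hr
    refine hEi.2 ((j : ℤ) - i, 0) ⟨rfl, ?_, ?_⟩ ?_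
    · show 1 ≤ (j : ℤ) - i
      omega
    · show (j : ℤ) - i ≤ (3 * m : ℕ)
      push_cast
      omega
    · simp only [sub_self] at h1
      have h2 : (j : ℤ) + 1 - (i + 1) = j - i := by ring
      rw [h2] at h1
      refine h1.mono ?_
      intro e he
      have he : (e.1 + ((i : ℤ) + 1), e.2.1 + 0, e.2.2) ∈
        (↑F ∩ ↑(blk (0, 0) (2 * m)) : Set Edg) := he
      refine ⟨he.1, ?_⟩
      have h3 := Finset.mem_coe.1 he.2
      obtain ⟨x, y, t⟩ := e
      rw [Finset.mem_coe]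
      unfold blk at h3
      unfold boxE
      cases t
      · simp only [mem_RE_false] at h3 ⊢
        push_cast at h3 ⊢
        omega
      · simp only [mem_RE_true] at h3 ⊢
        push_cast at h3 ⊢
        omega

theorem t_AA (h : S_NCL) : S_AA := by
  obtain ⟨C, hC, hN⟩ := h
  refine ⟨5 * C + 2, by positivity, ?_⟩
  intro m hm S hS
  have hm0 : (0 : ℝ) < m := by exact_mod_cast hm
  have h1 : PQ (1 / 2) S (fun F => SE m (↑F : Set Edg)) =
      PQ (1 / 2) (boxE m) (fun F => SE m (↑F : Set Edg)) := by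
    apply Pr_local hS
    intro F _
    apply SE_congr
    rw [Finset.coe_inter, Set.inter_assoc, Set.inter_self]
  by_cases h3 : m < 3
  · rw [le_div_iff₀ hm0]
    have h4 : PQ (1 / 2) S (fun F => SE m (↑F : Set Edg)) ≤ 1 := Pr_le_one ok _ _
    have h4' : 0 ≤ PQ (1 / 2) S (fun F => SE m (↑F : Set Edg)) := Pr_nonneg ok _ _
    have h5 : (m : ℝ) ≤ 2 := by
      have : m ≤ 2 := by omega
      exact_mod_cast this
    nlinarith
  · obtain ⟨k, hk⟩ : ∃ k : ℕ, k = m / 3 := ⟨_, rfl⟩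
    have hk1 : 1 ≤ k := by omega
    have hk2 : 3 * k ≤ m := by omega
    have hk3 : m ≤ 5 * k := by omega
    have h6 := key C hN k hk1
    have hb : boxE (3 * k) ⊆ S := by
      refine subset_trans ?_ hS
      unfold boxE
      apply RE_subset <;> push_cast <;> omega
    have h7 : PQ (1 / 2) S (fun F => SE (3 * k) (↑F : Set Edg)) =
        PQ (1 / 2) (boxE (3 * k)) (fun F => SE (3 * k) (↑F : Set Edg)) := by
      apply Pr_local hb
      intro F _
      apply SE_congr
      rw [Finset.coe_inter, Set.inter_assoc, Set.inter_self]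
    have h8 : PQ (1 / 2) S (fun F => SE m (↑F : Set Edg)) ≤
        PQ (1 / 2) S (fun F => SE (3 * k) (↑F : Set Edg)) :=
      Pr_mono ok fun F _ hF => SE_anti hk2 hF
    rw [← h7] at h6
    rw [le_div_iff₀ hm0]
    have h9 : (m : ℝ) ≤ 5 * k := by exact_mod_cast hk3
    have h10 : 0 ≤ PQ (1 / 2) S (fun F => SE (3 * k) (↑F : Set Edg)) := Pr_nonneg ok _ _
    have h11 : 0 ≤ PQ (1 / 2) S (fun F => SE m (↑F : Set Edg)) := Pr_nonneg ok _ _
    nlinarith [mul_le_mul h8 h9 hm0.le h10]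

end Pool.Agent.Y997.OBL.AA
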