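import Pool.Agent.Y997.OBL.StmG

/-!
# Away from its last point on the line, the cluster keeps away from the line (helper657)
-/

set_option autoImplicit false

namespace Pool.Agent.Y997.OBL.CLR

open H974 H12S Finset H984P H984N H342P Pool.Agent.Y989.FR Pool.Agent.Y997.OBL
open Pool.Agent.W92.DP (DTB DLR shc)

lemma ends_in {a b c d : ℤ} {e : Edg} (he : e ∈ RE a b c d) :
    inR a b c d (src e) ∧ inR a b c d (tgt e) := by
  obtain ⟨x, y, β⟩ := e
  cases β
  · simp only [mem_RE_false] at he
    simp only [src_mk, tgt_false, inR]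
    omega
  · simp only [mem_RE_true] at he
    simp only [src_mk, tgt_true, inR]
    omega

lemma in_RE {a b c d : ℤ} {e : Edg} (h1 : inR a b c d (src e)) (h2 : inR a b c d (tgt e)) :
    e ∈ RE a b c d := by
  obtain ⟨x, y, β⟩ := e
  cases β
  · simp only [src_mk, tgt_false, inR] at h1 h2
    simp only [mem_RE_false]
    omega
  · simp only [src_mk, tgt_true, inR] at h1 h2
    simp only [mem_RE_true]
    omega

lemma step {e : Edg} : (tgt e = ((src e).1 + 1, (src e).2)) ∨ (tgt e = ((src e).1, (src e).2 + 1)) := by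
  obtain ⟨x, y, β⟩ := e
  cases β
  · right; rfl
  · left; rfl

/-- first exit from a rectangle -/
lemma exitR {G : Set Edg} {a b c d : ℤ} {u w : Vtx} (h : Reach G u w) (hu : inR a b c d u)
    (hw : ¬ inR a b c d w) :
    ∃ z, inR a b c d z ∧ Reach (G ∩ ↑(RE a b c d)) u z ∧
      (z.1 = a ∨ z.1 = b ∨ z.2 = c ∨ z.2 = d) := by
  have key : (inR a b c d w ∧ Reach (G ∩ ↑(RE a b c d)) u w) ∨
      ∃ z, inR a b c d z ∧ Reach (G ∩ ↑(RE a b c d)) u z ∧
      (z.1 = a ∨ z.1 = b ∨ z.2 = c ∨ z.2 = d) := by
    clear hw
    induction h with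
    | refl => exact Or.inl ⟨hu, Reach.refl _ _⟩
    | @tail x y _ hxy ih =>
      rcases ih with ⟨h1, h2⟩ | h3
      · by_cases hy : inR a b c d y
        · left
          refine ⟨hy, Relation.ReflTransGen.tail h2 ?_⟩
          obtain ⟨e, he, hs⟩ := hxy
          refine ⟨e, ⟨he, ?_⟩, hs⟩
          rcases hs with ⟨e1, e2⟩ | ⟨e1, e2⟩
          · exact in_RE (by rw [e1]; exact h1) (by rw [e2]; exact hy)
          · exact in_RE (by rw [e1]; exact hy) (by rw [e2]; exact h1)
        · right
          refine ⟨x, h1, h2, ?_⟩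
          obtain ⟨e, he, hs⟩ := hxy
          rcases hs with ⟨e1, e2⟩ | ⟨e1, e2⟩
          · rcases step (e := e) with h | h
            · rw [e1, e2] at h
              subst h
              simp only [inR] at h1 hy
              omega
            · rw [e1, e2] at h
              subst h
              simp only [inR] at h1 hy
              omega
          · rcases step (e := e) with h | h
            · rw [e1, e2] at h
              subst h
              simp only [inR] at h1 hy
              omega
            · rw [e1, e2] at h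
              subst h
              simp only [inR] at h1 hy
              omega
      · exact Or.inr h3
  rcases key with h1 | h1
  · exact absurd h1.1 hw
  · exact h1

lemma reach_shc {F : Set Edg} {v u w : Vtx} (h : Reach (shc v F) u w) :
    Reach F (u.1 + v.1, u.2 + v.2) (w.1 + v.1, w.2 + v.2) := by
  induction h with
  | refl => exact Reach.refl _ _
  | tail _ hxy ih =>
    refine Relation.ReflTransGen.tail ih ?_
    obtain ⟨⟨x, y, β⟩, he, hs⟩ := hxy
    refine ⟨(x + v.1, y + v.2, β), he, ?_⟩
    cases β
    · rcases hs with ⟨e1, e2⟩ | ⟨e1, e2⟩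
      · left
        rw [← e1, ← e2]
        refine ⟨rfl, ?_⟩
        simp only [tgt_false]
        ext <;> simp <;> ring
      · right
        rw [← e1, ← e2]
        refine ⟨rfl, ?_⟩
        simp only [tgt_false]
        ext <;> simp <;> ring
    · rcases hs with ⟨e1, e2⟩ | ⟨e1, e2⟩
      · left
        rw [← e1, ← e2]
        refine ⟨rfl, ?_⟩
        simp only [tgt_true]
        ext <;> simp <;> ring
      · right
        rw [← e1, ← e2]
        refine ⟨rfl, ?_⟩
        simp only [tgt_true]
        ext <;> simp <;> ring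

lemma reach_to_shc {F : Set Edg} {v u w : Vtx} (h : Reach F u w) :
    Reach (shc v F) (u.1 - v.1, u.2 - v.2) (w.1 - v.1, w.2 - v.2) := by
  induction h with
  | refl => exact Reach.refl _ _
  | tail _ hxy ih =>
    refine Relation.ReflTransGen.tail ih ?_
    obtain ⟨⟨x, y, β⟩, he, hs⟩ := hxy
    refine ⟨(x - v.1, y - v.2, β), ?_, ?_⟩
    · show ((x - v.1 + v.1, y - v.2 + v.2, β) : Edg) ∈ F
      rw [sub_add_cancel, sub_add_cancel]
      exact he
    cases β
    · rcases hs with ⟨e1, e2⟩ | ⟨e1, e2⟩
      · left
        rw [← e1, ← e2]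
        refine ⟨rfl, ?_⟩
        simp only [tgt_false]
        ext <;> simp <;> ring
      · right
        rw [← e1, ← e2]
        refine ⟨rfl, ?_⟩
        simp only [tgt_false]
        ext <;> simp <;> ring
    · rcases hs with ⟨e1, e2⟩ | ⟨e1, e2⟩
      · left
        rw [← e1, ← e2]
        refine ⟨rfl, ?_⟩
        simp only [tgt_true]
        ext <;> simp <;> ring
      · right
        rw [← e1, ← e2]
        refine ⟨rfl, ?_⟩
        simp only [tgt_true]
        ext <;> simp <;> ring

/-- a vertex joined to another vertex is in the box -/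
lemma in_box {n : ℕ} {F : Set Edg} (hF : F ⊆ ↑(RE 0 n 0 n)) {u w : Vtx} (h : Reach F u w)
    (hne : u ≠ w) : inR 0 n 0 n u := by
  rcases Relation.ReflTransGen.cases_head h with h1 | ⟨z, ⟨e, he, hs⟩, _⟩
  · exact absurd h1 hne
  · have := ends_in (Finset.mem_coe.1 (hF he))
    rcases hs with ⟨e1, _⟩ | ⟨_, e2⟩
    · rw [← e1]; exact this.1
    · rw [← e2]; exact this.2

theorem t_CLR : S_CLR := by
  intro n m L R e0 F v x1 y0 hF he0 heR hRm hmL hLy hyL hx1 hw hRm' hEnd hNr x hx c hc
  by_contra hsd
  rw [not_le] at hsd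
  obtain ⟨w, hvw, hw2⟩ := hw
  obtain ⟨hv1, hv2⟩ := hRm'
  have hc' : Reach (↑F : Set Edg) v c := hc
  have hL1 : (1 : ℤ) ≤ L := by
    have : 1 ≤ L := by omega
    exact_mod_cast this
  have a1 : |x - c.1| < e0 := lt_of_le_of_lt (le_max_left _ _) hsd
  have a2 : |y0 - c.2| < e0 := lt_of_le_of_lt (le_max_right _ _) hsd
  rw [abs_lt] at a1 a2
  have heR' : (e0 : ℤ) ≤ R := by exact_mod_cast heR
  have hRm2 : 4 * (R : ℤ) ≤ m := by exact_mod_cast hRm
  have he0' : (1 : ℤ) ≤ e0 := by exact_mod_cast he0
  have hcbox : inR 0 n 0 n c := by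
    have hF' : (↑F : Set Edg) ⊆ ↑(RE 0 n 0 n) := Finset.coe_subset.2 hF
    by_cases h : c = w
    · refine in_box hF' (hc'.symm.trans hv1) ?_
      intro h3
      rw [h] at h3
      rw [h3] at hw2
      simp only at hw2
      omega
    · exact in_box hF' (hc'.symm.trans hvw) h
  simp only [inR] at hcbox
  by_cases hcn : (n : ℤ) - 4 * R < c.1
  · -- near the end of the line
    apply hEnd
    refine ⟨((n : ℤ), y0), Or.inr rfl, c, w, ?_, ?_, hc'.symm.trans hvw⟩
    · simp only [inR]
      omega
    · simp only [Far]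
      omega
  · rw [not_lt] at hcn
    have hR1 : (1 : ℤ) ≤ R := he0'.trans heR'
    have d1 := Int.emod_add_mul_ediv c.1 R
    have d2 := Int.emod_nonneg c.1 (by omega : (R : ℤ) ≠ 0)
    have d3 := Int.emod_lt_of_pos c.1 (by omega : (0 : ℤ) < R)
    set i : ℤ := c.1 / R with hi
    obtain ⟨x0, hx0⟩ : ∃ x0 : ℤ, x0 = R * i := ⟨_, rfl⟩
    rw [← hx0] at d1
    have hcy : c.2 ≠ y0 := by
      intro h
      apply hv2 c.1 (by omega)
      have : c = (c.1, y0) := Prod.ext rfl h
      rw [← this]
      exact hc'
    -- no vertex of the line in the window is in the cluster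
    have hline : ∀ s : ℤ, |s - x0| ≤ 4 * R → ¬ Reach (shc (0, y0) (↑F : Set Edg))
        (c.1, c.2 - y0) (s, 0) := by
      intro s hs h
      have h1 := reach_shc h
      simp only [add_zero, sub_add_cancel, zero_add] at h1
      rw [abs_le] at hs
      exact hv2 s (by omega) (hc'.trans h1)
    have hpath : Reach (shc (0, y0) (↑F : Set Edg)) (c.1, c.2 - y0) (x1, 0) := by
      have h1 := reach_to_shc (v := ((0 : ℤ), y0)) (hc'.symm.trans hv1)
      simpa using h1
    apply hNr
    refine ⟨i, by rw [← hx0]; omega, by rw [← hx0]; omega, ?_⟩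
    rw [← hx0]
    rcases lt_or_gt_of_ne hcy with hlt | hgt
    · -- below
      right
      obtain ⟨z, hz1, hz2, hz3⟩ := exitR (a := x0 - 4 * R) (b := x0 + 4 * R)
        (c := -(4 * (R : ℤ))) (d := 0) hpath (by simp only [inR]; omega)
        (by simp only [inR]; omega)
      simp only [inR] at hz1
      have hz0 : z.2 ≠ 0 := by
        intro h
        refine hline z.1 (by rw [abs_le]; omega) ?_
        have : z = (z.1, 0) := Prod.ext rfl h
        rw [← this]
        exact hz2.mono Set.inter_subset_left
      refine ⟨(c.1, c.2 - y0), z, ⟨?_, ?_, ?_⟩, ⟨?_, ?_, ?_⟩, ?_, hz2, ?_⟩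
      · simp only; rw [abs_le]; omega
      · simp only; omega
      · simp only; omega
      · rw [abs_le]; omega
      · omega
      · omega
      · rcases hz3 with h | h | h | h
        · left
          rw [h, show x0 - 4 * R - x0 = -(4 * (R : ℤ)) by ring, abs_neg, abs_of_nonneg (by omega)]
        · left
          rw [h, show x0 + 4 * R - x0 = 4 * (R : ℤ) by ring, abs_of_nonneg (by omega)]
        · right; exact h
        · exact absurd h hz0
      · intro s hs h
        exact hline s hs (h.mono Set.inter_subset_left)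
    · -- above
      left
      obtain ⟨z, hz1, hz2, hz3⟩ := exitR (a := x0 - 4 * R) (b := x0 + 4 * R)
        (c := 0) (d := 4 * (R : ℤ)) hpath (by simp only [inR]; omega)
        (by simp only [inR]; omega)
      simp only [inR] at hz1
      have hz0 : z.2 ≠ 0 := by
        intro h
        refine hline z.1 (by rw [abs_le]; omega) ?_
        have : z = (z.1, 0) := Prod.ext rfl h
        rw [← this]
        exact hz2.mono Set.inter_subset_left
      refine ⟨(c.1, c.2 - y0), z, ⟨?_, ?_, ?_⟩, ⟨?_, ?_, ?_⟩, ?_, hz2, ?_⟩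
      · simp only; rw [abs_le]; omega
      · simp only; omega
      · simp only; omega
      · rw [abs_le]; omega
      · omega
      · omega
      · rcases hz3 with h | h | h | h
        · left
          rw [h, show x0 - 4 * R - x0 = -(4 * (R : ℤ)) by ring, abs_neg, abs_of_nonneg (by omega)]
        · left
          rw [h, show x0 + 4 * R - x0 = 4 * (R : ℤ) by ring, abs_of_nonneg (by omega)]
        · exact absurd h hz0
        · right; exact h
      · intro s hs h
        exact hline s hs (h.mono Set.inter_subset_left)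

end Pool.Agent.Y997.OBL.CLR
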