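import Pool.Agent.Y997.OBL.Stm

/-!
# Thick path from a vertex to the half-line (job OBL-DL)
-/

set_option autoImplicit false

namespace Pool.Agent.Y997.OBL.DL

open H974 H12S Finset H984P H984N Pool.Agent.Y989.FR Pool.Agent.Y997.OBL
open Pool.Agent.W92.DP (DTB DLR shc)

/-! ### the sup distance -/

theorem sd_nonneg (u v : Vtx) : 0 ≤ sd u v := (abs_nonneg _).trans (le_max_left _ _)

theorem sd_comm (u v : Vtx) : sd u v = sd v u := by
  unfold sd
  rw [abs_sub_comm u.1, abs_sub_comm u.2]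

theorem sd_tri (u v w : Vtx) : sd u w ≤ sd u v + sd v w := by
  unfold sd
  refine max_le ?_ ?_
  · have h1 := abs_sub_le u.1 v.1 w.1
    have h2 := le_max_left |u.1 - v.1| |u.2 - v.2|
    have h3 := le_max_left |v.1 - w.1| |v.2 - w.2|
    linarith
  · have h1 := abs_sub_le u.2 v.2 w.2
    have h2 := le_max_right |u.1 - v.1| |u.2 - v.2|
    have h3 := le_max_right |v.1 - w.1| |v.2 - w.2|
    linarith

theorem sd_le_iff (u v : Vtx) (r : ℤ) : sd u v ≤ r ↔ |u.1 - v.1| ≤ r ∧ |u.2 - v.2| ≤ r := by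
  unfold sd
  exact max_le_iff

theorem sd_trans (u v w : Vtx) : sd (u.1 + w.1, u.2 + w.2) (v.1 + w.1, v.2 + w.2) = sd u v := by
  unfold sd
  simp only [add_sub_add_right_eq_sub]

/-! ### translations -/

theorem adj_shc {F : Set Edg} (v : Vtx) {x y : Vtx} (h : Adj F x y) :
    Adj (shc v F) (x.1 - v.1, x.2 - v.2) (y.1 - v.1, y.2 - v.2) := by
  obtain ⟨⟨x0, y0, bo⟩, he, hcase⟩ := h
  refine ⟨(x0 - v.1, y0 - v.2, bo), ?_, ?_⟩
  · show ((x0 - v.1) + v.1, (y0 - v.2) + v.2, bo) ∈ F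
    rw [sub_add_cancel, sub_add_cancel]
    exact he
  · cases bo
    · simp only [src_mk, tgt_false] at hcase ⊢
      rcases hcase with ⟨h1, h2⟩ | ⟨h1, h2⟩
      · left
        rw [← h1, ← h2]
        exact ⟨by rw [Prod.mk.injEq]; exact ⟨by omega, by omega⟩,
          by rw [Prod.mk.injEq]; exact ⟨by omega, by omega⟩⟩
      · right
        rw [← h1, ← h2]
        exact ⟨by rw [Prod.mk.injEq]; exact ⟨by omega, by omega⟩,
          by rw [Prod.mk.injEq]; exact ⟨by omega, by omega⟩⟩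
    · simp only [src_mk, tgt_true] at hcase ⊢
      rcases hcase with ⟨h1, h2⟩ | ⟨h1, h2⟩
      · left
        rw [← h1, ← h2]
        exact ⟨by rw [Prod.mk.injEq]; exact ⟨by omega, by omega⟩,
          by rw [Prod.mk.injEq]; exact ⟨by omega, by omega⟩⟩
      · right
        rw [← h1, ← h2]
        exact ⟨by rw [Prod.mk.injEq]; exact ⟨by omega, by omega⟩,
          by rw [Prod.mk.injEq]; exact ⟨by omega, by omega⟩⟩

theorem reach_shc {F : Set Edg} (v : Vtx) {x y : Vtx} (h : Reach F x y) :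
    Reach (shc v F) (x.1 - v.1, x.2 - v.2) (y.1 - v.1, y.2 - v.2) := by
  induction h with
  | refl => exact Reach.refl _ _
  | tail _ hs ih => exact Relation.ReflTransGen.tail ih (adj_shc v hs)

/-- the path moved by `v` -/
theorem reach_move {G G' : Set Edg} (v : Vtx)
    (hG : ∀ x y b, (x, y, b) ∈ G → (x + v.1, y + v.2, b) ∈ G') {x y : Vtx} (h : Reach G x y) :
    Reach G' (x.1 + v.1, x.2 + v.2) (y.1 + v.1, y.2 + v.2) := by
  induction h with
  | refl => exact Reach.refl _ _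
  | tail _ hs ih =>
    refine Relation.ReflTransGen.tail ih ?_
    obtain ⟨⟨x0, y0, bo⟩, he, hcase⟩ := hs
    refine ⟨(x0 + v.1, y0 + v.2, bo), hG _ _ _ he, ?_⟩
    cases bo
    · simp only [src_mk, tgt_false] at hcase ⊢
      rcases hcase with ⟨h1, h2⟩ | ⟨h1, h2⟩
      · left
        rw [← h1, ← h2]
        exact ⟨by rw [Prod.mk.injEq]; exact ⟨by omega, by omega⟩,
          by rw [Prod.mk.injEq]; exact ⟨by omega, by omega⟩⟩
      · right
        rw [← h1, ← h2]
        exact ⟨by rw [Prod.mk.injEq]; exact ⟨by omega, by omega⟩,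
          by rw [Prod.mk.injEq]; exact ⟨by omega, by omega⟩⟩
    · simp only [src_mk, tgt_true] at hcase ⊢
      rcases hcase with ⟨h1, h2⟩ | ⟨h1, h2⟩
      · left
        rw [← h1, ← h2]
        exact ⟨by rw [Prod.mk.injEq]; exact ⟨by omega, by omega⟩,
          by rw [Prod.mk.injEq]; exact ⟨by omega, by omega⟩⟩
      · right
        rw [← h1, ← h2]
        exact ⟨by rw [Prod.mk.injEq]; exact ⟨by omega, by omega⟩,
          by rw [Prod.mk.injEq]; exact ⟨by omega, by omega⟩⟩

/-- the path stays in the cluster -/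
theorem reach_in {F G : Set Edg} (hGF : G ⊆ F) {o c w : Vtx} (hc : Reach F o c)
    (h : Reach G c w) :
    Reach (G ∩ {e | Reach F o (src e) ∧ Reach F o (tgt e)}) c w ∧ Reach F o w := by
  induction h with
  | refl => exact ⟨Reach.refl _ _, hc⟩
  | tail _ hs ih =>
    obtain ⟨e, he, hcase⟩ := hs
    have h1 := (Adj.reach ⟨e, hGF he, hcase⟩ : Reach F _ _)
    have h2 := ih.2.trans h1
    refine ⟨Relation.ReflTransGen.tail ih.1 ⟨e, ⟨he, ?_⟩, hcase⟩, h2⟩
    rcases hcase with ⟨h3, h4⟩ | ⟨h3, h4⟩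
    · exact ⟨by rw [h3]; exact ih.2, by rw [h4]; exact h2⟩
    · exact ⟨by rw [h3]; exact h2, by rw [h4]; exact ih.2⟩

/-- no crossing of a closed leg -/
theorem leg_false {F : Finset Edg} {a b c d : ℤ} (hab : a < b) (hcd : c ≤ d)
    (hD : DTB a b c d F) {G : Set Edg} (hG : G ⊆ ↑F)
    (hH : ∀ x y, ((x, y, true) : Edg) ∈ G → c ≤ y ∧ y ≤ d)
    (hV : ∀ x y, ((x, y, false) : Edg) ∈ G → c ≤ y ∧ y < d) {u w : Vtx}
    (h : Reach G u w) (hu : u.1 ≤ a) (hw : b ≤ w.1) : False := by
  obtain ⟨y1, y2, h1, h2, h3, -⟩ := sub_LR (c := c) (d := d) hab (fun x y he _ _ => hH x y he)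
    (fun x y he _ _ => hV x y he) h hu hw
  obtain ⟨x, x', hx, hx', h4⟩ := hD
  refine no_both hcd (F := (↑F : Set Edg)) h2 hx
    (h3.mono (Set.inter_subset_inter_left _ hG)) (h4.mono ?_)
  intro e he
  rw [Finset.coe_sdiff] at he
  exact ⟨he.2, he.1⟩

/-- vertical line -/
theorem vline {K : Vtx → Prop} (x1 : ℤ) (n : ℕ) (hK : ∀ j : ℤ, 0 ≤ j → j ≤ n → K (x1, j)) :
    Reach {e | K (src e) ∧ K (tgt e)} (x1, (n : ℤ)) (x1, 0) := by
  induction n with
  | zero => exact Reach.refl _ _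
  | succ n ih =>
    refine Reach.trans (Adj.reach ?_) (ih fun j h1 h2 => hK j h1 (by push_cast; omega))
    refine ⟨(x1, (n : ℤ), false), ⟨hK (n : ℤ) (by omega) (by push_cast; omega), ?_⟩,
      Or.inr ⟨rfl, ?_⟩⟩
    · rw [tgt_false]
      exact hK ((n : ℤ) + 1) (by omega) (by push_cast; omega)
    · rw [tgt_false]
      push_cast
      rfl

theorem t_DL : S_DL := by
  intro M B q k h a s p F v hM hB hh hq hk hka hp hv hs hG hL hvC hray hcl
  obtain ⟨⟨hThk, hNoT⟩, -⟩ := hG
  obtain ⟨hL1, hL2⟩ := hL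
  unfold Qc at hv
  rw [Finset.mem_product, Finset.mem_Icc, Finset.mem_Icc] at hv
  obtain ⟨⟨hv1, hv2⟩, hv3, hv4⟩ := hv
  have hhk : 64 * h ≤ k := by
    rw [hk]
    exact Nat.mul_le_mul_right h hq
  have hp' := abs_le.1 hp
  set C : Set Vtx := CV (↑F : Set Edg) (0, 0) with hC
  have hCdef : ∀ c, c ∈ C ↔ Reach (↑F : Set Edg) (0, 0) c := fun c => Iff.rfl
  -- (1)
  have h1 : ∀ c ∈ C, sd c v ≤ k + 8 * h →
      (c.1 - v.1, c.2 - v.2) ∈ BBo k h (shc v (↑F : Set Edg)) := by
    intro c hc hd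
    rw [sd_le_iff] at hd
    have hd1 := abs_le.1 hd.1
    have hd2 := abs_le.1 hd.2
    refine ⟨?_, ?_⟩
    · rw [sd_le_iff]
      simpa using hd
    · have hr := reach_shc v (((hCdef c).1 hc).symm)
      obtain ⟨w, hw1, hw2, hw3⟩ := first_exit (a := -((k + 10 * h : ℕ) : ℤ))
        (b := ((k + 10 * h : ℕ) : ℤ)) (c := -((k + 10 * h : ℕ) : ℤ))
        (d := ((k + 10 * h : ℕ) : ℤ)) (by
          unfold inR
          simp only
          push_cast
          omega) hr (by
          left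
          simp only
          push_cast
          omega)
      refine ⟨w, ?_, hw3⟩
      obtain ⟨⟨e1, e2⟩, e3, e4⟩ := hw1
      refine ⟨?_, ?_, ?_⟩
      · simp only [sub_zero]
        exact abs_le.2 ⟨e1, e2⟩
      · simp only [sub_zero]
        exact abs_le.2 ⟨e3, e4⟩
      · simp only [sub_zero]
        have hR : (0 : ℤ) ≤ ((k + 10 * h : ℕ) : ℤ) := Int.natCast_nonneg _
        rcases hw2 with h2 | h2 | h2 | h2
        · left; rw [h2, abs_neg, abs_of_nonneg hR]
        · left; rw [h2, abs_of_nonneg hR]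
        · right; rw [h2, abs_neg, abs_of_nonneg hR]
        · right; rw [h2, abs_of_nonneg hR]
  -- (3)
  have h3 : ∀ c ∈ C, |c.1 - (3 * (a : ℤ) + p)| ≤ 7 * h → 3 * (k : ℤ) - 7 * h ≤ c.2 →
      c.2 ≤ 3 * (k : ℤ) + 3 * h → False := by
    intro c hc e1 e2 e3
    have e1' := abs_le.1 e1
    refine hNoT _ (h1 c hc ?_) ⟨?_, ?_⟩
    · rw [sd_le_iff, abs_le, abs_le]
      omega
    · simp only
      rw [abs_le]
      omega
    · simp only
      omega
  -- (4)
  have h4 : ∀ c ∈ C, |c.1 - (3 * (a : ℤ) + p)| ≤ 4 * h → 0 ≤ c.2 → c.2 ≤ 3 * (k : ℤ) + 3 * h →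
      False := by
    intro c hc e1 e2 e3
    have e1' := abs_le.1 e1
    have hr0 : ∀ c' ∈ C, 1 ≤ c'.1 → c'.2 ≠ 0 := by
      intro c' hc' g1 g2
      apply hray c'.1 g1
      have : ((c'.1, 0) : Vtx) = c' := by rw [← g2]
      rw [this]
      exact hc'
    rcases lt_or_ge c.2 (3 * (k : ℤ) - 7 * h) with e4 | e4
    swap
    · exact h3 c hc (by rw [abs_le]; omega) e4 e3
    obtain ⟨w, hw1, hw2, hw3⟩ := first_exit (a := 3 * (a : ℤ) + p - 6 * h)
      (b := 3 * (a : ℤ) + p + 6 * h) (c := 0) (d := 3 * (k : ℤ) + 2 * h) (by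
        unfold inR
        omega) (((hCdef c).1 hc).symm) (by
        left
        simp only
        omega)
    obtain ⟨hr1, hwC⟩ := reach_in (F := (↑F : Set Edg))
      (G := (↑F : Set Edg) ∩ ↑(RE (3 * (a : ℤ) + p - 6 * h) (3 * (a : ℤ) + p + 6 * h) 0
        (3 * (k : ℤ) + 2 * h))) Set.inter_subset_left ((hCdef c).1 hc) hw3
    obtain ⟨⟨f1, f2⟩, f3, f4⟩ := hw1
    set G : Set Edg := ((↑F : Set Edg) ∩ ↑(RE (3 * (a : ℤ) + p - 6 * h) (3 * (a : ℤ) + p + 6 * h) 0
        (3 * (k : ℤ) + 2 * h))) ∩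
          {e | Reach (↑F : Set Edg) (0, 0) (src e) ∧ Reach (↑F : Set Edg) (0, 0) (tgt e)} with hGd
    have hGH : ∀ x y, ((x, y, true) : Edg) ∈ G → 1 ≤ y ∧ y ≤ 3 * (k : ℤ) + 2 * h := by
      rintro x y ⟨⟨-, g1⟩, g2, -⟩
      rw [Finset.mem_coe, mem_RE_true] at g1
      have g3 := hr0 _ g2 (by simp only [src_mk]; omega)
      simp only [src_mk] at g3
      omega
    have hGV : ∀ x y, ((x, y, false) : Edg) ∈ G → 1 ≤ y ∧ y < 3 * (k : ℤ) + 2 * h := by
      rintro x y ⟨⟨-, g1⟩, g2, -⟩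
      rw [Finset.mem_coe, mem_RE_false] at g1
      have g3 := hr0 _ g2 (by simp only [src_mk]; omega)
      simp only [src_mk] at g3
      omega
    have hGF : G ⊆ ↑F := fun e he => he.1.1
    rcases hw2 with g | g | g | g
    · refine leg_false (by omega) (by omega) hL1 hGF hGH hGV hr1.symm g.le ?_
      omega
    · refine leg_false (by omega) (by omega) hL2 hGF hGH hGV hr1 ?_ g.ge
      omega
    · exact hr0 w hwC (by omega) g
    · exact h3 w hwC (by rw [abs_le]; omega) (by omega) (by omega)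
  -- (2)
  obtain ⟨x0, hx0, y1, hy1, hy2, hpath⟩ := hThk
  have hy1' := abs_le.1 hy1
  have hy2' := abs_le.1 hy2
  have hk0 : (1 : ℤ) ≤ k := by omega
  have hMpos : (0 : ℤ) ≤ ((M + 8 * q * s + 1 : ℕ) : ℤ) := Int.natCast_nonneg _
  have hqh : (k : ℤ) = q * h := by rw [hk]; push_cast; ring
  have hq0 : (1 : ℤ) ≤ q := by omega
  have hs0 : (1 : ℤ) ≤ s := by omega
  have hKee : ∀ x : Vtx, sd x (0, 0) ≤ k →
      (∀ c ∈ BBo k h (shc v (↑F : Set Edg)), Awy M B k (0, 0) c x) →
      Kee (M + 8 * q * s + 1) B k v C (x.1 + v.1, x.2 + v.2) := by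
    intro x hx hA c hc
    unfold Awy
    have e1 : sd (x.1 + v.1, x.2 + v.2) v = sd x (0, 0) := by
      have := sd_trans x (0, 0) v
      simpa using this
    rw [e1]
    have hP : (0 : ℤ) ≤ ((8 * k : ℕ) : ℤ) ^ (B - 1) := by positivity
    have hP1 : (1 : ℤ) ≤ ((8 * k : ℕ) : ℤ) ^ (B - 1) :=
      one_le_pow₀ (by push_cast; omega)
    rcases le_or_gt (sd c v) (k + 8 * h) with hd | hd
    · have h5 := hA _ (h1 c hc hd)
      unfold Awy at h5
      have e2 : sd x (c.1 - v.1, c.2 - v.2) = sd (x.1 + v.1, x.2 + v.2) c := by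
        have := sd_trans x (c.1 - v.1, c.2 - v.2) v
        simp only [sub_add_cancel] at this
        exact this.symm
      rw [e2] at h5
      refine lt_of_lt_of_le h5 ?_
      refine mul_le_mul_of_nonneg_right ?_ (sd_nonneg _ _)
      refine mul_le_mul_of_nonneg_right ?_ hP
      push_cast
      nlinarith
    · have h5 : (8 * h + 1 : ℤ) ≤ sd (x.1 + v.1, x.2 + v.2) c := by
        have h6 := sd_tri c (x.1 + v.1, x.2 + v.2) v
        rw [e1, sd_comm c (x.1 + v.1, x.2 + v.2)] at h6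
        omega
      have h6 : sd x (0, 0) ^ B ≤ ((8 * k : ℕ) : ℤ) ^ (B - 1) * (q * h) := by
        calc sd x (0, 0) ^ B ≤ (k : ℤ) ^ B := pow_le_pow_left₀ (sd_nonneg _ _) hx B
          _ = (k : ℤ) ^ (B - 1) * k := by
              rw [← pow_succ]
              congr 1
              omega
          _ ≤ ((8 * k : ℕ) : ℤ) ^ (B - 1) * (q * h) := by
              rw [hqh]
              refine mul_le_mul_of_nonneg_right ?_ (by positivity)
              refine pow_le_pow_left₀ (by positivity) ?_ _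
              rw [← hqh]
              push_cast
              omega
      have h7 : (q : ℤ) * h < ((M + 8 * q * s + 1 : ℕ) : ℤ) * sd (x.1 + v.1, x.2 + v.2) c := by
        have h8 : (q : ℤ) + 1 ≤ ((M + 8 * q * s + 1 : ℕ) : ℤ) := by
          push_cast
          nlinarith
        have hh0 : (0 : ℤ) ≤ h := by positivity
        nlinarith
      calc sd x (0, 0) ^ B ≤ ((8 * k : ℕ) : ℤ) ^ (B - 1) * (q * h) := h6
        _ < ((8 * k : ℕ) : ℤ) ^ (B - 1) * (((M + 8 * q * s + 1 : ℕ) : ℤ) *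
            sd (x.1 + v.1, x.2 + v.2) c) := mul_lt_mul_of_pos_left h7 (by omega)
        _ = _ := by ring
  -- (5)
  have hKee2 : ∀ j : ℤ, 0 ≤ j → j ≤ v.2 - k →
      Kee (M + 8 * q * s + 1) B k v C (v.1 + y1, j) := by
    intro j hj1 hj2 c hc
    unfold Awy
    have hP1 : (1 : ℤ) ≤ ((8 * k : ℕ) : ℤ) ^ (B - 1) :=
      one_le_pow₀ (by push_cast; omega)
    have h5 : (h : ℤ) ≤ s * sd (v.1 + y1, j) c := by
      have hsd := sd_nonneg (v.1 + y1, j) c
      have h6 : sd (v.1 + y1, j) c ≤ s * sd (v.1 + y1, j) c := by nlinarith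
      rcases lt_or_ge c.2 0 with g | g
      · have h7 := hcl (v.1 + y1) (by omega) c hc
        refine h7.trans (mul_le_mul_of_nonneg_left ?_ (by positivity))
        unfold sd
        refine max_le_max le_rfl ?_
        simp only
        rw [abs_of_nonneg (by omega), abs_of_nonneg (by omega)]
        omega
      · refine le_trans ?_ h6
        by_contra hcon
        push Not at hcon
        have h8 := (sd_le_iff (v.1 + y1, j) c (h : ℤ)).1 hcon.le
        have h9 := abs_le.1 h8.1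
        have h10 := abs_le.1 h8.2
        simp only at h9 h10
        exact h4 c hc (by rw [abs_le]; omega) g (by omega)
    have h6 : sd (v.1 + y1, j) v ≤ 5 * k := by
      rw [sd_le_iff, abs_le, abs_le]
      simp only
      omega
    have hsd := sd_nonneg (v.1 + y1, j) c
    have hpos : 1 ≤ sd (v.1 + y1, j) c := by
      by_contra hcon
      have h0 : sd (v.1 + y1, j) c = 0 := by omega
      rw [h0, mul_zero] at h5
      omega
    have h7 : sd (v.1 + y1, j) v ^ B ≤ ((8 * k : ℕ) : ℤ) ^ (B - 1) *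
        (5 * (q * (s * sd (v.1 + y1, j) c))) := by
      calc sd (v.1 + y1, j) v ^ B ≤ (5 * (k : ℤ)) ^ B := pow_le_pow_left₀ (sd_nonneg _ _) h6 B
        _ = (5 * (k : ℤ)) ^ (B - 1) * (5 * k) := by
            rw [← pow_succ]
            congr 1
            omega
        _ ≤ ((8 * k : ℕ) : ℤ) ^ (B - 1) * (5 * (q * (s * sd (v.1 + y1, j) c))) := by
            refine mul_le_mul ?_ ?_ (by positivity) (by positivity)
            · refine pow_le_pow_left₀ (by positivity) ?_ _
              push_cast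
              omega
            · rw [hqh]
              nlinarith
    refine lt_of_le_of_lt h7 ?_
    have h8 : 5 * ((q : ℤ) * (s * sd (v.1 + y1, j) c)) <
        ((M + 8 * q * s + 1 : ℕ) : ℤ) * sd (v.1 + y1, j) c := by
      push_cast
      have h9 : 5 * ((q : ℤ) * (s * sd (v.1 + y1, j) c)) = (5 * (q * s)) * sd (v.1 + y1, j) c := by
        ring
      rw [h9]
      refine mul_lt_mul_of_pos_right ?_ (by omega)
      have h10 : (0 : ℤ) ≤ (q : ℤ) * s := by positivity
      have hM0 : (0 : ℤ) ≤ M := by positivity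
      nlinarith
    calc ((8 * k : ℕ) : ℤ) ^ (B - 1) * (5 * (q * (s * sd (v.1 + y1, j) c)))
        < ((8 * k : ℕ) : ℤ) ^ (B - 1) * (((M + 8 * q * s + 1 : ℕ) : ℤ) * sd (v.1 + y1, j) c) :=
          mul_lt_mul_of_pos_left h8 (by omega)
      _ = _ := by ring
  refine ⟨(x0.1 + v.1, x0.2 + v.2), ?_, v.1 + y1, by omega, by omega, ?_⟩
  · obtain ⟨g1, g2, g3⟩ := hx0
    refine ⟨?_, ?_, ?_⟩
    · simpa using g1
    · simpa using g2
    · simpa using g3
  · have hr1 := reach_move (G' := {e | Kee (M + 8 * q * s + 1) B k v C (src e) ∧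
        Kee (M + 8 * q * s + 1) B k v C (tgt e)}) v (fun x y b he => by
        obtain ⟨he1, he2, he3⟩ := he
        have hin : sd (src (x, y, b)) (0, 0) ≤ k ∧ sd (tgt (x, y, b)) (0, 0) ≤ k := by
          have he4 : ((x, y, b) : Edg) ∈ blk (0, 0) k := (Finset.mem_sdiff.1 he1).1
          unfold blk at he4
          cases b
          · rw [mem_RE_false] at he4
            simp only [src_mk, tgt_false, sd_le_iff, abs_le]
            simp only at he4
            omega
          · rw [mem_RE_true] at he4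
            simp only [src_mk, tgt_true, sd_le_iff, abs_le]
            simp only at he4
            omega
        have k1 := hKee _ hin.1 he2
        have k2 := hKee _ hin.2 he3
        cases b
        · refine ⟨k1, ?_⟩
          simp only [tgt_false] at k2 ⊢
          have e : y + v.2 + 1 = y + 1 + v.2 := by ring
          rw [e]
          exact k2
        · refine ⟨k1, ?_⟩
          simp only [tgt_true] at k2 ⊢
          have e : x + v.1 + 1 = x + 1 + v.1 := by ring
          rw [e]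
          exact k2) hpath
    obtain ⟨n, hn⟩ := Int.eq_ofNat_of_zero_le (show 0 ≤ v.2 - k by omega)
    have hr2 := vline (K := Kee (M + 8 * q * s + 1) B k v C) (v.1 + y1) n
      (fun j g1 g2 => hKee2 j g1 (by omega))
    refine Reach.trans ?_ hr2
    have e1 : (((y1, -(k : ℤ)) : Vtx).1 + v.1, ((y1, -(k : ℤ)) : Vtx).2 + v.2) =
        ((v.1 + y1, (n : ℤ)) : Vtx) := by
      simp only [Prod.mk.injEq]
      constructor
      · ring
      · omega
    rw [e1] at hr1
    exact hr1

end Pool.Agent.Y997.OBL.DL
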