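import Pool.Agent.Y997.OBL.Stm
import Pool.Agent.H974R2.RSW2
import Pool.Agent.H974R2.Block

/-!
# The barriers and the legs have positive probability (helper657)

All events are implied by the absence of finitely many crossings of rectangles of bounded aspect
ratio; RSW and Harris.  `hh_one` and `rswK` are copied from helper541's file `H985R3/IL/IL2.lean`,
`DTB_of` from helper52's file `W52/DPOne.lean` (light imports).
-/

set_option autoImplicit false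

namespace Pool.Agent.Y997.OBL.DPR

open H974 H12S Finset H984P H984N Pool.Agent.Y989.FR Pool.Agent.Y997.OBL
open Pool.Agent.W92.DP (DTB DLR shc)

/-! ### crossings of long rectangles -/

theorem hh_one (k : ℕ) : (1/4 : ℝ) ^ (k + 1) ≤ hh (1/2) ((k : ℤ) + 1) 1 := by
  induction k with
  | zero =>
    have := hh_square 1 (by norm_num)
    simp only [Nat.cast_zero, zero_add, pow_one]
    linarith
  | succ k ih =>
    have h0 : (0:ℝ) ≤ 1/2 := by norm_num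
    have h1 : (1/2:ℝ) ≤ 1 := by norm_num
    have g := hh_glue h0 h1 (w1 := (k : ℤ) + 1) (w2 := 2) (v := 1) (h := 1) (by norm_num)
      (by omega) (by norm_num) (by norm_num)
    have e : (k : ℤ) + 1 + 2 - 1 = ((k + 1 : ℕ) : ℤ) + 1 := by push_cast; ring
    rw [e] at g
    have a1 := hh_half 1 (by norm_num)
    have a2 := hh_square 1 (by norm_num)
    have a3 : hh (1/2) 2 1 = 1/2 := by
      have : (1 : ℤ) + 1 = 2 := by norm_num
      rwa [this] at a1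
    rw [a3] at g
    refine le_trans ?_ g
    have p1 : (0:ℝ) < (1/4)^(k + 1) := by positivity
    have p2 : (0:ℝ) ≤ hh (1/2) ((k : ℤ) + 1) 1 := p1.le.trans ih
    rw [pow_succ]
    have p3 : (1/4 : ℝ) ^ (k + 1) * (1/4) ≤ hh (1/2) ((k : ℤ) + 1) 1 * (1/4) :=
      mul_le_mul_of_nonneg_right ih (by norm_num)
    have p4 : hh (1/2) ((k : ℤ) + 1) 1 * (1/4) ≤
        hh (1/2) ((k : ℤ) + 1) 1 * (1/2) * hh (1/2) 1 1 := by nlinarith
    exact p3.trans p4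

theorem hh_lng (K : ℕ) {n : ℤ} (hn : 0 < n) :
    (1/2 : ℝ) ^ (48 * (K + 1)) ≤ hh (1/2) ((8 + 6 * (K : ℤ)) * n) (2 * n) := by
  have h0 : (0:ℝ) ≤ 1/2 := by norm_num
  have h1 : (1/2:ℝ) ≤ 1 := by norm_num
  have b := hh_82 hn
  induction K with
  | zero =>
    have e : (8 + 6 * ((0 : ℕ) : ℤ)) * n = 8 * n := by push_cast; ring
    rw [e]
    refine le_trans ?_ b
    exact pow_le_pow_of_le_one h0 h1 (by norm_num)
  | succ K ih =>
    have hK : (0 : ℤ) ≤ K := Int.natCast_nonneg K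
    have g := hh_glue h0 h1 (w1 := (8 + 6 * (K : ℤ)) * n) (w2 := 8 * n) (v := 2 * n) (h := 2 * n)
      (by omega) (by nlinarith) (by omega) (by omega)
    have e : (8 + 6 * (K : ℤ)) * n + 8 * n - 2 * n = (8 + 6 * ((K + 1 : ℕ) : ℤ)) * n := by
      push_cast; ring
    rw [e] at g
    refine le_trans ?_ g
    have s := hh_square (2 * n) (by omega)
    have e2 : (1/2 : ℝ) ^ (48 * (K + 1 + 1)) = (1/2) ^ (48 * (K + 1)) * (1/2) ^ 47 * (1/2) := by
      rw [show 48 * (K + 1 + 1) = 48 * (K + 1) + 47 + 1 by ring, pow_succ, pow_add]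
    rw [e2]
    exact mul_le_mul (mul_le_mul ih b (by positivity) (le_trans (by positivity) ih)) s
      (by norm_num) (mul_nonneg (le_trans (by positivity) ih) (le_trans (by positivity) b))

theorem rswK (K : ℕ) : ∃ δ : ℝ, 0 < δ ∧ ∀ w n : ℤ, 0 < w → 1 ≤ n → w ≤ K * n →
    δ ≤ hh (1/2) w n := by
  refine ⟨min ((1/4 : ℝ) ^ (K + 1)) ((1/2:ℝ)^(48 * (K + 1))), by positivity, ?_⟩
  intro w n hw hn hwn
  have h0 : (0:ℝ) ≤ 1/2 := by norm_num
  have h1 : (1/2:ℝ) ≤ 1 := by norm_num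
  rcases eq_or_lt_of_le hn with h | h
  · subst h
    refine (min_le_left _ _).trans ((hh_one K).trans (hh_mono h0 h1 hw ?_ le_rfl))
    omega
  · obtain ⟨m, hm⟩ : ∃ m : ℤ, m = n / 2 := ⟨_, rfl⟩
    have hm1 : 1 ≤ m := by omega
    have hm2 : 2 * m ≤ n := by omega
    have hm3 : n ≤ 3 * m := by omega
    refine (min_le_right _ _).trans ((hh_lng K (by omega : 0 < m)).trans
      (hh_mono h0 h1 hw ?_ hm2))
    have hK : (0 : ℤ) ≤ K := Int.natCast_nonneg K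
    calc w ≤ K * n := hwn
      _ ≤ K * (3 * m) := mul_le_mul_of_nonneg_left hm3 hK
      _ ≤ (8 + 6 * (K : ℤ)) * m := by nlinarith

theorem noX (K : ℕ) : ∃ δ : ℝ, 0 < δ ∧ ∀ w h : ℤ, 2 ≤ w → 0 ≤ h → h ≤ K * w →
    δ ≤ 1 - hh (1/2) w h := by
  obtain ⟨δ, hδ, hr⟩ := rswK (2 * K + 1)
  refine ⟨δ, hδ, fun w h hw h0 hK => ?_⟩
  have h1 := hh_dual (q := 1/2) (w := w) (h := h) (by omega) h0
  have e1 : (1:ℝ) - 1/2 = 1/2 := by norm_num
  rw [e1] at h1
  have h2 := hr (h + 1) (w - 1) (by omega) (by omega) (by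
    have hKz : (0:ℤ) ≤ K := Int.natCast_nonneg K
    push_cast
    nlinarith)
  linarith

/-! ### probabilities on arbitrary sets of edges -/

theorem okh : Ok (fun _ : Edg => (1/2 : ℝ)) := okq (by norm_num) (by norm_num)

theorem pr_LR_le (S : Finset Edg) (a b c d : ℤ) :
    Pr (fun _ => (1/2 : ℝ)) S (LRc a b c d) ≤ hh (1/2) (b - a) (d - c) := by
  rw [← pr_LRc (1/2) (Finset.subset_union_right (s₁ := S) (s₂ := LRE a b c d))]
  exact Pr_mono_set okh Finset.subset_union_left (LRc_incr _ _ _ _ _)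

theorem pr_TB_le (S : Finset Edg) (a b c d : ℤ) :
    Pr (fun _ => (1/2 : ℝ)) S (TBc a b c d) ≤ hh (1/2) (d - c) (b - a) := by
  rw [← pr_TBc (1/2) (Finset.subset_union_right (s₁ := S) (s₂ := TBE a b c d))]
  exact Pr_mono_set okh Finset.subset_union_left (TBc_incr _ _ _ _ _)

theorem harris_list (S : Finset Edg) {δ : ℝ} (h0 : 0 ≤ δ) :
    ∀ L : List (Finset Edg → Prop), (∀ E ∈ L, IncrE S E) →
    (∀ E ∈ L, δ ≤ 1 - Pr (fun _ => (1/2 : ℝ)) S E) →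
    δ ^ L.length ≤ Pr (fun _ => (1/2 : ℝ)) S (fun F => ∀ E ∈ L, ¬ E F) := by
  intro L
  induction L with
  | nil =>
    intro _ _
    rw [Pr_true S (A := fun F => ∀ E ∈ ([] : List (Finset Edg → Prop)), ¬ E F)]
    · simp
    · intro F _ E hE
      simp at hE
  | cons E L ih =>
    intro hI hp
    have h1 := ih (fun E' hE' => hI E' (List.mem_cons_of_mem _ hE'))
      (fun E' hE' => hp E' (List.mem_cons_of_mem _ hE'))
    have hB : IncrE S (fun F => ∃ E' ∈ L, E' F) := by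
      rintro F G hFG hG ⟨E', hE', h⟩
      exact ⟨E', hE', hI E' (List.mem_cons_of_mem _ hE') F G hFG hG h⟩
    have h2 := Pr_harris_dd okh (hI E List.mem_cons_self) hB
    have h3 : Pr (fun _ => (1/2 : ℝ)) S (fun F => ∀ E' ∈ L, ¬ E' F) =
        1 - Pr (fun _ => (1/2 : ℝ)) S (fun F => ∃ E' ∈ L, E' F) := by
      rw [← Pr_not]
      apply Pr_congr
      intro F _
      push Not
      rfl
    have h4 : Pr (fun _ => (1/2 : ℝ)) S (fun F => ∀ E' ∈ E :: L, ¬ E' F) =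
        Pr (fun _ => (1/2 : ℝ)) S (fun F => ¬ E F ∧ ¬ ∃ E' ∈ L, E' F) := by
      apply Pr_congr
      intro F _
      rw [List.forall_mem_cons]
      push Not
      rfl
    rw [h4, List.length_cons, pow_succ, mul_comm]
    refine le_trans ?_ h2
    rw [← h3]
    exact mul_le_mul (hp E List.mem_cons_self) h1 (by positivity)
      (h0.trans (hp E List.mem_cons_self))

/-! ### deterministic part -/

theorem DTB_of {a b c d : ℤ} (hab : a ≤ b) (hcd : c ≤ d) {F : Finset Edg}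
    (hF : ¬ LRc a b c d F) : DTB a b c d F := by
  set W : Vtx → Prop := fun v => ∃ y, (c ≤ y ∧ y ≤ d) ∧
    Reach (↑F ∩ ↑(LRE a b c d)) (a, y) v with hW
  have hL : ∀ y, c ≤ y → y ≤ d → W (a, y) :=
    fun y h3 h4 => ⟨y, ⟨h3, h4⟩, Reach.refl _ _⟩
  have hR : ∀ y, c ≤ y → y ≤ d → ¬ W (b, y) := by
    rintro y h3 h4 ⟨y0, h5, h6⟩
    exact hF ⟨y0, y, h5, ⟨h3, h4⟩, h6⟩
  obtain ⟨x, x', hx, hx', hr⟩ := dual_crossing hab hcd W hL hR
  refine ⟨x, x', hx, hx', ?_⟩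
  refine DReach.mono ?_ hr
  rintro e ⟨he1, he2⟩
  rw [Finset.coe_sdiff]
  refine ⟨he2, ?_⟩
  intro heF
  apply he1
  constructor
  · rintro ⟨y, h3, h4⟩
    exact ⟨y, h3, h4.trans (Adj.reach ⟨e, ⟨heF, he2⟩, Or.inl ⟨rfl, rfl⟩⟩)⟩
  · rintro ⟨y, h3, h4⟩
    exact ⟨y, h3, h4.trans (Adj.reach ⟨e, ⟨heF, he2⟩, Or.inr ⟨rfl, rfl⟩⟩)⟩

theorem AE_RE {r R : ℕ} {e : Edg} (h : e ∈ AE (0, 0) r R) : e ∈ RE (-(R : ℤ)) R (-(R : ℤ)) R := by
  have h1 : e ∈ blk (0, 0) R := (Finset.mem_sdiff.1 (Finset.mem_coe.1 h)).1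
  unfold blk at h1
  simpa using h1

theorem noC_of {r R : ℕ} (hrR : r < R) {F : Finset Edg} (h1 : ¬ LRc r R (-(R : ℤ)) R F)
    (h2 : ¬ LRc (-(R : ℤ)) (-(r : ℤ)) (-(R : ℤ)) R F) (h3 : ¬ TBc (-(R : ℤ)) R r R F)
    (h4 : ¬ TBc (-(R : ℤ)) R (-(R : ℤ)) (-(r : ℤ)) F) : NoC r R ↑F := by
  intro u hu w hw hr
  have hrR' : (r : ℤ) < R := by exact_mod_cast hrR
  obtain ⟨u1, u2, -⟩ := hu
  obtain ⟨-, -, w3⟩ := hw
  simp only [sub_zero] at u1 u2 w3
  rw [abs_le] at u1 u2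
  have hH : ∀ x y, ((x, y, true) : Edg) ∈ ((↑F : Set Edg) ∩ AE (0, 0) r R) →
      -(R : ℤ) ≤ x ∧ x < R ∧ -(R : ℤ) ≤ y ∧ y ≤ R := by
    rintro x y ⟨-, h⟩
    have := AE_RE h
    rw [mem_RE_true] at this
    omega
  have hV : ∀ x y, ((x, y, false) : Edg) ∈ ((↑F : Set Edg) ∩ AE (0, 0) r R) →
      -(R : ℤ) ≤ x ∧ x ≤ R ∧ -(R : ℤ) ≤ y ∧ y < R := by
    rintro x y ⟨-, h⟩
    have := AE_RE h
    rw [mem_RE_false] at this
    omega
  have hcase : w.1 = R ∨ w.1 = -(R : ℤ) ∨ w.2 = R ∨ w.2 = -(R : ℤ) := by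
    rcases w3 with h | h
    · rcases abs_eq (Int.natCast_nonneg R) |>.1 h with h' | h'
      · exact Or.inl h'
      · exact Or.inr (Or.inl h')
    · rcases abs_eq (Int.natCast_nonneg R) |>.1 h with h' | h'
      · exact Or.inr (Or.inr (Or.inl h'))
      · exact Or.inr (Or.inr (Or.inr h'))
  rcases hcase with h | h | h | h
  · apply h1
    obtain ⟨y1, y2, m1, m2, m3, -⟩ := sub_LR (a := (r : ℤ)) (b := R) (c := -(R : ℤ)) (d := R)
      hrR' (fun x y he _ _ => by have := hH x y he; omega)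
      (fun x y he _ _ => by have := hV x y he; omega) hr u1.2 h.ge
    exact ⟨y1, y2, m1, m2, m3.mono (by rintro e ⟨⟨h4, -⟩, h5⟩; exact ⟨h4, h5⟩)⟩
  · apply h2
    obtain ⟨y1, y2, m1, m2, m3, -⟩ := sub_LR (a := -(R : ℤ)) (b := -(r : ℤ)) (c := -(R : ℤ))
      (d := R) (by omega) (fun x y he _ _ => by have := hH x y he; omega)
      (fun x y he _ _ => by have := hV x y he; omega) hr.symm h.le u1.1
    exact ⟨y1, y2, m1, m2, m3.mono (by rintro e ⟨⟨h4, -⟩, h5⟩; exact ⟨h4, h5⟩)⟩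
  · apply h3
    obtain ⟨y1, y2, m1, m2, m3, -⟩ := sub_TB (a := -(R : ℤ)) (b := R) (c := (r : ℤ)) (d := R)
      hrR' (fun x y he _ _ => by have := hV x y he; omega)
      (fun x y he _ _ => by have := hH x y he; omega) hr u2.2 h.ge
    exact ⟨y1, y2, m1, m2, m3.mono (by rintro e ⟨⟨h4, -⟩, h5⟩; exact ⟨h4, h5⟩)⟩
  · apply h4
    obtain ⟨y1, y2, m1, m2, m3, -⟩ := sub_TB (a := -(R : ℤ)) (b := R) (c := -(R : ℤ))
      (d := -(r : ℤ)) (by omega) (fun x y he _ _ => by have := hV x y he; omega)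
      (fun x y he _ _ => by have := hH x y he; omega) hr.symm h.le u2.1
    exact ⟨y1, y2, m1, m2, m3.mono (by rintro e ⟨⟨h4, -⟩, h5⟩; exact ⟨h4, h5⟩)⟩

/-- the crossings of the annulus -/
def crs (r R : ℕ) : List (Finset Edg → Prop) :=
  [LRc r R (-(R : ℤ)) R, LRc (-(R : ℤ)) (-(r : ℤ)) (-(R : ℤ)) R, TBc (-(R : ℤ)) R r R,
    TBc (-(R : ℤ)) R (-(R : ℤ)) (-(r : ℤ))]

theorem crs_noC {r R : ℕ} (hrR : r < R) {F : Finset Edg} (h : ∀ E ∈ crs r R, ¬ E F) :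
    NoC r R ↑F :=
  noC_of hrR (h _ (by simp [crs])) (h _ (by simp [crs])) (h _ (by simp [crs]))
    (h _ (by simp [crs]))

/-- good crossing events: increasing and with probability at most `1 - δ` -/
def Gd (δ : ℝ) (S : Finset Edg) (E : Finset Edg → Prop) : Prop :=
  IncrE S E ∧ δ ≤ 1 - Pr (fun _ => (1/2 : ℝ)) S E

theorem gd_LR {δ : ℝ} {K : ℕ} (h : ∀ w h : ℤ, 2 ≤ w → 0 ≤ h → h ≤ K * w → δ ≤ 1 - hh (1/2) w h)
    (S : Finset Edg) {a b c d : ℤ} (h1 : 2 ≤ b - a) (h2 : 0 ≤ d - c) (h3 : d - c ≤ K * (b - a)) :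
    Gd δ S (LRc a b c d) := by
  refine ⟨LRc_incr _ _ _ _ _, ?_⟩
  have := h _ _ h1 h2 h3
  have := pr_LR_le S a b c d
  linarith

theorem gd_TB {δ : ℝ} {K : ℕ} (h : ∀ w h : ℤ, 2 ≤ w → 0 ≤ h → h ≤ K * w → δ ≤ 1 - hh (1/2) w h)
    (S : Finset Edg) {a b c d : ℤ} (h1 : 2 ≤ d - c) (h2 : 0 ≤ b - a) (h3 : b - a ≤ K * (d - c)) :
    Gd δ S (TBc a b c d) := by
  refine ⟨TBc_incr _ _ _ _ _, ?_⟩
  have := h _ _ h1 h2 h3
  have := pr_TB_le S a b c d
  linarith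

theorem gd_crs {δ : ℝ} {K : ℕ} (hK : 4 ≤ K)
    (h : ∀ w h : ℤ, 2 ≤ w → 0 ≤ h → h ≤ K * w → δ ≤ 1 - hh (1/2) w h)
    (S : Finset Edg) {r R : ℕ} (h1 : 2 ≤ r) (h2 : R = 2 * r) : ∀ E ∈ crs r R, Gd δ S E := by
  have h1' : (2 : ℤ) ≤ r := by exact_mod_cast h1
  have h2' : (R : ℤ) = 2 * r := by exact_mod_cast h2
  have hK' : (4 : ℤ) ≤ K := by exact_mod_cast hK
  intro E hE
  simp only [crs, List.mem_cons, List.not_mem_nil, or_false] at hE
  rcases hE with rfl | rfl | rfl | rfl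
  · exact gd_LR h S (by omega) (by omega) (by rw [h2']; nlinarith)
  · exact gd_LR h S (by omega) (by omega) (by rw [h2']; nlinarith)
  · exact gd_TB h S (by omega) (by omega) (by rw [h2']; nlinarith)
  · exact gd_TB h S (by omega) (by omega) (by rw [h2']; nlinarith)

theorem t_DPR : S_DPR := by
  intro q A hq hA
  obtain ⟨δ, hδ, hr⟩ := noX (7 * A + 3 * q + 2)
  refine ⟨δ ^ 11, by positivity, ?_⟩
  intro h p hh1 hp S
  obtain ⟨k, hk⟩ : ∃ k : ℕ, k = q * h := ⟨_, rfl⟩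
  obtain ⟨a, ha⟩ : ∃ a : ℕ, a = A * k := ⟨_, rfl⟩
  rw [← hk, ← ha]
  have hkq : q ≤ k := by rw [hk]; exact Nat.le_mul_of_pos_right q hh1
  have hak : 8 * k ≤ a := by rw [ha]; exact Nat.mul_le_mul_right k hA
  have hk64 : 64 ≤ k := hq.trans hkq
  have hkz : (64 : ℤ) ≤ k := by exact_mod_cast hk64
  have hakz : 8 * (k : ℤ) ≤ a := by exact_mod_cast hak
  have hhz : (1 : ℤ) ≤ h := by exact_mod_cast hh1
  have hqz : (64 : ℤ) ≤ q := by exact_mod_cast hq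
  have hAz : (8 : ℤ) ≤ A := by exact_mod_cast hA
  have hkz' : (k : ℤ) = q * h := by exact_mod_cast hk
  have haz' : (a : ℤ) = A * k := by exact_mod_cast ha
  -- the list of crossings
  obtain ⟨L, hL⟩ : ∃ L : List (Finset Edg → Prop), L = crs a (2 * a) ++ crs (4 * a) (8 * a) ++
    [TBc ((a : ℤ) + 1) (8 * a) 0 k,
      LRc (3 * (a : ℤ) + p - 6 * h) (3 * (a : ℤ) + p - 4 * h) 1 (3 * (k : ℤ) + 2 * h),
      LRc (3 * (a : ℤ) + p + 4 * h) (3 * (a : ℤ) + p + 6 * h) 1 (3 * (k : ℤ) + 2 * h)] := ⟨_, rfl⟩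
  have hlen : L.length = 11 := by rw [hL]; rfl
  have hG : ∀ E ∈ L, Gd δ S E := by
    intro E hE
    rw [hL] at hE
    simp only [List.mem_append, List.mem_cons, List.not_mem_nil, or_false] at hE
    rcases hE with (hE | hE) | rfl | rfl | rfl
    · exact gd_crs (by omega) hr S (by omega) rfl E hE
    · exact gd_crs (by omega) hr S (by omega) (by ring) E hE
    · apply gd_TB hr S (by omega) (by omega)
      push_cast
      rw [haz']
      nlinarith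
    · apply gd_LR hr S (by omega) (by omega)
      push_cast
      rw [hkz']
      nlinarith
    · apply gd_LR hr S (by omega) (by omega)
      push_cast
      rw [hkz']
      nlinarith
  have hm := harris_list S hδ.le L (fun E hE => (hG E hE).1) (fun E hE => (hG E hE).2)
  rw [hlen] at hm
  refine hm.trans ?_
  apply Pr_mono okh
  intro F _ hF
  rw [hL] at hF
  have hF1 : ∀ E ∈ crs a (2 * a), ¬ E F := fun E hE => hF E (by simp [hE])
  have hF2 : ∀ E ∈ crs (4 * a) (8 * a), ¬ E F := fun E hE => hF E (by simp [hE])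
  have hF3 : ¬ TBc ((a : ℤ) + 1) (8 * a) 0 k F := hF _ (by simp)
  have hF4 : ¬ LRc (3 * (a : ℤ) + p - 6 * h) (3 * (a : ℤ) + p - 4 * h) 1
    (3 * (k : ℤ) + 2 * h) F := hF _ (by simp)
  have hF5 : ¬ LRc (3 * (a : ℤ) + p + 4 * h) (3 * (a : ℤ) + p + 6 * h) 1
    (3 * (k : ℤ) + 2 * h) F := hF _ (by simp)
  refine ⟨⟨crs_noC (by omega) hF1, crs_noC (by omega) hF2, ?_⟩,
    DTB_of (by omega) (by omega) hF4, DTB_of (by omega) (by omega) hF5⟩
  intro x x' hx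
  exact hF3 (TBc_of_reach (by omega) hx rfl rfl)

end Pool.Agent.Y997.OBL.DPR
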