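import Pool.Agent.Y997.OBL.Stm

/-!
Project OBL, job FEW: many scales are nice (helper901).
-/

set_option autoImplicit false

namespace Pool.Agent.Y997.OBL.FEW

open H974 H12S Finset H984P H984N Pool.Agent.Y989.FR Pool.Agent.Y997.OBL

theorem okh : Ok (fun _ : Edg => (1 / 2 : ℝ)) := fun _ => by constructor <;> norm_num

theorem RE_sub' {a b c d a' b' c' d' : ℤ} (h1 : a' ≤ a) (h2 : b ≤ b') (h3 : c' ≤ c)
    (h4 : d ≤ d') : RE a b c d ⊆ RE a' b' c' d' := by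
  rintro ⟨x, y, _ | _⟩ he
  · rw [mem_RE_false] at he ⊢
    omega
  · rw [mem_RE_true] at he ⊢
    omega

theorem inter_eq_of_sub {G H F : Finset Edg} (hG : G ⊆ H) :
    ((↑(F ∩ H) : Set Edg) ∩ ↑G) = (↑F : Set Edg) ∩ ↑G := by
  ext e
  rw [Finset.coe_inter]
  constructor
  · rintro ⟨⟨h1, _⟩, h2⟩
    exact ⟨h1, h2⟩
  · rintro ⟨h1, h2⟩
    exact ⟨⟨h1, hG h2⟩, h2⟩

/-! ### The slit event at a smaller scale -/

theorem mem_bd (m : ℕ) (v : Vtx) : v ∈ bdB (0, 0) m ↔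
    (-(m : ℤ) ≤ v.1 ∧ v.1 ≤ m ∧ -(m : ℤ) ≤ v.2 ∧ v.2 ≤ m) ∧
      (v.1 = m ∨ v.1 = -m ∨ v.2 = m ∨ v.2 = -m) := by
  unfold bdB
  simp only [Set.mem_ofPred_eq, sub_zero]
  rw [abs_le, abs_le, abs_eq (Int.natCast_nonneg m), abs_eq (Int.natCast_nonneg m)]
  omega

theorem exit {F : Set Edg} {m m' : ℕ} {u : Vtx} (h : Reach (F ∩ ↑(boxE m)) (0, 0) u) :
    ((-(m' : ℤ) ≤ u.1 ∧ u.1 ≤ m' ∧ -(m' : ℤ) ≤ u.2 ∧ u.2 ≤ m') ∧
      Reach (F ∩ ↑(boxE m')) (0, 0) u) ∨
      ∃ u' ∈ bdB (0, 0) m', Reach (F ∩ ↑(boxE m')) (0, 0) u' := by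
  induction h with
  | refl => exact Or.inl ⟨by simp, Reach.refl _ _⟩
  | @tail v w _ hs ih =>
    rcases ih with ⟨h1, h3⟩ | h4
    · obtain ⟨e, he, hvw⟩ := hs
      by_cases hw : -(m' : ℤ) ≤ w.1 ∧ w.1 ≤ m' ∧ -(m' : ℤ) ≤ w.2 ∧ w.2 ≤ m'
      · left
        refine ⟨hw, Relation.ReflTransGen.tail h3 ⟨e, ⟨he.1, ?_⟩, hvw⟩⟩
        obtain ⟨x, y, _ | _⟩ := e
        · rw [src_mk, tgt_false] at hvw
          rw [Finset.mem_coe, boxE, mem_RE_false]
          rcases hvw with ⟨rfl, rfl⟩ | ⟨rfl, rfl⟩ <;> simp only at h1 hw <;> omega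
        · rw [src_mk, tgt_true] at hvw
          rw [Finset.mem_coe, boxE, mem_RE_true]
          rcases hvw with ⟨rfl, rfl⟩ | ⟨rfl, rfl⟩ <;> simp only at h1 hw <;> omega
      · right
        refine ⟨v, ?_, h3⟩
        rw [mem_bd]
        refine ⟨h1, ?_⟩
        obtain ⟨x, y, _ | _⟩ := e
        · rw [src_mk, tgt_false] at hvw
          rcases hvw with ⟨rfl, rfl⟩ | ⟨rfl, rfl⟩ <;> simp only at h1 hw ⊢ <;> omega
        · rw [src_mk, tgt_true] at hvw
          rcases hvw with ⟨rfl, rfl⟩ | ⟨rfl, rfl⟩ <;> simp only at h1 hw ⊢ <;> omega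
    · exact Or.inr h4

theorem SE_mono {m m' : ℕ} (hm : m' ≤ m) {F : Set Edg} (h : SE m F) : SE m' F := by
  obtain ⟨⟨u, hu, hr⟩, h2⟩ := h
  constructor
  · rcases exit (m' := m') hr with ⟨h3, h5⟩ | h6
    · refine ⟨u, ?_, h5⟩
      rw [mem_bd] at hu ⊢
      refine ⟨h3, ?_⟩
      omega
    · exact h6
  · intro r hr2 hreach
    obtain ⟨g1, g2, g3⟩ := hr2
    refine h2 r ⟨g1, g2, g3.trans (by exact_mod_cast hm)⟩ (hreach.mono ?_)
    refine Set.inter_subset_inter_right _ ?_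
    exact_mod_cast RE_sub' (by omega) (by omega) (by omega) (by omega)

theorem SE_local {m : ℕ} {T F : Finset Edg} (hT : boxE m ⊆ T) :
    SE m (↑F : Set Edg) ↔ SE m (↑(F ∩ T) : Set Edg) := by
  unfold SE
  rw [inter_eq_of_sub hT]

/-! ### The regions -/

/-- The region of the event at the scale `a`. -/
noncomputable def Er (a : ℕ) : Finset Edg := RE ((a : ℤ) / 2) (9 * a) 0 a

theorem NNe_local {a k : ℕ} (ha : 128 ≤ a) {T F : Finset Edg} (hT : Er a ⊆ T) :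
    NNe a k (↑F : Set Edg) ↔ NNe a k (↑(F ∩ T) : Set Edg) := by
  unfold NNe
  refine exists_congr fun i => and_congr_right fun h1 => and_congr_right fun h2 => ?_
  unfold HPW
  rw [inter_eq_of_sub]
  refine Finset.Subset.trans ?_ hT
  unfold Er
  obtain ⟨X, hX⟩ : ∃ X : ℤ, X = ((a / 16 : ℕ) : ℤ) * i := ⟨_, rfl⟩
  rw [← hX] at h1 h2 ⊢
  apply RE_sub' <;> omega

theorem Er_disj {a b : ℕ} (ha : 1 ≤ a) (hab : 64 * a ≤ b) : Disjoint (Er a) (Er b) := by
  rw [Finset.disjoint_left]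
  rintro ⟨x, y, _ | _⟩ h1 h2
  · unfold Er at h1 h2
    rw [mem_RE_false] at h1 h2
    omega
  · unfold Er at h1 h2
    rw [mem_RE_true] at h1 h2
    omega

theorem box_disj {a b m : ℕ} (ha : 2 ≤ a) (hab : a ≤ b) (hm : m = a / 4) :
    Disjoint (boxE m) (Er b) := by
  rw [Finset.disjoint_left]
  rintro ⟨x, y, _ | _⟩ h1 h2
  · unfold Er at h2
    unfold boxE at h1
    rw [mem_RE_false] at h1 h2
    omega
  · unfold Er at h2
    unfold boxE at h1
    rw [mem_RE_true] at h1 h2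
    omega

/-! ### Probabilities -/

theorem Pr_ex {α : Type} [DecidableEq α] (S : Finset Edg) (s : Finset α)
    (A : α → Finset Edg → Prop) :
    PQ (1 / 2) S (fun F => ∃ i ∈ s, A i F) ≤ ∑ i ∈ s, PQ (1 / 2) S (A i) := by
  induction s using Finset.induction_on with
  | empty =>
    rw [Finset.sum_empty]
    have h1 : PQ (1 / 2) S (fun F => ∃ i ∈ (∅ : Finset α), A i F) =
        PQ (1 / 2) S (fun F => ¬ True) := Pr_congr fun F _ => by simp
    rw [h1]
    have h2 : PQ (1 / 2) S (fun _ => ¬ True) = 1 - PQ (1 / 2) S (fun _ => True) := Pr_not _ _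
    have h3 : PQ (1 / 2) S (fun _ => True) = 1 := Pr_true _ (fun _ _ => trivial)
    rw [h2, h3]
    norm_num
  | insert i s hi ih =>
    rw [Finset.sum_insert hi]
    have h1 : PQ (1 / 2) S (fun F => ∃ j ∈ insert i s, A j F) ≤
        PQ (1 / 2) S (fun F => A i F ∨ ∃ j ∈ s, A j F) := by
      refine Pr_mono okh fun F _ hF => ?_
      obtain ⟨j, hj, hj2⟩ := hF
      rcases Finset.mem_insert.1 hj with rfl | hj
      · exact Or.inl hj2
      · exact Or.inr ⟨j, hj, hj2⟩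
    refine h1.trans ((Pr_or_le okh _ _ _).trans ?_)
    linarith

theorem Pr_false (S : Finset Edg) {A : Finset Edg → Prop} (h : ∀ F, F ⊆ S → ¬ A F) :
    PQ (1 / 2) S A = 0 := by
  have h1 : PQ (1 / 2) S A = PQ (1 / 2) S (fun F => ¬ True) :=
    Pr_congr fun F hF => by simp [h F hF]
  rw [h1]
  have h2 : PQ (1 / 2) S (fun _ => ¬ True) = 1 - PQ (1 / 2) S (fun _ => True) := Pr_not _ _
  have h3 : PQ (1 / 2) S (fun _ => True) = 1 := Pr_true _ (fun _ _ => trivial)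
  rw [h2, h3]
  norm_num

theorem P_NNe {C : ℝ} (hC : 0 < C)
    (h2 : ∀ (x0 : ℤ) (r R : ℕ), 1 ≤ r → r ≤ R →
      ∀ S : Finset Edg, RE (x0 - 4 * R) (x0 + 4 * R) 0 (4 * R) ⊆ S →
        PQ (1 / 2) S (fun F => HPW x0 r R ↑F) ≤ C * ((r : ℝ) / R))
    {A k' : ℕ} (hA : 128 ≤ A) (hk : 1 ≤ k') {S : Finset Edg} (hS : Er (A * k') ⊆ S) :
    PQ (1 / 2) S (fun F => NNe (A * k') k' (↑F : Set Edg)) ≤ 22192 * C / A := by
  obtain ⟨a, ha⟩ : ∃ a, a = A * k' := ⟨_, rfl⟩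
  rw [← ha] at hS ⊢
  have hak : 128 * k' ≤ a := by rw [ha]; exact Nat.mul_le_mul_right _ hA
  obtain ⟨R, hR⟩ : ∃ R, R = a / 16 := ⟨_, rfl⟩
  have hb : PQ (1 / 2) S (fun F => NNe a k' (↑F : Set Edg)) ≤
      PQ (1 / 2) S (fun F => ∃ i ∈ Finset.range 146, ((a : ℤ) ≤ (R : ℤ) * (i : ℕ) + R ∧
        (R : ℤ) * (i : ℕ) ≤ 8 * (a : ℤ)) ∧ HPW ((R : ℤ) * (i : ℕ)) (8 * k') R (↑F : Set Edg)) := by
    refine Pr_mono okh fun F _ hF => ?_
    obtain ⟨i, hi1, hi2, hi3⟩ := hF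
    rw [← hR] at hi1 hi2 hi3
    have hi0 : 0 ≤ i := by
      by_contra hc
      push Not at hc
      have : (R : ℤ) * i ≤ 0 := mul_nonpos_of_nonneg_of_nonpos (Int.natCast_nonneg _) hc.le
      omega
    obtain ⟨i, rfl⟩ := Int.eq_ofNat_of_zero_le hi0
    refine ⟨i, ?_, ⟨hi1, hi2⟩, hi3⟩
    rw [Finset.mem_range]
    by_contra hc
    push Not at hc
    have h5 : (R : ℤ) * 146 ≤ (R : ℤ) * (i : ℕ) :=
      mul_le_mul_of_nonneg_left (by exact_mod_cast hc) (Int.natCast_nonneg _)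
    omega
  refine hb.trans ((Pr_ex S _ _).trans ?_)
  have hA0 : (0 : ℝ) < A := by
    have : 0 < A := by omega
    exact_mod_cast this
  have hk0 : (0 : ℝ) < k' := by exact_mod_cast hk
  have hR19 : a ≤ 19 * R := by omega
  have hterm : ∀ i ∈ Finset.range 146, PQ (1 / 2) S (fun F => ((a : ℤ) ≤ (R : ℤ) * (i : ℕ) + R ∧
        (R : ℤ) * (i : ℕ) ≤ 8 * (a : ℤ)) ∧ HPW ((R : ℤ) * (i : ℕ)) (8 * k') R (↑F : Set Edg)) ≤
        152 * C / A := by
    intro i _
    by_cases hcond : ((a : ℤ) ≤ (R : ℤ) * (i : ℕ) + R ∧ (R : ℤ) * (i : ℕ) ≤ 8 * (a : ℤ))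
    · have h3 := h2 ((R : ℤ) * (i : ℕ)) (8 * k') R (by omega) (by omega) S (by
        refine Finset.Subset.trans ?_ hS
        unfold Er
        obtain ⟨X, hX⟩ : ∃ X : ℤ, X = (R : ℤ) * (i : ℕ) := ⟨_, rfl⟩
        rw [← hX] at hcond ⊢
        apply RE_sub' <;> omega)
      have h4 : PQ (1 / 2) S (fun F => ((a : ℤ) ≤ (R : ℤ) * (i : ℕ) + R ∧
        (R : ℤ) * (i : ℕ) ≤ 8 * (a : ℤ)) ∧ HPW ((R : ℤ) * (i : ℕ)) (8 * k') R (↑F : Set Edg)) ≤
        PQ (1 / 2) S (fun F => HPW ((R : ℤ) * (i : ℕ)) (8 * k') R (↑F : Set Edg)) :=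
        Pr_mono okh fun F _ hF => hF.2
      refine h4.trans (h3.trans ?_)
      have hR0 : (0 : ℝ) < R := by
        have : 0 < R := by omega
        exact_mod_cast this
      have h5 : (A : ℝ) * k' ≤ 19 * R := by
        have : A * k' ≤ 19 * R := by rw [← ha]; exact hR19
        exact_mod_cast this
      rw [mul_div_assoc', div_le_div_iff₀ hR0 hA0]
      push_cast
      nlinarith
    · rw [Pr_false S (fun F _ hF => hcond hF.1)]
      positivity
  refine (Finset.sum_le_sum hterm).trans ?_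
  rw [Finset.sum_const, Finset.card_range, nsmul_eq_mul]
  apply le_of_eq
  push_cast
  ring

/-- Independence of the scales. -/
theorem prod_bound {C : ℝ} (hC : 0 < C)
    (h2 : ∀ (x0 : ℤ) (r R : ℕ), 1 ≤ r → r ≤ R →
      ∀ S : Finset Edg, RE (x0 - 4 * R) (x0 + 4 * R) 0 (4 * R) ⊆ S →
        PQ (1 / 2) S (fun F => HPW x0 r R ↑F) ≤ C * ((r : ℝ) / R))
    {A k : ℕ} (hA : 128 ≤ A) (hk : 1 ≤ k) {S : Finset Edg} (hS0 : boxE ((A * k) / 4) ⊆ S)
    (T : Finset ℕ) (hT : ∀ j ∈ T, Er (64 ^ j * (A * k)) ⊆ S) :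
    PQ (1 / 2) S (fun F => SE ((A * k) / 4) (↑F : Set Edg) ∧
      ∀ j ∈ T, NNe (64 ^ j * (A * k)) (64 ^ j * k) (↑F : Set Edg)) ≤
      PQ (1 / 2) S (fun F => SE ((A * k) / 4) (↑F : Set Edg)) * (22192 * C / A) ^ T.card := by
  have hAk : 128 ≤ A * k := hA.trans (Nat.le_mul_of_pos_right A hk)
  have hj : ∀ j : ℕ, A * k ≤ 64 ^ j * (A * k) := fun j => Nat.le_mul_of_pos_left _ (by positivity)
  have hlt : ∀ i j : ℕ, i < j → 64 * (64 ^ i * (A * k)) ≤ 64 ^ j * (A * k) := by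
    intro i j hij
    calc 64 * (64 ^ i * (A * k)) = 64 ^ (i + 1) * (A * k) := by ring
      _ ≤ 64 ^ j * (A * k) := Nat.mul_le_mul_right _ (pow_le_pow_right₀ (by norm_num) hij)
  induction T using Finset.induction_on with
  | empty =>
    rw [Finset.card_empty, pow_zero, mul_one]
    exact Pr_mono okh fun F _ hF => hF.1
  | insert j T hjT ih =>
    have ih' := ih (fun i hi => hT i (Finset.mem_insert_of_mem hi))
    have e1 : PQ (1 / 2) S (fun F => SE ((A * k) / 4) (↑F : Set Edg) ∧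
        ∀ i ∈ insert j T, NNe (64 ^ i * (A * k)) (64 ^ i * k) (↑F : Set Edg)) =
        PQ (1 / 2) S (fun F => (SE ((A * k) / 4) (↑F : Set Edg) ∧
          ∀ i ∈ T, NNe (64 ^ i * (A * k)) (64 ^ i * k) (↑F : Set Edg)) ∧
          NNe (64 ^ j * (A * k)) (64 ^ j * k) (↑F : Set Edg)) := by
      refine Pr_congr fun F _ => ?_
      constructor
      · rintro ⟨g1, g2⟩
        exact ⟨⟨g1, fun i hi => g2 i (Finset.mem_insert_of_mem hi)⟩,
          g2 j (Finset.mem_insert_self _ _)⟩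
      · rintro ⟨⟨g1, g2⟩, g3⟩
        refine ⟨g1, fun i hi => ?_⟩
        rcases Finset.mem_insert.1 hi with rfl | hi
        · exact g3
        · exact g2 i hi
    rw [e1]
    obtain ⟨U, hU⟩ : ∃ U : Finset Edg, U = boxE ((A * k) / 4) ∪
        T.biUnion (fun i => Er (64 ^ i * (A * k))) := ⟨_, rfl⟩
    have hUS : U ⊆ S := by
      rw [hU]
      refine Finset.union_subset hS0 (Finset.biUnion_subset.2 fun i hi => ?_)
      exact hT i (Finset.mem_insert_of_mem hi)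
    have hdis : Disjoint U (Er (64 ^ j * (A * k))) := by
      rw [hU, Finset.disjoint_union_left, Finset.disjoint_biUnion_left]
      refine ⟨box_disj (by omega) (hj j) rfl, fun i hi => ?_⟩
      rcases Nat.lt_trichotomy i j with h | h | h
      · exact Er_disj (by have := hj i; omega) (hlt i j h)
      · exact absurd (h ▸ hi) hjT
      · exact (Er_disj (by have := hj j; omega) (hlt j i h)).symm
    have e2 : PQ (1 / 2) S (fun F => (SE ((A * k) / 4) (↑F : Set Edg) ∧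
          ∀ i ∈ T, NNe (64 ^ i * (A * k)) (64 ^ i * k) (↑F : Set Edg)) ∧
          NNe (64 ^ j * (A * k)) (64 ^ j * k) (↑F : Set Edg)) =
        PQ (1 / 2) S (fun F => SE ((A * k) / 4) (↑F : Set Edg) ∧
          ∀ i ∈ T, NNe (64 ^ i * (A * k)) (64 ^ i * k) (↑F : Set Edg)) *
        PQ (1 / 2) S (fun F => NNe (64 ^ j * (A * k)) (64 ^ j * k) (↑F : Set Edg)) := by
      refine Pr_indep hUS (hT j (Finset.mem_insert_self _ _)) hdis (fun F _ => ?_) (fun F _ => ?_)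
      · refine and_congr (SE_local (by rw [hU]; exact Finset.subset_union_left)) ?_
        refine forall_congr' fun i => forall_congr' fun hi => ?_
        refine NNe_local (hAk.trans (hj i)) ?_
        rw [hU]
        exact (Finset.subset_biUnion_of_mem (fun i => Er (64 ^ i * (A * k))) hi).trans
          Finset.subset_union_right
      · exact NNe_local (hAk.trans (hj j)) (Finset.Subset.refl _)
    have h5 : PQ (1 / 2) S (fun F => NNe (64 ^ j * (A * k)) (64 ^ j * k) (↑F : Set Edg)) ≤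
        22192 * C / A := by
      have e3 : 64 ^ j * (A * k) = A * (64 ^ j * k) := by ring
      have h5 := P_NNe hC h2 hA (k' := 64 ^ j * k) (Nat.mul_pos (by positivity) hk) (S := S) (by
        rw [← e3]
        exact hT j (Finset.mem_insert_self _ _))
      rw [← e3] at h5
      exact h5
    have hA0 : (0 : ℝ) < A := by
      have : 0 < A := by omega
      exact_mod_cast this
    have h7 : 0 ≤ PQ (1 / 2) S (fun F => SE ((A * k) / 4) (↑F : Set Edg)) *
        (22192 * C / A) ^ T.card := mul_nonneg (Pr_nonneg okh _ _) (by positivity)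
    have h6 := mul_le_mul ih' h5 (Pr_nonneg okh _ _) h7
    rw [e2, Finset.card_insert_of_notMem hjT, pow_succ]
    exact h6.trans (le_of_eq (mul_assoc _ _ _))

theorem t_FEW (h1 : S_AA) (h2 : S_HP) (h3 : S_NZ) : S_FEW := by
  classical
  obtain ⟨C1, hC1, h1⟩ := h1
  obtain ⟨C2, hC2, h2⟩ := h2
  refine ⟨8 * C1, max 128 ⌈22192 * 65536 * C2⌉₊, by positivity, ?_⟩
  intro A k J hA hk S hS
  have hA128 : 128 ≤ A := (le_max_left _ _).trans hA
  have hA0 : (0 : ℝ) < A := by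
    have : 0 < A := by omega
    exact_mod_cast this
  have hAC : 22192 * 65536 * C2 ≤ A := by
    have h4 : (⌈22192 * 65536 * C2⌉₊ : ℝ) ≤ A := by exact_mod_cast (le_max_right _ _).trans hA
    exact (Nat.le_ceil _).trans h4
  have hκ0 : 0 ≤ 22192 * C2 / A := by positivity
  have hκ : 22192 * C2 / A ≤ (1 / 256 : ℝ) ^ 2 := by
    rw [div_le_iff₀ hA0]
    nlinarith
  have hAk : 128 ≤ A * k := hA128.trans (Nat.le_mul_of_pos_right A hk)
  obtain ⟨m, hm⟩ : ∃ m, m = 64 ^ J * (A * k) := ⟨_, rfl⟩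
  have hlt : ∀ j < J, 64 * (64 ^ j * (A * k)) ≤ m := by
    intro j hij
    rw [hm]
    calc 64 * (64 ^ j * (A * k)) = 64 ^ (j + 1) * (A * k) := by ring
      _ ≤ 64 ^ J * (A * k) := Nat.mul_le_mul_right _ (pow_le_pow_right₀ (by norm_num) hij)
  have hmk : A * k ≤ m := by
    rw [hm]; exact Nat.le_mul_of_pos_left _ (by positivity)
  rw [← hm] at hS ⊢
  have hS0 : boxE ((A * k) / 4) ⊆ S := by
    refine Finset.Subset.trans ?_ hS
    exact RE_sub' (by omega) (by omega) (by omega) (by omega)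
  have hSE : ∀ j < J, Er (64 ^ j * (A * k)) ⊆ S := by
    intro j hj
    refine Finset.Subset.trans ?_ hS
    have := hlt j hj
    unfold Er boxE
    obtain ⟨y, hy⟩ : ∃ y, y = 64 ^ j * (A * k) := ⟨_, rfl⟩
    rw [← hy] at this ⊢
    apply RE_sub' <;> omega
  obtain ⟨Ts, hTs⟩ : ∃ Ts : Finset (Finset ℕ), Ts =
      (Finset.range J).powerset.filter (fun T => J ≤ 2 * T.card) := ⟨_, rfl⟩
  have hstep : PQ (1 / 2) S (fun F => SE m (↑F : Set Edg) ∧
      J ≤ 2 * ((Finset.range J).filter (fun j => ¬ NiceZ (64 ^ j * (A * k)) (8 * (64 ^ j * k))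
        (XX m (↑F : Set Edg)))).card) ≤
      PQ (1 / 2) S (fun F => ∃ T ∈ Ts, SE ((A * k) / 4) (↑F : Set Edg) ∧
        ∀ j ∈ T, NNe (64 ^ j * (A * k)) (64 ^ j * k) (↑F : Set Edg)) := by
    refine Pr_mono okh fun F _ hF => ?_
    obtain ⟨g1, g2⟩ := hF
    refine ⟨(Finset.range J).filter (fun j => ¬ NiceZ (64 ^ j * (A * k)) (8 * (64 ^ j * k))
        (XX m (↑F : Set Edg))), ?_, SE_mono (by omega) g1, ?_⟩
    · rw [hTs, Finset.mem_filter, Finset.mem_powerset]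
      exact ⟨Finset.filter_subset _ _, g2⟩
    · intro j hj
      rw [Finset.mem_filter, Finset.mem_range] at hj
      refine h3 m (64 ^ j * (A * k)) (64 ^ j * k) (↑F : Set Edg) ?_ ?_ ?_ g1 hj.2
      · exact Nat.mul_pos (by positivity) hk
      · calc 128 * (64 ^ j * k) ≤ A * (64 ^ j * k) := Nat.mul_le_mul_right _ hA128
          _ = 64 ^ j * (A * k) := by ring
      · have := hlt j hj.1
        omega
  refine hstep.trans ((Pr_ex S Ts _).trans ?_)
  have hm0 : (0 : ℝ) < (A * k : ℕ) := by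
    have : 0 < A * k := by omega
    exact_mod_cast this
  have hp : PQ (1 / 2) S (fun F => SE ((A * k) / 4) (↑F : Set Edg)) ≤ 8 * C1 / (A * k : ℕ) := by
    refine (h1 ((A * k) / 4) (by omega) S hS0).trans ?_
    have h5 : A * k ≤ 8 * ((A * k) / 4) := by omega
    have h6 : ((A * k : ℕ) : ℝ) ≤ 8 * ((A * k / 4 : ℕ) : ℝ) := by exact_mod_cast h5
    have h7 : (0 : ℝ) < ((A * k / 4 : ℕ) : ℝ) := by
      have : 0 < A * k / 4 := by omega
      exact_mod_cast this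
    rw [div_le_div_iff₀ h7 hm0]
    nlinarith
  have hterm : ∀ T ∈ Ts, PQ (1 / 2) S (fun F => SE ((A * k) / 4) (↑F : Set Edg) ∧
        ∀ j ∈ T, NNe (64 ^ j * (A * k)) (64 ^ j * k) (↑F : Set Edg)) ≤
        8 * C1 / (A * k : ℕ) * (1 / 256 : ℝ) ^ J := by
    intro T hT
    rw [hTs, Finset.mem_filter, Finset.mem_powerset] at hT
    have h5 := prod_bound hC2 h2 hA128 hk hS0 T
      (fun j hj => hSE j (Finset.mem_range.1 (hT.1 hj)))
    refine h5.trans (mul_le_mul hp ?_ (pow_nonneg hκ0 _) (by positivity))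
    calc (22192 * C2 / A) ^ T.card ≤ ((1 / 256 : ℝ) ^ 2) ^ T.card :=
          pow_le_pow_left₀ hκ0 hκ _
      _ = (1 / 256 : ℝ) ^ (2 * T.card) := by rw [← pow_mul]
      _ ≤ (1 / 256 : ℝ) ^ J := pow_le_pow_of_le_one (by norm_num) (by norm_num) hT.2
  refine (Finset.sum_le_sum hterm).trans ?_
  rw [Finset.sum_const, nsmul_eq_mul]
  have hcard : (Ts.card : ℝ) ≤ 2 ^ J := by
    have h5 : Ts.card ≤ 2 ^ J := by
      rw [hTs]
      refine (Finset.card_filter_le _ _).trans ?_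
      rw [Finset.card_powerset, Finset.card_range]
    exact_mod_cast h5
  have hq : 0 ≤ 8 * C1 / (A * k : ℕ) * (1 / 256 : ℝ) ^ J := by positivity
  refine (mul_le_mul_of_nonneg_right hcard hq).trans (le_of_eq ?_)
  rw [hm]
  push_cast
  have hAk0 : (A : ℝ) * k ≠ 0 := by
    have h9 := hm0.ne'
    push_cast at h9
    exact h9
  have e9 : (1 / 256 : ℝ) ^ J * 2 ^ J * 64 ^ J = (1 / 2) ^ J := by
    rw [← mul_pow, ← mul_pow]; norm_num
  rw [← e9]
  field_simp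

end Pool.Agent.Y997.OBL.FEW
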