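import Pool.Agent.Y997.OBL.Stm
import Pool.Agent.Y989.FR.T_ONE3
import Pool.Agent.H985R3.IL.IL2

/-!
# OBL-GA: the event at a vertex of the core, and the arc
-/

set_option autoImplicit false

namespace Pool.Agent.Y997.OBL.GA

open Pool.Agent.Y997.OBL
open H974 H973 H12S Finset H984P H984N Pool.Agent.Y989.FR
open Pool.Agent.W92.DP (DTB DLR shc)
open Pool.Agent.W52.DPInd (RE_sub)

/-! ### Translation -/

theorem shc_mp (v : Vtx) (G : Finset Edg) : shc v (↑((trl v.1 v.2).mp G) : Set Edg) = ↑G := by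
  ext e
  show ((trl v.1 v.2).φ e ∈ (↑((trl v.1 v.2).mp G) : Set Edg)) ↔ e ∈ (↑G : Set Edg)
  rw [Finset.mem_coe, Finset.mem_coe, LSym.mem_mp, Equiv.symm_apply_apply]

theorem shc_mem {v : Vtx} {F : Set Edg} {e : Edg} :
    e ∈ shc v F ↔ (e.1 + v.1, e.2.1 + v.2, e.2.2) ∈ F := Iff.rfl

theorem blk_sh' {v : Vtx} {r : ℕ} {e : Edg} :
    (e.1 + v.1, e.2.1 + v.2, e.2.2) ∈ H12S.blk v r ↔ e ∈ boxE r := by
  unfold H12S.blk boxE
  obtain ⟨x, y, _ | _⟩ := e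
  · simp only [mem_RE_false]
    omega
  · simp only [mem_RE_true]
    omega

theorem pr_shift {r : ℕ} {v : Vtx} {S : Finset Edg} (hS : H12S.blk v r ⊆ S) (E : Set Edg → Prop)
    (hE : ∀ F : Finset Edg, E ↑F ↔ E ↑(F ∩ boxE r)) :
    PQ (1 / 2) (boxE r) (fun F => E ↑F) = PQ (1 / 2) S (fun F => E (shc v ↑F)) := by
  obtain ⟨S', hSS⟩ : ∃ S' : Finset Edg, (trl v.1 v.2).mp S' = S := by
    refine ⟨(trl v.1 v.2).inv.mp S, ?_⟩
    ext e
    rw [LSym.mem_mp, LSym.mem_mp]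
    show (trl v.1 v.2).φ ((trl v.1 v.2).φ.symm e) ∈ S ↔ _
    rw [Equiv.apply_symm_apply]
  have hmem : ∀ e, e ∈ S' ↔ (trl v.1 v.2).φ e ∈ S := by
    intro e
    rw [← hSS, LSym.mem_mp, Equiv.symm_apply_apply]
  have hsub : boxE r ⊆ S' := by
    intro e he
    rw [hmem]
    exact hS (blk_sh'.2 he)
  have h1 : PQ (1 / 2) S' (fun F => E ↑F) = PQ (1 / 2) (boxE r) (fun F => E ↑F) :=
    Pr_local hsub (fun F _ => hE F)
  rw [← h1, ← hSS]
  unfold PQ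
  rw [LSym.pr]
  apply Pr_congr
  intro F _
  rw [shc_mp]

/-! ### Locality and monotonicity -/

theorem Zo_congr {M B k h : ℕ} {p : ℤ} {F G : Set Edg}
    (hFG : F ∩ ↑(boxE (k + 10 * h)) = G ∩ ↑(boxE (k + 10 * h))) (hF : Zo M B k h p F) :
    Zo M B k h p G := by
  have h1 : BBo k h F = BBo k h G := by
    unfold BBo
    rw [hFG]
  unfold Zo at hF ⊢
  rw [← h1]
  exact hF

theorem Top_mono {k h : ℕ} {p : ℤ} {F G : Set Edg} (hFG : F ⊆ G) (hF : Top k h p F) :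
    Top k h p G := by
  obtain ⟨s, t, h1, h2, h3, h4⟩ := hF
  exact ⟨s, t, h1, h2, h3.mono (Set.inter_subset_inter_left _ hFG),
    h4.mono (Set.sdiff_subset_sdiff_left (Set.inter_subset_inter_left _ hFG))⟩

theorem inter_box {r s : ℕ} (h : r ≤ s) (F : Finset Edg) :
    (↑(F ∩ boxE s) : Set Edg) ∩ ↑(boxE r) = ↑F ∩ ↑(boxE r) := by
  apply coe_inter_eq
  unfold boxE
  exact RE_subset (by omega) (by omega) (by omega) (by omega)

theorem ZT_local {M B k h : ℕ} {p : ℤ} (F : Finset Edg) :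
    (Zo M B k h p ↑F ∧ Top k h p ↑F) ↔ (Zo M B k h p ↑(F ∩ boxE (k + 14 * h)) ∧
      Top k h p ↑(F ∩ boxE (k + 14 * h))) := by
  have h1 : (↑(F ∩ boxE (k + 14 * h)) : Set Edg) ∩ ↑(boxE (k + 10 * h)) =
      ↑F ∩ ↑(boxE (k + 10 * h)) := inter_box (by omega) F
  have h2 : (↑(F ∩ boxE (k + 14 * h)) : Set Edg) ∩ ↑(boxE (k + 14 * h)) =
      ↑F ∩ ↑(boxE (k + 14 * h)) := inter_box le_rfl F
  have h3 : (↑(F ∩ boxE (k + 14 * h)) : Set Edg) ∩
      ↑(RE (-(k : ℤ)) k ((k : ℤ) + 12 * h) ((k : ℤ) + 14 * h)) =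
      ↑F ∩ ↑(RE (-(k : ℤ)) k ((k : ℤ) + 12 * h) ((k : ℤ) + 14 * h)) := by
    apply coe_inter_eq
    unfold boxE
    exact RE_subset (by push_cast; omega) (by push_cast; omega) (by push_cast; omega)
      (by push_cast; omega)
  unfold Zo BBo Top
  rw [h1, h2, h3]

/-- The region of the arc. -/
noncomputable def R0 (a k h : ℕ) (v : Vtx) : Finset Edg := boxE (4 * a) \ H12S.blk v (k + 10 * h)

theorem Gv_mono {M B k h a : ℕ} {p : ℤ} {v : Vtx} {F G : Finset Edg} (hFG : F ⊆ G)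
    (hGF : G ⊆ F ∪ R0 a k h v) (hF : Gv M B k h p v ↑F) : Gv M B k h p v ↑G := by
  have hs : shc v (↑F : Set Edg) ⊆ shc v ↑G := by
    intro e he
    exact hFG he
  refine ⟨Zo_congr ?_ hF.1, Top_mono hs hF.2⟩
  apply Set.Subset.antisymm
  · exact Set.inter_subset_inter_left _ hs
  · rintro e ⟨h1, h2⟩
    refine ⟨?_, h2⟩
    rw [shc_mem, Finset.mem_coe] at h1 ⊢
    rcases Finset.mem_union.1 (hGF h1) with h3 | h3
    · exact h3
    · exfalso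
      unfold R0 at h3
      rw [Finset.mem_sdiff, blk_sh'] at h3
      exact h3.2 (Finset.mem_coe.1 h2)

theorem mem_Qc {a k h : ℕ} {v : Vtx} (hv : v ∈ Qc a k h) :
    (3 * (a : ℤ) - h ≤ v.1 ∧ v.1 ≤ 3 * (a : ℤ) + h) ∧
      (4 * (k : ℤ) - h ≤ v.2 ∧ v.2 ≤ 4 * (k : ℤ) + h) := by
  unfold Qc at hv
  rwa [Finset.mem_product, Finset.mem_Icc, Finset.mem_Icc] at hv

section

variable {a k h : ℕ} {v : Vtx} (hh : 1 ≤ h) (hk : 64 * h ≤ k) (ha : 8 * k ≤ a)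
  (hv : v ∈ Qc a k h)

include hh hk ha hv

theorem sub1 : TBE (3 * (a : ℤ) - h) (3 * (a : ℤ) + h) (5 * (k : ℤ) + 11 * h) (3 * (a : ℤ) + h) ⊆
    R0 a k h v := by
  have hv' := mem_Qc hv
  intro e he
  unfold R0 boxE H12S.blk
  obtain ⟨x, y, _ | _⟩ := e
  · simp only [mem_TBE_false] at he
    simp only [Finset.mem_sdiff, mem_RE_false]
    push_cast
    omega
  · simp only [mem_TBE_true] at he
    simp only [Finset.mem_sdiff, mem_RE_true]
    push_cast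
    omega

theorem sub2 : LRE (-(3 * (a : ℤ)) - h) (3 * (a : ℤ) + h) (3 * (a : ℤ) - h) (3 * (a : ℤ) + h) ⊆
    R0 a k h v := by
  have hv' := mem_Qc hv
  intro e he
  unfold R0 boxE H12S.blk
  obtain ⟨x, y, _ | _⟩ := e
  · simp only [mem_LRE_false] at he
    simp only [Finset.mem_sdiff, mem_RE_false]
    push_cast
    omega
  · simp only [mem_LRE_true] at he
    simp only [Finset.mem_sdiff, mem_RE_true]
    push_cast
    omega

theorem sub3 : TBE (-(3 * (a : ℤ)) - h) (-(3 * (a : ℤ)) + h) (-(3 * (a : ℤ)) - h)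
    (3 * (a : ℤ) + h) ⊆ R0 a k h v := by
  have hv' := mem_Qc hv
  intro e he
  unfold R0 boxE H12S.blk
  obtain ⟨x, y, _ | _⟩ := e
  · simp only [mem_TBE_false] at he
    simp only [Finset.mem_sdiff, mem_RE_false]
    push_cast
    omega
  · simp only [mem_TBE_true] at he
    simp only [Finset.mem_sdiff, mem_RE_true]
    push_cast
    omega

theorem sub4 : LRE (-(3 * (a : ℤ)) - h) (3 * (a : ℤ) + h) (-(3 * (a : ℤ)) - h)
    (-(3 * (a : ℤ)) + h) ⊆ R0 a k h v := by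
  have hv' := mem_Qc hv
  intro e he
  unfold R0 boxE H12S.blk
  obtain ⟨x, y, _ | _⟩ := e
  · simp only [mem_LRE_false] at he
    simp only [Finset.mem_sdiff, mem_RE_false]
    push_cast
    omega
  · simp only [mem_LRE_true] at he
    simp only [Finset.mem_sdiff, mem_RE_true]
    push_cast
    omega

theorem sub5 : TBE (3 * (a : ℤ) - h) (3 * (a : ℤ) + h) (-(3 * (a : ℤ)) - h) (-1) ⊆
    R0 a k h v := by
  have hv' := mem_Qc hv
  intro e he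
  unfold R0 boxE H12S.blk
  obtain ⟨x, y, _ | _⟩ := e
  · simp only [mem_TBE_false] at he
    simp only [Finset.mem_sdiff, mem_RE_false]
    push_cast
    omega
  · simp only [mem_TBE_true] at he
    simp only [Finset.mem_sdiff, mem_RE_true]
    push_cast
    omega

theorem Arc_local (F : Finset Edg) : Arc a k h F ↔ Arc a k h (F ∩ R0 a k h v) := by
  unfold Arc
  rw [← TBc_local (sub1 hh hk ha hv), ← LRc_local (sub2 hh hk ha hv),
    ← TBc_local (sub3 hh hk ha hv), ← LRc_local (sub4 hh hk ha hv),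
    ← TBc_local (sub5 hh hk ha hv)]

end

theorem Arc_mono {a k h : ℕ} {F G : Finset Edg} (hFG : F ⊆ G) (hF : Arc a k h F) :
    Arc a k h G :=
  ⟨hF.1.mono hFG, hF.2.1.mono hFG, hF.2.2.1.mono hFG, hF.2.2.2.1.mono hFG,
    hF.2.2.2.2.mono hFG⟩

/-! ### The arc has positive probability -/

theorem harris2 {S : Finset Edg} {A B : Finset Edg → Prop} {x y : ℝ} (hx : 0 ≤ x) (hy : 0 ≤ y)
    (hA : IncrE S A) (hB : IncrE S B) (h1 : x ≤ PQ (1 / 2) S A) (h2 : y ≤ PQ (1 / 2) S B) :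
    x * y ≤ PQ (1 / 2) S (fun F => A F ∧ B F) :=
  (mul_le_mul h1 h2 hy (hx.trans h1)).trans (Pr_harris H973.okhalf hA hB)

theorem incr_and {S : Finset Edg} {A B : Finset Edg → Prop} (hA : IncrE S A) (hB : IncrE S B) :
    IncrE S (fun F => A F ∧ B F) :=
  fun F G h1 h2 h3 => ⟨hA F G h1 h2 h3.1, hB F G h1 h2 h3.2⟩

theorem pr_Arc (q A : ℕ) (hq : 64 ≤ q) (hA : 8 ≤ A) : ∃ c : ℝ, 0 < c ∧ ∀ h : ℕ, 1 ≤ h →
    ∀ S : Finset Edg, boxE (4 * (A * (q * h))) ⊆ S →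
      c ≤ PQ (1 / 2) S (Arc (A * (q * h)) (q * h) h) := by
  obtain ⟨δ, hδ, hr⟩ := H985IL.IL2.rswK (4 * A * q)
  refine ⟨δ * (δ * (δ * (δ * δ))), by positivity, fun h hh S hS => ?_⟩
  obtain ⟨k, hk⟩ : ∃ k, k = q * h := ⟨_, rfl⟩
  obtain ⟨a, ha⟩ : ∃ a, a = A * (q * h) := ⟨_, rfl⟩
  have hk1 : 64 * h ≤ k := by rw [hk]; exact Nat.mul_le_mul_right h hq
  have ha1 : 8 * k ≤ a := by rw [ha, ← hk]; exact Nat.mul_le_mul_right k hA
  rw [← ha] at hS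
  rw [← ha, ← hk]
  have hK : ∀ w : ℤ, w ≤ 8 * a → w ≤ ((4 * A * q : ℕ) : ℤ) * (2 * (h : ℤ)) := by
    intro w hw
    have h1 : ((4 * A * q : ℕ) : ℤ) * (2 * (h : ℤ)) = 8 * (a : ℤ) := by
      rw [ha]
      push_cast
      ring
    rw [h1]
    exact hw
  have hbox : ∀ {x0 x1 y0 y1 : ℤ}, -(4 * (a : ℤ)) ≤ x0 → x1 ≤ 4 * (a : ℤ) → -(4 * (a : ℤ)) ≤ y0 →
      y1 ≤ 4 * (a : ℤ) → RE x0 x1 y0 y1 ⊆ S := by
    intro x0 x1 y0 y1 h1 h2 h3 h4
    refine (RE_subset ?_ ?_ ?_ ?_).trans hS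
    · push_cast; omega
    · push_cast; omega
    · push_cast; omega
    · push_cast; omega
  have p1 : δ ≤ PQ (1 / 2) S (TBc (3 * (a : ℤ) - h) (3 * (a : ℤ) + h) (5 * (k : ℤ) + 11 * h)
      (3 * (a : ℤ) + h)) := by
    have e : PQ (1 / 2) S (TBc (3 * (a : ℤ) - h) (3 * (a : ℤ) + h) (5 * (k : ℤ) + 11 * h)
      (3 * (a : ℤ) + h)) = H974.hh (1 / 2) (3 * (a : ℤ) + h - (5 * (k : ℤ) + 11 * h))
        (3 * (a : ℤ) + h - (3 * (a : ℤ) - h)) :=
      pr_TBc (1 / 2) (TBE_subset_RE.trans (hbox (by omega) (by omega) (by omega) (by omega)))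
    rw [e]
    have e2 : 3 * (a : ℤ) + h - (3 * (a : ℤ) - h) = 2 * (h : ℤ) := by ring
    rw [e2]
    exact hr _ _ (by omega) (by omega) (hK _ (by omega))
  have p2 : δ ≤ PQ (1 / 2) S (LRc (-(3 * (a : ℤ)) - h) (3 * (a : ℤ) + h) (3 * (a : ℤ) - h)
      (3 * (a : ℤ) + h)) := by
    have e : PQ (1 / 2) S (LRc (-(3 * (a : ℤ)) - h) (3 * (a : ℤ) + h) (3 * (a : ℤ) - h)
      (3 * (a : ℤ) + h)) = H974.hh (1 / 2) (3 * (a : ℤ) + h - (-(3 * (a : ℤ)) - h))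
        (3 * (a : ℤ) + h - (3 * (a : ℤ) - h)) :=
      pr_LRc (1 / 2) (LRE_subset_RE.trans (hbox (by omega) (by omega) (by omega) (by omega)))
    rw [e]
    have e2 : 3 * (a : ℤ) + h - (3 * (a : ℤ) - h) = 2 * (h : ℤ) := by ring
    rw [e2]
    exact hr _ _ (by omega) (by omega) (hK _ (by omega))
  have p3 : δ ≤ PQ (1 / 2) S (TBc (-(3 * (a : ℤ)) - h) (-(3 * (a : ℤ)) + h) (-(3 * (a : ℤ)) - h)
      (3 * (a : ℤ) + h)) := by
    have e : PQ (1 / 2) S (TBc (-(3 * (a : ℤ)) - h) (-(3 * (a : ℤ)) + h) (-(3 * (a : ℤ)) - h)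
      (3 * (a : ℤ) + h)) = H974.hh (1 / 2) (3 * (a : ℤ) + h - (-(3 * (a : ℤ)) - h))
        (-(3 * (a : ℤ)) + h - (-(3 * (a : ℤ)) - h)) :=
      pr_TBc (1 / 2) (TBE_subset_RE.trans (hbox (by omega) (by omega) (by omega) (by omega)))
    rw [e]
    have e2 : -(3 * (a : ℤ)) + h - (-(3 * (a : ℤ)) - h) = 2 * (h : ℤ) := by ring
    rw [e2]
    exact hr _ _ (by omega) (by omega) (hK _ (by omega))
  have p4 : δ ≤ PQ (1 / 2) S (LRc (-(3 * (a : ℤ)) - h) (3 * (a : ℤ) + h) (-(3 * (a : ℤ)) - h)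
      (-(3 * (a : ℤ)) + h)) := by
    have e : PQ (1 / 2) S (LRc (-(3 * (a : ℤ)) - h) (3 * (a : ℤ) + h) (-(3 * (a : ℤ)) - h)
      (-(3 * (a : ℤ)) + h)) = H974.hh (1 / 2) (3 * (a : ℤ) + h - (-(3 * (a : ℤ)) - h))
        (-(3 * (a : ℤ)) + h - (-(3 * (a : ℤ)) - h)) :=
      pr_LRc (1 / 2) (LRE_subset_RE.trans (hbox (by omega) (by omega) (by omega) (by omega)))
    rw [e]
    have e2 : -(3 * (a : ℤ)) + h - (-(3 * (a : ℤ)) - h) = 2 * (h : ℤ) := by ring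
    rw [e2]
    exact hr _ _ (by omega) (by omega) (hK _ (by omega))
  have p5 : δ ≤ PQ (1 / 2) S (TBc (3 * (a : ℤ) - h) (3 * (a : ℤ) + h) (-(3 * (a : ℤ)) - h)
      (-1)) := by
    have e : PQ (1 / 2) S (TBc (3 * (a : ℤ) - h) (3 * (a : ℤ) + h) (-(3 * (a : ℤ)) - h)
      (-1)) = H974.hh (1 / 2) (-1 - (-(3 * (a : ℤ)) - h))
        (3 * (a : ℤ) + h - (3 * (a : ℤ) - h)) :=
      pr_TBc (1 / 2) (TBE_subset_RE.trans (hbox (by omega) (by omega) (by omega) (by omega)))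
    rw [e]
    have e2 : 3 * (a : ℤ) + h - (3 * (a : ℤ) - h) = 2 * (h : ℤ) := by ring
    rw [e2]
    exact hr _ _ (by omega) (by omega) (hK _ (by omega))
  have i1 := TBc_incr S (3 * (a : ℤ) - h) (3 * (a : ℤ) + h) (5 * (k : ℤ) + 11 * h)
      (3 * (a : ℤ) + h)
  have i2 := LRc_incr S (-(3 * (a : ℤ)) - h) (3 * (a : ℤ) + h) (3 * (a : ℤ) - h)
      (3 * (a : ℤ) + h)
  have i3 := TBc_incr S (-(3 * (a : ℤ)) - h) (-(3 * (a : ℤ)) + h) (-(3 * (a : ℤ)) - h)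
      (3 * (a : ℤ) + h)
  have i4 := LRc_incr S (-(3 * (a : ℤ)) - h) (3 * (a : ℤ) + h) (-(3 * (a : ℤ)) - h)
      (-(3 * (a : ℤ)) + h)
  have i5 := TBc_incr S (3 * (a : ℤ) - h) (3 * (a : ℤ) + h) (-(3 * (a : ℤ)) - h) (-1)
  have j45 := incr_and i4 i5
  have j345 := incr_and i3 j45
  have j2345 := incr_and i2 j345
  have r45 := harris2 hδ.le hδ.le i4 i5 p4 p5
  have r345 := harris2 hδ.le (by positivity) i3 j45 p3 r45
  have r2345 := harris2 hδ.le (by positivity) i2 j345 p2 r345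
  exact harris2 hδ.le (by positivity) i1 j2345 p1 r2345

/-! ### The theorem -/

theorem t_GA : S_GA := by
  intro q A hq hA
  obtain ⟨c, hc, hArc⟩ := pr_Arc q A hq hA
  refine ⟨c, hc, ?_⟩
  intro M B h p hB hh hp v hv S hS
  have hArc' := hArc h hh S hS
  obtain ⟨k, hk⟩ : ∃ k, k = q * h := ⟨_, rfl⟩
  obtain ⟨a, ha⟩ : ∃ a, a = A * (q * h) := ⟨_, rfl⟩
  have hk1 : 64 * h ≤ k := by rw [hk]; exact Nat.mul_le_mul_right h hq
  have ha1 : 8 * k ≤ a := by rw [ha, ← hk]; exact Nat.mul_le_mul_right k hA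
  rw [← ha, ← hk] at hArc'
  rw [← ha] at hS
  rw [← ha, ← hk] at hv ⊢
  have hv' := mem_Qc hv
  have hblk : H12S.blk v (k + 14 * h) ⊆ S := by
    refine Finset.Subset.trans ?_ hS
    unfold H12S.blk boxE
    exact RE_subset (by push_cast; omega) (by push_cast; omega) (by push_cast; omega)
      (by push_cast; omega)
  have h1 : PQ (1 / 2) (boxE (k + 14 * h)) (fun F => Zo M B k h p ↑F ∧ Top k h p ↑F) =
      PQ (1 / 2) S (fun F => Gv M B k h p v ↑F) :=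
    pr_shift hblk (fun F => Zo M B k h p F ∧ Top k h p F) ZT_local
  have hR : R0 a k h v ⊆ S := Finset.sdiff_subset.trans hS
  have h2 : PQ (1 / 2) S (fun F => Gv M B k h p v ↑F) * PQ (1 / 2) S (Arc a k h) ≤
      PQ (1 / 2) S (fun F => Gv M B k h p v ↑F ∧ Arc a k h F) := by
    apply H934F.t1a S (R0 a k h v) (fun F => Gv M B k h p v ↑F) (Arc a k h) hR
    · intro F G _ hFG hGF hF
      exact Gv_mono hFG hGF hF
    · intro F G hFG hF
      exact Arc_mono hFG hF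
    · intro F
      exact Arc_local hh hk1 ha1 hv F
  rw [h1, mul_comm]
  refine le_trans ?_ h2
  exact mul_le_mul_of_nonneg_left hArc' (Pr_nonneg H973.okhalf _ _)

end Pool.Agent.Y997.OBL.GA
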