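import Pool.Agent.Y997.OBL.StmL

/-!
GEOU: the sets of pairs with chains are closed, and in the limit the point lies on the outer
boundary.
-/

set_option autoImplicit false

open Set Metric

namespace Pool.Agent.Y997.OBL.GEOU

open Pool.Agent.Y997.OBL

/-- QCU: these sets are closed. -/
theorem t_QCU : S_QCU := by
  intro M R e B N
  have : CompactSpace (Metric.closedBall (0 : ℂ) R) :=
    isCompact_iff_compactSpace.mp (isCompact_closedBall 0 R)
  let C : Set ((C(unitInterval, ℂ) × ℂ) × (unitInterval × (Fin (N + 1) →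
      Metric.closedBall (0 : ℂ) R))) :=
    {q | (∀ s, ‖q.1.1 s‖ ≤ 2) ∧ ‖q.1.2‖ ≤ 2 ∧ dist (q.1.1 q.2.1) q.1.2 ≤ e ∧
      dist ((q.2.2 0 : Metric.closedBall (0 : ℂ) R) : ℂ) q.1.2 ≤ e ∧
      4 ≤ ‖((q.2.2 (Fin.last N) : Metric.closedBall (0 : ℂ) R) : ℂ)‖ + e ∧
      (∀ i : Fin N, dist ((q.2.2 i.castSucc : Metric.closedBall (0 : ℂ) R) : ℂ)
        ((q.2.2 i.succ : Metric.closedBall (0 : ℂ) R) : ℂ) ≤ e) ∧
      ∀ (i : Fin (N + 1)) (s : unitInterval),
        (min (dist ((q.2.2 i : Metric.closedBall (0 : ℂ) R) : ℂ) q.1.2) 1) ^ B ≤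
          M * dist ((q.2.2 i : Metric.closedBall (0 : ℂ) R) : ℂ) (q.1.1 s) + e}
  have hev : ∀ i : Fin (N + 1), Continuous (fun q : (C(unitInterval, ℂ) × ℂ) × (unitInterval ×
      (Fin (N + 1) → Metric.closedBall (0 : ℂ) R)) =>
      ((q.2.2 i : Metric.closedBall (0 : ℂ) R) : ℂ)) := by
    intro i
    fun_prop
  have hz : Continuous (fun q : (C(unitInterval, ℂ) × ℂ) × (unitInterval ×
      (Fin (N + 1) → Metric.closedBall (0 : ℂ) R)) => q.1.2) := by fun_prop
  have hfs : ∀ s : unitInterval, Continuous (fun q : (C(unitInterval, ℂ) × ℂ) × (unitInterval ×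
      (Fin (N + 1) → Metric.closedBall (0 : ℂ) R)) => q.1.1 s) := fun s =>
    (continuous_eval_const (F := C(unitInterval, ℂ)) s).comp (continuous_fst.comp continuous_fst)
  have hC : IsClosed C := by
    refine IsClosed.inter ?_ (IsClosed.inter (isClosed_le hz.norm continuous_const)
      (IsClosed.inter ?_ (IsClosed.inter ?_ (IsClosed.inter ?_ (IsClosed.inter ?_ ?_)))))
    · have : {q : (C(unitInterval, ℂ) × ℂ) × (unitInterval × (Fin (N + 1) →
          Metric.closedBall (0 : ℂ) R)) | ∀ s : unitInterval, ‖q.1.1 s‖ ≤ 2} =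
          ⋂ s : unitInterval, {q | ‖q.1.1 s‖ ≤ 2} := by
        ext q; simp only [Set.mem_iInter, Set.mem_setOf_eq]
      have h2 : IsClosed {q : (C(unitInterval, ℂ) × ℂ) × (unitInterval × (Fin (N + 1) →
          Metric.closedBall (0 : ℂ) R)) | ∀ s : unitInterval, ‖q.1.1 s‖ ≤ 2} := by
        rw [this]
        exact isClosed_iInter fun s => isClosed_le (hfs s).norm continuous_const
      exact h2
    · refine isClosed_le (Continuous.dist ?_ hz) continuous_const
      exact continuous_eval.comp ((continuous_fst.comp continuous_fst).prodMk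
        (continuous_fst.comp continuous_snd))
    · exact isClosed_le ((hev 0).dist hz) continuous_const
    · exact isClosed_le continuous_const ((hev (Fin.last N)).norm.add continuous_const)
    · have : {q : (C(unitInterval, ℂ) × ℂ) × (unitInterval × (Fin (N + 1) →
          Metric.closedBall (0 : ℂ) R)) | ∀ i : Fin N,
          dist ((q.2.2 i.castSucc : Metric.closedBall (0 : ℂ) R) : ℂ)
          ((q.2.2 i.succ : Metric.closedBall (0 : ℂ) R) : ℂ) ≤ e} = ⋂ i : Fin N,
          {q | dist ((q.2.2 i.castSucc : Metric.closedBall (0 : ℂ) R) : ℂ)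
          ((q.2.2 i.succ : Metric.closedBall (0 : ℂ) R) : ℂ) ≤ e} := by
        ext q; simp only [Set.mem_iInter, Set.mem_setOf_eq]
      have h2 : IsClosed {q : (C(unitInterval, ℂ) × ℂ) × (unitInterval × (Fin (N + 1) →
          Metric.closedBall (0 : ℂ) R)) | ∀ i : Fin N,
          dist ((q.2.2 i.castSucc : Metric.closedBall (0 : ℂ) R) : ℂ)
          ((q.2.2 i.succ : Metric.closedBall (0 : ℂ) R) : ℂ) ≤ e} := by
        rw [this]
        exact isClosed_iInter fun i =>
          isClosed_le ((hev i.castSucc).dist (hev i.succ)) continuous_const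
      exact h2
    · have : {q : (C(unitInterval, ℂ) × ℂ) × (unitInterval × (Fin (N + 1) →
          Metric.closedBall (0 : ℂ) R)) | ∀ (i : Fin (N + 1)) (s : unitInterval),
          (min (dist ((q.2.2 i : Metric.closedBall (0 : ℂ) R) : ℂ) q.1.2) 1) ^ B ≤
          M * dist ((q.2.2 i : Metric.closedBall (0 : ℂ) R) : ℂ) (q.1.1 s) + e} =
          ⋂ i : Fin (N + 1), ⋂ s : unitInterval,
          {q | (min (dist ((q.2.2 i : Metric.closedBall (0 : ℂ) R) : ℂ) q.1.2) 1) ^ B ≤
          M * dist ((q.2.2 i : Metric.closedBall (0 : ℂ) R) : ℂ) (q.1.1 s) + e} := by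
        ext q; simp only [Set.mem_iInter, Set.mem_setOf_eq]
      have h2 : IsClosed {q : (C(unitInterval, ℂ) × ℂ) × (unitInterval × (Fin (N + 1) →
          Metric.closedBall (0 : ℂ) R)) | ∀ (i : Fin (N + 1)) (s : unitInterval),
          (min (dist ((q.2.2 i : Metric.closedBall (0 : ℂ) R) : ℂ) q.1.2) 1) ^ B ≤
          M * dist ((q.2.2 i : Metric.closedBall (0 : ℂ) R) : ℂ) (q.1.1 s) + e} := by
        rw [this]
        refine isClosed_iInter fun i => isClosed_iInter fun s => ?_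
        exact isClosed_le ((((hev i).dist hz).min continuous_const).pow B) ((continuous_const.mul
          ((hev i).dist (hfs s))).add continuous_const)
      exact h2
  have himg : Qu M R e B N = Prod.fst '' C := by
    ext p
    constructor
    · rintro ⟨h0, h1, ⟨s, hs⟩, x, hx, h2, h3, h4, h5⟩
      refine ⟨(p, (s, fun i => ⟨x i, ?_⟩)), ⟨h0, h1, hs, h2, h3, h4, h5⟩, rfl⟩
      rw [mem_closedBall_zero_iff]
      exact hx i
    · rintro ⟨⟨p', s, x⟩, ⟨h0, h1, hs, h2, h3, h4, h5⟩, rfl⟩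
      refine ⟨h0, h1, ⟨s, hs⟩, fun i => (x i : ℂ), fun i => ?_, h2, h3, h4, h5⟩
      exact mem_closedBall_zero_iff.mp (x i).2
  rw [himg]
  exact isClosedMap_fst_of_compactSpace C hC

/-- the last index before the chain stays away -/
lemma last_index {N : ℕ} {P : ℕ → Prop} (h0 : P 0) (hN : ¬ P N) :
    ∃ j, j < N ∧ P j ∧ ∀ i, j < i → i ≤ N → ¬ P i := by
  classical
  refine ⟨Nat.findGreatest P N, ?_, Nat.findGreatest_spec (Nat.zero_le N) h0,
    fun i h1 h2 => Nat.findGreatest_is_greatest h1 h2⟩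
  refine lt_of_le_of_ne (Nat.findGreatest_le N) fun h => hN ?_
  have h1 := Nat.findGreatest_spec (P := P) (Nat.zero_le N) h0
  rwa [h] at h1

lemma ball_sub {K : Set ℂ} {x : ℂ} {m : ℝ} (h : ∀ y ∈ K, m ≤ dist x y) : ball x m ⊆ Kᶜ := by
  intro y hy hyK
  have h1 := h y hyK
  rw [mem_ball, dist_comm] at hy
  linarith

lemma comp_eq {K : Set ℂ} {x y : ℂ} {m : ℝ} (hm : 0 < m) (h : ball x m ⊆ Kᶜ) (hy : dist x y < m) :
    connectedComponentIn Kᶜ x = connectedComponentIn Kᶜ y := by
  apply connectedComponentIn_eq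
  have h1 : IsPreconnected (ball x m) := (convex_ball x m).isPreconnected
  refine h1.subset_connectedComponentIn (mem_ball_self hm) h ?_
  rw [mem_ball, dist_comm]
  exact hy

/-- a point outside of the ball of radius `2` is in the unbounded component -/
lemma unb {K : Set ℂ} {x : ℂ} (hK : ∀ y ∈ K, ‖y‖ ≤ 2) (hx : 2 < ‖x‖) :
    ¬ Bornology.IsBounded (connectedComponentIn Kᶜ x) := by
  intro h
  obtain ⟨C, hC⟩ := isBounded_iff_forall_norm_le.1 h
  have hn : ∀ t : ℝ, 1 ≤ t → ‖(t : ℂ) * x‖ = t * ‖x‖ := by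
    intro t ht
    rw [norm_mul, Complex.norm_real, Real.norm_eq_abs, abs_of_pos (by linarith)]
  have hs : (fun t : ℝ => (t : ℂ) * x) '' Set.Ici 1 ⊆ Kᶜ := by
    rintro _ ⟨t, ht, rfl⟩ hy
    have h1 := hK _ hy
    simp only at h1
    rw [hn t ht] at h1
    have ht' : (1 : ℝ) ≤ t := ht
    nlinarith
  have hp : IsPreconnected ((fun t : ℝ => (t : ℂ) * x) '' Set.Ici 1) :=
    isPreconnected_Ici.image _ (by fun_prop)
  have hsub := hp.subset_connectedComponentIn (x := x) ⟨1, Set.mem_Ici.2 le_rfl, by simp⟩ hs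
  have h2 := hC _ (hsub ⟨max 1 (C + 1), Set.mem_Ici.2 (le_max_left _ _), rfl⟩)
  simp only at h2
  rw [hn _ (le_max_left _ _)] at h2
  have h3 : (1 : ℝ) ≤ max 1 (C + 1) := le_max_left _ _
  have h4 : C + 1 ≤ max 1 (C + 1) := le_max_right _ _
  nlinarith

lemma step {M R : ℝ} {B : ℕ} {N : ℕ → ℕ} {f : C(unitInterval, ℂ)} {z : ℂ} (hM : 0 < M)
    (hQ : ∀ k : ℕ, (f, z) ∈ Qu M R (1 / ((k : ℝ) + 1)) B (N k)) {η : ℝ}
    (hη : 0 < η) (hη1 : η ≤ 1 / 4) :
    ∃ v : ℂ, dist v z ≤ 2 * η ∧ v ∈ (range f)ᶜ ∧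
      ¬ Bornology.IsBounded (connectedComponentIn (range f)ᶜ v) := by
  have hηB : 0 < η ^ B := pow_pos hη B
  have hmη : 0 < η ^ B / (2 * M) := by positivity
  obtain ⟨k, hk⟩ := exists_nat_one_div_lt (lt_min (lt_min (half_pos hηB) hmη) (lt_min hη
    (half_pos hη)))
  set e : ℝ := 1 / ((k : ℝ) + 1) with he
  have he1 : e < η ^ B / 2 := hk.trans_le ((min_le_left _ _).trans (min_le_left _ _))
  have he2 : e < η ^ B / (2 * M) := hk.trans_le ((min_le_left _ _).trans (min_le_right _ _))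
  have he3 : e < η := hk.trans_le ((min_le_right _ _).trans (min_le_left _ _))
  have hQk := hQ k
  rw [← he] at hQk
  generalize N k = n at hQk
  obtain ⟨hf2, hz2, -, x, hxR, hx0, hxN, hxs, hxd⟩ := hQk
  replace hf2 : ∀ s, ‖f s‖ ≤ 2 := hf2
  replace hz2 : ‖z‖ ≤ 2 := hz2
  replace hx0 : dist (x 0) z ≤ e := hx0
  replace hxd : ∀ i s, (min (dist (x i) z) 1) ^ B ≤ M * dist (x i) (f s) + e := hxd
  -- the chain with natural indices
  let X : ℕ → ℂ := fun i => x ⟨min i n, by omega⟩
  have hX0 : X 0 = x 0 := congrArg x (Fin.ext (Nat.zero_min n))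
  have hXN : X n = x (Fin.last n) := congrArg x (Fin.ext (min_self n))
  have hXs : ∀ i, i < n → dist (X i) (X (i + 1)) ≤ e := by
    intro i hi
    have h1 := hxs ⟨i, hi⟩
    have e1 : X i = x (Fin.castSucc ⟨i, hi⟩) := congrArg x (Fin.ext (min_eq_left hi.le))
    have e2 : X (i + 1) = x (Fin.succ ⟨i, hi⟩) := congrArg x (Fin.ext (min_eq_left hi))
    rw [e1, e2]
    exact h1
  have hXd : ∀ i s, (min (dist (X i) z) 1) ^ B ≤ M * dist (X i) (f s) + e := fun i s => hxd _ s
  -- points away from `z`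
  have away : ∀ i : ℕ, η ≤ dist (X i) z → ball (X i) (η ^ B / (2 * M)) ⊆ (range f)ᶜ := by
    intro i hi
    apply ball_sub
    rintro _ ⟨s, rfl⟩
    have h1 := hXd i s
    have h2 : η ^ B ≤ (min (dist (X i) z) 1) ^ B :=
      pow_le_pow_left₀ hη.le (le_min hi (by linarith)) B
    rw [div_le_iff₀ (by positivity)]
    linarith
  have hP0 : dist (X 0) z < η := by
    rw [hX0]
    exact hx0.trans_lt he3
  have hXn : 3 < ‖X n‖ := by
    rw [hXN]
    linarith
  have hPN : ¬ dist (X n) z < η := by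
    intro h
    have h1 := norm_sub_norm_le (X n) z
    rw [← dist_eq_norm] at h1
    linarith
  obtain ⟨j, hj, hPj, hPi⟩ := last_index (P := fun i => dist (X i) z < η) hP0 hPN
  have hcomp : ∀ i, j < i → i ≤ n →
      connectedComponentIn (range f)ᶜ (X (j + 1)) = connectedComponentIn (range f)ᶜ (X i) := by
    intro i hi
    induction i, hi using Nat.le_induction with
    | base => intro _; rfl
    | succ i hi ih =>
      intro hin
      rw [ih (by omega)]
      refine comp_eq hmη (away i (not_lt.1 (hPi i hi (by omega)))) ?_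
      exact (hXs i (by omega)).trans_lt he2
  have hjmem : X (j + 1) ∈ (range f)ᶜ :=
    away (j + 1) (not_lt.1 (hPi (j + 1) (by omega) (by omega))) (mem_ball_self hmη)
  refine ⟨X (j + 1), ?_, hjmem, ?_⟩
  · have h1 := dist_triangle (X (j + 1)) (X j) z
    have h2 := hXs j hj
    rw [dist_comm] at h2
    linarith
  · rw [hcomp n hj le_rfl]
    refine unb ?_ (by linarith)
    rintro _ ⟨s, rfl⟩
    exact hf2 s

/-- GEOU: in the limit `z` lies on the outer boundary. -/
theorem t_GEOU : S_GEOU := by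
  intro M R B N f z hM _ hQ
  set K : Set ℂ := range f with hK
  have hKc : IsCompact K := isCompact_range f.continuous
  have hz : z ∈ K := by
    rw [← hKc.isClosed.closure_eq, Metric.mem_closure_iff]
    intro ε hε
    obtain ⟨k, hk⟩ := exists_nat_one_div_lt hε
    obtain ⟨-, -, ⟨s, hs⟩, -⟩ := hQ k
    refine ⟨f s, mem_range_self s, ?_⟩
    rw [dist_comm]
    exact hs.trans_lt hk
  refine ⟨?_, fun h => (interior_subset h).1 hz⟩
  rw [Metric.mem_closure_iff]
  intro ε hε
  obtain ⟨v, hv1, hv2, hv3⟩ := step hM hQ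
    (lt_min (by norm_num : (0 : ℝ) < 1 / 4) (by positivity : (0 : ℝ) < ε / 4)) (min_le_left _ _)
  refine ⟨v, ⟨hv2, hv3⟩, ?_⟩
  have h3 : min (1 / 4) (ε / 4) ≤ ε / 4 := min_le_right _ _
  rw [dist_comm]
  linarith

end Pool.Agent.Y997.OBL.GEOU
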