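import Pool.Agent.Y997.OBL.Stm
import Pool.Agent.H12R2.Sep.Markov

/-!
# OBL: Harris inequality with parameters and stopping sets (`S_HAR`, `S_STOP`)
(job OBL-HARS of helper997)
-/

set_option autoImplicit false

namespace Pool.Agent.Y997.OBL.HARS

open H974 H12S Finset H984P H984N Pool.Agent.Y989.FR
open Pool.Agent.W92.DP (DTB DLR shc)
open Pool.Agent.Y997.OBL

/-- The parameter `1/2` is admissible. -/
theorem okh : Ok (fun _ : Edg => (1 / 2 : ℝ)) := fun _ => ⟨by norm_num, by norm_num⟩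

/-- Harris' inequality for decreasing functions. -/
theorem harrisD {p : Edg → ℝ} (hp : Ok p) {S : Finset Edg} {f g : Finset Edg → ℝ}
    (hf : ∀ A B, A ⊆ B → B ⊆ S → f B ≤ f A) (hg : ∀ A B, A ⊆ B → B ⊆ S → g B ≤ g A) :
    Ex p S f * Ex p S g ≤ Ex p S (fun F => f F * g F) := by
  have h := harris hp (S := S) (f := fun F => (-1) * f F) (g := fun F => (-1) * g F)
    (fun A B h1 h2 => by have := hf A B h1 h2; show (-1) * f A ≤ (-1) * f B; linarith)
    (fun A B h1 h2 => by have := hg A B h1 h2; show (-1) * g A ≤ (-1) * g B; linarith)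
  rw [Ex_mul_left, Ex_mul_left] at h
  have e : Ex p S (fun F => (-1) * f F * ((-1) * g F)) = Ex p S (fun F => f F * g F) :=
    Ex_congr (fun F _ => by ring)
  rw [e] at h
  linarith

theorem t_HAR : S_HAR := by
  intro S S1 S2 f g hS1 hS2 hd hf1 hg1 hf2 hg2
  set p : Edg → ℝ := fun _ => (1 / 2 : ℝ) with hpdef
  have hp : Ok p := okh
  set S3 : Finset Edg := S \ (S2 ∪ S1) with hS3
  have hd21 : Disjoint S2 S1 := hd.symm
  have hd3 : Disjoint S3 (S2 ∪ S1) := Finset.sdiff_disjoint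
  have h21 : S2 ∪ S1 ⊆ S := Finset.union_subset hS2 hS1
  have hS : S = S3 ∪ (S2 ∪ S1) := by rw [hS3, Finset.sdiff_union_of_subset h21]
  have h3S : S3 ⊆ S := Finset.sdiff_subset
  have dec : ∀ φ : Finset Edg → ℝ, Ex p S φ =
      Ex p S3 (fun A => Ex p S2 (fun B => Ex p S1 (fun C => φ (A ∪ (B ∪ C))))) := by
    intro φ
    conv_lhs => rw [hS]
    rw [Ex_union hd3]
    refine Ex_congr fun A _ => ?_
    rw [Ex_union hd21]
  have hin : ∀ A B C : Finset Edg, A ⊆ S3 → B ⊆ S2 → C ⊆ S1 → A ∪ (B ∪ C) ⊆ S :=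
    fun A B C hA hB hC => Finset.union_subset (hA.trans h3S)
      (Finset.union_subset (hB.trans hS2) (hC.trans hS1))
  have hfe : ∀ A B C : Finset Edg, A ⊆ S3 → B ⊆ S2 → C ⊆ S1 →
      (f (A ∪ (B ∪ C)) ↔ f (A ∪ (B ∪ ∅))) := by
    intro A B C hA hB hC
    refine hf1 _ _ (hin A B C hA hB hC) (hin A B ∅ hA hB (Finset.empty_subset _)) ?_
    intro e he
    have hC' : e ∉ C := fun h => he (hC h)
    simp only [Finset.mem_union, Finset.notMem_empty, hC', or_false]
  have hge : ∀ A B C : Finset Edg, A ⊆ S3 → B ⊆ S2 → C ⊆ S1 →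
      (g (A ∪ (B ∪ C)) ↔ g (∅ ∪ (B ∪ C))) := by
    intro A B C hA hB hC
    refine hg1 _ _ (hin A B C hA hB hC) (hin ∅ B C (Finset.empty_subset _) hB hC) ?_
    intro e he
    have hA' : e ∉ A := fun h => (Finset.disjoint_left.mp hd3) (hA h) (by
      rcases Finset.mem_union.mp he with h | h
      · exact Finset.mem_union_right _ h
      · exact Finset.mem_union_left _ h)
    simp only [Finset.mem_union, Finset.notMem_empty, hA', false_or]
  set w : Finset Edg → ℝ := fun B => Ex p S1 (fun C => ind (g (∅ ∪ (B ∪ C)))) with hw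
  -- the three expectations
  have eF : PQ (1 / 2) S f = Ex p S3 (fun A => Ex p S2 (fun B => ind (f (A ∪ (B ∪ ∅))))) := by
    show Ex p S (fun F => ind (f F)) = _
    rw [dec]
    refine Ex_congr fun A hA => Ex_congr fun B hB => ?_
    rw [Ex_congr (g := fun _ => ind (f (A ∪ (B ∪ ∅))))
      (fun C hC => ind_congr (hfe A B C hA hB hC)), Ex_const]
  have eG : PQ (1 / 2) S g = Ex p S2 w := by
    show Ex p S (fun F => ind (g F)) = _
    rw [dec]
    rw [Ex_congr (g := fun _ => Ex p S2 w), Ex_const]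
    intro A hA
    refine Ex_congr fun B hB => ?_
    exact Ex_congr fun C hC => ind_congr (hge A B C hA hB hC)
  have eFG : PQ (1 / 2) S (fun η => f η ∧ g η) =
      Ex p S3 (fun A => Ex p S2 (fun B => ind (f (A ∪ (B ∪ ∅))) * w B)) := by
    show Ex p S (fun F => ind (f F ∧ g F)) = _
    rw [dec]
    refine Ex_congr fun A hA => Ex_congr fun B hB => ?_
    rw [hw, ← Ex_mul_left]
    refine Ex_congr fun C hC => ?_
    rw [ind_and, ind_congr (hfe A B C hA hB hC), ind_congr (hge A B C hA hB hC)]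
  rw [eF, eG, eFG, ← Ex_mul_right]
  refine Ex_mono hp fun A hA => ?_
  refine harrisD hp ?_ ?_
  · intro B B' hB hB'
    refine ind_mono ?_
    refine hf2 _ _ (hin A B' ∅ hA hB' (Finset.empty_subset _))
      (Finset.union_subset_union_right (Finset.union_subset_union_left hB)) ?_
    intro e he
    have h1 : e ∉ B := fun h => he (hB' (hB h))
    have h2 : e ∉ B' := fun h => he (hB' h)
    simp only [Finset.mem_union, Finset.notMem_empty, h1, h2]
  · intro B B' hB hB'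
    refine Ex_mono hp fun C hC => ind_mono ?_
    refine hg2 _ _ (hin ∅ B' C (Finset.empty_subset _) hB' hC)
      (Finset.union_subset_union_right (Finset.union_subset_union_left hB)) ?_
    intro e he
    have h1 : e ∉ B := fun h => he (hB' (hB h))
    have h2 : e ∉ B' := fun h => he (hB' h)
    simp only [Finset.mem_union, Finset.notMem_empty, h1, h2]

/-- The probability of a cell. -/
theorem cell {p : Edg → ℝ} {S K0 T : Finset Edg} (hK0 : K0 ⊆ S) (A : Finset Edg → Prop) :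
    Pr p S (fun F => F ∩ K0 = T ∧ A F) =
      Pr p K0 (fun X => X = T) * Pr p (S \ K0) (fun Y => A (T ∪ Y)) := by
  have hS : S = K0 ∪ (S \ K0) := by rw [Finset.union_sdiff_of_subset hK0]
  have hd : Disjoint K0 (S \ K0) := Finset.disjoint_sdiff
  unfold Pr
  conv_lhs => rw [hS]
  rw [Ex_union hd, ← Ex_mul_right]
  refine Ex_congr fun X hX => ?_
  rw [← Ex_mul_left]
  refine Ex_congr fun Y hY => ?_
  have e : (X ∪ Y) ∩ K0 = X := by
    ext x
    simp only [Finset.mem_inter, Finset.mem_union]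
    constructor
    · rintro ⟨h | h, h2⟩
      · exact h
      · exact absurd h2 (Finset.mem_sdiff.mp (hY h)).2
    · intro h
      exact ⟨Or.inl h, hX h⟩
  show ind ((X ∪ Y) ∩ K0 = T ∧ A (X ∪ Y)) = ind (X = T) * ind (A (T ∪ Y))
  rw [e, ← ind_and]
  refine ind_congr ⟨?_, ?_⟩
  · rintro ⟨rfl, h⟩
    exact ⟨rfl, h⟩
  · rintro ⟨rfl, h⟩
    exact ⟨rfl, h⟩

theorem t_STOP : S_STOP := by
  intro S K A B r _ hK hstop hAB
  have hp : Ok (fun _ : Edg => (1 / 2 : ℝ)) := okh
  show Pr _ S A ≤ r * Pr _ S B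
  rw [MK_part _ S K A, MK_part _ S K B, Finset.mul_sum]
  refine Finset.sum_le_sum fun K0 _ => ?_
  rw [Finset.mul_sum]
  refine Finset.sum_le_sum fun T _ => ?_
  by_cases h : ∃ F1, F1 ⊆ S ∧ K F1 ∩ S = K0 ∧ F1 ∩ K0 = T
  · obtain ⟨F1, hF1, hK1, hT1⟩ := h
    have hKS : K F1 ∩ S = K F1 := Finset.inter_eq_left.mpr (hK F1 hF1)
    have hK1' : K F1 = K0 := by rw [← hKS, hK1]
    have hK0 : K0 ⊆ S := by rw [← hK1]; exact Finset.inter_subset_right
    have key : ∀ F, F ⊆ S → F ∩ K0 = T → K F ∩ S = K0 := by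
      intro F hF hFT
      have h2 : K F = K F1 := by
        refine hstop F1 F hF1 hF ?_
        intro e he
        rw [hK1'] at he
        have h3 : e ∈ F1 ∩ K0 ↔ e ∈ F ∩ K0 := by rw [hT1, hFT]
        simpa [Finset.mem_inter, he] using h3
      rw [h2, hK1]
    have e : ∀ X : Finset Edg → Prop,
        Pr (fun _ : Edg => (1 / 2 : ℝ)) S (fun F => (K F ∩ S = K0 ∧ F ∩ K0 = T) ∧ X F) =
        Pr (fun _ : Edg => (1 / 2 : ℝ)) K0 (fun X => X = T) *
          Pr (fun _ : Edg => (1 / 2 : ℝ)) (S \ K0) (fun Y => X (T ∪ Y)) := by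
      intro X
      rw [← cell hK0 X]
      refine Pr_congr fun F hF => ?_
      constructor
      · rintro ⟨⟨_, h2⟩, h3⟩
        exact ⟨h2, h3⟩
      · rintro ⟨h2, h3⟩
        exact ⟨⟨key F hF h2, h2⟩, h3⟩
    rw [e A, e B]
    have h4 := hAB F1 hF1
    rw [hK1', hT1] at h4
    have h5 : 0 ≤ Pr (fun _ : Edg => (1 / 2 : ℝ)) K0 (fun X => X = T) := Pr_nonneg hp _ _
    calc Pr (fun _ : Edg => (1 / 2 : ℝ)) K0 (fun X => X = T) *
          Pr (fun _ : Edg => (1 / 2 : ℝ)) (S \ K0) (fun Y => A (T ∪ Y))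
        ≤ Pr (fun _ : Edg => (1 / 2 : ℝ)) K0 (fun X => X = T) *
          (r * Pr (fun _ : Edg => (1 / 2 : ℝ)) (S \ K0) (fun Y => B (T ∪ Y))) :=
          mul_le_mul_of_nonneg_left h4 h5
      _ = r * (Pr (fun _ : Edg => (1 / 2 : ℝ)) K0 (fun X => X = T) *
          Pr (fun _ : Edg => (1 / 2 : ℝ)) (S \ K0) (fun Y => B (T ∪ Y))) := by ring
  · rw [MK_false _ S (X := fun F => (K F ∩ S = K0 ∧ F ∩ K0 = T) ∧ A F),
      MK_false _ S (X := fun F => (K F ∩ S = K0 ∧ F ∩ K0 = T) ∧ B F), mul_zero]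
    · rintro F hF ⟨⟨h1, h2⟩, _⟩
      exact h ⟨F, hF, h1, h2⟩
    · rintro F hF ⟨⟨h1, h2⟩, _⟩
      exact h ⟨F, hF, h1, h2⟩

end Pool.Agent.Y997.OBL.HARS
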