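import Pool.Agent.Y997.OBL.Stm

/-!
# OBL-HP: clusters coming close to a line and avoiding it (helper500)
-/

set_option autoImplicit false

namespace Pool.Agent.Y997.OBL.HP

open Pool.Agent.Y997.OBL
open H974 H12S Finset H984P H984N Pool.Agent.Y989.FR
open Pool.Agent.W92.DP (DTB DLR shc)

theorem okh : Ok (fun _ : Edg => (1 / 2 : ℝ)) := fun _ => ⟨by norm_num, by norm_num⟩

theorem HPW_congr {x0 : ℤ} {r R : ℕ} {F F' : Set Edg}
    (h : F ∩ ↑(RE (x0 - 4 * R) (x0 + 4 * R) 0 (4 * R)) =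
      F' ∩ ↑(RE (x0 - 4 * R) (x0 + 4 * R) 0 (4 * R))) :
    HPW x0 r R F ↔ HPW x0 r R F' := by
  unfold HPW
  rw [h]

/-- vertical translation of edges -/
def up (t : ℤ) : Edg ↪ Edg :=
  ⟨fun e => (e.1, e.2.1 + t, e.2.2), by
    rintro ⟨x, y, b⟩ ⟨x', y', b'⟩ h
    simp only [Prod.mk.injEq] at h
    obtain ⟨h1, h2, h3⟩ := h
    have : y = y' := by omega
    subst h1 this h3
    rfl⟩

theorem up_apply (t : ℤ) (e : Edg) : up t e = (e.1, e.2.1 + t, e.2.2) := rfl

theorem mem_shc {t : ℤ} {F : Set Edg} {e : Edg} : e ∈ shc (0, t) F ↔ up t e ∈ F := by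
  unfold shc
  rw [Set.mem_ofPred_eq, up_apply]
  simp only [add_zero]

theorem shc_map (t : ℤ) (G : Finset Edg) : shc (0, t) (↑(G.map (up t)) : Set Edg) = ↑G := by
  ext e
  rw [mem_shc, Finset.mem_coe, Finset.mem_map', Finset.mem_coe]

theorem reach_map {G H : Set Edg} (t : ℤ) (h : ∀ e ∈ G, ((e.1, e.2.1 + t, e.2.2) : Edg) ∈ H)
    {a b : Vtx} (hr : Reach G a b) : Reach H (a.1, a.2 + t) (b.1, b.2 + t) := by
  induction hr with
  | refl => exact Reach.refl _ _
  | tail _ hs ih =>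
    refine ih.trans (Adj.reach ?_)
    obtain ⟨e, he, h'⟩ := hs
    refine ⟨_, h e he, ?_⟩
    obtain ⟨x, y, b⟩ := e
    rcases h' with ⟨rfl, rfl⟩ | ⟨rfl, rfl⟩
    · left
      cases b
      · simp only [src_mk, tgt_false, true_and, Prod.mk.injEq]
        omega
      · simp only [src_mk, tgt_true, true_and]
    · right
      cases b
      · simp only [src_mk, tgt_false, true_and, Prod.mk.injEq]
        omega
      · simp only [src_mk, tgt_true, true_and]

/-- the step of an open path -/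
theorem adj_cases {G : Set Edg} {a b : Vtx} (h : Adj G a b) : ∃ e ∈ G,
    (e.2.2 = true ∧ ((a = (e.1, e.2.1) ∧ b = (e.1 + 1, e.2.1)) ∨
      (b = (e.1, e.2.1) ∧ a = (e.1 + 1, e.2.1)))) ∨
    (e.2.2 = false ∧ ((a = (e.1, e.2.1) ∧ b = (e.1, e.2.1 + 1)) ∨
      (b = (e.1, e.2.1) ∧ a = (e.1, e.2.1 + 1)))) := by
  obtain ⟨⟨x, y, b⟩, he, h'⟩ := h
  refine ⟨_, he, ?_⟩
  cases b
  · right
    refine ⟨rfl, ?_⟩
    rcases h' with ⟨h1, h2⟩ | ⟨h1, h2⟩
    · left; exact ⟨h1.symm, h2.symm⟩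
    · right; exact ⟨h1.symm, h2.symm⟩
  · left
    refine ⟨rfl, ?_⟩
    rcases h' with ⟨h1, h2⟩ | ⟨h1, h2⟩
    · left; exact ⟨h1.symm, h2.symm⟩
    · right; exact ⟨h1.symm, h2.symm⟩

/-- first exit from the block -/
theorem exit {x0 t : ℤ} {R : ℕ} {F : Set Edg} (ht : 0 ≤ t) {u v : Vtx} (hu1 : |u.1 - x0| < 4 * R)
    (hu2 : 0 ≤ u.2) (hu3 : u.2 < 4 * R)
    (hr : Reach (F ∩ ↑(RE (x0 - 4 * R) (x0 + 4 * R) t (t + 4 * R))) u v) :
    (|v.1 - x0| < 4 * R ∧ 0 ≤ v.2 ∧ v.2 < 4 * R ∧ Reach (F ∩ ↑(blk (x0, 0) (2 * (2 * R)))) u v) ∨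
      ∃ w ∈ bdB (x0, 0) (2 * (2 * R)), Reach (F ∩ ↑(blk (x0, 0) (2 * (2 * R)))) u w := by
  induction hr with
  | refl => exact Or.inl ⟨hu1, hu2, hu3, Reach.refl _ _⟩
  | tail _ hs ih =>
    rename_i b c _
    rcases ih with ⟨h1, h2, h3, h4⟩ | h
    · obtain ⟨⟨x, y, bb⟩, ⟨heF, heB⟩, hc⟩ := adj_cases hs
      have hs' := hs
      have hmem : ((x, y, bb) : Edg) ∈ blk (x0, 0) (2 * (2 * R)) ∧
          (|c.1 - x0| ≤ 4 * R ∧ 0 ≤ c.2 ∧ c.2 ≤ 4 * R) := by
        rw [Finset.mem_coe] at heB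
        unfold blk
        rw [abs_lt] at h1
        rw [abs_le]
        cases bb
        · rw [mem_RE_false] at heB ⊢
          simp only [Bool.false_eq_true, false_and, false_or, true_and] at hc
          push_cast
          rcases hc with ⟨rfl, rfl⟩ | ⟨rfl, rfl⟩ <;> simp only at * <;> omega
        · rw [mem_RE_true] at heB ⊢
          simp only [Bool.true_eq_false, false_and, or_false, true_and] at hc
          push_cast
          rcases hc with ⟨rfl, rfl⟩ | ⟨rfl, rfl⟩ <;> simp only at * <;> omega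
      have hadj : Adj (F ∩ ↑(blk (x0, 0) (2 * (2 * R)))) b c := by
        obtain ⟨e, he, hh⟩ := hs
        refine ⟨e, ⟨he.1, ?_⟩, hh⟩
        have he2 := he.2
        rw [Finset.mem_coe] at he2 ⊢
        obtain ⟨x', y', b'⟩ := e
        rw [abs_lt] at h1
        unfold blk
        cases b'
        · rw [mem_RE_false] at he2 ⊢
          rw [src_mk, tgt_false] at hh
          push_cast
          rcases hh with ⟨rfl, rfl⟩ | ⟨rfl, rfl⟩ <;> simp only at * <;> omega
        · rw [mem_RE_true] at he2 ⊢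
          rw [src_mk, tgt_true] at hh
          push_cast
          rcases hh with ⟨rfl, rfl⟩ | ⟨rfl, rfl⟩ <;> simp only at * <;> omega
      have hr2 := h4.trans hadj.reach
      obtain ⟨-, k1, k2, k3⟩ := hmem
      by_cases hb : |c.1 - x0| < 4 * R ∧ c.2 < 4 * R
      · exact Or.inl ⟨hb.1, k2, hb.2, hr2⟩
      · refine Or.inr ⟨c, ?_, hr2⟩
        unfold bdB
        rw [Set.mem_ofPred_eq]
        push_cast
        simp only [sub_zero]
        rw [abs_of_nonneg k2]
        rw [not_and_or] at hb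
        refine ⟨by linarith, by linarith, ?_⟩
        rcases hb with hb | hb
        · left; linarith
        · right; linarith
    · exact Or.inr h

/-- first visit of the line -/
theorem hit {x0 t : ℤ} {R : ℕ} {F : Set Edg} (ht : 0 ≤ t) {u v : Vtx} (hu : t < u.2)
    (hr : Reach (F ∩ ↑(blk (x0, 0) (2 * (2 * R)))) u v) :
    (t < v.2 ∧ Reach (F ∩ ↑(RE (x0 - 4 * R) (x0 + 4 * R) t (t + 4 * R))) u v) ∨
      ∃ s : ℤ, |s - x0| ≤ 4 * R ∧
        Reach (F ∩ ↑(RE (x0 - 4 * R) (x0 + 4 * R) t (t + 4 * R))) u (s, t) := by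
  induction hr with
  | refl => exact Or.inl ⟨hu, Reach.refl _ _⟩
  | tail _ hs ih =>
    rename_i b c _
    rcases ih with ⟨h1, h2⟩ | h
    · have hadj : Adj (F ∩ ↑(RE (x0 - 4 * R) (x0 + 4 * R) t (t + 4 * R))) b c ∧
          (t ≤ c.2 ∧ |c.1 - x0| ≤ 4 * R) := by
        obtain ⟨e, he, hh⟩ := hs
        have he2 := he.2
        have he1 := he.1
        rw [Finset.mem_coe] at he2
        obtain ⟨x', y', b'⟩ := e
        unfold blk at he2
        rw [abs_le]
        cases b'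
        · rw [mem_RE_false] at he2
          rw [src_mk, tgt_false] at hh
          push_cast at he2
          refine ⟨⟨(x', y', false), ⟨he1, ?_⟩, by rw [src_mk, tgt_false]; exact hh⟩, ?_⟩
          · rw [Finset.mem_coe, mem_RE_false]
            rcases hh with ⟨rfl, rfl⟩ | ⟨rfl, rfl⟩ <;> simp only at * <;> omega
          · rcases hh with ⟨rfl, rfl⟩ | ⟨rfl, rfl⟩ <;> simp only at * <;> omega
        · rw [mem_RE_true] at he2
          rw [src_mk, tgt_true] at hh
          push_cast at he2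
          refine ⟨⟨(x', y', true), ⟨he1, ?_⟩, by rw [src_mk, tgt_true]; exact hh⟩, ?_⟩
          · rw [Finset.mem_coe, mem_RE_true]
            rcases hh with ⟨rfl, rfl⟩ | ⟨rfl, rfl⟩ <;> simp only at * <;> omega
          · rcases hh with ⟨rfl, rfl⟩ | ⟨rfl, rfl⟩ <;> simp only at * <;> omega
      obtain ⟨ha, k1, k2⟩ := hadj
      have hr2 := h2.trans ha.reach
      rcases k1.lt_or_eq with k3 | k3
      · exact Or.inl ⟨k3, hr2⟩
      · refine Or.inr ⟨c.1, k2, ?_⟩
        rw [show ((c.1, t) : Vtx) = c from Prod.ext rfl k3]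
        exact hr2
    · exact Or.inr h

/-- the event seen at the height `t` -/
theorem unshift {x0 t : ℤ} {r R : ℕ} {F : Set Edg} (h : HPW x0 r R (shc (0, t) F)) :
    ∃ u : Vtx, (|u.1 - x0| ≤ R ∧ t ≤ u.2 ∧ u.2 ≤ t + r) ∧
      (∃ w : Vtx, (|w.1 - x0| = 4 * R ∨ w.2 = t + 4 * R) ∧
        Reach (F ∩ ↑(RE (x0 - 4 * R) (x0 + 4 * R) t (t + 4 * R))) u w) ∧
      ∀ s : ℤ, |s - x0| ≤ 4 * R →
        ¬ Reach (F ∩ ↑(RE (x0 - 4 * R) (x0 + 4 * R) t (t + 4 * R))) u (s, t) := by
  obtain ⟨u, w, hu, hw, hw2, hr, hn⟩ := h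
  refine ⟨(u.1, u.2 + t), ⟨hu.1, by simp only; linarith [hu.2.1], by simp only; linarith [hu.2.2]⟩,
    ⟨(w.1, w.2 + t), ?_, ?_⟩, ?_⟩
  · rcases hw2 with h1 | h1
    · exact Or.inl h1
    · right; simp only; linarith
  · refine reach_map t ?_ hr
    rintro e ⟨h1, h2⟩
    rw [mem_shc, up_apply] at h1
    refine ⟨h1, ?_⟩
    rw [Finset.mem_coe] at h2 ⊢
    obtain ⟨x, y, b⟩ := e
    cases b
    · rw [mem_RE_false] at h2 ⊢
      simp only
      omega
    · rw [mem_RE_true] at h2 ⊢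
      simp only
      omega
  · intro s hs hr2
    refine hn s hs ?_
    have := reach_map (G := F ∩ ↑(RE (x0 - 4 * R) (x0 + 4 * R) t (t + 4 * R)))
      (H := shc (0, t) F ∩ ↑(RE (x0 - 4 * R) (x0 + 4 * R) 0 (4 * R))) (-t) ?_ hr2
    · simp only [add_neg_cancel_right, add_neg_cancel] at this
      exact this
    · rintro e ⟨h1, h2⟩
      refine ⟨?_, ?_⟩
      · rw [mem_shc, up_apply]
        simp only [neg_add_cancel_right]
        exact h1
      · rw [Finset.mem_coe] at h2 ⊢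
        obtain ⟨x, y, b⟩ := e
        cases b
        · rw [mem_RE_false] at h2 ⊢
          simp only
          omega
        · rw [mem_RE_true] at h2 ⊢
          simp only
          omega

theorem pr_shift {x0 : ℤ} {r R : ℕ} (t : ℤ) {T : Finset Edg}
    (hT : (RE (x0 - 4 * R) (x0 + 4 * R) 0 (4 * R)).map (up t) ⊆ T) :
    PQ (1 / 2) T (fun F => HPW x0 r R (shc (0, t) ↑F)) =
      PQ (1 / 2) (RE (x0 - 4 * R) (x0 + 4 * R) 0 (4 * R)) (fun F => HPW x0 r R ↑F) := by
  unfold PQ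
  rw [Pr_local hT, Pr_map]
  · refine Pr_congr fun G _ => ?_
    rw [shc_map]
  · intro F _
    refine HPW_congr ?_
    ext e
    simp only [Set.mem_inter_iff, mem_shc, Finset.mem_coe, Finset.mem_inter, Finset.mem_map']
    tauto

theorem pr_base {x0 : ℤ} {r R : ℕ} {S : Finset Edg}
    (hS : RE (x0 - 4 * R) (x0 + 4 * R) 0 (4 * R) ⊆ S) :
    PQ (1 / 2) S (fun F => HPW x0 r R ↑F) =
      PQ (1 / 2) (RE (x0 - 4 * R) (x0 + 4 * R) 0 (4 * R)) (fun F => HPW x0 r R ↑F) := by
  unfold PQ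
  refine Pr_local hS fun F _ => ?_
  refine HPW_congr ?_
  ext e
  simp only [Set.mem_inter_iff, Finset.mem_coe, Finset.mem_inter]
  tauto

theorem t_HP (h : S_NCL) : S_HP := by
  obtain ⟨C, hC, h⟩ := h
  refine ⟨2 * C + 4, by linarith, ?_⟩
  intro x0 r R hr hrR S hS
  rw [pr_base hS]
  set P := PQ (1 / 2) (RE (x0 - 4 * R) (x0 + 4 * R) 0 (4 * R)) (fun F => HPW x0 r R ↑F) with hPd
  have hP1 : P ≤ 1 := Pr_le_one okh _ _
  have hr0 : (0 : ℝ) < r := by exact_mod_cast hr
  have hR0 : (0 : ℝ) < R := by exact_mod_cast lt_of_lt_of_le hr hrR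
  by_cases h4 : R < 4 * r
  · have h5 : (1 : ℝ) ≤ 4 * ((r : ℝ) / R) := by
      rw [← mul_div_assoc, le_div_iff₀ hR0, one_mul]
      exact_mod_cast h4.le
    have h6 : 0 ≤ (r : ℝ) / R := by positivity
    nlinarith
  · push Not at h4
    set N := R / (2 * r) + 1 with hN
    set T : Finset Edg := RE (x0 - 4 * R) (x0 + 4 * R) 0 (5 * R) with hT
    have hjr : ∀ j : ℕ, j < N → j * r * 2 ≤ R := by
      intro j hj
      have h1 : j ≤ R / (2 * r) := by omega
      have h2 := Nat.mul_le_of_le_div _ _ _ h1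
      calc j * r * 2 = j * (2 * r) := by ring
        _ ≤ R := h2
    have hbig : ∀ j : ℕ, j < N → (j : ℤ) * r * 2 ≤ R := by
      intro j hj
      exact_mod_cast hjr j hj
    have key : ∀ (j : ℕ) (F : Finset Edg), ∃ u : Vtx,
        HPW x0 r R (shc (0, (j : ℤ) * r) ↑F) →
        (|u.1 - x0| ≤ R ∧ (j : ℤ) * r ≤ u.2 ∧ u.2 ≤ (j : ℤ) * r + r) ∧
        (∃ w : Vtx, (|w.1 - x0| = 4 * R ∨ w.2 = (j : ℤ) * r + 4 * R) ∧
          Reach (↑F ∩ ↑(RE (x0 - 4 * R) (x0 + 4 * R) ((j : ℤ) * r) ((j : ℤ) * r + 4 * R))) u w) ∧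
        ∀ s : ℤ, |s - x0| ≤ 4 * R →
          ¬ Reach (↑F ∩ ↑(RE (x0 - 4 * R) (x0 + 4 * R) ((j : ℤ) * r) ((j : ℤ) * r + 4 * R))) u
            (s, (j : ℤ) * r) := by
      intro j F
      by_cases hE : HPW x0 r R (shc (0, (j : ℤ) * r) ↑F)
      · obtain ⟨u, hu⟩ := unshift hE
        exact ⟨u, fun _ => hu⟩
      · exact ⟨(0, 0), fun h' => absurd h' hE⟩
    choose u hu using key
    have hmain := h (x0, 0) (2 * R) N T (fun j F => HPW x0 r R (shc (0, (j : ℤ) * r) ↑F)) u
      (by omega) ?_ ?_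
    · have hsum : ∑ j ∈ Finset.range N,
          PQ (1 / 2) T (fun F => HPW x0 r R (shc (0, (j : ℤ) * r) ↑F)) = N * P := by
        rw [Finset.sum_congr rfl (g := fun _ => P), Finset.sum_const, Finset.card_range,
          nsmul_eq_mul]
        intro j hj
        rw [Finset.mem_range] at hj
        refine pr_shift _ ?_
        intro e he
        rw [Finset.mem_map] at he
        obtain ⟨⟨x, y, b⟩, he, rfl⟩ := he
        rw [up_apply, hT]
        have h1 := hbig j hj
        have h2 : (0 : ℤ) ≤ (j : ℤ) * r := by positivity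
        cases b
        · simp only at *
          rw [mem_RE_false] at he ⊢
          omega
        · simp only at *
          rw [mem_RE_true] at he ⊢
          omega
      rw [hsum] at hmain
      have hN2 : (R : ℝ) / (2 * r) ≤ N := by
        rw [div_le_iff₀ (by positivity)]
        have h1 : R < (R / (2 * r) + 1) * (2 * r) := by
          have := Nat.lt_div_mul_add (a := R) (b := 2 * r) (by omega)
          calc R < R / (2 * r) * (2 * r) + 2 * r := this
            _ = (R / (2 * r) + 1) * (2 * r) := by ring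
        rw [hN]
        exact_mod_cast h1.le
      have hP0 : 0 ≤ P := Pr_nonneg okh _ _
      have h7 : (R : ℝ) / (2 * r) * P ≤ C := le_trans (by gcongr) hmain
      have h8 : P ≤ 2 * C * ((r : ℝ) / R) := by
        have e1 : P = (R : ℝ) / (2 * r) * P * (2 * ((r : ℝ) / R)) := by
          field_simp
        rw [e1]
        calc (R : ℝ) / (2 * r) * P * (2 * ((r : ℝ) / R)) ≤ C * (2 * ((r : ℝ) / R)) := by gcongr
          _ = 2 * C * ((r : ℝ) / R) := by ring
      have h9 : 0 ≤ (r : ℝ) / R := by positivity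
      nlinarith
    · intro F hF j hj hE
      obtain ⟨⟨h1, h2, h3⟩, ⟨w, hw, hwr⟩, -⟩ := hu j F hE
      have hb := hbig j hj
      have h0 : (0 : ℤ) ≤ (j : ℤ) * r := by positivity
      have h4' : 4 * (r : ℤ) ≤ R := by exact_mod_cast h4
      have hRp : (1 : ℤ) ≤ R := by exact_mod_cast le_trans hr hrR
      have hu2 : (u j F).2 ≤ R := by omega
      refine ⟨?_, ?_⟩
      · unfold sd
        push_cast
        simp only [sub_zero]
        rw [abs_of_nonneg (show 0 ≤ (u j F).2 by omega)]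
        refine max_le ?_ ?_
        · linarith
        · linarith
      · rcases exit (F := (↑F : Set Edg)) h0 (by linarith) (by omega) (by omega) hwr with h5 | h5
        · exfalso
          obtain ⟨k1, k2, k3, -⟩ := h5
          rcases hw with k4 | k4
          · linarith
          · linarith
        · exact h5
    · intro F hF j hj i hij hEi hEj hcon
      obtain ⟨⟨h1, h2, h3⟩, -, hn⟩ := hu j F hEj
      obtain ⟨⟨h1', h2', h3'⟩, -, -⟩ := hu i F hEi
      have h0 : (0 : ℤ) ≤ (j : ℤ) * r := by positivity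
      have h6 : (i : ℤ) * r + r ≤ (j : ℤ) * r := by
        have : ((i + 1 : ℕ) : ℤ) * r ≤ (j : ℤ) * r := by
          have : i + 1 ≤ j := hij
          gcongr
        push_cast at this
        linarith
      have h7 : (j : ℤ) * r < (u j F).2 := by
        rcases h2.lt_or_eq with h8 | h8
        · exact h8
        · exfalso
          refine hn (u j F).1 (by
            have : (0 : ℤ) ≤ R := by positivity
            linarith) ?_
          rw [h8]
          exact Reach.refl _ _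
      rcases hit (F := (↑F : Set Edg)) h0 h7 hcon.symm with ⟨h8, -⟩ | ⟨s, hs, h8⟩
      · linarith
      · exact hn s hs h8

end Pool.Agent.Y997.OBL.HP
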