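import Pool.Agent.Y997.OBL.Stm
import Pool.Agent.H974R2.Plan4

/-!
# The explored edges: stopping set, connection to the boundary (KN, F1)
-/

set_option autoImplicit false

namespace Pool.Agent.Y997.OBL.KNF

open H974 H12S Finset H984P H984N Pool.Agent.Y989.FR
open Pool.Agent.W92.DP (DTB DLR shc)
open Pool.Agent.Y997.OBL

/-! ### The explored edges are a stopping set -/

theorem wf_step {m : ℕ} {F : Set Edg} {f g : Vtx} (hf : f ∈ WF m F)
    (h : DAdj ((↑(boxE m) \ slit m) \ F) f g) : g ∈ WF m F := by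
  obtain ⟨k, h0, h1, h2⟩ := hf
  exact ⟨k, h0, h1, Relation.ReflTransGen.tail h2 h⟩

theorem wf_start {m : ℕ} {F : Set Edg} {k : ℤ} (h0 : 0 ≤ k) (h1 : k < m) :
    ((k, -1) : Vtx) ∈ WF m F := ⟨k, h0, h1, DReach.refl _ _⟩

theorem kn_of {m : ℕ} {F : Set Edg} {f g : Vtx} {e : Edg} (hf : f ∈ WF m F)
    (he : e ∈ boxE m) (hs : e ∉ slit m)
    (hc : (dsrc e = f ∧ dtgt e = g) ∨ (dsrc e = g ∧ dtgt e = f)) : e ∈ Kn m F := by
  refine ⟨⟨he, hs⟩, ?_⟩
  rcases hc with ⟨h, _⟩ | ⟨_, h⟩
  · left; rw [h]; exact hf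
  · right; rw [h]; exact hf

theorem wf_sub {m : ℕ} {F F' : Set Edg} (h : ∀ e ∈ Kn m F, (e ∈ F ↔ e ∈ F')) :
    WF m F ⊆ WF m F' := by
  rintro f ⟨k, h0, h1, h2⟩
  have key : ∀ g, DReach ((↑(boxE m) \ slit m) \ F) (k, -1) g → g ∈ WF m F ∧ g ∈ WF m F' := by
    intro g hg
    induction hg with
    | refl => exact ⟨wf_start h0 h1, wf_start h0 h1⟩
    | tail _ hs ih =>
      obtain ⟨ihF, ihF'⟩ := ih
      refine ⟨wf_step ihF hs, ?_⟩
      obtain ⟨e, ⟨⟨heb, hes⟩, heF⟩, hc⟩ := hs
      have hk : e ∈ Kn m F := kn_of ihF (by simpa using heb) hes hc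
      exact wf_step ihF' ⟨e, ⟨⟨heb, hes⟩, fun h' => heF ((h e hk).mpr h')⟩, hc⟩
  exact (key f h2).2

theorem wf_sub' {m : ℕ} {F F' : Set Edg} (h : ∀ e ∈ Kn m F, (e ∈ F ↔ e ∈ F')) :
    WF m F' ⊆ WF m F := by
  rintro f ⟨k, h0, h1, h2⟩
  have key : ∀ g, DReach ((↑(boxE m) \ slit m) \ F') (k, -1) g → g ∈ WF m F := by
    intro g hg
    induction hg with
    | refl => exact wf_start h0 h1
    | tail _ hs ih =>
      obtain ⟨e, ⟨⟨heb, hes⟩, heF⟩, hc⟩ := hs
      have hk : e ∈ Kn m F := kn_of ih (by simpa using heb) hes hc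
      exact wf_step ih ⟨e, ⟨⟨heb, hes⟩, fun h' => heF ((h e hk).mp h')⟩, hc⟩
  exact key f h2

theorem t_KN : S_KN := fun _ _ _ h => Set.Subset.antisymm (wf_sub' h) (wf_sub h)

/-! ### The explored open edges join `O` to the boundary -/

theorem mem_boxE {m : ℕ} {e : Edg} : e ∈ boxE m ↔
    (-(m : ℤ) ≤ e.1 ∧ e.1 ≤ m) ∧ (-(m : ℤ) ≤ e.2.1 ∧ e.2.1 ≤ m) ∧
      (e.2.2 = true → e.1 < m) ∧ (e.2.2 = false → e.2.1 < m) := by
  obtain ⟨x, y, _ | _⟩ := e
  · unfold boxE; rw [mem_RE_false]; simp; omega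
  · unfold boxE; rw [mem_RE_true]; simp; omega

/-- In the open box. -/
def Ins (m : ℕ) (v : Vtx) : Prop := (-(m : ℤ) < v.1 ∧ v.1 < m) ∧ (-(m : ℤ) < v.2 ∧ v.2 < m)

theorem ins_or {m : ℕ} {v : Vtx} (h1 : -(m : ℤ) ≤ v.1 ∧ v.1 ≤ m) (h2 : -(m : ℤ) ≤ v.2 ∧ v.2 ≤ m) :
    Ins m v ∨ v ∈ bdB (0, 0) m := by
  by_cases h : Ins m v
  · exact Or.inl h
  · right
    unfold Ins at h
    simp only [bdB, Set.mem_setOf_eq, sub_zero]
    have a1 : |v.1| ≤ m := abs_le.mpr ⟨h1.1, h1.2⟩
    have a2 : |v.2| ≤ m := abs_le.mpr ⟨h2.1, h2.2⟩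
    refine ⟨a1, a2, ?_⟩
    by_contra hcon
    push Not at hcon
    obtain ⟨c1, c2⟩ := hcon
    have b1 : |v.1| < m := lt_of_le_of_ne a1 c1
    have b2' : |v.2| < m := lt_of_le_of_ne a2 c2
    exact h ⟨abs_lt.mp b1, abs_lt.mp b2'⟩

/-- Ends of the edges of the box. -/
theorem ends_box {m : ℕ} {e : Edg} (he : e ∈ boxE m) :
    ((-(m : ℤ) ≤ (src e).1 ∧ (src e).1 ≤ m) ∧ (-(m : ℤ) ≤ (src e).2 ∧ (src e).2 ≤ m)) ∧
    ((-(m : ℤ) ≤ (tgt e).1 ∧ (tgt e).1 ≤ m) ∧ (-(m : ℤ) ≤ (tgt e).2 ∧ (tgt e).2 ≤ m)) := by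
  obtain ⟨x, y, _ | _⟩ := e
  · rw [mem_boxE] at he; simp at he ⊢; omega
  · rw [mem_boxE] at he; simp at he ⊢; omega

/-- An edge with an end in the open box is an edge of the box. -/
theorem box_of_ins {m : ℕ} {e : Edg} (h : Ins m (src e) ∨ Ins m (tgt e)) : e ∈ boxE m := by
  obtain ⟨x, y, _ | _⟩ := e
  · rw [mem_boxE]; simp [Ins] at h ⊢; omega
  · rw [mem_boxE]; simp [Ins] at h ⊢; omega

theorem slit_row {m : ℕ} : ∀ n : ℕ, ((n : ℤ) + 1 ≤ m) →
    Reach (slit m \ {((0, 0, true) : Edg)}) (1, 0) ((n : ℤ) + 1, 0) := by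
  intro n
  induction n with
  | zero => intro _; simpa using Reach.refl _ _
  | succ n ih =>
    intro h
    have h' := ih (by push_cast at h; omega)
    refine Relation.ReflTransGen.tail h' ⟨((n : ℤ) + 1, 0, true), ?_, Or.inl ⟨rfl, ?_⟩⟩
    · refine ⟨⟨rfl, rfl, by simp; omega, by push_cast at h; simp; omega⟩, ?_⟩
      intro hh
      have := congrArg Prod.fst hh
      simp at this
      omega
    · simp

theorem t_F1 : S_F1 := by
  intro m F hm hSE
  by_contra hcon
  push Not at hcon
  obtain ⟨⟨u0, hu0, hru0⟩, hray⟩ := hSE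
  have hm' : (1 : ℤ) ≤ m := by exact_mod_cast hm
  set W : Vtx → Prop := fun v => v ∈ XX m F with hW
  set e0 : Edg := (0, 0, true) with he0
  have hW0 : W (0, 0) := Reach.refl _ _
  -- vertices of `X` are in the cluster of `O`
  have hcl : ∀ v, W v → Reach (F ∩ ↑(boxE m)) (0, 0) v := by
    intro v hv
    have hv' : Reach (F ∩ Kn m F) (0, 0) v := hv
    refine Reach.mono ?_ hv'
    intro e he
    exact ⟨he.1, by simpa using he.2.1.1⟩
  have hWray : ∀ v, v ∈ ray m → ¬ W v := fun v hv hw => hray v hv (hcl v hw)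
  -- vertices of `X` are in the open box
  have hins : ∀ v, W v → Ins m v := by
    intro v hv
    have hv' : Reach (F ∩ Kn m F) (0, 0) v := hv
    clear hv
    induction hv' with
    | refl => refine ⟨⟨?_, ?_⟩, ?_, ?_⟩ <;> simp <;> omega
    | @tail v w h1 h2 ih =>
      have hw : w ∈ XX m F := Relation.ReflTransGen.tail h1 h2
      obtain ⟨e, ⟨heF, hek⟩, hc⟩ := h2
      have hends := ends_box hek.1.1
      have : Ins m w ∨ w ∈ bdB (0, 0) m := by
        rcases hc with ⟨_, h⟩ | ⟨h, _⟩
        · rw [← h]; exact ins_or hends.2.1 hends.2.2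
        · rw [← h]; exact ins_or hends.1.1 hends.1.2
      rcases this with h | h
      · exact h
      · exact absurd hw (hcon w h)
  -- boundary edges of `X` are in the box
  have hbox : ∀ e ∈ bdry W, e ∈ boxE m := by
    intro e he
    apply box_of_ins
    by_contra h
    push Not at h
    exact he ⟨fun k => absurd (hins _ k) h.1, fun k => absurd (hins _ k) h.2⟩
  have hslit : ∀ e ∈ bdry W, e ≠ e0 → e ∉ slit m := by
    rintro ⟨x, y, b⟩ he hne hs
    obtain ⟨h1, h2, h3, h4⟩ := hs
    simp only at h1 h2 h3 h4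
    subst h1 h2
    have hx : 1 ≤ x := by
      rcases h3.lt_or_eq with h | h
      · omega
      · subst h; exact absurd rfl hne
    apply he
    constructor
    · intro k; exact absurd k (hWray _ ⟨rfl, hx, by simpa using h4.le⟩)
    · intro k; exact absurd k (hWray _ ⟨rfl, by simp; omega, by simp; omega⟩)
  set G : Set Edg := bdry W \ {e0} with hG
  -- claim A
  have hA : ∀ f, DReach G (0, -1) f →
      f ∈ WF m F ∧ DReach ((↑(boxE m) \ slit m) \ F) (0, -1) f := by
    intro f hf
    induction hf with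
    | refl => exact ⟨wf_start le_rfl (by omega), DReach.refl _ _⟩
    | @tail f g _ hs ih =>
      obtain ⟨e, ⟨hew, hne⟩, hc⟩ := hs
      have hb := hbox e hew
      have hs' := hslit e hew hne
      have hk : e ∈ Kn m F := kn_of ih.1 hb hs' hc
      have hcl' : e ∉ F := by
        intro heF
        apply hew
        constructor
        · intro h
          exact Relation.ReflTransGen.tail h ⟨e, ⟨heF, hk⟩, Or.inl ⟨rfl, rfl⟩⟩
        · intro h
          exact Relation.ReflTransGen.tail h ⟨e, ⟨heF, hk⟩, Or.inr ⟨rfl, rfl⟩⟩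
      have hstep : DAdj ((↑(boxE m) \ slit m) \ F) f g :=
        ⟨e, ⟨⟨by simpa using hb, hs'⟩, hcl'⟩, hc⟩
      exact ⟨wf_step ih.1 hstep, Relation.ReflTransGen.tail ih.2 hstep⟩
  have he0s : e0 ∈ slit m := ⟨rfl, rfl, le_rfl, by simp [he0]; omega⟩
  have he0b : e0 ∈ boxE m := by rw [mem_boxE]; simp [he0]; omega
  have he0F : e0 ∉ F := by
    intro h
    refine hray (1, 0) ⟨rfl, le_rfl, by simpa using hm'⟩ ?_
    exact Adj.reach ⟨e0, ⟨h, by simpa using he0b⟩, Or.inl ⟨rfl, rfl⟩⟩
  have he0W : e0 ∈ bdry W := by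
    intro h
    exact hWray (1, 0) ⟨rfl, le_rfl, by simpa using hm'⟩ (h.mp hW0)
  -- claim B
  have hB : DReach G (0, -1) (0, 0) := by
    by_contra hnot
    set C : Vtx → Prop := fun f => DReach G (0, -1) f with hC
    have hCcl : ∀ g ∈ G, (C (dsrc g) ↔ C (dtgt g)) := by
      intro g hg
      constructor
      · intro h; exact h.trans (DAdj.reach ⟨g, hg, Or.inl ⟨rfl, rfl⟩⟩)
      · intro h; exact h.trans (DAdj.reach ⟨g, hg, Or.inr ⟨rfl, rfl⟩⟩)
    set Z : Edg → ZMod 2 := fun g => b2 (g ∈ G ∧ C (dtgt g)) with hZ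
    have hswap : ∀ g, Z g = b2 (g ∈ G ∧ C (dsrc g)) := by
      intro g
      apply b2_congr
      constructor
      · rintro ⟨h1, h2⟩; exact ⟨h1, (hCcl g h1).mpr h2⟩
      · rintro ⟨h1, h2⟩; exact ⟨h1, (hCcl g h1).mp h2⟩
    have hb : ∀ x y, bd Z x y = b2 (((0, -1) : Vtx) = (x, y)) := by
      intro x y
      by_cases hxy : C (x, y)
      · have hone : ∀ g : Edg, (C (dtgt g) ∨ C (dsrc g)) →
            Z g = b2 (W (src g)) + b2 (W (tgt g)) + b2 (g = e0) := by
          intro g hCg
          have h1 : Z g = b2 (g ∈ G) := by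
            rcases hCg with h | h
            · exact b2_congr ⟨fun k => k.1, fun k => ⟨k, h⟩⟩
            · rw [hswap]; exact b2_congr ⟨fun k => k.1, fun k => ⟨k, h⟩⟩
          rw [h1, ← b2_iff_add]
          by_cases hge : g = e0
          · rw [hge, b2_of (rfl : e0 = e0), b2_of (show ¬ (W (src e0) ↔ W (tgt e0)) from he0W),
              b2_not_of (fun h => h.2 rfl)]
            rfl
          · rw [b2_not_of hge, add_zero]
            apply b2_congr
            constructor
            · intro h; exact h.1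
            · intro h; exact ⟨h, hge⟩
        have m1 := hone (x, y, true) (Or.inl (by simpa using hxy))
        have m2 := hone (x, y + 1, true) (Or.inr (by simpa using hxy))
        have m3 := hone (x, y, false) (Or.inl (by simpa using hxy))
        have m4 := hone (x + 1, y, false) (Or.inr (by simpa using hxy))
        simp only [src_mk, tgt_true, tgt_false] at m1 m2 m3 m4
        have hs := bd_single e0 x y
        have n1 : ¬ (dtgt e0 = (x, y)) := by
          intro h
          apply hnot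
          have : ((0, 0) : Vtx) = (x, y) := h
          rw [this]; exact hxy
        rw [b2_not_of n1, add_zero] at hs
        have hs' : bd (fun e' => b2 (e' = e0)) x y = b2 (((0, -1) : Vtx) = (x, y)) := hs
        unfold bd at hs' ⊢
        rw [m1, m2, m3, m4, ← hs']
        have k1 := zmod2_add_self (b2 (W (x, y)))
        have k2 := zmod2_add_self (b2 (W (x + 1, y)))
        have k3 := zmod2_add_self (b2 (W (x, y + 1)))
        have k4 := zmod2_add_self (b2 (W (x + 1, y + 1)))
        linear_combination k1 + k2 + k3 + k4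
      · have n1 : ¬ (((0, -1) : Vtx) = (x, y)) := by
          intro h
          apply hxy
          rw [← h]; exact DReach.refl _ _
        rw [b2_not_of n1]
        have z1 : Z (x, y, true) = 0 := b2_not_of (fun h => hxy (by simpa using h.2))
        have z2 : Z (x, y + 1, true) = 0 := by
          rw [hswap]; exact b2_not_of (fun h => hxy (by simpa using h.2))
        have z3 : Z (x, y, false) = 0 := b2_not_of (fun h => hxy (by simpa using h.2))
        have z4 : Z (x + 1, y, false) = 0 := by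
          rw [hswap]; exact b2_not_of (fun h => hxy (by simpa using h.2))
        unfold bd
        rw [z1, z2, z3, z4]; ring
    -- edges on the boundary of the box are not in `G`
    have hout : ∀ g : Edg, ¬ Ins m (src g) → ¬ Ins m (tgt g) → Z g = 0 := by
      intro g h1 h2
      apply b2_not_of
      rintro ⟨⟨h, _⟩, _⟩
      exact h ⟨fun k => absurd (hins _ k) h1, fun k => absurd (hins _ k) h2⟩
    have hsum : ∑ x ∈ Finset.Ico (-(m : ℤ)) m, ∑ y ∈ Finset.Ico (-(m : ℤ)) m, bd Z x y = 0 := by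
      have e1 : ∀ x ∈ Finset.Ico (-(m : ℤ)) m, ∑ y ∈ Finset.Ico (-(m : ℤ)) m, bd Z x y =
          ∑ y ∈ Finset.Ico (-(m : ℤ)) m, (Z (x, y, true) + Z (x, y + 1, true)) +
          ∑ y ∈ Finset.Ico (-(m : ℤ)) m, (Z (x, y, false) + Z (x + 1, y, false)) := by
        intro x _
        rw [← Finset.sum_add_distrib]
        apply Finset.sum_congr rfl
        intro y _
        unfold bd; ring
      rw [Finset.sum_congr rfl e1, Finset.sum_add_distrib]
      have e2 : ∑ x ∈ Finset.Ico (-(m : ℤ)) m, ∑ y ∈ Finset.Ico (-(m : ℤ)) m,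
          (Z (x, y, true) + Z (x, y + 1, true)) = 0 := by
        apply Finset.sum_eq_zero
        intro x hx
        rw [telescope' (by omega) (fun y => Z (x, y, true))]
        have z1 : Z (x, -(m : ℤ), true) = 0 := by
          apply hout
          · intro h; have := h.2.1; simp at this
          · intro h; have := h.2.1; simp at this
        have z2 : Z (x, (m : ℤ), true) = 0 := by
          apply hout
          · intro h; have := h.2.2; simp at this
          · intro h; have := h.2.2; simp at this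
        rw [z1, z2]; ring
      have e3 : ∑ x ∈ Finset.Ico (-(m : ℤ)) m, ∑ y ∈ Finset.Ico (-(m : ℤ)) m,
          (Z (x, y, false) + Z (x + 1, y, false)) = 0 := by
        rw [Finset.sum_comm]
        apply Finset.sum_eq_zero
        intro y hy
        rw [telescope' (by omega) (fun x => Z (x, y, false))]
        have z1 : Z (-(m : ℤ), y, false) = 0 := by
          apply hout
          · intro h; have := h.1.1; simp at this
          · intro h; have := h.1.1; simp at this
        have z2 : Z ((m : ℤ), y, false) = 0 := by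
          apply hout
          · intro h; have := h.1.2; simp at this
          · intro h; have := h.1.2; simp at this
        rw [z1, z2]; ring
      rw [e2, e3]; ring
    have hsum1 : ∑ x ∈ Finset.Ico (-(m : ℤ)) m, ∑ y ∈ Finset.Ico (-(m : ℤ)) m, bd Z x y = 1 := by
      rw [Finset.sum_eq_single 0, Finset.sum_eq_single (-1)]
      · rw [hb, b2_of rfl]
      · intro y _ hy
        rw [hb, b2_not_of]
        intro h
        apply hy
        exact (congrArg Prod.snd h).symm
      · intro h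
        exact absurd (Finset.mem_Ico.mpr ⟨by omega, by omega⟩) h
      · intro x _ hx
        apply Finset.sum_eq_zero
        intro y _
        rw [hb, b2_not_of]
        intro h
        apply hx
        exact (congrArg Prod.fst h).symm
      · intro h
        exact absurd (Finset.mem_Ico.mpr ⟨by omega, by omega⟩) h
    rw [hsum] at hsum1
    exact zero_ne_one hsum1
  -- contradiction
  have hD := (hA _ hB).2
  have hsub : slit m \ {e0} ⊆ ((↑(boxE m) : Set Edg)) := by
    rintro ⟨x, y, b⟩ ⟨⟨h1, h2, h3, h4⟩, _⟩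
    simp only at h1 h2 h3 h4
    subst h1 h2
    have : ((x, 0, true) : Edg) ∈ boxE m := by rw [mem_boxE]; simp; omega
    simpa using this
  refine dual_sep (a := -(m : ℤ)) (b := m) (c := -(m : ℤ)) (d := m)
    (F := (F ∩ ↑(boxE m)) ∪ (slit m \ {e0})) (e := e0) ?_ he0b ?_ ?_ ?_ ?_
  · rintro e (h | h)
    · exact h.2
    · exact hsub h
  · rintro (h | h)
    · exact he0F h.1
    · exact h.2 rfl
  · refine ⟨u0, ?_, Reach.mono (fun e he => Or.inl he) hru0⟩
    obtain ⟨h1, h2, h3⟩ := hu0
    simp only [sub_zero] at h1 h2 h3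
    rw [abs_le] at h1 h2
    refine ⟨⟨h1, h2⟩, ?_⟩
    rcases h3 with h | h
    · rcases abs_choice u0.1 with h' | h'
      · right; left; rw [← h, h']
      · left; rw [← h, h']; ring
    · rcases abs_choice u0.2 with h' | h'
      · right; right; right; rw [← h, h']
      · right; right; left; rw [← h, h']; ring
  · refine ⟨((m : ℤ), 0), ⟨⟨⟨by simp, by simp⟩, by simp, by simp⟩, Or.inr (Or.inl rfl)⟩, ?_⟩
    obtain ⟨n, hn⟩ := Int.eq_ofNat_of_zero_le (show (0 : ℤ) ≤ m - 1 by omega)
    have h1 := slit_row (m := m) n (by omega)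
    have e1 : ((n : ℤ) + 1) = m := by omega
    rw [e1] at h1
    exact Reach.mono (fun e he => Or.inr he) h1
  · refine DReach.mono ?_ hD
    rintro e ⟨⟨h1, h2⟩, h3⟩
    refine ⟨⟨h1, ?_⟩, ?_⟩
    · rintro (h | h)
      · exact h3 h.1
      · exact h2 h.1
    · rintro rfl
      exact h2 he0s

end Pool.Agent.Y997.OBL.KNF
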