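import Pool.Agent.Y997.OBL.StmL
import Pool.Agent.Y989.FR.T_LG
import Pool.Agent.W822.PD.ClosedC

/-!
Project OBL, job LGC: abstract passage to the limit for curves modulo reparametrisation.
-/

set_option autoImplicit false

namespace Pool.Agent.Y997.OBL.LGC

open Set Filter Topology Metric Pool.Agent.H389R2.Dim MeasureTheory
open Pool.Agent.Y997.OBL H342L
open Pool.Agent.Y989.FR.LG (AA AA_mono isClosed_good_AA isCompact_AA good_zero)
open scoped ENNReal NNReal

/-- Invariance under reparametrisation. -/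
theorem AA_rep {K : Set ℂ} {Q : ℕ → Set (C(unitInterval, ℂ) × ℂ)}
    (hrep : ∀ k f (φ : unitInterval ≃o unitInterval) z, (f, z) ∈ Q k → (rep f φ, z) ∈ Q k)
    (e : ℝ) (f : C(unitInterval, ℂ)) (φ : unitInterval ≃o unitInterval) :
    AA K Q e (rep f φ) = AA K Q e f := by
  have key : ∀ (g : C(unitInterval, ℂ)) (ψ : unitInterval ≃o unitInterval),
      AA K Q e g ⊆ AA K Q e (rep g ψ) := by
    rintro g ψ z ⟨hz, h1⟩
    exact ⟨hz, fun k hk => hrep k g ψ z (h1 k hk)⟩
  refine Set.Subset.antisymm ?_ (key f φ)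
  have h1 := key (rep f φ) φ.symm
  have h2 : rep (rep f φ) φ.symm = f := by
    ext t
    rw [rep_apply, rep_apply, OrderIso.apply_symm_apply]
  rwa [h2] at h1

theorem isClosed_good_curve {t δ c e : ℝ} {K : Set ℂ} {Q : ℕ → Set (C(unitInterval, ℂ) × ℂ)}
    (hQ : ∀ k, IsClosed (Q k)) (hK : IsCompact K)
    (hrep : ∀ k f (φ : unitInterval ≃o unitInterval) z, (f, z) ∈ Q k → (rep f φ, z) ∈ Q k) :
    IsClosed {γ : Curve | Good t δ c (AA K Q e γ.path)} :=
  Pool.Agent.W822.PD.isClosed_curve (isClosed_good_AA hQ hK)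
    (fun f φ h => by rwa [AA_rep hrep])

/-- **LGC.** -/
theorem t_LGC : S_LGC := by
  intro μs μ hμ t ht T h
  rw [ae_iff, ← nonpos_iff_eq_zero]
  apply ENNReal.le_of_forall_pos_le_add
  intro ε hε _
  obtain ⟨c, K, Q, hc, hK, hQ, hrep, hT, h1⟩ := h ε (by exact_mod_cast hε)
  have h1 : ∀ ε' : ℝ, 0 < ε' → ∀ᶠ i in atTop,
      (μs i : Measure Curve) {γ : Curve | ¬ Good t ε' c (AA K Q ε' γ.path)} ≤ ε := h1
  have hT0 : ∀ f, AA K Q 0 f ⊆ T f := by
    rintro f z ⟨hz, hh⟩
    exact hT f z hz (fun k => hh k (by positivity))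
  have hopen : ∀ ε' : ℝ, IsOpen {p : Curve | ¬ Good t ε' c (AA K Q ε' p.path)} := by
    intro ε'
    exact (isClosed_good_curve (t := t) (δ := ε') (c := c) (e := ε') hQ hK hrep).isOpen_compl
  have h2 : ∀ ε' : ℝ, 0 < ε' →
      (μ : Measure Curve) {p : Curve | ¬ Good t ε' c (AA K Q ε' p.path)} ≤ ε := by
    intro ε' hε'
    refine (ProbabilityMeasure.le_liminf_measure_open_of_tendsto hμ (hopen ε')).trans ?_
    exact liminf_le_of_frequently_le (h1 ε' hε').frequently
  set Bd : ℕ → Set Curve := fun n =>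
    {p : Curve | ¬ Good t (1 / ((n : ℝ) + 1)) c (AA K Q (1 / ((n : ℝ) + 1)) p.path)} with hBd
  have hmono : Monotone Bd := by
    intro n n' hnn p hp hG
    apply hp
    have h3 := hG.anti (Nat.one_div_le_one_div (α := ℝ) hnn)
    exact h3.mono (AA_mono (Nat.one_div_le_one_div hnn) p.path)
  have h3 : {p : Curve | ¬ ENNReal.ofReal t ≤ dimH (T p.path)} ⊆ ⋃ n : ℕ, Bd n := by
    intro p hp
    by_contra hcon
    simp only [hBd, Set.mem_iUnion, Set.mem_ofPred_eq, not_exists, not_not] at hcon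
    apply hp
    have h4 : ∀ δ' : ℝ, 0 < δ' → Good t δ' c (AA K Q 0 p.path) := by
      intro δ' hδ'
      apply good_zero hQ hK
      intro n
      obtain ⟨m, hm⟩ := exists_nat_one_div_lt hδ'
      have h5 := hcon (max n m)
      have h6 : (1 : ℝ) / (((max n m : ℕ) : ℝ) + 1) ≤ 1 / ((n : ℝ) + 1) :=
        Nat.one_div_le_one_div (le_max_left _ _)
      have h7 : (1 : ℝ) / (((max n m : ℕ) : ℝ) + 1) ≤ 1 / ((m : ℝ) + 1) :=
        Nat.one_div_le_one_div (le_max_right _ _)
      exact (h5.mono (AA_mono h6 p.path)).anti (h7.trans hm.le)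
    exact (le_dimH_of_good ht hc (isCompact_AA hQ hK p.path) h4).trans (dimH_mono (hT0 p.path))
  refine le_trans (measure_mono h3) ?_
  rw [zero_add, hmono.measure_iUnion]
  exact iSup_le fun n => h2 _ (by positivity)

end Pool.Agent.Y997.OBL.LGC
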