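import Pool.Agent.Y997.OBL.StmL
import Pool.Agent.Y989.FR.StmA
import Pool.Agent.W822.PD.LL

/-!
# Outer boundary of the largest critical cluster: lower bound for the limits
-/

set_option autoImplicit false

namespace Pool.Agent.Y997.OBL.LIMO

open H974 H12S Finset H984P H984N H342P H342L H342T MeasureTheory Filter Topology
open Pool.Agent.W822.PD (Sqc Tr isClosed_curve isCompact_Sqc pt_dist pt_inj sd_castR)
open Pool.Agent.H389R2.Dim Pool.Agent.Y997.OBL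
open scoped ENNReal

/-! ### Measurability -/

/-- The approximate sets. -/
def AA (K : Set ℂ) (Q : ℕ → Set (C(unitInterval, ℂ) × ℂ)) (e : ℝ) (f : C(unitInterval, ℂ)) :
    Set ℂ := {z | z ∈ K ∧ ∀ k : ℕ, e ≤ 1 / ((k : ℝ) + 1) → (f, z) ∈ Q k}

theorem isOpen_sub {K O : Set ℂ} {Q : ℕ → Set (C(unitInterval, ℂ) × ℂ)} (hK : IsCompact K)
    (hQ : ∀ k, IsClosed (Q k)) (hO : IsOpen O) (e : ℝ) :
    IsOpen {f : C(unitInterval, ℂ) | AA K Q e f ⊆ O} := by
  have hK' : IsCompact (K \ O) := hK.diff hO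
  have : CompactSpace ↥(K \ O) := isCompact_iff_compactSpace.1 hK'
  let Z : Set (C(unitInterval, ℂ) × ↥(K \ O)) :=
    {p | ∀ k : ℕ, e ≤ 1 / ((k : ℝ) + 1) → (p.1, (p.2 : ℂ)) ∈ Q k}
  have hZ : IsClosed Z := by
    have h1 : Z = ⋂ k : ℕ, ⋂ _ : e ≤ 1 / ((k : ℝ) + 1),
        (fun p : C(unitInterval, ℂ) × ↥(K \ O) => (p.1, (p.2 : ℂ))) ⁻¹' Q k := by
      ext p; simp [Z]
    rw [h1]
    refine isClosed_iInter fun k => isClosed_iInter fun _ => ?_
    exact (hQ k).preimage (by fun_prop)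
  have h2 := isClosedMap_fst_of_compactSpace _ hZ
  have h3 : {f : C(unitInterval, ℂ) | AA K Q e f ⊆ O}ᶜ = Prod.fst '' Z := by
    ext f
    simp only [Set.mem_compl_iff, Set.mem_ofPred_eq, Set.not_subset, Set.mem_image, Prod.exists]
    constructor
    · rintro ⟨z, ⟨hz, h⟩, hzO⟩
      exact ⟨f, ⟨z, hz, hzO⟩, h, rfl⟩
    · rintro ⟨g, ⟨z, hz, hzO⟩, h, rfl⟩
      exact ⟨z, ⟨hz, h⟩, hzO⟩
  rw [← isClosed_compl_iff, h3]
  exact h2

theorem isClosed_good {t δ c e : ℝ} {K : Set ℂ} {Q : ℕ → Set (C(unitInterval, ℂ) × ℂ)}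
    (hK : IsCompact K) (hQ : ∀ k, IsClosed (Q k)) :
    IsClosed {f : C(unitInterval, ℂ) | Good t δ c (AA K Q e f)} := by
  have h : {f : C(unitInterval, ℂ) | Good t δ c (AA K Q e f)} =
      ⋂ s : Finset (ℂ × ℝ), {f : C(unitInterval, ℂ) | (∀ p ∈ s, δ ≤ p.2) →
        AA K Q e f ⊆ ⋃ p ∈ s, Metric.ball p.1 p.2 → c ≤ ∑ p ∈ s, p.2 ^ t} := by
    ext K; simp [Good]
  rw [h]
  apply isClosed_iInter
  intro s
  by_cases h1 : (∀ p ∈ s, δ ≤ p.2) ∧ ¬ c ≤ ∑ p ∈ s, p.2 ^ t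
  · have h2 : {f : C(unitInterval, ℂ) | (∀ p ∈ s, δ ≤ p.2) →
        AA K Q e f ⊆ ⋃ p ∈ s, Metric.ball p.1 p.2 → c ≤ ∑ p ∈ s, p.2 ^ t} =
        {f : C(unitInterval, ℂ) | AA K Q e f ⊆ ⋃ p ∈ s, Metric.ball p.1 p.2}ᶜ := by
      ext K
      simp only [Set.mem_ofPred_eq, Set.mem_compl_iff]
      constructor
      · intro h3 h4; exact h1.2 (h3 h1.1 h4)
      · intro h3 _ h4; exact absurd h4 h3
    rw [h2]
    exact (isOpen_sub hK hQ (isOpen_biUnion fun p _ => Metric.isOpen_ball) e).isClosed_compl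
  · have h2 : {f : C(unitInterval, ℂ) | (∀ p ∈ s, δ ≤ p.2) →
        AA K Q e f ⊆ ⋃ p ∈ s, Metric.ball p.1 p.2 → c ≤ ∑ p ∈ s, p.2 ^ t} = Set.univ := by
      ext K
      simp only [Set.mem_ofPred_eq, Set.mem_univ, iff_true]
      intro h3 _
      by_contra h4
      exact h1 ⟨h3, h4⟩
    rw [h2]; exact isClosed_univ

/-- Invariance under reparametrisation. -/
theorem Qu_rep {M R e : ℝ} {B N : ℕ} {f : C(unitInterval, ℂ)} (φ : unitInterval ≃o unitInterval)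
    {z : ℂ} (h : (f, z) ∈ Qu M R e B N) : (rep f φ, z) ∈ Qu M R e B N := by
  obtain ⟨h1, h2, ⟨s, hs⟩, x, h3, h4, h5, h6, h7⟩ := h
  refine ⟨fun s => h1 (φ s), h2, ⟨φ.symm s, ?_⟩, x, h3, h4, h5, h6, fun i s => h7 i (φ s)⟩
  show dist (rep f φ (φ.symm s)) z ≤ e
  rw [rep_apply, OrderIso.apply_symm_apply]
  exact hs

theorem isClosed_AA {t δ c e : ℝ} {K : Set ℂ} {Q : ℕ → Set (C(unitInterval, ℂ) × ℂ)}
    (hK : IsCompact K) (hQ : ∀ k, IsClosed (Q k))
    (hrep : ∀ k f (φ : unitInterval ≃o unitInterval) z, (f, z) ∈ Q k → (rep f φ, z) ∈ Q k) :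
    IsClosed {γ : Curve | Good t δ c (AA K Q e γ.path)} := by
  refine isClosed_curve (isClosed_good hK hQ) fun f φ h => ?_
  refine Good.mono h ?_
  rintro z ⟨hz, h1⟩
  exact ⟨hz, fun k hk => hrep k f φ z (h1 k hk)⟩

/-! ### Distances -/

theorem pt_le {n : ℕ} (hn : 0 < n) (v w : Vtx) :
    dist (pt n v) (pt n w) ≤ 2 * (((sd v w : ℤ) : ℝ) / n) := by
  have hn' : (0:ℝ) < n := by exact_mod_cast hn
  rw [sd_castR, dist_eq_norm]
  have e1 : |(pt n v - pt n w).re| = |((v.1 : ℝ) - w.1)| / n := by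
    rw [Complex.sub_re]
    simp only [pt]
    rw [← sub_div, abs_div, Nat.abs_cast]
  have e2 : |(pt n v - pt n w).im| = |((v.2 : ℝ) - w.2)| / n := by
    rw [Complex.sub_im]
    simp only [pt]
    rw [← sub_div, abs_div, Nat.abs_cast]
  refine (Complex.norm_le_abs_re_add_abs_im _).trans ?_
  rw [e1, e2]
  have h1 : |((v.1 : ℝ) - w.1)| / n ≤ max |((v.1 : ℝ) - w.1)| |((v.2 : ℝ) - w.2)| / n :=
    div_le_div_of_nonneg_right (le_max_left _ _) hn'.le
  have h2 : |((v.2 : ℝ) - w.2)| / n ≤ max |((v.1 : ℝ) - w.1)| |((v.2 : ℝ) - w.2)| / n :=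
    div_le_div_of_nonneg_right (le_max_right _ _) hn'.le
  linarith

theorem pt_zero (n : ℕ) : pt n (0, 0) = 0 := by
  apply Complex.ext <;> simp [pt]

theorem pt_norm_le {n : ℕ} (hn : 0 < n) (v : Vtx) :
    ‖pt n v‖ ≤ 2 * (((sd v (0, 0) : ℤ) : ℝ) / n) := by
  have := pt_le hn v (0, 0)
  rwa [pt_zero, dist_zero_right] at this

theorem le_pt_norm {n : ℕ} (hn : 0 < n) (v : Vtx) :
    (((sd v (0, 0) : ℤ) : ℝ) / n) ≤ ‖pt n v‖ := by
  have := pt_dist hn v (0, 0)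
  rw [pt_zero, dist_zero_right] at this
  rwa [div_eq_inv_mul]

theorem sd_nonneg (v w : Vtx) : 0 ≤ sd v w := le_trans (abs_nonneg _) (le_max_left _ _)

theorem sd_tri (u v w : Vtx) : sd u w ≤ sd u v + sd v w := by
  unfold sd
  rcases max_cases |u.1 - w.1| |u.2 - w.2| with ⟨h, -⟩ | ⟨h, -⟩
  · rw [h]
    have h1 := abs_sub_le u.1 v.1 w.1
    have h2 := le_max_left |u.1 - v.1| |u.2 - v.2|
    have h3 := le_max_left |v.1 - w.1| |v.2 - w.2|
    linarith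
  · rw [h]
    have h1 := abs_sub_le u.2 v.2 w.2
    have h2 := le_max_right |u.1 - v.1| |u.2 - v.2|
    have h3 := le_max_right |v.1 - w.1| |v.2 - w.2|
    linarith

theorem sd_comm (u v : Vtx) : sd u v = sd v u := by
  unfold sd
  rw [abs_sub_comm u.1, abs_sub_comm u.2]

theorem sd_edge (e : Edg) : sd (src e) (tgt e) ≤ 1 := by
  obtain ⟨x, y, _ | _⟩ := e
  · unfold sd
    simp only [src_mk, tgt_false]
    refine max_le ?_ ?_ <;> rw [abs_le] <;> constructor <;> omega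
  · unfold sd
    simp only [src_mk, tgt_true]
    refine max_le ?_ ?_ <;> rw [abs_le] <;> constructor <;> omega

theorem sd_adj {S : Set Edg} {u v : Vtx} (h : Adj S u v) : sd u v ≤ 1 := by
  obtain ⟨e, -, ⟨h1, h2⟩ | ⟨h1, h2⟩⟩ := h
  · rw [← h1, ← h2]; exact sd_edge e
  · rw [← h1, ← h2, sd_comm]; exact sd_edge e

theorem sd_bdB {v x : Vtx} {n : ℕ} (h : x ∈ bdB v n) : sd x v = n := by
  unfold bdB at h
  obtain ⟨h1, h2, h3⟩ := h
  unfold sd
  rcases h3 with h3 | h3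
  · rw [h3]; exact max_eq_left h2
  · rw [h3]; exact max_eq_right h1

theorem norm_Sqc {z : ℂ} (h : z ∈ Sqc) : ‖z‖ ≤ 2 := by
  obtain ⟨h1, h2, h3, h4⟩ := h
  refine (Complex.norm_le_abs_re_add_abs_im z).trans ?_
  rw [abs_of_nonneg h1, abs_of_nonneg h3]
  linarith

/-! ### The chain -/

/-- The points of the thick path. -/
def SP (M B n : ℕ) (w : Vtx) (c : Curve) : Set ℂ :=
  {z | ∃ u, sd u (0, 0) ≤ 4 * (n : ℤ) ∧ KeC M B n w c u ∧ z = pt n u}

/-- Truncation of a path at its first vertex at distance `4 n`. -/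
theorem chain {M B n : ℕ} (hn : 0 < n) {w : Vtx} {c : Curve} {e : ℝ} (he : 2 / (n : ℝ) ≤ e)
    {x y : Vtx} (hx : sd x (0, 0) < 4 * (n : ℤ))
    (h : Reach {e | KeC M B n w c (src e) ∧ KeC M B n w c (tgt e)} x y) :
    (sd y (0, 0) < 4 * (n : ℤ) ∧
      Relation.ReflTransGen (fun a b => b ∈ SP M B n w c ∧ dist a b ≤ e) (pt n x) (pt n y)) ∨
    ∃ y' : Vtx, 4 * (n : ℤ) ≤ sd y' (0, 0) ∧
      Relation.ReflTransGen (fun a b => b ∈ SP M B n w c ∧ dist a b ≤ e) (pt n x) (pt n y') := by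
  have hn' : (0:ℝ) < n := by exact_mod_cast hn
  induction h with
  | refl => exact Or.inl ⟨hx, Relation.ReflTransGen.refl⟩
  | @tail b d _ hs ih =>
    rcases ih with ⟨h1, h2⟩ | h
    · have h3 := sd_adj hs
      have h4 : KeC M B n w c d := by
        obtain ⟨g, ⟨h5, h6⟩, ⟨h7, h8⟩ | ⟨h7, h8⟩⟩ := hs
        · rw [← h8]; exact h6
        · rw [← h7]; exact h5
      have h5 : sd d (0, 0) ≤ 4 * (n : ℤ) := by
        have := sd_tri d b (0, 0)
        rw [sd_comm d b] at this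
        omega
      have h6 : dist (pt n b) (pt n d) ≤ e := by
        refine (pt_le hn b d).trans (le_trans ?_ he)
        have : ((sd b d : ℤ) : ℝ) ≤ 1 := by exact_mod_cast h3
        have := div_le_div_of_nonneg_right this hn'.le
        calc 2 * (((sd b d : ℤ) : ℝ) / n) ≤ 2 * (1 / n) := by linarith
          _ = 2 / n := by ring
      have h7 := h2.tail (show (fun a b => b ∈ SP M B n w c ∧ dist a b ≤ e) (pt n b) (pt n d) from
        ⟨⟨d, h5, h4, rfl⟩, h6⟩)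
      rcases lt_or_ge (sd d (0, 0)) (4 * (n : ℤ)) with h8 | h8
      · exact Or.inl ⟨h8, h7⟩
      · exact Or.inr ⟨d, h8, h7⟩
    · exact Or.inr h

theorem start {M B n : ℕ} {w : Vtx} {c : Curve} {x y : Vtx}
    (h : Reach {e | KeC M B n w c (src e) ∧ KeC M B n w c (tgt e)} x y) (hxy : x ≠ y) :
    KeC M B n w c x := by
  rcases Relation.ReflTransGen.cases_head h with h | ⟨d, ⟨g, ⟨h1, h2⟩, h4⟩, -⟩
  · exact absurd h hxy
  · rcases h4 with ⟨h6, h7⟩ | ⟨h6, h7⟩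
    · rw [← h6]; exact h1
    · rw [← h7]; exact h2

theorem away {M B n : ℕ} (hn : 0 < n) (hB : 1 ≤ B) {w u : Vtx} {c : Curve}
    (h : KeC M B n w c u) (s : unitInterval) :
    (min (dist (pt n u) (pt n w)) 1) ^ B ≤
      (2 : ℝ) ^ B * M * dist (pt n u) (c.path s) + (2 : ℝ) ^ B * M / n := by
  have hn' : (0:ℝ) < n := by exact_mod_cast hn
  have h1 := h s
  obtain ⟨b, rfl⟩ : ∃ b, B = b + 1 := ⟨B - 1, by omega⟩
  simp only [Nat.add_sub_cancel] at h1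
  have h0 : (0:ℝ) ≤ ((sd u w : ℤ) : ℝ) := by exact_mod_cast sd_nonneg u w
  set m : ℝ := ((min (sd u w) (n : ℤ) : ℤ) : ℝ) with hm
  have hm0 : 0 ≤ m := by
    rw [hm]
    exact_mod_cast le_min (sd_nonneg u w) (by positivity)
  have h2 : min (dist (pt n u) (pt n w)) 1 ≤ 2 * (m / n) := by
    have h3 := pt_le hn u w
    rw [hm]
    rcases min_cases (sd u w) (n : ℤ) with ⟨h4, -⟩ | ⟨h4, -⟩
    · rw [h4]
      exact (min_le_left _ _).trans h3
    · rw [h4]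
      refine (min_le_right _ _).trans ?_
      rw [Int.cast_natCast, div_self hn'.ne']
      norm_num
  have h3 : 0 ≤ min (dist (pt n u) (pt n w)) 1 := le_min dist_nonneg zero_le_one
  calc (min (dist (pt n u) (pt n w)) 1) ^ (b + 1) ≤ (2 * (m / n)) ^ (b + 1) :=
        pow_le_pow_left₀ h3 h2 _
    _ = 2 ^ (b + 1) / (n : ℝ) ^ (b + 1) * m ^ (b + 1) := by
        rw [mul_pow, div_pow]; ring
    _ ≤ 2 ^ (b + 1) / (n : ℝ) ^ (b + 1) *
        (M * (n : ℝ) ^ b * (n * dist (pt n u) (c.path s) + 1)) := by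
        exact mul_le_mul_of_nonneg_left h1 (by positivity)
    _ = (2 : ℝ) ^ (b + 1) * M * dist (pt n u) (c.path s) + (2 : ℝ) ^ (b + 1) * M / n := by
        rw [pow_succ (n : ℝ) b]
        field_simp

/-- Accessible vertices give points of the approximate sets. -/
theorem mem_Qu (h5 : S_CURO) {n : ℕ} (hn : 0 < n) {F : Finset Plain.Edge}
    (hF : F ⊆ Plain.edges n) {v w : Vtx} {M B : ℕ} (hB : 1 ≤ B) {c : Curve}
    (hv : inR 0 n 0 n v) (htr : IsTrace n F v c) (hr : Reach (↑F : Set Edg) v w)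
    (hth : ThO M B n (CV (↑F : Set Edg) v) w) {e : ℝ} (he : 4 / (n : ℝ) ≤ e)
    (he' : (2 : ℝ) ^ B * M / n ≤ e) {N : ℕ}
    (hN : ∀ (S : Set ℂ) (a b : ℂ), (∀ x ∈ S, ‖x‖ ≤ 8) →
      a ∈ S → Relation.ReflTransGen (fun x y => y ∈ S ∧ dist x y ≤ e) a b →
      ∃ x : Fin (N + 1) → ℂ, (∀ i, x i ∈ S) ∧ x 0 = a ∧ x (Fin.last N) = b ∧
      ∀ i : Fin N, dist (x i.castSucc) (x i.succ) ≤ e) :
    pt n w ∈ Sqc ∧ (c.path, pt n w) ∈ Qu ((2 : ℝ) ^ B * M) 8 e B N := by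
  have hn' : (0:ℝ) < n := by exact_mod_cast hn
  obtain ⟨hw, hc, hd, x, hx, y, hy, hxy⟩ := h5 n F v w M B c hn hF hv htr hB hr hth
  refine ⟨hw, fun s => norm_Sqc (hc s), norm_Sqc hw, ?_, ?_⟩
  · obtain ⟨s, hs⟩ := hd
    exact ⟨s, hs.trans he⟩
  · -- the vertex `w` is in the box
    have hw0 : sd w (0, 0) ≤ n := by
      obtain ⟨g1, g2, g3, g4⟩ := hw
      simp only [pt] at g1 g2 g3 g4
      rw [div_le_one hn'] at g2 g4
      have g1' : (0:ℝ) ≤ w.1 := by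
        have := mul_nonneg g1 hn'.le
        rwa [div_mul_cancel₀ _ hn'.ne'] at this
      have g3' : (0:ℝ) ≤ w.2 := by
        have := mul_nonneg g3 hn'.le
        rwa [div_mul_cancel₀ _ hn'.ne'] at this
      have k1 : 0 ≤ w.1 := by exact_mod_cast g1'
      have k2 : w.1 ≤ n := by exact_mod_cast g2
      have k3 : 0 ≤ w.2 := by exact_mod_cast g3'
      have k4 : w.2 ≤ n := by exact_mod_cast g4
      unfold sd
      simp only [sub_zero]
      refine max_le ?_ ?_ <;> rw [abs_le] <;> constructor <;> omega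
    have hxs := sd_bdB hx
    have hx0 : sd x (0, 0) < 4 * (n : ℤ) := by
      have h1 := sd_tri x w (0, 0)
      rw [hxs] at h1
      have h2 : (1 : ℤ) ≤ n := by exact_mod_cast hn
      push_cast at h1
      omega
    have hne : x ≠ y := by
      rintro rfl
      omega
    obtain ⟨y', hy', hch⟩ : ∃ y' : Vtx, 4 * (n : ℤ) ≤ sd y' (0, 0) ∧
        Relation.ReflTransGen (fun a b => b ∈ SP M B n w c ∧ dist a b ≤ e)
          (pt n x) (pt n y') := by
      rcases chain hn (e := e) (le_trans (by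
        apply div_le_div_of_nonneg_right (by norm_num) hn'.le) he) hx0 hxy with ⟨h1, -⟩ | h
      · omega
      · exact h
    have hbd : ∀ z ∈ SP M B n w c, ‖z‖ ≤ 8 := by
      rintro z ⟨u, hu, -, rfl⟩
      refine (pt_norm_le hn u).trans ?_
      have h1 : ((sd u (0, 0) : ℤ) : ℝ) ≤ 4 * n := by exact_mod_cast hu
      have h2 : ((sd u (0, 0) : ℤ) : ℝ) / n ≤ 4 := by
        rw [div_le_iff₀ hn']
        exact h1
      linarith
    obtain ⟨X, h1, h2, h3, h4⟩ := hN (SP M B n w c) (pt n x) (pt n y') hbd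
      ⟨x, hx0.le, start hxy hne, rfl⟩ hch
    refine ⟨X, fun i => hbd _ (h1 i), ?_, ?_, h4, ?_⟩
    · show dist (X 0) (pt n w) ≤ e
      rw [h2]
      refine (pt_le hn x w).trans (le_trans (le_of_eq ?_) he)
      rw [hxs]
      push_cast
      ring
    · rw [h3]
      have k1 := le_pt_norm hn y'
      have k2 : (4 : ℝ) ≤ ((sd y' (0, 0) : ℤ) : ℝ) / n := by
        rw [le_div_iff₀ hn']
        exact_mod_cast hy'
      have k3 : 0 ≤ e := le_trans (by positivity) he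
      linarith
    · intro i s
      show (min (dist (X i) (pt n w)) 1) ^ B ≤ (2 : ℝ) ^ B * M * dist (X i) (c.path s) + e
      obtain ⟨u, -, hu, hz⟩ := h1 i
      rw [hz]
      have := away hn hB hu s
      linarith

/-- Many vertices with small energy make a set good. -/
theorem good_of_V {n : ℕ} (hn : 0 < n) {t c0 E0 ε' : ℝ} (ht : 0 < t) (hc0 : 0 < c0)
    (hE0 : 0 < E0) (hε' : 1 / (n : ℝ) ≤ ε') {V : Finset Vtx}
    (hcard : c0 * (n : ℝ) ^ (4 / 3 : ℝ) ≤ (V.card : ℝ))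
    (hEn : EnV t V ≤ E0 * (n : ℝ) ^ (8 / 3 - t)) {T : Set ℂ} (hT : ∀ w ∈ V, pt n w ∈ T) :
    Good t ε' (2 ^ (-t) / (E0 / c0 ^ 2)) T := by
  classical
  have hn' : (0:ℝ) < n := by exact_mod_cast hn
  have hcpos : (0 : ℝ) < (V.card : ℝ) := lt_of_lt_of_le (by positivity) hcard
  have hne : V.Nonempty := by
    rw [← Finset.card_pos]; exact_mod_cast hcpos
  have hε0 : 0 < ε' := lt_of_lt_of_le (by positivity) hε'
  refine good_of_energy hε0 ht.le (by positivity) (V.image (pt n)) (hne.image _) ?_ ?_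
  · intro z hz
    rw [Finset.mem_coe, Finset.mem_image] at hz
    obtain ⟨w, hw, rfl⟩ := hz
    exact hT w hw
  · rw [Finset.sum_image (fun a _ b _ hab => pt_inj hn hab),
      Finset.card_image_of_injective _ (pt_inj hn)]
    have e1 : ∀ v ∈ V, ∑ y ∈ V.image (pt n), (max (dist (pt n v) y) ε') ^ (-t) ≤
        ∑ w ∈ V, ((n:ℝ)⁻¹) ^ (-t) * ((max (sd v w) 1 : ℤ) : ℝ) ^ (-t) := by
      intro v _
      rw [Finset.sum_image (fun a _ b _ hab => pt_inj hn hab)]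
      refine Finset.sum_le_sum fun w _ => ?_
      have hm : (1 : ℝ) ≤ ((max (sd v w) 1 : ℤ) : ℝ) := by
        exact_mod_cast le_max_right (sd v w) 1
      rw [← Real.mul_rpow (by positivity) (by linarith)]
      refine Real.rpow_le_rpow_of_nonpos (by positivity) ?_ (by linarith)
      have h6 := pt_dist hn v w
      rcases max_cases (sd v w) 1 with h | h
      · rw [h.1]; exact h6.trans (le_max_left _ _)
      · rw [h.1]; push_cast; rw [mul_one]
        refine le_trans ?_ (le_max_right _ _)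
        rwa [one_div] at hε'
    refine (Finset.sum_le_sum e1).trans ?_
    have e2 : ∑ v ∈ V, ∑ w ∈ V, ((n:ℝ)⁻¹) ^ (-t) * ((max (sd v w) 1 : ℤ) : ℝ) ^ (-t)
        = ((n:ℝ)⁻¹) ^ (-t) * EnV t V := by
      unfold EnV
      rw [Finset.mul_sum]
      refine Finset.sum_congr rfl fun v _ => ?_
      rw [Finset.mul_sum]
    rw [e2]
    have e3 : (c0 * (n : ℝ) ^ (4/3 : ℝ)) ^ 2 ≤ (V.card : ℝ) ^ 2 :=
      pow_le_pow_left₀ (by positivity) hcard 2
    have e4 : (c0 * (n : ℝ) ^ (4/3 : ℝ)) ^ 2 = c0 ^ 2 * (n : ℝ) ^ (8/3 : ℝ) := by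
      rw [mul_pow, ← Real.rpow_natCast ((n : ℝ) ^ (4/3 : ℝ)) 2, ← Real.rpow_mul hn'.le]
      norm_num
    rw [e4] at e3
    have e5 : ((n:ℝ)⁻¹) ^ (-t) = (n:ℝ) ^ t := by
      rw [Real.inv_rpow hn'.le, Real.rpow_neg hn'.le, inv_inv]
    rw [e5]
    calc (n:ℝ) ^ t * EnV t V ≤ (n:ℝ) ^ t * (E0 * (n : ℝ) ^ (8/3 - t)) :=
          mul_le_mul_of_nonneg_left hEn (by positivity)
      _ = E0 / c0 ^ 2 * (c0 ^ 2 * (n : ℝ) ^ (8/3 : ℝ)) := by
          have : (n:ℝ) ^ t * (n : ℝ) ^ (8/3 - t) = (n : ℝ) ^ (8/3 : ℝ) := by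
            rw [← Real.rpow_add hn']
            congr 1
            ring
          rw [← this]
          field_simp
      _ ≤ E0 / c0 ^ 2 * (V.card : ℝ) ^ 2 := mul_le_mul_of_nonneg_left e3 (by positivity)

theorem t_LIMO (h1 : S_OPAR) (h2 : S_QCU) (h3 : S_GEOU) (h4 : S_LGC) (h5 : S_CURO)
    (h6 : Pool.Agent.Y989.FR.S_CHN) : S_LIMO := by
  intro sel γ ⟨hsel, htr⟩ k hk μ hμ t ht ht1
  refine h4 _ μ hμ t ht (fun f => OBd (Set.range f)) ?_
  intro ε hε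
  obtain ⟨δ, hδ, hδε⟩ : ∃ δ : ℝ, 0 < δ ∧ ENNReal.ofReal δ ≤ ε := by
    rcases eq_or_ne ε ∞ with h | h
    · exact ⟨1, one_pos, by rw [h]; exact le_top⟩
    · exact ⟨ε.toReal, ENNReal.toReal_pos hε.ne' h, by rw [ENNReal.ofReal_toReal h]⟩
  obtain ⟨M, B, c0, E0, hM, hB, hc0, hE0, n0, hn0⟩ := h1 t ht ht1 δ hδ
  have hpos : ∀ j : ℕ, (0:ℝ) < 1 / ((j : ℝ) + 1) := fun j => by positivity
  choose NN hNN using fun j : ℕ => h6 8 (1 / ((j : ℝ) + 1)) (hpos j)
  set Q : ℕ → Set (C(unitInterval, ℂ) × ℂ) := fun j =>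
    Qu ((2 : ℝ) ^ B * M) 8 (1 / ((j : ℝ) + 1)) B (NN j) with hQ
  have hQc : ∀ j, IsClosed (Q j) := fun j => h2 _ _ _ _ _
  have hQr : ∀ j f (φ : unitInterval ≃o unitInterval) z, (f, z) ∈ Q j → (rep f φ, z) ∈ Q j :=
    fun j f φ z h => Qu_rep φ h
  have hM' : (0:ℝ) < (2 : ℝ) ^ B * M := by
    have : (0:ℝ) < M := by exact_mod_cast hM
    positivity
  refine ⟨2 ^ (-t) / (E0 / c0 ^ 2), Sqc, Q, by positivity, isCompact_Sqc, hQc, hQr, ?_, ?_⟩
  · intro f z _ hz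
    exact h3 _ 8 B NN f z hM' hB hz
  · intro ε' hε'
    obtain ⟨n1, hn1⟩ := exists_nat_gt (4 / ε')
    obtain ⟨n2, hn2⟩ := exists_nat_gt ((2 : ℝ) ^ B * M / ε')
    have hev : ∀ᶠ i in atTop, max (max n0 n1) (max n2 1) ≤ k i := tendsto_atTop.mp hk _
    filter_upwards [hev] with i hi
    rw [max_le_iff, max_le_iff, max_le_iff] at hi
    obtain ⟨⟨hi0, hi1⟩, hi2, hi3⟩ := hi
    have hopen : IsOpen {p : Curve |
        ¬ Good t ε' (2 ^ (-t) / (E0 / c0 ^ 2)) (AA Sqc Q ε' p.path)} :=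
      (isClosed_AA isCompact_Sqc hQc hQr).isOpen_compl
    change (lawOf (k i) (γ (k i)) : Measure Curve) {p : Curve |
        ¬ Good t ε' (2 ^ (-t) / (E0 / c0 ^ 2)) (AA Sqc Q ε' p.path)} ≤ ε
    rw [lawOf_apply _ _ hopen.measurableSet]
    refine le_trans (ENNReal.ofReal_le_ofReal ?_) hδε
    have hkpos : (0:ℝ) < k i := by exact_mod_cast hi3
    have hk1 : (n1 : ℝ) ≤ k i := by exact_mod_cast hi1
    have hk2 : (n2 : ℝ) ≤ k i := by exact_mod_cast hi2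
    have e1 : 4 / (k i : ℝ) ≤ ε' := by
      rw [div_le_iff₀ hkpos]
      rw [div_lt_iff₀ hε'] at hn1
      nlinarith
    have e2 : (2 : ℝ) ^ B * M / (k i : ℝ) ≤ ε' := by
      rw [div_le_iff₀ hkpos]
      rw [div_lt_iff₀ hε'] at hn2
      nlinarith
    refine le_trans (Plain.prob_le_of_pr ?_) (hn0 (k i) hi0)
    intro F hF hbad
    have hL := hsel (k i) F hi3 hF
    refine ⟨sel (k i) F, Plain.isMax_of_largest hL, fun hcon => hbad ?_⟩
    obtain ⟨V, hcard, hEn, hV⟩ := hcon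
    refine good_of_V hi3 ht hc0 hE0 (le_trans ?_ e1) hcard hEn ?_
    · apply div_le_div_of_nonneg_right (by norm_num) hkpos.le
    · intro w hw
      have hin : inR 0 (k i) 0 (k i) (sel (k i) F) := by
        have hb := hL.1
        unfold Plain.box at hb
        rw [Finset.mem_product, Finset.mem_Icc, Finset.mem_Icc] at hb
        exact ⟨hb.1, hb.2⟩
      have key : ∀ j : ℕ, ε' ≤ 1 / ((j : ℝ) + 1) → pt (k i) w ∈ Sqc ∧
          ((γ (k i) F).path, pt (k i) w) ∈ Q j := by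
        intro j hj
        exact mem_Qu h5 hi3 hF hB hin (htr _ _ hi3 hF) (hV w hw).1 (hV w hw).2
          (e1.trans hj) (e2.trans hj) (hNN j)
      refine ⟨?_, fun j hj => (key j hj).2⟩
      exact (h5 (k i) F _ w M B _ hi3 hF hin (htr _ _ hi3 hF) hB (hV w hw).1 (hV w hw).2).1

end Pool.Agent.Y997.OBL.LIMO
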