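import Pool.Agent.Y997.OBL.Stm

/-!
OBL-LOC: on which edges the events at one scale depend, and monotonicity in the common tube
(job 3125, helper185).
-/

set_option autoImplicit false

namespace Pool.Agent.Y997.OBL.LOC

open H974 H12S Finset H984P H984N Pool.Agent.Y989.FR Pool.Agent.Y997.OBL
open Pool.Agent.W92.DP (DTB DLR shc)

theorem inter_congr {F F' S : Set Edg} (h : ∀ e ∈ S, (e ∈ F ↔ e ∈ F')) : F ∩ S = F' ∩ S := by
  ext e
  constructor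
  · rintro ⟨h1, h2⟩; exact ⟨(h e h2).1 h1, h2⟩
  · rintro ⟨h1, h2⟩; exact ⟨(h e h2).2 h1, h2⟩

theorem mem_boxE_true {m : ℕ} {x y : ℤ} :
    ((x, y, true) : Edg) ∈ boxE m ↔ -(m : ℤ) ≤ x ∧ x < m ∧ -(m : ℤ) ≤ y ∧ y ≤ m := by
  unfold boxE; simp

theorem mem_boxE_false {m : ℕ} {x y : ℤ} :
    ((x, y, false) : Edg) ∈ boxE m ↔ -(m : ℤ) ≤ x ∧ x ≤ m ∧ -(m : ℤ) ≤ y ∧ y < m := by
  unfold boxE; simp

theorem mem_blk_true {c : ℤ × ℤ} {m : ℕ} {x y : ℤ} : ((x, y, true) : Edg) ∈ blk c m ↔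
    c.1 - (m : ℤ) ≤ x ∧ x < c.1 + m ∧ c.2 - (m : ℤ) ≤ y ∧ y ≤ c.2 + m := by
  unfold blk; simp

theorem mem_blk_false {c : ℤ × ℤ} {m : ℕ} {x y : ℤ} : ((x, y, false) : Edg) ∈ blk c m ↔
    c.1 - (m : ℤ) ≤ x ∧ x ≤ c.1 + m ∧ c.2 - (m : ℤ) ≤ y ∧ y < c.2 + m := by
  unfold blk; simp

/-! ### The one-vertex events -/

theorem boxE_mono {r s : ℕ} (h : r ≤ s) : boxE r ⊆ boxE s := by
  rintro ⟨x, y, b⟩ he
  cases b
  · rw [mem_boxE_false] at he ⊢; omega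
  · rw [mem_boxE_true] at he ⊢; omega

theorem BBo_congr {k h : ℕ} {F F' : Set Edg}
    (hh : ∀ e ∈ boxE (k + 10 * h), (e ∈ F ↔ e ∈ F')) : BBo k h F = BBo k h F' := by
  unfold BBo
  rw [inter_congr (S := ↑(boxE (k + 10 * h))) (fun e he => hh e he)]

theorem BBo_mono {k h : ℕ} {F F' : Set Edg} (hF : F' ⊆ F) : BBo k h F' ⊆ BBo k h F := by
  rintro c ⟨h1, w, h2, h3⟩
  exact ⟨h1, w, h2, h3.mono (Set.inter_subset_inter_left _ hF)⟩

theorem Zo_congr {M B k h : ℕ} {p : ℤ} {F F' : Set Edg}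
    (hh : ∀ e ∈ boxE (k + 10 * h), (e ∈ F ↔ e ∈ F')) : Zo M B k h p F ↔ Zo M B k h p F' := by
  unfold Zo
  rw [BBo_congr hh]

theorem Thk_anti {M B k h : ℕ} {p : ℤ} {C C' : Set Vtx} (hC : C' ⊆ C) :
    Thk M B k h p C → Thk M B k h p C' := by
  rintro ⟨x, hx, y1, h1, h2, h3⟩
  refine ⟨x, hx, y1, h1, h2, h3.mono ?_⟩
  rintro e ⟨e1, e2, e3⟩
  exact ⟨e1, fun c hc => e2 c (hC hc), fun c hc => e3 c (hC hc)⟩

theorem Zo_anti {M B k h : ℕ} {p : ℤ} {F F' : Set Edg} (hF : F' ⊆ F) :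
    Zo M B k h p F → Zo M B k h p F' := by
  rintro ⟨h1, h2⟩
  exact ⟨Thk_anti (BBo_mono hF) h1, fun c hc => h2 c (BBo_mono hF hc)⟩

theorem Top_congr {k h : ℕ} {p : ℤ} {F F' : Set Edg}
    (hh : ∀ e ∈ boxE (k + 14 * h), e ∉ Tb k h p → (e ∈ F ↔ e ∈ F')) :
    Top k h p F → Top k h p F' := by
  rintro ⟨s, t, h1, h2, h3, h4⟩
  refine ⟨s, t, h1, h2, h3.mono ?_, h4.mono ?_⟩
  · rintro e ⟨e1, e2⟩
    refine ⟨(hh e ?_ ?_).1 e1, e2⟩
    · obtain ⟨x, y, b⟩ := e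
      cases b
      · rw [Finset.mem_coe, mem_RE_false] at e2
        rw [mem_boxE_false]; push_cast; omega
      · rw [Finset.mem_coe, mem_RE_true] at e2
        rw [mem_boxE_true]; push_cast; omega
    · intro e3
      obtain ⟨x, y, b⟩ := e
      unfold Tb at e3
      cases b
      · rw [Finset.mem_coe, mem_RE_false] at e2
        rw [mem_RE_false] at e3; omega
      · rw [Finset.mem_coe, mem_RE_true] at e2
        rw [mem_RE_true] at e3; omega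
  · rintro e ⟨⟨e1, e2⟩, e3⟩
    exact ⟨⟨(hh e e2 e3).1 e1, e2⟩, e3⟩

/-- the shifted edge -/
def she (v : Vtx) (e : Edg) : Edg := (e.1 + v.1, e.2.1 + v.2, e.2.2)

theorem mem_shc {v : Vtx} {F : Set Edg} {e : Edg} : e ∈ shc v F ↔ she v e ∈ F := Iff.rfl

theorem she_blk {v : Vtx} {r : ℕ} {e : Edg} (he : e ∈ boxE r) : she v e ∈ blk v r := by
  obtain ⟨x, y, b⟩ := e
  cases b
  · rw [mem_boxE_false] at he
    change ((x + v.1, y + v.2, false) : Edg) ∈ blk v r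
    rw [mem_blk_false]; omega
  · rw [mem_boxE_true] at he
    change ((x + v.1, y + v.2, true) : Edg) ∈ blk v r
    rw [mem_blk_true]; omega

theorem shc_mono {v : Vtx} {F F' : Set Edg} (h : F' ⊆ F) : shc v F' ⊆ shc v F :=
  fun _ he => h he

theorem Gv_of {M B k h : ℕ} {p : ℤ} {v : Vtx} {F F' : Set Edg}
    (hh : ∀ e ∈ blk v (k + 14 * h), (e ∈ F ↔ e ∈ F')) :
    Gv M B k h p v F → Gv M B k h p v F' := by
  rintro ⟨h1, h2⟩
  refine ⟨(Zo_congr ?_).1 h1, Top_congr ?_ h2⟩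
  · intro e he
    exact hh _ (she_blk (boxE_mono (by omega) he))
  · intro e he _
    exact hh _ (she_blk he)

theorem Gv_congr {M B k h : ℕ} {p : ℤ} {v : Vtx} {F F' : Set Edg}
    (hh : ∀ e ∈ blk v (k + 14 * h), (e ∈ F ↔ e ∈ F')) :
    Gv M B k h p v F ↔ Gv M B k h p v F' :=
  ⟨Gv_of hh, Gv_of fun e he => (hh e he).symm⟩

/-! ### Geometry -/

section geo

variable {k h a m : ℕ} {p : ℤ} {v : Vtx}

theorem Qc_iff : v ∈ Qc a k h ↔ (3 * (a : ℤ) - h ≤ v.1 ∧ v.1 ≤ 3 * (a : ℤ) + h) ∧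
    (4 * (k : ℤ) - h ≤ v.2 ∧ v.2 ≤ 4 * (k : ℤ) + h) := by
  unfold Qc
  rw [Finset.mem_product, Finset.mem_Icc, Finset.mem_Icc]

theorem blk_coord {r : ℕ} {e : Edg} (he : e ∈ blk v r) :
    (v.1 - (r : ℤ) ≤ (src e).1 ∧ (src e).1 ≤ v.1 + r) ∧
      (v.2 - (r : ℤ) ≤ (src e).2 ∧ (src e).2 ≤ v.2 + r) := by
  obtain ⟨x, y, b⟩ := e
  cases b
  · rw [mem_blk_false] at he; simp only [src_mk]; omega
  · rw [mem_blk_true] at he; simp only [src_mk]; omega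

theorem blk_AE (h1 : 1 ≤ h) (h2 : 64 * h ≤ k) (h3 : 8 * k ≤ a) (hv : v ∈ Qc a k h) {e : Edg}
    (he : e ∈ blk v (k + 14 * h)) : e ∈ AE (0, 0) a (8 * a) := by
  rw [Qc_iff] at hv
  unfold AE
  rw [Finset.mem_coe, Finset.mem_sdiff]
  obtain ⟨x, y, b⟩ := e
  cases b
  · rw [mem_blk_false] at he
    rw [mem_blk_false, mem_blk_false]
    push_cast at *
    omega
  · rw [mem_blk_true] at he
    rw [mem_blk_true, mem_blk_true]
    push_cast at *
    omega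

theorem blk_AE2 (h1 : 1 ≤ h) (h2 : 64 * h ≤ k) (h3 : 8 * k ≤ a) (hv : v ∈ Qc a k h) {e : Edg}
    (he : e ∈ blk v (k + 14 * h)) : e ∈ AE (0, 0) (2 * a) (4 * a) := by
  rw [Qc_iff] at hv
  unfold AE
  rw [Finset.mem_coe, Finset.mem_sdiff]
  obtain ⟨x, y, b⟩ := e
  cases b
  · rw [mem_blk_false] at he
    rw [mem_blk_false, mem_blk_false]
    push_cast at *
    omega
  · rw [mem_blk_true] at he
    rw [mem_blk_true, mem_blk_true]
    push_cast at *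
    omega

theorem blk_MM (hZU : S_ZU) (h1 : 1 ≤ h) (h2 : 64 * h ≤ k) (h3 : 8 * k ≤ a) (h4 : 8 * a ≤ m)
    (hv : v ∈ Qc a k h) {X : Set Vtx} (hX : NiceZ a (8 * k) X) {e : Edg}
    (he : e ∈ blk v (k + 14 * h)) : e ∈ MM m a k X := by
  have hq := Qc_iff.1 hv
  have hc := blk_coord he
  push_cast at hc
  refine ⟨blk_AE2 h1 h2 h3 hv he, ?_, Or.inl ?_⟩
  · intro hR
    obtain ⟨x, y, b⟩ := e
    simp only [src_mk] at hc
    cases b
    · rw [mem_RE_false] at hR; omega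
    · rw [mem_RE_true] at hR; omega
  · refine hZU m a (8 * k) X (by omega) (by omega) h4 h3 hX (src e) ?_ ?_ ?_ ?_
    · omega
    · omega
    · omega
    · push_cast; omega

theorem tube (hv : v ∈ Qc a k h) {e : Edg}
    (he : e ∈ boxE (k + 14 * h)) (hn : e ∉ Tb k h p) : she v e ∉ Tc a k h p := by
  rw [Qc_iff] at hv
  intro ht
  apply hn
  unfold Tb
  unfold Tc at ht
  obtain ⟨x, y, b⟩ := e
  cases b
  · rw [mem_boxE_false] at he
    change ((x + v.1, y + v.2, false) : Edg) ∈ _ at ht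
    rw [mem_RE_false] at ht
    rw [mem_RE_false]
    push_cast at he
    omega
  · rw [mem_boxE_true] at he
    change ((x + v.1, y + v.2, true) : Edg) ∈ _ at ht
    rw [mem_RE_true] at ht
    rw [mem_RE_true]
    push_cast at he
    omega

theorem DTB_of {a' b' c' d' : ℤ} {F F' : Finset Edg}
    (hh : ∀ e ∈ LRE a' b' c' d', (e ∈ F ↔ e ∈ F')) : DTB a' b' c' d' F → DTB a' b' c' d' F' := by
  rintro ⟨x, x', h1, h2, h3⟩
  refine ⟨x, x', h1, h2, h3.mono ?_⟩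
  intro e he
  rw [Finset.mem_coe, Finset.mem_sdiff] at he ⊢
  exact ⟨he.1, fun hF => he.2 ((hh e he.1).2 hF)⟩

theorem Leg_of (h1 : 1 ≤ h) (h2 : 64 * h ≤ k) (h3 : 8 * k ≤ a) (hp : |p| ≤ k) {F F' : Finset Edg}
    (hh : ∀ e ∈ AE (0, 0) a (8 * a), (e ∈ F ↔ e ∈ F')) : Leg a k h p F → Leg a k h p F' := by
  have hp' := abs_le.1 hp
  rintro ⟨l1, l2⟩
  refine ⟨DTB_of ?_ l1, DTB_of ?_ l2⟩
  all_goals
    intro e he
    apply hh
    unfold AE
    rw [Finset.mem_coe, Finset.mem_sdiff]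
    obtain ⟨x, y, b⟩ := e
    cases b
    · rw [mem_LRE_false] at he
      rw [mem_blk_false, mem_blk_false]
      push_cast
      omega
    · rw [mem_LRE_true] at he
      rw [mem_blk_true, mem_blk_true]
      push_cast
      omega

end geo

theorem t_LOC (hZU : S_ZU) : S_LOC := by
  intro M B k h a m p X v hB h1 h2 h3 h4 hp hv
  refine ⟨?_, ?_, ?_, ?_, ?_⟩
  · intro hX F F' hF
    have hG : Gv M B k h p v F ↔ Gv M B k h p v F' :=
      Gv_congr fun e he => hF e (Or.inl (blk_MM hZU h1 h2 h3 h4 hv hX he))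
    have hS : F ∩ (MM m a k X \ ↑(Tc a k h p)) = F' ∩ (MM m a k X \ ↑(Tc a k h p)) :=
      inter_congr fun e he => hF e (Or.inl he.1)
    unfold Gs
    rw [hG, hS]
  · rintro F F' hsub hF ⟨⟨g1, g2⟩, x, hx, g3⟩
    refine ⟨⟨Zo_anti (shc_mono hsub) g1, Top_congr ?_ g2⟩, x, hx, g3.mono ?_⟩
    · intro e he hn
      exact hF _ (tube hv he hn)
    · rintro e ⟨e1, e2⟩
      exact ⟨(hF e e2.2).1 e1, e2⟩
  · intro F F' hF
    exact Gv_congr fun e he => hF e (blk_AE h1 h2 h3 hv he)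
  · intro F F' hF
    exact ⟨Leg_of h1 h2 h3 hp hF, Leg_of h1 h2 h3 hp fun e he => (hF e he).symm⟩
  · intro hX e he
    rw [Finset.mem_coe] at he
    have hq := Qc_iff.1 hv
    refine ⟨blk_MM hZU h1 h2 h3 h4 hv hX ?_, ?_⟩
    · obtain ⟨x, y, b⟩ := e
      cases b
      · rw [mem_blk_false] at he ⊢; omega
      · rw [mem_blk_true] at he ⊢; omega
    · intro hT
      rw [Finset.mem_coe] at hT
      unfold Tc at hT
      obtain ⟨x, y, b⟩ := e
      cases b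
      · rw [mem_blk_false] at he
        rw [mem_RE_false] at hT
        omega
      · rw [mem_blk_true] at he
        rw [mem_RE_true] at hT
        omega

end Pool.Agent.Y997.OBL.LOC
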