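import Pool.Agent.Y997.OBL.Stm
import Pool.Agent.H12R2.Sep.WinHalf
import Pool.Agent.H12R2.Sep.TrapP
import Pool.Agent.H974R2.BK

/-!
# The number of clusters which cross an annulus has bounded mean
-/

set_option autoImplicit false

namespace Pool.Agent.Y997.OBL.NCL

open Pool.Agent.Y997.OBL H974 H12S Finset H984P H984N Pool.Agent.Y989.FR

/-- A crossing of the annulus. -/
def Cro (c : ℤ × ℤ) (R : ℕ) (K : Finset Edg) : Prop :=
  ∃ u w : Vtx, sd u c ≤ R ∧ w ∈ bdB c (2 * R) ∧ Reach ((↑K : Set Edg) ∩ ↑(blk c (2 * R))) u w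

/-- `k` disjoint crossings. -/
def MDc (c : ℤ × ℤ) (R : ℕ) (k : ℕ) (F : Finset Edg) : Prop :=
  ∃ K : Fin k → Finset Edg, (∀ i, K i ⊆ F ∧ Cro c R (K i)) ∧ ∀ i j, i ≠ j → Disjoint (K i) (K j)

theorem Cro_mono {c : ℤ × ℤ} {R : ℕ} {F G : Finset Edg} (h : F ⊆ G) (hF : Cro c R F) :
    Cro c R G := by
  obtain ⟨u, w, h1, h2, h3⟩ := hF
  exact ⟨u, w, h1, h2, h3.mono (Set.inter_subset_inter_left _ (by exact_mod_cast h))⟩

theorem MDc_mono {c : ℤ × ℤ} {R k : ℕ} {F G : Finset Edg} (h : F ⊆ G) (hF : MDc c R k F) :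
    MDc c R k G := by
  obtain ⟨K, h1, h2⟩ := hF
  exact ⟨K, fun i => ⟨(h1 i).1.trans h, (h1 i).2⟩, h2⟩

theorem MDc_succ {c : ℤ × ℤ} {R k : ℕ} {F : Finset Edg} (h : MDc c R (k + 1) F) :
    DisjOcc (Cro c R) (MDc c R k) F := by
  classical
  obtain ⟨K, h1, h2⟩ := h
  refine ⟨K 0, univ.biUnion (fun i : Fin k => K i.succ), (h1 0).1, ?_, ?_, (h1 0).2, ?_⟩
  · intro e he
    rw [Finset.mem_biUnion] at he
    obtain ⟨i, _, he⟩ := he
    exact (h1 _).1 he
  · rw [Finset.disjoint_biUnion_right]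
    intro i _
    exact h2 _ _ (Fin.succ_ne_zero i).symm
  · exact ⟨fun i => K i.succ, fun i => ⟨Finset.subset_biUnion_of_mem
      (fun i : Fin k => K i.succ) (Finset.mem_univ i), (h1 _).2⟩,
      fun i j hij => h2 _ _ (fun h => hij (Fin.succ_injective _ h))⟩

theorem okh : Ok (fun _ : Edg => (1 / 2 : ℝ)) := okq (by norm_num) (by norm_num)

theorem MDc_pow {c : ℤ × ℤ} {R : ℕ} {S : Finset Edg} {q : ℝ}
    (hq : PQ (1 / 2) S (Cro c R) ≤ q) (k : ℕ) : PQ (1 / 2) S (MDc c R k) ≤ q ^ k := by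
  have hq0 : 0 ≤ q := (Pr_nonneg okh _ _).trans hq
  induction k with
  | zero =>
    rw [pow_zero]
    exact Pr_le_one okh _ _
  | succ k ih =>
    calc PQ (1 / 2) S (MDc c R (k + 1)) ≤ PQ (1 / 2) S (DisjOcc (Cro c R) (MDc c R k)) :=
          Pr_mono okh (fun F _ h => MDc_succ h)
      _ ≤ PQ (1 / 2) S (Cro c R) * PQ (1 / 2) S (MDc c R k) :=
          bk okh (fun _ _ h _ hF => Cro_mono h hF) (fun _ _ h _ hF => MDc_mono h hF)
      _ ≤ q * q ^ k := mul_le_mul hq ih (Pr_nonneg okh _ _) hq0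
      _ = q ^ (k + 1) := by ring

/-- A path stays in the cluster. -/
theorem reach_cl {G : Set Edg} {u w : Vtx} (h : Reach G u w) :
    Reach {e | e ∈ G ∧ Reach G u (src e)} u w := by
  induction h with
  | refl => exact Reach.refl _ _
  | @tail x y hx hs ih =>
    refine ih.trans (Adj.reach ?_)
    obtain ⟨e, he, h⟩ := hs
    refine ⟨e, ⟨he, ?_⟩, h⟩
    rcases h with ⟨h1, _⟩ | ⟨h1, _⟩
    · rw [h1]; exact hx
    · rw [h1]; exact Relation.ReflTransGen.tail hx ⟨e, he, by tauto⟩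

theorem MDc_of {c : ℤ × ℤ} {R : ℕ} {F : Finset Edg} (J : Finset ℕ) (v : ℕ → Vtx)
    (h1 : ∀ j ∈ J, sd (v j) c ≤ R ∧ ∃ w ∈ bdB c (2 * R),
      Reach ((↑F : Set Edg) ∩ ↑(blk c (2 * R))) (v j) w)
    (h2 : ∀ j ∈ J, ∀ i ∈ J, i < j → ¬ Reach ((↑F : Set Edg) ∩ ↑(blk c (2 * R))) (v i) (v j))
    {k : ℕ} (hk : k ≤ J.card) : MDc c R k F := by
  classical
  obtain ⟨T, hT, hTk⟩ := Finset.exists_subset_card_eq hk
  let e := T.orderIsoOfFin hTk
  have he : ∀ i, (e i : ℕ) ∈ J := fun i => hT (e i).2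
  let K : Fin k → Finset Edg := fun i => F.filter (fun g => g ∈ blk c (2 * R) ∧
    Reach ((↑F : Set Edg) ∩ ↑(blk c (2 * R))) (v (e i)) (src g))
  refine ⟨K, fun i => ⟨Finset.filter_subset _ _, ?_⟩, ?_⟩
  · obtain ⟨h3, w, h4, h5⟩ := h1 _ (he i)
    refine ⟨v (e i), w, h3, h4, (reach_cl h5).mono ?_⟩
    rintro g ⟨⟨hg1, hg2⟩, hg3⟩
    refine ⟨?_, hg2⟩
    rw [Finset.mem_coe, Finset.mem_filter]
    exact ⟨hg1, hg2, hg3⟩
  · have key : ∀ i j, i < j → Disjoint (K i) (K j) := by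
      intro i j hij
      rw [Finset.disjoint_left]
      intro g hg1 hg2
      rw [Finset.mem_filter] at hg1 hg2
      refine h2 _ (he j) _ (he i) ?_ (hg1.2.2.trans hg2.2.2.symm)
      exact_mod_cast e.lt_iff_lt.2 hij
    intro i j hij
    rcases lt_or_gt_of_ne hij with h | h
    · exact key i j h
    · exact (key j i h).symm

theorem Cro_le : ∃ q : ℝ, 0 ≤ q ∧ q < 1 ∧ ∀ (c : ℤ × ℤ) (R : ℕ) (S : Finset Edg), 5 ≤ R →
    PQ (1 / 2) S (Cro c R) ≤ q := by
  obtain ⟨κ, hκ, hw⟩ := H12S.win_half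
  have hκ1 : κ ≤ 1 := ((hw 0).kle).trans (by norm_num)
  refine ⟨1 - κ ^ (4 * (2 * 10 + 1) ^ 2), ?_, ?_, ?_⟩
  · rw [sub_nonneg]
    exact pow_le_one₀ hκ.le hκ1
  · have : 0 < κ ^ (4 * (2 * 10 + 1) ^ 2) := pow_pos hκ _
    linarith
  · intro c R S hR
    have hl : 1 ≤ R / 5 := by omega
    have h := (trap_prob (hw (2 * (R / 5))) (l := R / 5) (N := 10) hl le_rfl c.1 c.2 S).1
    have h2 : PQ (1 / 2) S (Cro c R) ≤ 1 - PQ (1 / 2) S (fun F => ∀ v w : Vtx,
        inR (c.1 - (10 : ℕ) * (R / 5 : ℕ)) (c.1 + (10 : ℕ) * (R / 5 : ℕ))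
          (c.2 - (10 : ℕ) * (R / 5 : ℕ)) (c.2 + (10 : ℕ) * (R / 5 : ℕ)) v →
        Reach (↑F : Set Edg) v w →
        |v.1 - w.1| ≤ 4 * (R / 5 : ℕ) ∧ |v.2 - w.2| ≤ 4 * (R / 5 : ℕ)) := by
      rw [← Pr_not]
      apply Pr_mono okh
      rintro F _ ⟨u, w, h1, ⟨h3, h4, h5⟩, h6⟩ hall
      have hu1 : |u.1 - c.1| ≤ R := (le_max_left _ _).trans h1
      have hu2 : |u.2 - c.2| ≤ R := (le_max_right _ _).trans h1
      rw [abs_le] at hu1 hu2
      have h7 := hall u w (by
        refine ⟨⟨?_, ?_⟩, ?_, ?_⟩ <;> omega) (h6.mono Set.inter_subset_left)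
      obtain ⟨h8, h9⟩ := h7
      rw [abs_le] at h8 h9
      rcases h5 with h5 | h5
      · rcases abs_cases (w.1 - c.1) with ⟨h10, _⟩ | ⟨h10, _⟩ <;> omega
      · rcases abs_cases (w.2 - c.2) with ⟨h10, _⟩ | ⟨h10, _⟩ <;> omega
    linarith

theorem t_NCL : S_NCL := by
  classical
  obtain ⟨q, hq0, hq1, hq⟩ := Cro_le
  refine ⟨81 + q / (1 - q), by have : 0 ≤ q / (1 - q) := div_nonneg hq0 (by linarith); linarith, ?_⟩
  intro c R N S E u hR hE hne
  have hdiv : 0 ≤ q / (1 - q) := div_nonneg hq0 (by linarith)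
  let J : Finset Edg → Finset ℕ := fun F => (range N).filter (fun j => E j F)
  have hsum : ∑ j ∈ range N, PQ (1 / 2) S (E j) =
      Ex (fun _ => (1 / 2 : ℝ)) S (fun F => ((J F).card : ℝ)) := by
    have : ∀ F : Finset Edg, ((J F).card : ℝ) = ∑ j ∈ range N, ind (E j F) := by
      intro F
      simp only [J, Finset.card_filter, Nat.cast_sum]
      apply Finset.sum_congr rfl
      intro j _
      by_cases h : E j F
      · rw [ind_of h, if_pos h]; norm_num
      · rw [ind_not_of h, if_neg h]; norm_num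
    simp only [this]
    rw [Ex_sum]
    rfl
  rw [hsum]
  have hJ1 : ∀ F, F ⊆ S → ∀ j ∈ J F, sd (u j F) c ≤ R ∧ ∃ w ∈ bdB c (2 * R),
      Reach ((↑F : Set Edg) ∩ ↑(blk c (2 * R))) (u j F) w := by
    intro F hF j hj
    rw [Finset.mem_filter, Finset.mem_range] at hj
    exact hE F hF j hj.1 hj.2
  have hJ2 : ∀ F, F ⊆ S → ∀ j ∈ J F, ∀ i ∈ J F, i < j →
      ¬ Reach ((↑F : Set Edg) ∩ ↑(blk c (2 * R))) (u i F) (u j F) := by
    intro F hF j hj i hi hij
    rw [Finset.mem_filter, Finset.mem_range] at hj hi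
    exact hne F hF j hj.1 i hij hi.2 hj.2
  rcases Nat.lt_or_ge R 5 with hR5 | hR5
  · refine (Ex_le_of_le okh (c := 81) ?_).trans (by linarith)
    intro F hF
    have hinj : Set.InjOn (fun j => u j F) ↑(J F) := by
      have key : ∀ i ∈ J F, ∀ j ∈ J F, i < j → u i F ≠ u j F := by
        intro i hi j hj hij h
        apply hJ2 F hF j hj i hi hij
        rw [h]
        exact Reach.refl _ _
      intro i hi j hj h
      rcases lt_trichotomy i j with h3 | h3 | h3
      · exact absurd h (key i hi j hj h3)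
      · exact h3
      · exact absurd h.symm (key j hj i hi h3)
    have hcard : (J F).card ≤ (Finset.Icc (c.1 - 4) (c.1 + 4) ×ˢ
        Finset.Icc (c.2 - 4) (c.2 + 4)).card := by
      apply Finset.card_le_card_of_injOn (fun j => u j F) _ hinj
      intro j hj
      have h1 := (hJ1 F hF j hj).1
      have hu1 : |(u j F).1 - c.1| ≤ R := (le_max_left _ _).trans h1
      have hu2 : |(u j F).2 - c.2| ≤ R := (le_max_right _ _).trans h1
      rw [abs_le] at hu1 hu2
      rw [Finset.mem_coe, Finset.mem_product, Finset.mem_Icc, Finset.mem_Icc]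
      refine ⟨⟨?_, ?_⟩, ?_, ?_⟩ <;> simp only <;> omega
    rw [Finset.card_product, Int.card_Icc, Int.card_Icc] at hcard
    have e1 : (c.1 + 4 + 1 - (c.1 - 4)).toNat = 9 := by omega
    have e2 : (c.2 + 4 + 1 - (c.2 - 4)).toNat = 9 := by omega
    rw [e1, e2] at hcard
    exact_mod_cast hcard
  · have hJN : ∀ F, (J F).card ≤ N := fun F => by
      have := Finset.card_filter_le (range N) (fun j => E j F)
      rwa [Finset.card_range] at this
    have hcard : ∀ F : Finset Edg, ((J F).card : ℝ) = ∑ i ∈ range N, ind (i + 1 ≤ (J F).card) := by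
      intro F
      have h1 : (J F).card = ((range N).filter (fun i => i + 1 ≤ (J F).card)).card := by
        have : (range N).filter (fun i => i + 1 ≤ (J F).card) = range (J F).card := by
          ext i
          rw [Finset.mem_filter, Finset.mem_range, Finset.mem_range]
          have := hJN F
          omega
        rw [this, Finset.card_range]
      conv_lhs => rw [h1]
      rw [Finset.card_filter, Nat.cast_sum]
      apply Finset.sum_congr rfl
      intro i _
      by_cases h : i + 1 ≤ (J F).card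
      · rw [ind_of h, if_pos h]; norm_num
      · rw [ind_not_of h, if_neg h]; norm_num
    simp only [hcard]
    rw [Ex_sum]
    have hq' := hq c R S hR5
    calc ∑ i ∈ range N, Ex (fun _ => (1 / 2 : ℝ)) S (fun F => ind (i + 1 ≤ (J F).card))
        ≤ ∑ i ∈ range N, q ^ (i + 1) := by
          apply Finset.sum_le_sum
          intro i _
          refine le_trans ?_ (MDc_pow hq' (i + 1))
          apply Pr_mono okh (A := fun F => i + 1 ≤ (J F).card)
          intro F hF h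
          exact MDc_of (J F) (fun j => u j F) (hJ1 F hF) (hJ2 F hF) h
      _ = q * ∑ i ∈ range N, q ^ i := by
          rw [Finset.mul_sum]
          apply Finset.sum_congr rfl
          intro i _
          ring
      _ ≤ q * (1 - q)⁻¹ := by
          apply mul_le_mul_of_nonneg_left _ hq0
          rw [← tsum_geometric_of_lt_one hq0 hq1]
          exact (summable_geometric_of_lt_one hq0 hq1).sum_le_tsum _ (fun i _ => pow_nonneg hq0 i)
      _ = q / (1 - q) := by rw [div_eq_mul_inv]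
      _ ≤ 81 + q / (1 - q) := by linarith

end Pool.Agent.Y997.OBL.NCL
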