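import Pool.Agent.Y997.OBL.StmG
import Pool.Agent.W320.PD.HB

/-!
# OBL-NRE: probabilities on a line
-/

set_option autoImplicit false

namespace Pool.Agent.Y997.OBL.NRE

open Pool.Agent.Y997.OBL
open H974 H12S Finset H984P H984N H342P Pool.Agent.Y989.FR
open Pool.Agent.W92.DP (DTB DLR shc)
open Pool.Agent.W822.PD (tr PD_HB)

/-- union bound -/
theorem pr_union {ι : Type} (s : Finset ι) (S : Finset Edg) (A : ι → Finset Edg → Prop) :
    PQ (1 / 2) S (fun F => ∃ i ∈ s, A i F) ≤ ∑ i ∈ s, PQ (1 / 2) S (A i) := by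
  classical
  induction s using Finset.induction_on with
  | empty =>
    rw [Finset.sum_empty]
    have h := Pr_congr (p := fun _ : Edg => (1 / 2 : ℝ)) (S := S)
      (A := fun F => ∃ i ∈ (∅ : Finset ι), A i F) (B := fun F => ¬ True) (fun F _ => by simp)
    have h2 := Pr_not (p := fun _ : Edg => (1 / 2 : ℝ)) S (fun _ => True)
    rw [Pr_true S (fun _ _ => trivial)] at h2
    unfold PQ
    rw [h, h2]
    norm_num
  | insert a s ha ih =>
    rw [Finset.sum_insert ha]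
    refine (Pr_mono H973.okhalf (B := fun F => A a F ∨ ∃ i ∈ s, A i F) ?_).trans
      ((Pr_or_le H973.okhalf S _ _).trans (add_le_add le_rfl ih))
    rintro F _ ⟨i, hi, h⟩
    rw [Finset.mem_insert] at hi
    rcases hi with rfl | hi
    · exact Or.inl h
    · exact Or.inr ⟨i, hi, h⟩

theorem shc_trl (y0 : ℤ) (F : Finset Edg) : shc (0, y0) (↑((trl 0 y0).mp F) : Set Edg) = ↑F := by
  ext ⟨x, y, b⟩
  unfold shc
  rw [Set.mem_setOf_eq, Finset.mem_coe, Finset.mem_coe, LSym.mem_mp, trl_φs]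
  simp

theorem reach_g (g : LSym) {G F : Set Edg} (h : ∀ e ∈ G, g.φ e ∈ F) {x y : Vtx}
    (hr : Reach G x y) : Reach F (g.ψ x) (g.ψ y) :=
  (g.reach hr).mono (by rintro _ ⟨e, he, rfl⟩; exact h e he)

theorem rfl_mem {a b c : ℤ} {F : Finset Edg} {e : Edg}
    (he : e ∈ (↑((rfy 0).mp F) : Set Edg) ∩ ↑(RE a b (-c) 0)) :
    (rfy 0).φ e ∈ (↑F : Set Edg) ∩ ↑(RE a b 0 c) := by
  obtain ⟨h1, h2⟩ := he
  rw [Finset.mem_coe, LSym.mem_mp] at h1
  rw [Finset.mem_coe] at h2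
  refine ⟨?_, ?_⟩
  · obtain ⟨x, y, _ | _⟩ := e
    · rw [rfy_φsf] at h1
      rw [rfy_φf]
      exact h1
    · rw [rfy_φst] at h1
      rw [rfy_φt]
      exact h1
  · rw [Finset.mem_coe]
    obtain ⟨x, y, _ | _⟩ := e
    · rw [mem_RE_false] at h2
      rw [rfy_φf, mem_RE_false]
      omega
    · rw [mem_RE_true] at h2
      rw [rfy_φt, mem_RE_true]
      omega

theorem rfl_mem' {a b c : ℤ} {F : Finset Edg} {e : Edg}
    (he : e ∈ (↑F : Set Edg) ∩ ↑(RE a b 0 c)) :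
    (rfy 0).φ e ∈ (↑((rfy 0).mp F) : Set Edg) ∩ ↑(RE a b (-c) 0) := by
  obtain ⟨h1, h2⟩ := he
  rw [Finset.mem_coe] at h1 h2
  refine ⟨?_, ?_⟩
  · rw [Finset.mem_coe, LSym.mem_mp, Equiv.symm_apply_apply]
    exact h1
  · rw [Finset.mem_coe]
    obtain ⟨x, y, _ | _⟩ := e
    · rw [mem_RE_false] at h2
      rw [rfy_φf, mem_RE_false]
      omega
    · rw [mem_RE_true] at h2
      rw [rfy_φt, mem_RE_true]
      omega

theorem HPWd_rfl {x0 : ℤ} {r R : ℕ} {F : Finset Edg} (h : HPWd x0 r R ↑((rfy 0).mp F)) :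
    HPW x0 r R ↑F := by
  obtain ⟨u, w, hu, hw, hw2, hr, hno⟩ := h
  obtain ⟨u1, u2⟩ := u
  obtain ⟨w1, w2⟩ := w
  simp only at hu hw hw2
  have h1 := reach_g (rfy 0) (fun e he => rfl_mem he) hr
  rw [rfy_ψ, rfy_ψ] at h1
  refine ⟨(u1, 0 - u2), (w1, 0 - w2), ⟨hu.1, by simp only; omega, by simp only; omega⟩,
    ⟨hw.1, by simp only; omega, by simp only; omega⟩, ?_, h1, fun s hs hs2 => hno s hs ?_⟩
  · rcases hw2 with h | h
    · exact Or.inl h
    · right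
      simp only
      omega
  · have h2 := reach_g (rfy 0) (fun e he => rfl_mem' he) hs2
    rw [rfy_ψ, rfy_ψ] at h2
    have e1 : (0 : ℤ) - (0 - u2) = u2 := by ring
    have e2 : (0 : ℤ) - 0 = 0 := by ring
    rw [e1, e2] at h2
    exact h2

theorem t_NRP (h : S_HP) : S_NRP := by
  obtain ⟨C, hC, hP⟩ := h
  refine ⟨2 * C, by positivity, fun n e0 R y0 he0 heR hy1 hy2 => ?_⟩
  have hR0 : 1 ≤ R := he0.trans heR
  have hR : (0 : ℝ) < R := by exact_mod_cast hR0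
  have hb : (0 : ℝ) ≤ (e0 : ℝ) / R := by positivity
  have hstep : ∀ i : ℤ, 4 * (R : ℤ) ≤ R * i → R * i ≤ (n : ℤ) - 4 * R →
      PQ (1 / 2) (RE 0 n 0 n) (fun F => HPW (R * i) e0 R (shc (0, y0) ↑F) ∨
        HPWd (R * i) e0 R (shc (0, y0) ↑F)) ≤ 2 * C * ((e0 : ℝ) / R) := by
    intro i hi1 hi2
    have e1 : RE 0 n 0 n = (trl 0 y0).mp (RE 0 n (-y0) (n - y0)) := by
      rw [trl_RE]
      congr 1
      · ring
      · ring
    have e2 : RE 0 n (-y0) (n - y0) = (rfy 0).mp (RE 0 n (-((n : ℤ) - y0)) y0) := by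
      rw [rfy_RE]
      congr 1
      · ring
      · ring
    have hA : PQ (1 / 2) (RE 0 n (-y0) (n - y0)) (fun F => HPW (R * i) e0 R ↑F) ≤ C * ((e0 : ℝ) / R) := by
      refine hP _ e0 R he0 heR _ ?_
      intro e he
      obtain ⟨x, y, _ | _⟩ := e
      · rw [mem_RE_false] at he ⊢
        omega
      · rw [mem_RE_true] at he ⊢
        omega
    have hB : PQ (1 / 2) (RE 0 n (-y0) (n - y0)) (fun F => HPWd (R * i) e0 R ↑F) ≤ C * ((e0 : ℝ) / R) := by
      rw [e2]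
      unfold PQ
      rw [LSym.pr]
      refine (Pr_mono H973.okhalf (B := fun F => HPW (R * i) e0 R ↑F) ?_).trans
        (hP (R * i) e0 R he0 heR _ ?_)
      · intro F _ hF
        exact HPWd_rfl hF
      · intro e he
        obtain ⟨x, y, _ | _⟩ := e
        · rw [mem_RE_false] at he ⊢
          omega
        · rw [mem_RE_true] at he ⊢
          omega
    unfold PQ
    rw [e1, LSym.pr]
    simp only [shc_trl]
    refine (Pr_or_le H973.okhalf _ _ _).trans ?_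
    have := add_le_add hA hB
    unfold PQ at this
    linarith
  -- the union bound
  have hsub : PQ (1 / 2) (RE 0 n 0 n) (fun F => Nr n e0 R y0 ↑F) ≤
      ∑ i ∈ (Finset.Icc (4 : ℤ) (n / R : ℕ)).filter (fun i : ℤ => R * i ≤ (n : ℤ) - 4 * R),
        PQ (1 / 2) (RE 0 n 0 n) (fun F => HPW (R * i) e0 R (shc (0, y0) ↑F) ∨
          HPWd (R * i) e0 R (shc (0, y0) ↑F)) := by
    refine (Pr_mono H973.okhalf ?_).trans (pr_union _ _ _)
    rintro F _ ⟨i, hi1, hi2, hi3⟩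
    have hR' : (0 : ℤ) < R := by exact_mod_cast hR0
    refine ⟨i, ?_, hi3⟩
    rw [Finset.mem_filter, Finset.mem_Icc]
    refine ⟨⟨?_, ?_⟩, hi2⟩
    · nlinarith
    · push_cast
      rw [Int.le_ediv_iff_mul_le hR']
      nlinarith
  refine hsub.trans ((Finset.sum_le_sum (g := fun _ => 2 * C * ((e0 : ℝ) / R)) fun i hi => ?_).trans ?_)
  · rw [Finset.mem_filter, Finset.mem_Icc] at hi
    refine hstep i ?_ hi.2
    have hR' : (0 : ℤ) < R := by exact_mod_cast hR0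
    nlinarith [hi.1.1]
  · rw [Finset.sum_const, nsmul_eq_mul]
    have hcard : (((Finset.Icc (4 : ℤ) (n / R : ℕ)).filter
        (fun i : ℤ => R * i ≤ (n : ℤ) - 4 * R)).card : ℝ) ≤ (n : ℝ) / R := by
      have h1 : ((Finset.Icc (4 : ℤ) (n / R : ℕ)).filter
        (fun i : ℤ => R * i ≤ (n : ℤ) - 4 * R)).card ≤ n / R := by
        refine (Finset.card_filter_le _ _).trans ?_
        rw [Int.card_Icc]
        have h3 : (((n / R : ℕ) : ℤ) + 1 - 4).toNat ≤ n / R := by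
          rw [Int.toNat_le]
          linarith
        exact h3
      calc _ ≤ ((n / R : ℕ) : ℝ) := by exact_mod_cast h1
        _ ≤ (n : ℝ) / R := Nat.cast_div_le
    have h2 : 0 ≤ 2 * C * ((e0 : ℝ) / R) := by positivity
    nlinarith [mul_le_mul_of_nonneg_right hcard h2]

theorem t_ENP : S_ENP := by
  obtain ⟨C, hC, hP⟩ := Pool.Agent.W320.PD.HB.hb
  refine ⟨2 * C, by positivity, fun n m L y0 hm hmL hy0 hy1 => ?_⟩
  have h1 := hP n m L (0, y0) hm hmL (Or.inl rfl) ⟨⟨le_rfl, by simp⟩, hy0, hy1⟩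
  have h2 := hP n m L ((n : ℤ), y0) hm hmL (Or.inr (Or.inl rfl)) ⟨⟨by simp, le_rfl⟩, hy0, hy1⟩
  have h3 : PQ (1 / 2) (RE 0 n 0 n) (fun F => EndE n m L y0 ↑F) ≤
      Pr (fun _ => (1 / 2 : ℝ)) (RE 0 n 0 n) (fun F => (∃ u v : Vtx,
        inR (((0, y0) : Vtx).1 - m) (((0, y0) : Vtx).1 + m) (((0, y0) : Vtx).2 - m)
          (((0, y0) : Vtx).2 + m) u ∧ Far (0, y0) L v ∧ Reach (↑F) u v) ∨
        (∃ u v : Vtx,
        inR ((((n : ℤ), y0) : Vtx).1 - m) ((((n : ℤ), y0) : Vtx).1 + m) ((((n : ℤ), y0) : Vtx).2 - m)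
          ((((n : ℤ), y0) : Vtx).2 + m) u ∧ Far ((n : ℤ), y0) L v ∧ Reach (↑F) u v)) := by
    refine Pr_mono H973.okhalf ?_
    rintro F _ ⟨x, hx, u, w, hu, hw, hr⟩
    rcases hx with rfl | rfl
    · exact Or.inl ⟨u, w, hu, hw, hr⟩
    · exact Or.inr ⟨u, w, hu, hw, hr⟩
  have h4 := Pr_or_le H973.okhalf (RE 0 n 0 n) (fun F => (∃ u v : Vtx,
        inR (((0, y0) : Vtx).1 - m) (((0, y0) : Vtx).1 + m) (((0, y0) : Vtx).2 - m)
          (((0, y0) : Vtx).2 + m) u ∧ Far (0, y0) L v ∧ Reach (↑F) u v))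
        (fun F => (∃ u v : Vtx,
        inR ((((n : ℤ), y0) : Vtx).1 - m) ((((n : ℤ), y0) : Vtx).1 + m) ((((n : ℤ), y0) : Vtx).2 - m)
          ((((n : ℤ), y0) : Vtx).2 + m) u ∧ Far ((n : ℤ), y0) L v ∧ Reach (↑F) u v))
  linarith

end Pool.Agent.Y997.OBL.NRE
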