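import Pool.Agent.Y997.OBL.Stm
import Pool.Agent.Y989.FR.T_TWO3

/-!
Project OBL, job NZ: if the rectangle above the half-line is not nice, some cluster comes close to
the half-line and avoids it.
-/

set_option autoImplicit false

namespace Pool.Agent.Y997.OBL.NZ

open H974 H12S Finset H984P H984N Pool.Agent.Y989.FR
open Pool.Agent.W92.DP (DTB DLR shc)
open Pool.Agent.Y997.OBL
open Pool.Agent.Y989.FR.TWO3 (re_ends re_of_ends adj_near)

/-- First exit from a rectangle. -/
theorem firstXR {G : Set Edg} {a b c d : ℤ} {u w : Vtx} (hu : inR a b c d u) (h : Reach G u w) :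
    (inR a b c d w ∧ Reach (G ∩ ↑(RE a b c d)) u w) ∨
    ∃ y : Vtx, inR a b c d y ∧ (y.1 = a ∨ y.1 = b ∨ y.2 = c ∨ y.2 = d) ∧
      Reach (G ∩ ↑(RE a b c d)) u y := by
  induction h with
  | refl => exact Or.inl ⟨hu, Reach.refl _ _⟩
  | @tail w w' _ hs ih =>
    rcases ih with ⟨h1, h2⟩ | ih
    · by_cases hw' : inR a b c d w'
      · left
        refine ⟨hw', h2.trans (Adj.reach ?_)⟩
        obtain ⟨e, he, hc⟩ := hs
        refine ⟨e, ⟨he, Finset.mem_coe.2 ?_⟩, hc⟩
        rcases hc with ⟨h3, h4⟩ | ⟨h3, h4⟩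
        · exact re_of_ends (by rw [h3]; exact h1) (by rw [h4]; exact hw')
        · exact re_of_ends (by rw [h3]; exact hw') (by rw [h4]; exact h1)
      · right
        refine ⟨w, h1, ?_, h2⟩
        have h5 := adj_near hs
        unfold inR at h1 hw'
        omega
    · exact Or.inr ih

theorem t_NZ : S_NZ := by
  intro m a k F hk ha hm hSE hN
  unfold NiceZ at hN
  push Not at hN
  obtain ⟨v, hvX, hv1, hv2, hv3, hv4⟩ := hN
  obtain ⟨R, hR⟩ : ∃ R : ℕ, R = a / 16 := ⟨_, rfl⟩
  have hR1 : 16 * R ≤ a := by omega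
  have hR2 : a < 16 * R + 16 := by omega
  have hRk : 8 * k ≤ R := by omega
  have hR0 : 8 ≤ R := by omega
  have hR0' : (0 : ℤ) < (R : ℤ) := by omega
  obtain ⟨x0, hx0⟩ : ∃ x0 : ℤ, x0 = (R : ℤ) * (v.1 / (R : ℤ)) := ⟨_, rfl⟩
  have hx1 : x0 ≤ v.1 := by
    rw [hx0]
    exact Int.mul_ediv_self_le hR0'.ne'
  have hx2 : v.1 < x0 + R := by
    rw [hx0]
    have h := Int.lt_mul_ediv_self_add (x := v.1) hR0'
    exact h
  -- the vertex is joined to `O` in the box
  have hvO : Reach (F ∩ ↑(boxE m)) (0, 0) v := by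
    refine Reach.mono ?_ hvX
    rintro e ⟨he1, he2⟩
    exact ⟨he1, Finset.mem_coe.2 he2.1.1⟩
  have hsub : (↑(RE (x0 - 4 * R) (x0 + 4 * R) 0 (4 * R)) : Set Edg) ⊆ ↑(boxE m) := by
    apply Finset.coe_subset.2
    unfold boxE
    apply RE_subset <;> omega
  have hno : ∀ s : ℤ, |s - x0| ≤ 4 * R →
      ¬ Reach (F ∩ ↑(RE (x0 - 4 * R) (x0 + 4 * R) 0 (4 * R))) v (s, 0) := by
    intro s hs hr
    rw [abs_le] at hs
    refine hSE.2 (s, 0) ⟨rfl, ?_, ?_⟩ (hvO.trans (hr.mono (Set.inter_subset_inter_right _ hsub)))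
    · show 1 ≤ s
      omega
    · show s ≤ m
      omega
  refine ⟨v.1 / (R : ℤ), ?_, ?_, ?_⟩
  · rw [← hR, ← hx0]
    omega
  · rw [← hR, ← hx0]
    omega
  · rw [← hR, ← hx0]
    have hvin : inR (x0 - 4 * R) (x0 + 4 * R) 0 (4 * R) v := by
      unfold inR
      omega
    rcases firstXR hvin hvO.symm with ⟨h1, -⟩ | ⟨y, hy, hyb, hvy⟩
    · exfalso
      unfold inR at h1
      simp only at h1
      omega
    · have hvy' : Reach (F ∩ ↑(RE (x0 - 4 * R) (x0 + 4 * R) 0 (4 * R))) v y :=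
        hvy.mono (Set.inter_subset_inter_left _ Set.inter_subset_left)
      unfold inR at hy
      have hy2 : y.2 ≠ 0 := by
        intro h0
        have hye : y = (y.1, 0) := by rw [← h0]
        rw [hye] at hvy'
        refine hno y.1 ?_ hvy'
        rw [abs_le]
        omega
      refine ⟨v, y, ⟨?_, hv3, by push_cast at hv4 ⊢; omega⟩, ⟨?_, hy.2.1, hy.2.2⟩, ?_, hvy', hno⟩
      · rw [abs_le]
        omega
      · rw [abs_le]
        omega
      · rcases hyb with h | h | h | h
        · left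
          rw [h]
          have : x0 - 4 * (R : ℤ) - x0 = -(4 * R) := by ring
          rw [this, abs_neg, abs_of_nonneg (by positivity)]
        · left
          rw [h]
          have : x0 + 4 * (R : ℤ) - x0 = (4 * R) := by ring
          rw [this, abs_of_nonneg (by positivity)]
        · exact absurd h hy2
        · exact Or.inr h

end Pool.Agent.Y997.OBL.NZ
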