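import Pool.Agent.Y997.OBL.StmG

/-!
# Project OBL: the deterministic step in the box (OGD)

Author: helper587.
-/

set_option autoImplicit false

namespace Pool.Agent.Y997.OBL.OGD

open Pool.Agent.Y997.OBL
open H974 H12S Finset H984P H984N H342P Pool.Agent.Y989.FR
open Pool.Agent.W92.DP (DTB DLR shc)
open Pool.Agent.W822.PD (tr)

/-! ### Translations -/

/-- Translation of an edge. -/
def she (z : Vtx) (e : Edg) : Edg := (e.1 + z.1, e.2.1 + z.2, e.2.2)

theorem src_she (z : Vtx) (e : Edg) : src (she z e) = src e + z := rfl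

theorem tgt_she (z : Vtx) (e : Edg) : tgt (she z e) = tgt e + z := by
  rcases e with ⟨x, y, _ | _⟩
  · simp only [she, tgt_false]
    exact Prod.ext rfl (add_right_comm _ _ _)
  · simp only [she, tgt_true]
    exact Prod.ext (add_right_comm _ _ _) rfl

theorem reach_she {E E' : Set Edg} (z : Vtx) (h : ∀ e ∈ E, she z e ∈ E') {a b : Vtx}
    (hr : Reach E a b) : Reach E' (a + z) (b + z) := by
  induction hr with
  | refl => exact Reach.refl _ _
  | tail _ hs ih =>
    obtain ⟨e, he, hc⟩ := hs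
    refine ih.trans (Adj.reach ⟨she z e, h e he, ?_⟩)
    rcases hc with ⟨h1, h2⟩ | ⟨h1, h2⟩
    · left; exact ⟨by rw [src_she, h1], by rw [tgt_she, h2]⟩
    · right; exact ⟨by rw [src_she, h1], by rw [tgt_she, h2]⟩

theorem mem_tr (z : Vtx) (F : Finset Edg) (e : Edg) : e ∈ tr z F ↔ she z e ∈ F := by
  rcases e with ⟨x, y, b⟩
  simp only [tr, LSym.mem_mp, trl_φs, she, sub_neg_eq_add]

theorem reach_tr {F : Finset Edg} {z a b : Vtx} :
    Reach (↑(tr z F) : Set Edg) a b ↔ Reach (↑F : Set Edg) (a + z) (b + z) := by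
  constructor
  · intro h
    exact reach_she z (fun e he => (mem_tr z F e).1 he) h
  · intro h
    have := reach_she (E' := (↑(tr z F) : Set Edg)) (-z) (fun e he => by
      rw [Finset.mem_coe, mem_tr]
      have h1 : she z (she (-z) e) = e := by
        rcases e with ⟨x, y, b⟩
        simp [she]
      rw [h1]; exact he) h
    simpa using this

/-! ### Paths -/

theorem adj_near {F : Set Edg} {a b : Vtx} (h : Adj F a b) : |b.1 - a.1| ≤ 1 ∧ |b.2 - a.2| ≤ 1 := by
  obtain ⟨⟨x, y, _ | _⟩, -, h⟩ := h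
  · rcases h with ⟨rfl, rfl⟩ | ⟨rfl, rfl⟩ <;> simp
  · rcases h with ⟨rfl, rfl⟩ | ⟨rfl, rfl⟩ <;> simp

theorem adj_in {F : Finset Edg} {n : ℕ} (hF : F ⊆ RE 0 n 0 n) {a b : Vtx}
    (h : Adj (↑F : Set Edg) a b) : 0 ≤ b.1 ∧ b.1 ≤ n ∧ 0 ≤ b.2 ∧ b.2 ≤ n := by
  obtain ⟨⟨x, y, _ | _⟩, he, h⟩ := h
  · have h1 := hF he
    rw [mem_RE_false] at h1
    rcases h with ⟨rfl, rfl⟩ | ⟨rfl, rfl⟩ <;> simp only [src_mk, tgt_false] <;> omega
  · have h1 := hF he
    rw [mem_RE_true] at h1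
    rcases h with ⟨rfl, rfl⟩ | ⟨rfl, rfl⟩ <;> simp only [src_mk, tgt_true] <;> omega

theorem reach_in {F : Finset Edg} {n : ℕ} (hF : F ⊆ RE 0 n 0 n) {a b : Vtx}
    (h : Reach (↑F : Set Edg) a b) (hne : a ≠ b) : 0 ≤ b.1 ∧ b.1 ≤ n ∧ 0 ≤ b.2 ∧ b.2 ≤ n := by
  rcases Relation.ReflTransGen.cases_tail h with h1 | ⟨c, -, h2⟩
  · exact absurd h1.symm hne
  · exact adj_in hF h2

theorem ivt {F : Set Edg} {a b : Vtx} (h : Reach F a b) (y0 : ℤ) (ha : a.2 ≤ y0) (hb : y0 ≤ b.2) :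
    ∃ c, Reach F a c ∧ c.2 = y0 := by
  have key : b.2 < y0 ∨ ∃ c, Reach F a c ∧ c.2 = y0 := by
    clear hb
    induction h with
    | refl =>
      rcases ha.lt_or_eq with h | h
      · exact Or.inl h
      · exact Or.inr ⟨a, Reach.refl _ _, h⟩
    | @tail b c hab hs ih =>
      rcases ih with h | h
      · have h1 := (adj_near hs).2
        rw [abs_le] at h1
        rcases lt_or_ge c.2 y0 with h2 | h2
        · exact Or.inl h2
        · exact Or.inr ⟨c, hab.tail hs, by omega⟩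
      · exact Or.inr h
  rcases key with h | h
  · omega
  · exact h

theorem exit {G : Set Edg} {m : ℕ} (hm : 1 ≤ m) {b : Vtx} (h : Reach G (0, 0) b) :
    (|b.1| < m ∧ |b.2| < m ∧ Reach (G ∩ ↑(boxE m)) (0, 0) b) ∨
      ∃ u ∈ bdB (0, 0) m, Reach (G ∩ ↑(boxE m)) (0, 0) u := by
  induction h with
  | refl =>
    left
    refine ⟨?_, ?_, Reach.refl _ _⟩ <;> simp <;> omega
  | @tail b c hab hs ih =>
    rcases ih with ⟨h1, h2, h3⟩ | h
    · have hn := adj_near hs
      have hs' : Adj (G ∩ ↑(boxE m)) b c := by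
        obtain ⟨e, he, hc⟩ := hs
        refine ⟨e, ⟨he, ?_⟩, hc⟩
        rw [abs_lt] at h1 h2
        rw [Finset.mem_coe]
        unfold boxE
        rcases e with ⟨x, y, _ | _⟩
        · rw [mem_RE_false]
          rcases hc with ⟨rfl, rfl⟩ | ⟨rfl, rfl⟩ <;> simp only [src_mk, tgt_false] at h1 h2 <;> omega
        · rw [mem_RE_true]
          rcases hc with ⟨rfl, rfl⟩ | ⟨rfl, rfl⟩ <;> simp only [src_mk, tgt_true] at h1 h2 <;> omega
      have hr := h3.trans hs'.reach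
      rw [abs_le, abs_le] at hn
      by_cases hc : |c.1| < m ∧ |c.2| < m
      · exact Or.inl ⟨hc.1, hc.2, hr⟩
      · right
        refine ⟨c, ?_, hr⟩
        rw [abs_lt] at h1 h2
        rw [abs_lt, abs_lt] at hc
        refine ⟨?_, ?_, ?_⟩
        · rw [abs_le]; simp only; omega
        · rw [abs_le]; simp only; omega
        · by_cases h4 : |c.1 - 0| = m
          · exact Or.inl h4
          · right
            rw [abs_eq (by omega)] at h4 ⊢
            simp only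
            omega
    · exact Or.inr h

theorem sd_nonneg (u v : Vtx) : 0 ≤ sd u v := le_max_of_le_left (abs_nonneg _)

theorem sd_add (u v z : Vtx) : sd (u + z) (v + z) = sd u v := by
  unfold sd
  simp only [Prod.fst_add, Prod.snd_add, add_sub_add_right_eq_sub]

/-- Prolongation along a horizontal half-line. -/
theorem line {E : Set Edg} {x y : ℤ} (N : ℕ) (h : ∀ i : ℕ, i < N → ((x + i, y, true) : Edg) ∈ E) :
    Reach E (x, y) (x + N, y) := by
  induction N with
  | zero => simpa using Reach.refl E (x, y)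
  | succ N ih =>
    refine (ih fun i hi => h i (by omega)).trans (Adj.reach ⟨_, h N (by omega), Or.inl ⟨rfl, ?_⟩⟩)
    rw [tgt_true]
    push_cast
    rw [add_assoc]

theorem EnV_image (t : ℝ) (V : Finset Vtx) (z : Vtx) : EnV t (V.image (· + z)) = EnV t V := by
  unfold EnV
  have hinj : ∀ a ∈ V, ∀ b ∈ V, a + z = b + z → a = b := fun a _ b _ h => add_right_cancel h
  rw [Finset.sum_image hinj]
  refine Finset.sum_congr rfl fun v _ => ?_
  rw [Finset.sum_image hinj]
  refine Finset.sum_congr rfl fun w _ => ?_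
  rw [sd_add]

theorem pow_split {B : ℕ} (hB : 1 ≤ B) (n : ℤ) : n ^ B = n ^ (B - 1) * n := by
  rw [← pow_succ]; congr 1; omega

theorem t_OGD (h1 : S_CLR) (h2 : S_DL) : S_OGD := by
  intro t c0 E0 M B q A J h s M2 n m L R e0 p F v hpos hp hm he0 heR hRA hmL hhs hnM hF hext
  obtain ⟨hM, hB, hq, hA, hh, hs⟩ := hpos
  obtain ⟨u, w, hu, hw, huw⟩ := hext
  have hAqh : A * (q * h) ≤ m := by
    rw [hm]; exact Nat.le_mul_of_pos_left _ (by positivity)
  have hAqh1 : 1 ≤ A * (q * h) := Nat.mul_pos (by omega) (Nat.mul_pos (by omega) (by omega))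
  have hm1 : 1 ≤ m := by omega
  have hL1 : 1 ≤ L := hm1.trans hmL
  have huw' : u ≠ w := by
    rintro rfl
    rw [sub_self] at huw
    omega
  have hbox : ∀ c, Reach (↑F : Set Edg) v c → 0 ≤ c.1 ∧ c.1 ≤ n ∧ 0 ≤ c.2 ∧ c.2 ≤ n := by
    intro c hc
    by_cases h3 : c = u
    · exact reach_in hF (hw.symm.trans hc) (by rw [h3]; exact huw'.symm)
    · exact reach_in hF (hu.symm.trans hc) (Ne.symm h3)
  have hub := hbox u hu
  have hwb := hbox w hw
  have hLp : (0 : ℤ) < L := by exact_mod_cast hL1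
  obtain ⟨i, hi1, hi2⟩ : ∃ i : ℕ, u.2 + L < (i : ℤ) * L ∧ (i : ℤ) * L ≤ u.2 + 2 * L := by
    have hd : 0 ≤ u.2 / (L : ℤ) := Int.ediv_nonneg hub.2.2.1 hLp.le
    have hd1 := Int.lt_ediv_add_one_mul_self u.2 hLp
    have hd2 := Int.ediv_mul_le u.2 hLp.ne'
    refine ⟨(u.2 / L).toNat + 2, ?_, ?_⟩
    · push_cast
      rw [Int.toNat_of_nonneg hd]
      linarith
    · push_cast
      rw [Int.toNat_of_nonneg hd]
      linarith
  set y0 : ℤ := (i : ℤ) * L with hy0
  have hyL : (L : ℤ) ≤ y0 := by linarith [hub.2.2.1]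
  have hyw : y0 + L ≤ w.2 := by linarith
  have hyn : y0 ≤ (n : ℤ) - L := by linarith [hwb.2.2.2]
  obtain ⟨c, hc, hc2⟩ := ivt (hu.symm.trans hw) y0 (by linarith) (by linarith)
  obtain ⟨x1, hx1, hx1'⟩ := Int.exists_greatest_of_bdd
    (P := fun x => Reach (↑F : Set Edg) v (x, y0)) ⟨n, fun x hx => (hbox _ hx).2.1⟩
    ⟨c.1, by
      have h3 : ((c.1, y0) : Vtx) = c := Prod.ext rfl hc2.symm
      show Reach (↑F : Set Edg) v (c.1, y0)
      rw [h3]; exact hu.trans hc⟩
  have hRm : Rm (↑F : Set Edg) v x1 y0 :=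
    ⟨hx1, fun x' hx' hr => absurd (hx1' x' hr) (by omega)⟩
  have hx0 : 0 ≤ x1 := (hbox _ hx1).1
  have hxn : x1 ≤ n := (hbox _ hx1).2.1
  refine ⟨y0, ⟨i, rfl⟩, hyL, hyn, ?_⟩
  by_cases hE : EndE n m L y0 (↑F : Set Edg)
  · exact Or.inl hE
  by_cases hN : Nr n e0 R y0 (↑F : Set Edg)
  · exact Or.inr (Or.inl hN)
  have hxm : (m : ℤ) ≤ x1 := by
    by_contra hlt
    refine hE ⟨(0, y0), Or.inl rfl, (x1, y0), w, ?_, ?_, hx1.symm.trans hw⟩
    · unfold inR
      simp only
      omega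
    · unfold H342P.Far
      right; right; right
      exact hyw
  have hxm2 : x1 ≤ (n : ℤ) - m := by
    by_contra hlt
    refine hE ⟨((n : ℤ), y0), Or.inr rfl, (x1, y0), w, ?_, ?_, hx1.symm.trans hw⟩
    · unfold inR
      simp only
      omega
    · unfold H342P.Far
      right; right; right
      exact hyw
  set z : Vtx := (x1, y0) with hz
  set G := tr z F with hG
  have hOz : ((0, 0) : Vtx) + z = z := zero_add z
  have hGF : ∀ b, Reach (↑G : Set Edg) (0, 0) b ↔ Reach (↑F : Set Edg) v (b + z) := by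
    intro b
    rw [hG, reach_tr, hOz]
    exact ⟨fun h => hx1.trans h, fun h => (Reach.symm hx1).trans h⟩
  have hray : ∀ x : ℤ, 1 ≤ x → ¬ Reach (↑G : Set Edg) (0, 0) (x, 0) := by
    intro x hx hr
    rw [hGF] at hr
    have h3 : ((x, 0) : Vtx) + z = (x + x1, y0) := Prod.ext rfl (zero_add _)
    rw [h3] at hr
    exact hRm.2 _ (by omega) hr
  have hSE : SE m (↑G : Set Edg) := by
    constructor
    · have hwG : Reach (↑G : Set Edg) (0, 0) (w - z) := (hGF _).2 (by rw [sub_add_cancel]; exact hw)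
      rcases exit hm1 hwG with ⟨-, h4, -⟩ | h5
      · exfalso
        rw [abs_lt] at h4
        have h5 : (w - z).2 = w.2 - y0 := rfl
        rw [h5] at h4
        omega
      · exact h5
    · rintro ⟨x, y⟩ ⟨hr1, hr2, hr3⟩ hr
      simp only at hr1 hr2
      subst hr1
      exact hray x hr2 (hr.mono Set.inter_subset_left)
  by_cases hS : ∀ j < J, ¬ Suc c0 E0 t M B (q * (64 ^ j * h)) (64 ^ j * h)
      (A * (q * (64 ^ j * h))) m (p j) G
  · exact Or.inr (Or.inr (Or.inl ⟨x1, hxm, hxm2, hSE, hS⟩))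
  push Not at hS
  obtain ⟨j, hj, hLeg, V, hVQ, hVc, hVE, hV⟩ := hS
  refine Or.inr (Or.inr (Or.inr ⟨j, V.image (· + z), hj, ?_, ?_, ?_⟩))
  · rwa [Finset.card_image_of_injective _ (add_left_injective z)]
  · rwa [EnV_image]
  intro w' hw'
  obtain ⟨w0, hw0, rfl⟩ := Finset.mem_image.1 hw'
  obtain ⟨hGv, hwr⟩ := hV w0 hw0
  have hwr' : Reach (↑G : Set Edg) (0, 0) w0 := hwr.mono Set.inter_subset_left
  refine ⟨(hGF _).1 hwr', ?_⟩
  -- sizes
  have h64 : 64 ^ j ≤ 64 ^ J := Nat.pow_le_pow_right (by norm_num) hj.le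
  have h64' : 1 ≤ 64 ^ j := Nat.one_le_pow _ _ (by norm_num)
  have hh'1 : h ≤ 64 ^ j * h := Nat.le_mul_of_pos_left _ (by omega)
  have hh'2 : 64 ^ j * h ≤ 64 ^ J * h := Nat.mul_le_mul_right _ h64
  set h' := 64 ^ j * h with hh'
  set k := q * h' with hk
  set a := A * k with ha
  have hka : 128 * k ≤ a := Nat.mul_le_mul_right _ hA
  have ham : a ≤ m := by
    rw [hm, ha, hk, hh']
    calc A * (q * (64 ^ j * h)) = 64 ^ j * (A * (q * h)) := by ring
      _ ≤ _ := Nat.mul_le_mul_right _ h64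
  have haR : 8 * R ≤ a := hRA.trans (Nat.mul_le_mul_left _ (Nat.mul_le_mul_left _ hh'1))
  have hn1 : (m : ℤ) ≤ n := by omega
  have hk1 : (8 * k : ℕ) ≤ n := by omega
  have hCLR := h1 n m L R e0 F v x1 y0 hF he0 heR (by omega) hmL hyL hyn hx0
    ⟨w, hw, Or.inr hyw⟩ hRm hE hN
  have hclear : ∀ x : ℤ, (a : ℤ) ≤ x → ∀ c ∈ CV (↑G : Set Edg) (0, 0),
      (h' : ℤ) ≤ s * sd (x, 0) c := by
    intro x hx c hc
    have h3 := hCLR (x + x1) (by omega) (c + z) ((hGF c).1 hc)
    have h4 : sd (x + x1, y0) (c + z) = sd (x, 0) c := by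
      rw [← sd_add (x, 0) c z]
      congr 1
      exact Prod.ext rfl (zero_add _).symm
    rw [h4] at h3
    have h5 : (h' : ℤ) ≤ s * e0 := by exact_mod_cast hh'2.trans hhs
    exact h5.trans (mul_le_mul_of_nonneg_left h3 (by positivity))
  obtain ⟨x2, hx2, x3, hx3, hx3', hr⟩ := h2 M B q k h' a s (p j) G w0 hM hB (by omega) hq rfl
    (by omega) (hp j) (hVQ hw0) hs hGv hLeg hwr' hray hclear
  have hKK : ∀ x, Kee (M + 8 * q * s + 1) B k w0 (CV (↑G : Set Edg) (0, 0)) x →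
      KeO (M + 8 * q * s + 1 + M2) B n (w0 + z) (CV (↑F : Set Edg) v) (x + z) := by
    intro x hx c hc
    have hc' : c - z ∈ CV (↑G : Set Edg) (0, 0) := (hGF _).2 (by rw [sub_add_cancel]; exact hc)
    have h3 := hx _ hc'
    unfold Awy at h3
    have h4 : sd (x + z) c = sd x (c - z) := by
      rw [← sd_add x (c - z) z, sub_add_cancel]
    rw [sd_add, h4]
    calc (min (sd x w0) (n : ℤ)) ^ B ≤ (sd x w0) ^ B :=
          pow_le_pow_left₀ (le_min (sd_nonneg _ _) (by positivity)) (min_le_left _ _) B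
      _ < _ := h3
      _ ≤ _ := by
          refine mul_le_mul_of_nonneg_right (mul_le_mul ?_ ?_ (by positivity) (by positivity))
            (sd_nonneg _ _)
          · exact_mod_cast Nat.le_add_right _ _
          · exact pow_le_pow_left₀ (by positivity) (by exact_mod_cast hk1) _
  have hHL : ∀ x : ℤ, (a : ℤ) ≤ x →
      KeO (M + 8 * q * s + 1 + M2) B n (w0 + z) (CV (↑F : Set Edg) v) (x + x1, y0) := by
    intro x hx c hc
    have h3 := hCLR (x + x1) (by omega) c hc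
    have hn0 : (0 : ℤ) < n := by omega
    calc (min (sd (x + x1, y0) (w0 + z)) (n : ℤ)) ^ B ≤ (n : ℤ) ^ B :=
          pow_le_pow_left₀ (le_min (sd_nonneg _ _) (by positivity)) (min_le_right _ _) B
      _ = (n : ℤ) ^ (B - 1) * n := pow_split hB _
      _ < (n : ℤ) ^ (B - 1) * (M2 * e0) :=
          mul_lt_mul_of_pos_left (by exact_mod_cast hnM) (by positivity)
      _ ≤ (n : ℤ) ^ (B - 1) * (((M + 8 * q * s + 1 + M2 : ℕ) : ℤ) * sd (x + x1, y0) c) := by
          refine mul_le_mul_of_nonneg_left (mul_le_mul ?_ h3 (by positivity) (by positivity))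
            (by positivity)
          exact_mod_cast Nat.le_add_left _ _
      _ = _ := by ring
  refine ⟨x2 + z, ?_, ((x3 + (4 * n : ℕ), 0) : Vtx) + z, ?_, ?_⟩
  · obtain ⟨h3, h4, h5⟩ := hx2
    refine ⟨?_, ?_, ?_⟩ <;> simpa only [Prod.fst_add, Prod.snd_add, add_sub_add_right_eq_sub]
  · refine le_max_of_le_left ?_
    have h3 : (((x3 + (4 * n : ℕ), 0) : Vtx) + z).1 = x3 + (4 * n : ℕ) + x1 := rfl
    rw [h3]
    refine le_trans ?_ (le_abs_self _)
    push_cast
    omega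
  · refine (reach_she z ?_ hr).trans ?_
    · rintro e ⟨he1, he2⟩
      refine ⟨?_, ?_⟩
      · rw [src_she]; exact hKK _ he1
      · rw [tgt_she]; exact hKK _ he2
    · have h3 : ((x3, 0) : Vtx) + z = (x3 + x1, y0) := Prod.ext rfl (zero_add _)
      have h4 : ((x3 + (4 * n : ℕ), 0) : Vtx) + z = (x3 + x1 + (4 * n : ℕ), y0) :=
        Prod.ext (add_right_comm _ _ _) (zero_add _)
      rw [h3, h4]
      refine line (4 * n) fun i _ => ⟨?_, ?_⟩
      · rw [src_mk]
        have h5 : x3 + x1 + (i : ℤ) = (x3 + i) + x1 := by ring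
        rw [h5]
        exact hHL _ (by omega)
      · rw [tgt_true]
        have h5 : x3 + x1 + (i : ℤ) + 1 = (x3 + i + 1) + x1 := by ring
        rw [h5]
        exact hHL _ (by omega)

end Pool.Agent.Y997.OBL.OGD
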