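import Pool.Agent.Y997.OBL.StmG
import Pool.Agent.H342R2.Per.Big
import Pool.Agent.H974R2.Sym

/-!
# From large vertical extent to the largest cluster
-/

set_option autoImplicit false

namespace Pool.Agent.Y997.OBL.OSW

open H974 H12S Finset H984P H984N H342P Pool.Agent.Y989.FR Pool.Agent.Y997.OBL

theorem sd_tps (u v : Vtx) : sd (tps.ψ u) (tps.ψ v) = sd u v := by
  obtain ⟨a, b⟩ := u
  obtain ⟨c, d⟩ := v
  simp only [sd, tps_ψ]
  exact max_comm _ _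

theorem tps_tps (v : Vtx) : tps.ψ (tps.ψ v) = v := rfl

theorem keo {M B n : ℕ} {w : Vtx} {C C' : Set Vtx} (hC : ∀ c ∈ C, tps.ψ c ∈ C') {x : Vtx}
    (h : KeO M B n (tps.ψ w) C' x) : KeO M B n w C (tps.ψ x) := by
  intro c hc
  have h1 := h _ (hC c hc)
  have e1 : sd x (tps.ψ w) = sd (tps.ψ x) w := by
    rw [← sd_tps x (tps.ψ w)]
    rfl
  have e2 : sd x (tps.ψ c) = sd (tps.ψ x) c := by
    rw [← sd_tps x (tps.ψ c)]
    rfl
  rwa [e1, e2] at h1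

theorem tho {M B n : ℕ} {w : Vtx} {C C' : Set Vtx} (hC : ∀ c ∈ C, tps.ψ c ∈ C')
    (h : ThO M B n C' (tps.ψ w)) : ThO M B n C w := by
  obtain ⟨x', hx', y', hy', hr⟩ := h
  refine ⟨tps.ψ x', ?_, tps.ψ y', ?_, ?_⟩
  · obtain ⟨w1, w2⟩ := w
    obtain ⟨x1, x2⟩ := x'
    simp only [bdB, tps_ψ, Set.mem_ofPred_eq] at hx' ⊢
    exact ⟨hx'.2.1, hx'.1, hx'.2.2.symm⟩
  · have : sd (tps.ψ y') (0, 0) = sd y' (0, 0) := sd_tps y' (0, 0)
    rw [this]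
    exact hy'
  · refine (tps.reach hr).mono ?_
    rintro _ ⟨e, ⟨h1, h2⟩, rfl⟩
    rcases tps.compat e with ⟨a, b⟩ | ⟨a, b⟩
    · refine ⟨?_, ?_⟩
      · rw [a]
        exact keo hC h1
      · rw [b]
        exact keo hC h2
    · refine ⟨?_, ?_⟩
      · rw [a]
        exact keo hC h2
      · rw [b]
        exact keo hC h1

theorem env_tps (t : ℝ) (V : Finset Vtx) : EnV t (V.map tps.ψ.toEmbedding) = EnV t V := by
  unfold EnV
  rw [Finset.sum_map]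
  refine Finset.sum_congr rfl fun v _ => ?_
  rw [Finset.sum_map]
  refine Finset.sum_congr rfl fun w _ => ?_
  simp only [Equiv.coe_toEmbedding, sd_tps]

theorem rth {t c E : ℝ} {M B n : ℕ} {v : Vtx} {F : Finset Edg}
    (h : RTh t c E M B n (tps.ψ v) (↑(tps.mp F) : Set Edg)) :
    RTh t c E M B n v (↑F : Set Edg) := by
  obtain ⟨V, h1, h2, h3⟩ := h
  refine ⟨V.map tps.ψ.toEmbedding, ?_, ?_, ?_⟩
  · rw [Finset.card_map]
    exact h1
  · rw [env_tps]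
    exact h2
  · intro w hw
    rw [Finset.mem_map] at hw
    obtain ⟨w', hw', rfl⟩ := hw
    obtain ⟨h4, h5⟩ := h3 w' hw'
    have hw2 : w' = tps.ψ (tps.ψ w') := rfl
    rw [LSym.coe_mp, hw2] at h4
    refine ⟨tps.reach_iff.mp h4, ?_⟩
    refine tho (C' := CV (↑(tps.mp F) : Set Edg) (tps.ψ v)) ?_ h5
    intro c hc
    change Reach (↑(tps.mp F) : Set Edg) (tps.ψ v) (tps.ψ c)
    rw [LSym.coe_mp]
    exact tps.reach hc

theorem t_OSW (h : S_OVER) : S_OPAR := by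
  intro t ht0 ht1 δ hδ
  have hok : Ok (fun _ : Edg => (1/2:ℝ)) := fun _ => ⟨by norm_num, by norm_num⟩
  have hδ3 : 0 < δ / 3 := by linarith
  obtain ⟨K1', hK1'⟩ := exists_pow_lt_of_lt_one hδ3 (show (1/2:ℝ) < 1 by norm_num)
  obtain ⟨K1, hK1⟩ : ∃ K1, K1 = K1' + 1 := ⟨_, rfl⟩
  have hK1pos : 0 < K1 := by omega
  have hK1d : (1/2:ℝ) ^ K1 ≤ δ / 3 := by
    rw [hK1, pow_succ]
    have : (0:ℝ) ≤ (1/2) ^ K1' := by positivity
    linarith
  have hK1R : (0:ℝ) < K1 := by exact_mod_cast hK1pos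
  obtain ⟨M, B, c, E, hM, hB, hc, hE, n0, hn0⟩ := h t ht0 ht1 (δ / 3) (1 / (6 * K1)) hδ3
    (by positivity)
  refine ⟨M, B, c, E, hM, hB, hc, hE, max n0 (16 * K1), fun n hn => ?_⟩
  have hnn0 : n0 ≤ n := (le_max_left _ _).trans hn
  have hn16 : 16 * K1 ≤ n := (le_max_right _ _).trans hn
  have hov := hn0 n hnn0
  obtain ⟨L, hL'⟩ : ∃ L : ℕ, L = n / (2 * K1) := ⟨_, rfl⟩
  obtain ⟨m, hm⟩ : ∃ m : ℕ, m = L / 3 := ⟨_, rfl⟩
  have hLn : 2 * K1 * L ≤ n := by rw [hL']; exact Nat.mul_div_le n (2 * K1)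
  have hLn2 : n < 2 * K1 * (L + 1) := by rw [hL']; exact Nat.lt_mul_div_succ n (by omega)
  have hm1 : 3 * m ≤ L := by rw [hm]; exact Nat.mul_div_le L 3
  have hm2 : L < 3 * (m + 1) := by rw [hm]; exact Nat.lt_mul_div_succ L (by omega)
  have hL8 : 8 ≤ L := by
    rw [hL', Nat.le_div_iff_mul_le (by omega)]
    omega
  have hKL : K1 * (L + 1) ≤ n + 1 := by nlinarith
  have hLnn : L ≤ n := by nlinarith
  have hnm : n ≤ 12 * K1 * m := by
    have : 2 * K1 * (L + 1) ≤ 2 * K1 * (3 * (m + 1)) := by gcongr; omega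
    nlinarith
  have hmR : (n:ℝ) ≤ 12 * K1 * m := by exact_mod_cast hnm
  have hrho : 1 / (6 * (K1:ℝ)) * n ≤ 2 * m := by
    rw [div_mul_eq_mul_div, one_mul, div_le_iff₀ (by positivity)]
    linarith
  have p1 := (pr_not_big (n := n) (L := L) (K := K1) (by omega) (m := (m:ℤ)) (by omega)
    (by exact_mod_cast hm1) hKL hLnn).trans hK1d
  -- the transposed event
  have p3 : Pr (fun _ => (1/2:ℝ)) (RE 0 n 0 n) (fun F => ∃ v : Vtx,
      (∃ u w : Vtx, Reach (↑F : Set Edg) v u ∧ Reach (↑F : Set Edg) v w ∧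
        1 / (6 * (K1:ℝ)) * n ≤ ((w.1 - u.1 : ℤ) : ℝ)) ∧
      ¬ RTh t c E M B n v (↑F : Set Edg)) ≤ δ / 3 := by
    refine le_trans ?_ hov
    have hS := LSym.pr tps (1/2) (RE 0 n 0 n) (fun F => ∃ v : Vtx,
      (∃ u w : Vtx, Reach (↑F : Set Edg) v u ∧ Reach (↑F : Set Edg) v w ∧
        1 / (6 * (K1:ℝ)) * n ≤ ((w.2 - u.2 : ℤ) : ℝ)) ∧ ¬ RTh t c E M B n v (↑F : Set Edg))
    rw [tps_RE] at hS
    change _ ≤ Pr (fun _ => (1/2:ℝ)) (RE 0 n 0 n) (fun F => ∃ v : Vtx,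
      (∃ u w : Vtx, Reach (↑F : Set Edg) v u ∧ Reach (↑F : Set Edg) v w ∧
        1 / (6 * (K1:ℝ)) * n ≤ ((w.2 - u.2 : ℤ) : ℝ)) ∧ ¬ RTh t c E M B n v (↑F : Set Edg))
    rw [hS]
    apply Pr_mono hok
    rintro F _ ⟨v, ⟨u, w, g1, g2, g3⟩, g4⟩
    refine ⟨tps.ψ v, ⟨tps.ψ u, tps.ψ w, ?_, ?_, g3⟩, fun g5 => g4 (rth g5)⟩
    · rw [LSym.coe_mp]
      exact tps.reach g1
    · rw [LSym.coe_mp]
      exact tps.reach g2
  have hsum : δ = δ / 3 + (δ / 3 + δ / 3) := by ring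
  rw [hsum]
  refine le_trans ?_ (add_le_add p1 (add_le_add hov p3))
  refine le_trans ?_ (add_le_add_right (Pr_or_le hok _ _ _) _)
  refine le_trans ?_ (Pr_or_le hok _ _ _)
  apply Pr_mono hok
  rintro F hF ⟨v, hv, hno⟩
  by_cases hbig : Big n m (↑F)
  · right
    obtain ⟨a, b, ha, hb, hmax⟩ := hv
    obtain ⟨c', d', hc', hd', hcd, h8⟩ := hbig
    have h8' : 8 * (m:ℤ) ^ 2 ≤ dsq a b := h8.trans (hmax c' d' hc' hd' hcd)
    have hcase : 2 * (m:ℤ) ≤ |a.2 - b.2| ∨ 2 * (m:ℤ) ≤ |a.1 - b.1| := by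
      by_contra hcon
      push Not at hcon
      obtain ⟨q1, q2⟩ := hcon
      unfold dsq at h8'
      have r1 : (a.2 - b.2) ^ 2 < (2 * (m:ℤ)) ^ 2 := by
        rw [← sq_abs (a.2 - b.2)]
        exact pow_lt_pow_left₀ q1 (abs_nonneg _) two_ne_zero
      have r2 : (a.1 - b.1) ^ 2 < (2 * (m:ℤ)) ^ 2 := by
        rw [← sq_abs (a.1 - b.1)]
        exact pow_lt_pow_left₀ q2 (abs_nonneg _) two_ne_zero
      nlinarith
    have hconv : ∀ z : ℤ, 2 * (m:ℤ) ≤ z → 1 / (6 * (K1:ℝ)) * n ≤ (z : ℝ) := by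
      intro z hz
      have : ((2 * (m:ℤ) : ℤ) : ℝ) ≤ (z : ℝ) := by exact_mod_cast hz
      push_cast at this
      linarith
    rcases hcase with hcase | hcase
    · left
      refine ⟨v, ?_, hno⟩
      rcases le_abs.mp hcase with h1 | h1
      · exact ⟨b, a, hb, ha, hconv _ h1⟩
      · exact ⟨a, b, ha, hb, hconv _ (by omega)⟩
    · right
      refine ⟨v, ?_, hno⟩
      rcases le_abs.mp hcase with h1 | h1
      · exact ⟨b, a, hb, ha, hconv _ h1⟩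
      · exact ⟨a, b, ha, hb, hconv _ (by omega)⟩
  · left
    exact hbig

end Pool.Agent.Y997.OBL.OSW
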