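import Pool.Agent.Y997.OBL.StmG
import Pool.Agent.H974R2.Split

/-!
OVER: clusters of large vertical extent have many accessible vertices (choice of the parameters).
-/

set_option autoImplicit false

namespace Pool.Agent.Y997.OBL.OVER

open H974 H12S Finset H984P H984N H342P Pool.Agent.Y989.FR Pool.Agent.Y997.OBL
open Pool.Agent.W92.DP (DTB DLR shc)
open Pool.Agent.W822.PD (tr)

theorem okh : Ok (fun _ : Edg => (1 / 2 : ℝ)) := fun _ => ⟨by norm_num, by norm_num⟩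

theorem tr_prob {n m : ℕ} {x y : ℤ} (hx : (m : ℤ) ≤ x) (hx' : x ≤ (n : ℤ) - m) (hy : (m : ℤ) ≤ y)
    (hy' : y ≤ (n : ℤ) - m) (B : Finset Edg → Prop) (r : ℝ)
    (hB : ∀ S : Finset Edg, boxE m ⊆ S → PQ (1 / 2) S B ≤ r) :
    PQ (1 / 2) (RE 0 n 0 n) (fun F => B (tr (x, y) F)) ≤ r := by
  have h1 : PQ (1 / 2) (RE 0 n 0 n) (fun F => B (tr (x, y) F)) =
      PQ (1 / 2) ((trl (-x) (-y)).mp (RE 0 n 0 n)) B := ((trl (-x) (-y)).pr (1 / 2) _ B).symm
  rw [h1]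
  apply hB
  rintro ⟨a, b, _ | _⟩ he
  · rw [LSym.mem_mp, trl_φs]
    simp only [boxE, mem_RE_false] at he ⊢
    omega
  · rw [LSym.mem_mp, trl_φs]
    simp only [boxE, mem_RE_true] at he ⊢
    omega

/-- floor of a large number -/
theorem floor_half {x : ℝ} (hx : 2 ≤ x) : x / 2 ≤ (⌊x⌋₊ : ℝ) ∧ (⌊x⌋₊ : ℝ) ≤ x := by
  have h1 := Nat.lt_floor_add_one x
  have h2 := Nat.floor_le (by linarith : (0 : ℝ) ≤ x)
  exact ⟨by linarith, h2⟩

theorem t_OVER (h1 : S_SEJ) (h2 : S_OGD) (h3 : S_NRP) (h4 : S_ENP) : S_OVER := by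
  intro t ht0 ht1 δ ρ0 hδ hρ0
  obtain ⟨C2, hC2, hnr⟩ := h3
  obtain ⟨C1, hC1, hen⟩ := h4
  obtain ⟨ρ, hρ⟩ : ∃ ρ, ρ = min ρ0 1 := ⟨_, rfl⟩
  have hρpos : 0 < ρ := by rw [hρ]; exact lt_min hρ0 one_pos
  have hρ1 : ρ ≤ 1 := by rw [hρ]; exact min_le_right _ _
  have hρle : ρ ≤ ρ0 := by rw [hρ]; exact min_le_left _ _
  obtain ⟨K, hK⟩ : ∃ K : ℕ, 4 / ρ ≤ K := exists_nat_ge _
  obtain ⟨K1, hK1⟩ : ∃ K1 : ℝ, K1 = (K : ℝ) + 1 := ⟨_, rfl⟩
  have hK1pos : 0 < K1 := by rw [hK1]; positivity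
  -- kappa
  obtain ⟨w, hw⟩ : ∃ w : ℝ, w = δ / (3 * (K1 * C1)) := ⟨_, rfl⟩
  have hwpos : 0 < w := by rw [hw]; positivity
  obtain ⟨κ, hκ⟩ : ∃ κ : ℝ, κ = min (ρ / 8) (ρ / 4 * w ^ 3) := ⟨_, rfl⟩
  have hκpos : 0 < κ := by rw [hκ]; exact lt_min (by positivity) (by positivity)
  have hκ8 : κ ≤ ρ / 8 := by rw [hκ]; exact min_le_left _ _
  have hκw : 4 * κ / ρ ≤ w ^ 3 := by
    have : κ ≤ ρ / 4 * w ^ 3 := by rw [hκ]; exact min_le_right _ _
    rw [div_le_iff₀ hρpos]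
    linarith
  have hκK : K1 * (C1 * (4 * κ / ρ) ^ (1 / 3 : ℝ)) ≤ δ / 3 := by
    have f1 : (4 * κ / ρ) ^ (1 / 3 : ℝ) ≤ w := by
      refine (Real.rpow_le_rpow (by positivity) hκw (by norm_num)).trans ?_
      rw [← Real.rpow_natCast, ← Real.rpow_mul hwpos.le]
      norm_num
    calc K1 * (C1 * (4 * κ / ρ) ^ (1 / 3 : ℝ)) ≤ K1 * (C1 * w) := by gcongr
      _ = δ / 3 := by rw [hw]; field_simp
  obtain ⟨ε, hε⟩ : ∃ ε : ℝ, ε = δ * κ / (6 * K1) := ⟨_, rfl⟩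
  have hεpos : 0 < ε := by rw [hε]; positivity
  obtain ⟨M, B, q, A, J, h0, c0, E0, ⟨hM, hB, hq, hA, hh0⟩, hc0, hE0, hsej⟩ :=
    h1 t ε ht0 ht1 hεpos
  obtain ⟨D, hD⟩ : ∃ D : ℕ, D = 64 ^ J * (A * q) := ⟨_, rfl⟩
  have hAq : 8 ≤ A * q := le_trans (by norm_num) (Nat.mul_le_mul hA hq)
  have hDAq : A * q ≤ D := by
    rw [hD]; exact Nat.le_mul_of_pos_left _ (by positivity)
  have hDpos : 0 < D := by omega
  have hDR : (0 : ℝ) < D := by exact_mod_cast hDpos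
  -- eta
  obtain ⟨η, hη⟩ : ∃ η : ℝ, η = min (κ / (2 * D)) (δ / (3 * (K1 * C2 * (2 * D / κ) ^ 2))) :=
    ⟨_, rfl⟩
  have hηpos : 0 < η := by rw [hη]; exact lt_min (by positivity) (by positivity)
  have hηD : η ≤ κ / (2 * D) := by rw [hη]; exact min_le_left _ _
  have hηK : K1 * C2 * (2 * D / κ) ^ 2 * η ≤ δ / 3 := by
    have f1 : η ≤ δ / (3 * (K1 * C2 * (2 * D / κ) ^ 2)) := by rw [hη]; exact min_le_right _ _
    rw [le_div_iff₀ (by positivity)] at f1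
    linarith
  obtain ⟨s, hs⟩ : ∃ s : ℕ, 2 * κ / η ≤ s := exists_nat_ge _
  have hsposR : (0 : ℝ) < s := lt_of_lt_of_le (by positivity) hs
  have hspos : 1 ≤ s := by exact_mod_cast hsposR
  obtain ⟨M2, hM2⟩ : ∃ M2 : ℕ, 2 / η + 1 ≤ M2 := exists_nat_ge _
  obtain ⟨n0, hn0⟩ : ∃ n0 : ℕ, 12 / ρ + 2 * D / κ * ((h0 : ℝ) + 2) + 2 / η ≤ n0 := exists_nat_ge _
  refine ⟨M + 8 * q * s + 1 + M2, B, c0 * (κ / (2 * D)) ^ (4 / 3 : ℝ), E0, by omega, hB,
    by positivity, hE0, n0, fun n hn => ?_⟩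
  have hnR : 12 / ρ + 2 * D / κ * ((h0 : ℝ) + 2) + 2 / η ≤ n :=
    hn0.trans (by exact_mod_cast hn)
  have hp1 : 0 < 12 / ρ := by positivity
  have hp2 : 0 < 2 * D / κ * ((h0 : ℝ) + 2) := by positivity
  have hp3 : 0 < 2 / η := by positivity
  have hnpos : (0 : ℝ) < n := by linarith
  -- L
  have ha : 12 ≤ ρ * n := by
    have : 12 / ρ ≤ n := by linarith
    rw [div_le_iff₀ hρpos] at this
    linarith
  obtain ⟨L, hL⟩ : ∃ L : ℕ, L = ⌊ρ * n / 3⌋₊ := ⟨_, rfl⟩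
  have hL1 : (L : ℝ) ≤ ρ * n / 3 := by rw [hL]; exact Nat.floor_le (by positivity)
  have hL2 : ρ * n / 4 ≤ L := by
    have := Nat.lt_floor_add_one (ρ * n / 3)
    rw [← hL] at this
    linarith
  -- h
  have hb : 2 * ((h0 : ℝ) + 2) ≤ κ * n / D := by
    have f1 : 2 * D / κ * ((h0 : ℝ) + 2) ≤ n := by linarith
    have f2 : 2 * D / κ * ((h0 : ℝ) + 2) = (2 * ((h0 : ℝ) + 2)) * D / κ := by ring
    rw [f2, div_le_iff₀ hκpos] at f1
    rw [le_div_iff₀ hDR]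
    linarith
  obtain ⟨h, hh⟩ : ∃ h : ℕ, h = ⌊κ * n / D⌋₊ := ⟨_, rfl⟩
  have h0R : (0 : ℝ) ≤ h0 := by positivity
  obtain ⟨hh2, hh1⟩ := floor_half (x := κ * n / D) (by linarith)
  rw [← hh] at hh1 hh2
  have hhh0 : h0 ≤ h := by
    have : (h0 : ℝ) ≤ h := by linarith
    exact_mod_cast this
  have hhpos : 1 ≤ h := hh0.trans hhh0
  have hhR : (0 : ℝ) < h := by exact_mod_cast hhpos
  -- e0
  have hc : 2 ≤ η * n := by
    have : 2 / η ≤ n := by linarith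
    rw [div_le_iff₀ hηpos] at this
    linarith
  obtain ⟨e0, he0⟩ : ∃ e0 : ℕ, e0 = ⌊η * n⌋₊ := ⟨_, rfl⟩
  obtain ⟨he2, he1⟩ := floor_half hc
  rw [← he0] at he1 he2
  have he0R : (1 : ℝ) ≤ e0 := by linarith
  have he0pos : 1 ≤ e0 := by exact_mod_cast he0R
  have he0h : e0 ≤ h := by
    have : (e0 : ℝ) ≤ h := by
      refine he1.trans (le_trans ?_ hh2)
      calc η * n ≤ κ / (2 * D) * n := by gcongr
        _ = κ * n / D / 2 := by field_simp
    exact_mod_cast this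
  -- m
  obtain ⟨m, hm⟩ : ∃ m : ℕ, m = 64 ^ J * (A * (q * h)) := ⟨_, rfl⟩
  have hmD : m = D * h := by rw [hm, hD]; ring
  have hmR : (m : ℝ) = D * h := by rw [hmD]; push_cast; ring
  have hm1 : (m : ℝ) ≤ κ * n := by
    rw [hmR]
    rw [le_div_iff₀ hDR] at hh1
    linarith
  have hm2 : κ * n / 2 ≤ m := by
    rw [hmR]
    have f1 : κ * n / D / 2 * D ≤ h * D := by gcongr
    have f2 : κ * n / D / 2 * D = κ * n / 2 := by field_simp
    linarith
  have hmpos : (0 : ℝ) < m := lt_of_lt_of_le (by positivity) hm2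
  have hmL : m ≤ L := by
    have : (m : ℝ) ≤ L := by
      refine hm1.trans (le_trans ?_ hL2)
      have f1 : κ * n ≤ ρ / 8 * n := mul_le_mul_of_nonneg_right hκ8 hnpos.le
      linarith
    exact_mod_cast this
  have h8 : 8 * h ≤ A * (q * h) := by
    calc 8 * h ≤ (A * q) * h := Nat.mul_le_mul_right _ hAq
      _ = A * (q * h) := by ring
  have hhm : 4 * h ≤ m := by
    have : A * (q * h) ≤ m := by rw [hm]; exact Nat.le_mul_of_pos_left _ (by positivity)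
    omega
  have hmpos' : 1 ≤ m := by omega
  have hse : 64 ^ J * h ≤ s * e0 := by
    have : ((64 ^ J * h : ℕ) : ℝ) ≤ ((s * e0 : ℕ) : ℝ) := by
      have f1 : ((64 ^ J * h : ℕ) : ℝ) ≤ (m : ℝ) := by
        have : 64 ^ J * h ≤ m := by
          rw [hm]
          exact Nat.mul_le_mul_left _ (le_trans (by omega) h8)
        exact_mod_cast this
      have f2 : κ * n ≤ s * e0 := by
        rw [div_le_iff₀ hηpos] at hs
        calc κ * n = (2 * κ) * n / 2 := by ring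
          _ ≤ (s * η) * n / 2 := by gcongr
          _ = s * (η * n / 2) := by ring
          _ ≤ s * e0 := by gcongr
      push_cast at f1 ⊢
      linarith
    exact_mod_cast this
  have hnM2 : n < M2 * e0 := by
    have : (n : ℝ) < ((M2 * e0 : ℕ) : ℝ) := by
      push_cast
      calc (n : ℝ) < n + η * n / 2 := by
            have : 0 < η * n := by positivity
            linarith
        _ = (2 / η + 1) * (η * n / 2) := by field_simp
        _ ≤ M2 * e0 := by gcongr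
    exact_mod_cast this
  obtain ⟨p, hp, hsejh⟩ := hsej h hhh0
  -- the probabilities
  have hnKL : (n : ℝ) ≤ K * L := by
    rw [div_le_iff₀ hρpos] at hK
    calc (n : ℝ) = 4 * n / 4 := by ring
      _ ≤ (K * ρ) * n / 4 := by gcongr
      _ = K * (ρ * n / 4) := by ring
      _ ≤ K * L := by gcongr
  have hnKL' : n ≤ K * L := by exact_mod_cast hnKL
  have hLpos : 1 ≤ L := by omega
  obtain ⟨I, hI⟩ : ∃ I : Finset ℕ, I = (Finset.range (K + 1)).filter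
    (fun i : ℕ => (L : ℤ) ≤ (i : ℤ) * L ∧ (i : ℤ) * L ≤ (n : ℤ) - L) := ⟨_, rfl⟩
  have hIcard : (I.card : ℝ) ≤ K1 := by
    rw [hI, hK1]
    have : ((Finset.range (K + 1)).filter (fun i : ℕ => (L : ℤ) ≤ (i : ℤ) * L ∧
      (i : ℤ) * L ≤ (n : ℤ) - L)).card ≤ K + 1 := (Finset.card_filter_le _ _).trans (by simp)
    exact_mod_cast this
  have hImem : ∀ i ∈ I, (L : ℤ) ≤ (i : ℤ) * L ∧ (i : ℤ) * L ≤ (n : ℤ) - L := by
    intro i hi
    rw [hI, Finset.mem_filter] at hi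
    exact hi.2
  have hsumI : ∀ (f : ℕ → ℝ) (r : ℝ), 0 ≤ r → (∀ i ∈ I, f i ≤ r) → ∑ i ∈ I, f i ≤ K1 * r := by
    intro f r hr hf
    calc ∑ i ∈ I, f i ≤ ∑ i ∈ I, r := Finset.sum_le_sum hf
      _ = I.card * r := by rw [Finset.sum_const, nsmul_eq_mul]
      _ ≤ K1 * r := by gcongr
  have P1 : PQ (1 / 2) (RE 0 n 0 n) (fun F => ∃ i ∈ I, EndE n m L ((i : ℤ) * L) ↑F) ≤ δ / 3 := by
    refine (Pr_exists_le okh _ I _).trans (le_trans ?_ hκK)
    refine hsumI _ _ (by positivity) fun i hi => ?_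
    obtain ⟨g1, g2⟩ := hImem i hi
    refine (hen n m L _ hmpos' hmL (by omega) (by omega)).trans ?_
    refine mul_le_mul_of_nonneg_left (Real.rpow_le_rpow (by positivity) ?_ (by norm_num)) hC1.le
    have hLR : (0 : ℝ) < L := by exact_mod_cast hLpos
    rw [div_le_div_iff₀ hLR hρpos]
    calc (m : ℝ) * ρ ≤ (κ * n) * ρ := by gcongr
      _ = 4 * κ * (ρ * n / 4) := by ring
      _ ≤ 4 * κ * L := by gcongr
  have hnh : (n : ℝ) / h ≤ 2 * D / κ := by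
    rw [div_le_div_iff₀ hhR hκpos]
    have f1 : κ * n / D / 2 * (2 * D) ≤ h * (2 * D) := by gcongr
    have f2 : κ * n / D / 2 * (2 * D) = κ * n := by field_simp
    linarith
  have heh : (e0 : ℝ) / h ≤ η * (2 * D / κ) := by
    calc (e0 : ℝ) / h ≤ (η * n) / h := by gcongr
      _ = η * (n / h) := by ring
      _ ≤ _ := by gcongr
  have P2 : PQ (1 / 2) (RE 0 n 0 n) (fun F => ∃ i ∈ I, Nr n e0 h ((i : ℤ) * L) ↑F) ≤ δ / 3 := by
    refine (Pr_exists_le okh _ I _).trans (le_trans ?_ hηK)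
    have f0 : K1 * C2 * (2 * D / κ) ^ 2 * η = K1 * (C2 * (2 * D / κ) * (η * (2 * D / κ))) := by
      ring
    rw [f0]
    refine hsumI _ _ (by positivity) fun i hi => ?_
    obtain ⟨g1, g2⟩ := hImem i hi
    have hmLZ : (m : ℤ) ≤ L := by exact_mod_cast hmL
    have hhmZ : 4 * (h : ℤ) ≤ m := by exact_mod_cast hhm
    refine (hnr n e0 h _ he0pos he0h (by omega) (by omega)).trans ?_
    gcongr
  have hmLZ : (m : ℤ) ≤ L := by exact_mod_cast hmL
  have P3 : PQ (1 / 2) (RE 0 n 0 n) (fun F => ∃ i ∈ I, ∃ x ∈ Finset.Icc (m : ℤ) ((n : ℤ) - m),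
      (SE m (↑(tr (x, (i : ℤ) * L) F) : Set Edg) ∧
        ∀ j < J, ¬ Suc c0 E0 t M B (q * (64 ^ j * h)) (64 ^ j * h) (A * (q * (64 ^ j * h))) m (p j)
          (tr (x, (i : ℤ) * L) F))) ≤ δ / 3 := by
    refine (Pr_exists_le okh _ I _).trans ?_
    have f0 : K1 * (n * (ε / m)) ≤ δ / 3 := by
      have f1 : (n : ℝ) / m ≤ 2 / κ := by
        rw [div_le_div_iff₀ hmpos hκpos]
        linarith
      calc K1 * (n * (ε / m)) = K1 * ε * (n / m) := by ring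
        _ ≤ K1 * ε * (2 / κ) := by gcongr
        _ = δ / 3 := by rw [hε]; field_simp; ring
    refine le_trans ?_ f0
    refine hsumI _ _ (by positivity) fun i hi => ?_
    obtain ⟨g1, g2⟩ := hImem i hi
    refine (Pr_exists_le okh _ (Finset.Icc (m : ℤ) ((n : ℤ) - m)) _).trans ?_
    have f2 : ∀ x ∈ Finset.Icc (m : ℤ) ((n : ℤ) - m), Pr (fun _ => (1 / 2 : ℝ)) (RE 0 n 0 n)
        (fun F => (SE m (↑(tr (x, (i : ℤ) * L) F) : Set Edg) ∧
        ∀ j < J, ¬ Suc c0 E0 t M B (q * (64 ^ j * h)) (64 ^ j * h) (A * (q * (64 ^ j * h))) m (p j)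
          (tr (x, (i : ℤ) * L) F))) ≤ ε / m := by
      intro x hx
      rw [Finset.mem_Icc] at hx
      refine tr_prob (n := n) (m := m) (x := x) (y := (i : ℤ) * L) hx.1 hx.2 (by omega) (by omega)
        (fun G => SE m (↑G : Set Edg) ∧
        ∀ j < J, ¬ Suc c0 E0 t M B (q * (64 ^ j * h)) (64 ^ j * h) (A * (q * (64 ^ j * h))) m (p j)
          G) _ ?_
      intro S hS
      rw [hm] at hS ⊢
      exact hsejh S hS
    refine (Finset.sum_le_sum f2).trans ?_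
    rw [Finset.sum_const, nsmul_eq_mul]
    refine mul_le_mul_of_nonneg_right ?_ (by positivity)
    rw [Int.card_Icc]
    have : ((n : ℤ) - m + 1 - m).toNat ≤ n := by omega
    exact_mod_cast this
  have hsum : δ = δ / 3 + δ / 3 + δ / 3 := by ring
  rw [hsum]
  refine le_trans ?_ (add_le_add (add_le_add P1 P2) P3)
  refine le_trans ?_ (add_le_add_left (Pr_or_le okh _ _ _) _)
  refine le_trans ?_ (Pr_or_le okh _ _ _)
  apply Pr_mono okh
  rintro F hF ⟨v, ⟨u, w', hu, hw', huw⟩, hno⟩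
  have h3L : 3 * (L : ℤ) ≤ w'.2 - u.2 := by
    have : ((3 * (L : ℤ) : ℤ) : ℝ) ≤ ((w'.2 - u.2 : ℤ) : ℝ) := by
      refine le_trans ?_ huw
      push_cast
      have : ρ * n ≤ ρ0 * n := by gcongr
      linarith
    exact_mod_cast this
  obtain ⟨y0, ⟨i, hy0⟩, hy1, hy2, hcase⟩ := h2 t c0 E0 M B q A J h s M2 n m L h e0 p F v
    ⟨by omega, hB, hq, hA, hhpos, hspos⟩ hp hm he0pos he0h h8 hmL hse hnM2 hF
    ⟨u, w', hu, hw', h3L⟩
  have hiI : i ∈ I := by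
    rw [hI, Finset.mem_filter, Finset.mem_range]
    refine ⟨?_, by rw [← hy0]; exact hy1, by rw [← hy0]; exact hy2⟩
    by_contra hcon
    rw [not_lt] at hcon
    have f1 : (K + 1) * L ≤ i * L := Nat.mul_le_mul_right _ hcon
    have f2 : (((K + 1) * L : ℕ) : ℤ) ≤ ((i * L : ℕ) : ℤ) := by exact_mod_cast f1
    have f3 : ((i * L : ℕ) : ℤ) = y0 := by rw [hy0]; push_cast; ring
    have f4 : ((n : ℕ) : ℤ) ≤ ((K * L : ℕ) : ℤ) := by exact_mod_cast hnKL'
    have f5 : (((K + 1) * L : ℕ) : ℤ) = ((K * L : ℕ) : ℤ) + L := by push_cast; ring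
    omega
  rcases hcase with hcase | hcase | hcase | hcase
  · left; left
    exact ⟨i, hiI, by rw [← hy0]; exact hcase⟩
  · left; right
    exact ⟨i, hiI, by rw [← hy0]; exact hcase⟩
  · right
    obtain ⟨x, hx1, hx2, hx3⟩ := hcase
    refine ⟨i, hiI, x, Finset.mem_Icc.2 ⟨hx1, hx2⟩, ?_⟩
    rw [← hy0]
    exact hx3
  · exfalso
    obtain ⟨j, V, hj, hV1, hV2, hV3⟩ := hcase
    apply hno
    have hjh : h ≤ 64 ^ j * h := Nat.le_mul_of_pos_left _ (by positivity)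
    have hjm : 64 ^ j * h ≤ n := by
      have g1 : 64 ^ j * h ≤ 64 ^ J * h :=
        Nat.mul_le_mul_right _ (Nat.pow_le_pow_right (by norm_num) hj.le)
      have g2 : 64 ^ J * h ≤ m := by
        rw [hm]
        exact Nat.mul_le_mul_left _ (le_trans (by omega) h8)
      have g3 : (m : ℝ) ≤ n := by
        have f1 : κ * n ≤ 1 * n := mul_le_mul_of_nonneg_right (by linarith) hnpos.le
        linarith
      have g4 : m ≤ n := by exact_mod_cast g3
      omega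
    refine ⟨V, ?_, ?_, fun w hw => hV3 w hw⟩
    · refine le_trans ?_ hV1
      rw [mul_assoc, ← Real.mul_rpow (by positivity) hnpos.le]
      refine mul_le_mul_of_nonneg_left ?_ hc0.le
      refine Real.rpow_le_rpow (by positivity) ?_ (by norm_num)
      have g1 : (h : ℝ) ≤ ((64 ^ j * h : ℕ) : ℝ) := by exact_mod_cast hjh
      refine le_trans ?_ g1
      refine le_trans (le_of_eq ?_) hh2
      field_simp
    · refine hV2.trans ?_
      refine mul_le_mul_of_nonneg_left ?_ hE0.le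
      refine Real.rpow_le_rpow (by positivity) ?_ (by linarith)
      exact_mod_cast hjm

end Pool.Agent.Y997.OBL.OVER
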