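import Pool.Agent.Y997.OBL.Stm
import Pool.Agent.Y989.FR.T_INN
import Pool.Agent.Y989.FR.T_ACU

/-!
# Step PIG: choice of the exit of the thick path
-/

set_option autoImplicit false

namespace Pool.Agent.Y997.OBL.PIG

open Pool.Agent.Y997.OBL
open H974 H12S Finset H984P H984N Pool.Agent.Y989.FR
open Pool.Agent.W92.DP (DTB DLR shc)
open Pool.Agent.Y989.FR.INN (Good good_sy mem_bdB0 mem_blk0 image_inv)
open Pool.Agent.Y989.FR.ACU (box_blk adj_near)

theorem hok : Ok (fun _ : Edg => (1 / 2 : ℝ)) := fun _ => ⟨by norm_num, by norm_num⟩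

/-! ### Paths -/

theorem adj_sd {G : Set Edg} {u v : Vtx} (h : Adj G u v) : sd v (0, 0) ≤ sd u (0, 0) + 1 := by
  have h1 := adj_near h
  obtain ⟨a, b⟩ := u
  obtain ⟨a', b'⟩ := v
  simp only [sd, sub_zero] at h1 ⊢
  have h2 := le_max_left |a| |b|
  have h3 := le_max_right |a| |b|
  refine max_le ?_ ?_
  · have : |a'| ≤ |a| + 1 := by
      rcases abs_cases a with h | h <;> rcases abs_cases a' with h' | h' <;> omega
    omega
  · have : |b'| ≤ |b| + 1 := by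
      rcases abs_cases b with h | h <;> rcases abs_cases b' with h' | h' <;> omega
    omega

theorem firstX {G : Set Edg} {r : ℕ} {u w : Vtx} (hu : sd u (0, 0) ≤ r) (h : Reach G u w) :
    (sd w (0, 0) ≤ r ∧ Reach (G ∩ ↑(boxE r)) u w) ∨
      ∃ y, sd y (0, 0) = r ∧ Reach (G ∩ ↑(boxE r)) u y := by
  induction h with
  | refl => exact Or.inl ⟨hu, Reach.refl _ _⟩
  | @tail w w' _ hs ih =>
    rcases ih with ⟨h1, h2⟩ | ih
    · by_cases hw' : sd w' (0, 0) ≤ r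
      · left
        refine ⟨hw', h2.trans (Adj.reach ?_)⟩
        obtain ⟨e, he, hc⟩ := hs
        refine ⟨e, ⟨he, Finset.mem_coe.2 ?_⟩, hc⟩
        rw [box_blk, mem_blk0]
        rcases hc with ⟨h3, h4⟩ | ⟨h3, h4⟩
        · rw [h3, h4]; exact ⟨h1, hw'⟩
        · rw [h3, h4]; exact ⟨hw', h1⟩
      · right
        have := adj_sd hs
        exact ⟨w, by omega, h2⟩
    · exact Or.inr ih

theorem exitX {G : Set Edg} {r : ℕ} {u w : Vtx} (hu : sd u (0, 0) ≤ r) (hw : (r : ℤ) ≤ sd w (0, 0))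
    (h : Reach G u w) : ∃ y, sd y (0, 0) = r ∧ Reach (G ∩ ↑(boxE r)) u y := by
  rcases firstX hu h with ⟨h1, h2⟩ | h1
  · exact ⟨w, by omega, h2⟩
  · exact h1

theorem end_edge {G : Set Edg} {x y : Vtx} (h : Reach G x y) (hne : x ≠ y) :
    ∃ e ∈ G, src e = y ∨ tgt e = y := by
  cases h with
  | refl => exact absurd rfl hne
  | tail _ hs =>
    obtain ⟨e, he, hc⟩ := hs
    rcases hc with ⟨_, h4⟩ | ⟨h3, _⟩
    · exact ⟨e, he, Or.inr h4⟩
    · exact ⟨e, he, Or.inl h3⟩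

/-! ### The cluster of `O` -/

theorem cl_img {g : LSym} (h : Good g) {m : ℕ} {F : Set Edg} {x : Vtx} (hx : x ∈ cl m F) :
    g.ψ x ∈ cl m (g.φ '' F) := by
  have h1 : Reach (g.φ '' (F ∩ ↑(boxE m))) (g.ψ (0, 0)) (g.ψ x) := g.reach hx
  rw [h.orig] at h1
  refine h1.mono ?_
  rintro _ ⟨e, ⟨he1, he2⟩, rfl⟩
  refine ⟨Set.mem_image_of_mem _ he1, Finset.mem_coe.2 ?_⟩
  rw [box_blk] at he2 ⊢
  exact (h.blk _ _).2 (Finset.mem_coe.1 he2)

theorem cl_img_iff {g : LSym} (h : Good g) {m : ℕ} {F : Set Edg} {x : Vtx} :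
    g.ψ x ∈ cl m (g.φ '' F) ↔ x ∈ cl m F := by
  constructor
  · intro hx
    have := cl_img h.inv hx
    rw [image_inv] at this
    simpa [LSym.inv] using this
  · exact cl_img h

theorem boxE_mono {r m : ℕ} (h : r ≤ m) : boxE r ⊆ boxE m := by
  intro e he
  rw [box_blk, mem_blk0] at he ⊢
  have : (r : ℤ) ≤ m := by exact_mod_cast h
  omega

theorem cl_mono {r m : ℕ} (h : r ≤ m) (F : Set Edg) : cl r F ⊆ cl m F := by
  intro x hx
  refine Reach.mono ?_ hx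
  exact Set.inter_subset_inter_right _ (Finset.coe_subset.2 (boxE_mono h))

theorem cl_sd {r : ℕ} {F : Set Edg} {x : Vtx} (hx : x ∈ cl r F) : sd x (0, 0) ≤ r := by
  by_cases h : ((0, 0) : Vtx) = x
  · rw [← h]
    simp [sd]
  · obtain ⟨e, ⟨_, he⟩, hc⟩ := end_edge hx h
    rw [Finset.mem_coe, box_blk, mem_blk0] at he
    rcases hc with hc | hc
    · rw [← hc]; exact he.1
    · rw [← hc]; exact he.2

theorem cl_loc (r : ℕ) (F : Set Edg) : cl r (F ∩ ↑(boxE r)) = cl r F := by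
  unfold cl
  rw [Set.inter_assoc, Set.inter_self]

theorem PG_loc (M B k h : ℕ) (p : ℤ) (F : Finset Edg) :
    PG M B k h p (↑F : Set Edg) ↔ PG M B k h p (↑(F ∩ boxE (k + 14 * h)) : Set Edg) := by
  unfold PG
  rw [Finset.coe_inter, cl_loc]

/-! ### The deterministic part -/

theorem far {M B q h k : ℕ} (hB : 1 ≤ B) (hq : q = 16 * M * 8 ^ B) (hk : k = q * h) {c y : Vtx} (hy : sd y (0, 0) = k) (hA : Awy M B k (0, 0) c y) :
    128 * (h : ℤ) < sd y c := by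
  unfold Awy at hA
  rw [hy] at hA
  by_contra hcon
  push Not at hcon
  obtain ⟨b, rfl⟩ : ∃ b, B = b + 1 := ⟨B - 1, by omega⟩
  rw [Nat.add_sub_cancel] at hA
  have h1 : (M : ℤ) * ((8 * k : ℕ) : ℤ) ^ b * sd y c ≤
      (M : ℤ) * ((8 * k : ℕ) : ℤ) ^ b * (128 * (h : ℤ)) :=
    mul_le_mul_of_nonneg_left hcon (by positivity)
  have h2 : (M : ℤ) * ((8 * k : ℕ) : ℤ) ^ b * (128 * (h : ℤ)) = (k : ℤ) ^ (b + 1) := by
    have h3 : (k : ℤ) = 16 * M * 8 ^ (b + 1) * h := by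
      rw [hk, hq]
      push_cast
      ring
    have h4 : (k : ℤ) ^ (b + 1) = (k : ℤ) ^ b * (16 * M * 8 ^ (b + 1) * h) := by
      rw [pow_succ, ← h3]
    rw [h4]
    push_cast
    ring
  rw [h2] at h1
  omega

theorem rotate {k : ℕ} {y : Vtx} (hy : sd y (0, 0) = k) :
    ∃ (s : Fin 4) (y1 : ℤ), (H985T.sy s).toLSym.ψ y = (y1, -(k : ℤ)) ∧ |y1| ≤ k := by
  obtain ⟨a, b⟩ := y
  simp only [sd, sub_zero] at hy
  have h1 : |a| ≤ k := by rw [← hy]; exact le_max_left _ _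
  have h2 : |b| ≤ k := by rw [← hy]; exact le_max_right _ _
  have h3 : |a| = k ∨ |b| = k := by
    rcases max_choice |a| |b| with h | h
    · left; rw [← hy, h]
    · right; rw [← hy, h]
  have h4 : b = -(k : ℤ) ∨ a = -(k : ℤ) ∨ b = k ∨ a = k := by
    rcases h3 with h3 | h3
    · rcases abs_cases a with h | h <;> omega
    · rcases abs_cases b with h | h <;> omega
  rcases h4 with h4 | h4 | h4 | h4
  · exact ⟨0, a, by rw [h4]; rfl, h1⟩
  · exact ⟨1, b, by rw [h4]; rfl, h2⟩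
  · refine ⟨2, -a, by rw [h4]; rfl, by rwa [abs_neg]⟩
  · refine ⟨3, -b, by rw [h4]; rfl, by rwa [abs_neg]⟩

theorem det {M B q h : ℕ} (hM : 16 ≤ M) (hB : 1 ≤ B) (hq : q = 16 * M * 8 ^ B) (hh : 1 ≤ h)
    {F : Set Edg} (hA : Pool.Agent.Y989.FR.Acc (64 * (q * h)) F) (hT : TkA M B (q * h) (64 * (q * h)) F) :
    ∃ s : Fin 4, ∃ i ∈ Finset.Icc (-(q : ℤ)) q,
      PG M B (q * h) h (i * h) ((H985T.sy s).toLSym.φ '' F) := by
  obtain ⟨x, hx, y, hy, hr⟩ := hT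
  rw [mem_bdB0] at hx hy
  have hq0 : 256 ≤ q := by
    rw [hq]
    have : 1 ≤ 8 ^ B := Nat.one_le_pow _ _ (by norm_num)
    nlinarith
  have hkh : 256 * h ≤ q * h := Nat.mul_le_mul_right _ hq0
  obtain ⟨k, hk⟩ : ∃ k, k = q * h := ⟨_, rfl⟩
  rw [← hk] at hA hy hr hkh ⊢
  have hne : x ≠ y := by
    rintro rfl
    rw [hx] at hy
    have : k = 2 := by exact_mod_cast hy.symm
    omega
  have hAw : ∀ c ∈ cl (64 * k) F, Awy M B k (0, 0) c y := by
    obtain ⟨e, ⟨_, he1, he2⟩, hc⟩ := end_edge hr hne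
    rcases hc with hc | hc
    · rw [← hc]; exact he1
    · rw [← hc]; exact he2
  have hfar : ∀ c ∈ cl (64 * k) F, 128 * (h : ℤ) < sd y c := fun c hc =>
    far hB hq hk hy (hAw c hc)
  obtain ⟨s, y1, hs, hy1⟩ := rotate hy
  have hg := good_sy s
  obtain ⟨g, hgs⟩ : ∃ g : LSym, g = (H985T.sy s).toLSym := ⟨_, rfl⟩
  rw [← hgs] at hs hg
  have hh0 : (0 : ℤ) < h := by exact_mod_cast hh
  have hkz : (k : ℤ) = q * h := by rw [hk]; push_cast; ring
  have hmod := Int.emod_add_mul_ediv y1 h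
  have hmod0 := Int.emod_nonneg y1 hh0.ne'
  have hmod1 := Int.emod_lt_of_pos y1 hh0
  have hmul : y1 / h * h = h * (y1 / h) := mul_comm _ _
  obtain ⟨b1, b2⟩ := abs_le.1 hy1
  refine ⟨s, y1 / h, ?_, ?_⟩
  · rw [Finset.mem_Icc]
    constructor
    · rw [Int.le_ediv_iff_mul_le hh0]
      linarith
    · apply Int.ediv_le_of_le_mul hh0
      linarith
  rw [← hgs]
  have hkm : k + 14 * h ≤ 64 * k := by omega
  have hsub : ∀ c ∈ cl (k + 14 * h) (g.φ '' F), ∃ c' ∈ cl (64 * k) F, g.ψ c' = c := by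
    intro c hc
    obtain ⟨c', rfl⟩ := g.ψ.surjective c
    exact ⟨c', (cl_img_iff hg).1 (cl_mono hkm _ hc), rfl⟩
  refine ⟨?_, ?_, ?_⟩
  · -- the cluster reaches the boundary
    obtain ⟨⟨w, hw, hwc⟩, -⟩ := hA
    rw [mem_bdB0] at hw
    have h1 : Reach ((g.φ '' F) ∩ ↑(boxE (64 * k))) (0, 0) (g.ψ w) := cl_img hg hwc
    obtain ⟨w', hw', h2⟩ := exitX (r := k + 14 * h) (by simp [sd]; positivity)
      (by rw [hg.dist0, hw]; exact_mod_cast hkm) h1
    refine ⟨w', (mem_bdB0 _ _).2 hw', h2.mono ?_⟩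
    rintro e ⟨⟨h3, _⟩, h4⟩
    exact ⟨h3, h4⟩
  · -- the thick path
    refine ⟨g.ψ x, (mem_bdB0 _ _).2 (by rw [hg.dist0, hx]), y1, ?_, hy1, ?_⟩
    · rw [abs_le]
      constructor <;> linarith
    · rw [← hs]
      refine (g.reach hr).mono ?_
      rintro _ ⟨e, ⟨he, h1, h2⟩, rfl⟩
      have hAE : g.φ e ∈ AE (0, 0) 2 k := by
        unfold AE at he ⊢
        rw [Finset.mem_coe, Finset.mem_sdiff] at he ⊢
        rw [hg.blk, hg.blk]
        exact he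
      have key : ∀ v : Vtx, (∀ c ∈ cl (64 * k) F, Awy M B k (0, 0) c v) →
          ∀ c ∈ cl (k + 14 * h) (g.φ '' F), Awy M B k (0, 0) c (g.ψ v) := by
        intro v hv c hc
        obtain ⟨c', hc', rfl⟩ := hsub c hc
        exact hg.Awy.2 (hv c' hc')
      rcases g.compat e with ⟨c1, c2⟩ | ⟨c1, c2⟩
      · refine ⟨hAE, ?_, ?_⟩
        · rw [c1]; exact key _ h1
        · rw [c2]; exact key _ h2
      · refine ⟨hAE, ?_, ?_⟩
        · rw [c1]; exact key _ h2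
        · rw [c2]; exact key _ h1
  · -- the column
    rintro c hc ⟨h1, h2⟩
    have h3 := cl_sd hc
    obtain ⟨c', hc', rfl⟩ := hsub c hc
    have h4 := hfar c' hc'
    rw [← hg.dist y c', hs] at h4
    obtain ⟨⟨a, b⟩, hv⟩ : ∃ v : Vtx, v = g.ψ c' := ⟨_, rfl⟩
    rw [← hv] at h1 h2 h3 h4
    simp only [sd, sub_zero] at h1 h2 h3 h4
    have h5 : |b| ≤ ((k + 14 * h : ℕ) : ℤ) := (le_max_right _ _).trans h3
    push_cast at h5
    have h6 := abs_le.1 h5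
    have h7 := abs_le.1 h1
    rcases lt_max_iff.1 h4 with h8 | h8
    · rcases lt_abs.1 h8 with h9 | h9 <;> linarith
    · rcases lt_abs.1 h8 with h9 | h9 <;> linarith

/-! ### Probability -/

theorem union_le {ι : Type} [DecidableEq ι] (S : Finset Edg) (T : Finset ι)
    (A : ι → Finset Edg → Prop) :
    PQ (1 / 2) S (fun F => ∃ i ∈ T, A i F) ≤ ∑ i ∈ T, PQ (1 / 2) S (A i) := by
  induction T using Finset.induction_on with
  | empty =>
    rw [Finset.sum_empty]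
    have h1 : PQ (1 / 2) S (fun F => ∃ i ∈ (∅ : Finset ι), A i F) = PQ (1 / 2) S (fun _ => False) :=
      Pr_congr fun F _ => by simp
    rw [h1]
    have h2 := Pr_not (p := fun _ : Edg => (1 / 2 : ℝ)) S (fun _ => True)
    have h3 := Pr_true (p := fun _ : Edg => (1 / 2 : ℝ)) S (A := fun _ => True) fun _ _ => trivial
    have h4 : Pr (fun _ : Edg => (1 / 2 : ℝ)) S (fun _ => False) =
        Pr (fun _ : Edg => (1 / 2 : ℝ)) S (fun _ => ¬ True) := Pr_congr fun F _ => by simp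
    rw [h3] at h2
    show Pr (fun _ : Edg => (1 / 2 : ℝ)) S (fun _ => False) ≤ 0
    rw [h4, h2]
    norm_num
  | insert a T ha ih =>
    rw [Finset.sum_insert ha]
    refine le_trans ?_ ((Pr_or_le hok S (A a) (fun F => ∃ i ∈ T, A i F)).trans
      (add_le_add_right ih _))
    apply Pr_mono hok
    rintro F _ ⟨i, hi, hA⟩
    rcases Finset.mem_insert.1 hi with rfl | hi
    · exact Or.inl hA
    · exact Or.inr ⟨i, hi, hA⟩

theorem mp_box {g : LSym} (h : Good g) (m : ℕ) : g.mp (boxE m) = boxE m := by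
  ext e
  rw [LSym.mem_mp]
  have := h.inv.blk e m
  rw [box_blk]
  exact this

theorem t_PIG (h1 : Pool.Agent.Y989.FR.S_ACC) (h2 : Pool.Agent.Y989.FR.S_THK) : S_PIG := by
  obtain ⟨c0, hc0, hACC⟩ := h1
  obtain ⟨M, B, m0, hM, hB, hTHK⟩ := h2 (c0 / 2) (by positivity)
  obtain ⟨q, hq⟩ : ∃ q, q = 16 * M * 8 ^ B := ⟨_, rfl⟩
  have hq1 : 1 ≤ q := by
    rw [hq]
    have : 1 ≤ 8 ^ B := Nat.one_le_pow _ _ (by norm_num)
    nlinarith
  obtain ⟨N, hN⟩ : ∃ N : ℝ, N = ((Finset.univ ×ˢ Finset.Icc (-(q : ℤ)) q : Finset (Fin 4 × ℤ)).card : ℝ) :=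
    ⟨_, rfl⟩
  have hNe : (Finset.univ ×ˢ Finset.Icc (-(q : ℤ)) q : Finset (Fin 4 × ℤ)).Nonempty :=
    ⟨(0, 0), by simp⟩
  have hN0 : 0 < N := by
    rw [hN]
    exact_mod_cast Finset.card_pos.2 hNe
  refine ⟨M, B, q, max m0 1, c0 / 2 * (64 * (q : ℝ)) ^ (-(2 / 3 : ℝ)) / N, hM, hB, hq.ge,
    le_max_right _ _, by positivity, fun h hh => ?_⟩
  have hm0 : m0 ≤ h := (le_max_left _ _).trans hh
  have hh1 : 1 ≤ h := (le_max_right _ _).trans hh
  have hqh : h ≤ q * h := Nat.le_mul_of_pos_left _ hq1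
  obtain ⟨m, hm⟩ : ∃ m, m = 64 * (q * h) := ⟨_, rfl⟩
  have hm64 : m / 64 = q * h := by rw [hm]; exact Nat.mul_div_cancel_left _ (by norm_num)
  have hP : c0 / 2 * (m : ℝ) ^ (-(2 / 3 : ℝ)) ≤
      PQ (1 / 2) (boxE m) (fun F => Pool.Agent.Y989.FR.Acc m ↑F ∧ TkA M B (q * h) m ↑F) := by
    have e1 := hACC m (by omega)
    have e2 := hTHK m (by omega)
    rw [hm64] at e2
    have e3 : PQ (1 / 2) (boxE m) (fun F => Pool.Agent.Y989.FR.Acc m ↑F) ≤
        PQ (1 / 2) (boxE m) (fun F => Pool.Agent.Y989.FR.Acc m ↑F ∧ TkA M B (q * h) m ↑F) +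
        PQ (1 / 2) (boxE m) (fun F => Pool.Agent.Y989.FR.Acc m ↑F ∧ ¬ TkA M B (q * h) m ↑F) := by
      refine le_trans ?_ (Pr_or_le hok (boxE m) _ _)
      apply Pr_mono hok
      intro F _ hF
      by_cases hT : TkA M B (q * h) m ↑F
      · exact Or.inl ⟨hF, hT⟩
      · exact Or.inr ⟨hF, hT⟩
    linarith
  have hU : PQ (1 / 2) (boxE m) (fun F => Pool.Agent.Y989.FR.Acc m ↑F ∧ TkA M B (q * h) m ↑F) ≤
      ∑ x ∈ (Finset.univ ×ˢ Finset.Icc (-(q : ℤ)) q : Finset (Fin 4 × ℤ)),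
        PQ (1 / 2) (boxE m) (fun F => PG M B (q * h) h (x.2 * h) ↑F) := by
    have e1 : PQ (1 / 2) (boxE m) (fun F => Pool.Agent.Y989.FR.Acc m ↑F ∧ TkA M B (q * h) m ↑F) ≤
        PQ (1 / 2) (boxE m) (fun F => ∃ x ∈ (Finset.univ ×ˢ Finset.Icc (-(q : ℤ)) q : Finset (Fin 4 × ℤ)),
          PG M B (q * h) h (x.2 * h) ↑((H985T.sy x.1).toLSym.mp F)) := by
      apply Pr_mono hok
      rintro F _ ⟨hA, hT⟩
      rw [hm] at hA hT
      obtain ⟨s, i, hi, hPG⟩ := det hM hB hq hh1 hA hT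
      refine ⟨(s, i), Finset.mem_product.2 ⟨Finset.mem_univ _, hi⟩, ?_⟩
      rw [LSym.coe_mp]
      exact hPG
    refine e1.trans ((union_le _ _ _).trans (le_of_eq ?_))
    apply Finset.sum_congr rfl
    intro x _
    have e2 := (H985T.sy x.1).toLSym.pr (1 / 2) (boxE m) (fun F => PG M B (q * h) h (x.2 * h) ↑F)
    rw [mp_box (good_sy x.1)] at e2
    exact e2.symm
  obtain ⟨x, hx, hle⟩ : ∃ x ∈ (Finset.univ ×ˢ Finset.Icc (-(q : ℤ)) q : Finset (Fin 4 × ℤ)),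
      c0 / 2 * (m : ℝ) ^ (-(2 / 3 : ℝ)) / N ≤
        PQ (1 / 2) (boxE m) (fun F => PG M B (q * h) h (x.2 * h) ↑F) := by
    apply Finset.exists_le_of_sum_le hNe
    rw [Finset.sum_const, nsmul_eq_mul, ← hN, mul_div_cancel₀ _ hN0.ne']
    exact hP.trans hU
  have hxi := Finset.mem_Icc.1 (Finset.mem_product.1 hx).2
  have hhz : (0 : ℤ) ≤ h := Int.natCast_nonneg h
  refine ⟨x.2 * h, ?_, fun S hS => ?_⟩
  · rw [abs_le]
    push_cast
    constructor
    · have := mul_le_mul_of_nonneg_right hxi.1 hhz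
      linarith
    · exact mul_le_mul_of_nonneg_right hxi.2 hhz
  · have e1 : PQ (1 / 2) S (fun F => PG M B (q * h) h (x.2 * h) ↑F) =
        PQ (1 / 2) (boxE (q * h + 14 * h)) (fun F => PG M B (q * h) h (x.2 * h) ↑F) :=
      Pr_local hS fun F _ => PG_loc _ _ _ _ _ F
    have hbm : boxE (q * h + 14 * h) ⊆ boxE m := by
      apply boxE_mono
      have h3 : 1 ≤ 8 ^ B := Nat.one_le_pow _ _ (by norm_num)
      have h4 : 1 * h ≤ q * h := Nat.mul_le_mul_right _ hq1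
      omega
    have e2 : PQ (1 / 2) (boxE m) (fun F => PG M B (q * h) h (x.2 * h) ↑F) =
        PQ (1 / 2) (boxE (q * h + 14 * h)) (fun F => PG M B (q * h) h (x.2 * h) ↑F) :=
      Pr_local hbm fun F _ => PG_loc _ _ _ _ _ F
    rw [e1, ← e2]
    refine le_trans (le_of_eq ?_) hle
    have e3 : (m : ℝ) ^ (-(2 / 3 : ℝ)) = (64 * (q : ℝ)) ^ (-(2 / 3 : ℝ)) * (h : ℝ) ^ (-(2 / 3 : ℝ)) := by
      rw [← Real.mul_rpow (by positivity) (by positivity), hm]
      congr 1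
      push_cast
      ring
    rw [e3]
    ring

end Pool.Agent.Y997.OBL.PIG
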