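import Pool.Agent.Y997.OBL.Stm

/-!
PZ: second moment method with energies (job of project OBL, adapted from
`Pool.Agent.Y989.FR.T_GOOD3` and `Pool.Agent.H934R2.Expl.Mom`).
-/

set_option autoImplicit false

namespace Pool.Agent.Y997.OBL.PZ

open H974 H12S Finset H984P H984N Pool.Agent.Y989.FR Pool.Agent.Y997.OBL

theorem okh : Ok (fun _ : Edg => (1 / 2 : ℝ)) := fun _ => ⟨by norm_num, by norm_num⟩

/-! ### Sums -/

theorem sum_rpow {a : ℝ} (ha : 0 ≤ a) (ha1 : a < 1) (D : ℕ) :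
    ∑ d ∈ Finset.range D, ((d : ℝ) + 1) ^ (-a) ≤ (D : ℝ) ^ (1 - a) / (1 - a) := by
  have h1a : 0 < 1 - a := by linarith
  induction D with
  | zero =>
    simp only [Finset.range_zero, Finset.sum_empty, Nat.cast_zero]
    rw [Real.zero_rpow h1a.ne']
    simp
  | succ D ih =>
    rw [Finset.sum_range_succ]
    have hD : (0:ℝ) < (D : ℝ) + 1 := by positivity
    have hb := rpow_one_add_le_one_add_mul_self (s := -(1 / ((D : ℝ) + 1))) (p := 1 - a)
      (by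
        rw [neg_le_neg_iff, div_le_one hD]
        linarith [Nat.cast_nonneg (α := ℝ) D]) h1a.le (by linarith)
    have e1 : (1 : ℝ) + -(1 / ((D : ℝ) + 1)) = (D : ℝ) / ((D : ℝ) + 1) := by field_simp; ring
    rw [e1, Real.div_rpow (Nat.cast_nonneg _) hD.le] at hb
    have hP : (0:ℝ) < ((D : ℝ) + 1) ^ (1 - a) := Real.rpow_pos_of_pos hD _
    rw [div_le_iff₀ hP] at hb
    have e2 : ((D : ℝ) + 1) ^ (-a) * ((D : ℝ) + 1) = ((D : ℝ) + 1) ^ (1 - a) := by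
      rw [← Real.rpow_add_one hD.ne']
      congr 1; ring
    have e3 : ((D : ℝ) + 1) ^ (-a) = ((D : ℝ) + 1) ^ (1 - a) / ((D : ℝ) + 1) := by
      rw [← e2]; field_simp
    push_cast
    rw [e3]
    have e4 : (1 + (1 - a) * -(1 / ((D : ℝ) + 1))) * ((D : ℝ) + 1) ^ (1 - a) =
        ((D : ℝ) + 1) ^ (1 - a) - (1 - a) * (((D : ℝ) + 1) ^ (1 - a) / ((D : ℝ) + 1)) := by
      field_simp
      ring
    rw [e4] at hb
    have h5 : (D : ℝ) ^ (1 - a) / (1 - a) ≤ (((D : ℝ) + 1) ^ (1 - a) -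
        (1 - a) * (((D : ℝ) + 1) ^ (1 - a) / ((D : ℝ) + 1))) / (1 - a) :=
      div_le_div_of_nonneg_right hb h1a.le
    have h6 : (((D : ℝ) + 1) ^ (1 - a) -
        (1 - a) * (((D : ℝ) + 1) ^ (1 - a) / ((D : ℝ) + 1))) / (1 - a) =
        ((D : ℝ) + 1) ^ (1 - a) / (1 - a) - ((D : ℝ) + 1) ^ (1 - a) / ((D : ℝ) + 1) := by
      field_simp
    rw [h6] at h5
    linarith

/-- Power of the distance of two different integers. -/
noncomputable def dp (a : ℝ) (k l : ℤ) : ℝ := |((k : ℝ) - l)| ^ (-a)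

theorem dp_nonneg (a : ℝ) (k l : ℤ) : 0 ≤ dp a k l := Real.rpow_nonneg (abs_nonneg _) _

theorem dp_comm (a : ℝ) (k l : ℤ) : dp a k l = dp a l k := by
  unfold dp; rw [abs_sub_comm]

theorem sum_dp {a : ℝ} (ha : 0 ≤ a) (ha1 : a < 1) {u k : ℤ} {J : Finset ℤ} (hu : 0 ≤ u)
    (hJ : ∀ l ∈ J, |k - l| ≤ u) :
    ∑ l ∈ J.erase k, dp a k l ≤ 2 * ((u : ℝ) ^ (1 - a) / (1 - a)) := by
  obtain ⟨n, rfl⟩ := Int.eq_ofNat_of_zero_le hu
  have h1 := sum_rpow ha ha1 n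
  have hsub : J.erase k ⊆ (Finset.range n).image (fun d : ℕ => k + (d : ℤ) + 1) ∪
      (Finset.range n).image (fun d : ℕ => k - (d : ℤ) - 1) := by
    intro l hl
    rw [Finset.mem_erase] at hl
    have h2 := abs_le.mp (hJ l hl.2)
    rw [Finset.mem_union, Finset.mem_image, Finset.mem_image]
    rcases lt_or_gt_of_ne hl.1 with h3 | h3
    · right
      refine ⟨(k - l - 1).toNat, ?_, ?_⟩
      · rw [Finset.mem_range]; omega
      · omega
    · left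
      refine ⟨(l - k - 1).toNat, ?_, ?_⟩
      · rw [Finset.mem_range]; omega
      · omega
  have h2 : ∑ l ∈ J.erase k, dp a k l ≤
      ∑ l ∈ (Finset.range n).image (fun d : ℕ => k + (d : ℤ) + 1) ∪
      (Finset.range n).image (fun d : ℕ => k - (d : ℤ) - 1), dp a k l :=
    Finset.sum_le_sum_of_subset_of_nonneg hsub (fun _ _ _ => dp_nonneg _ _ _)
  have h3 : ∑ l ∈ (Finset.range n).image (fun d : ℕ => k + (d : ℤ) + 1) ∪
      (Finset.range n).image (fun d : ℕ => k - (d : ℤ) - 1), dp a k l ≤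
      ∑ l ∈ (Finset.range n).image (fun d : ℕ => k + (d : ℤ) + 1), dp a k l +
      ∑ l ∈ (Finset.range n).image (fun d : ℕ => k - (d : ℤ) - 1), dp a k l := by
    rw [← Finset.sum_union_inter]
    have : 0 ≤ ∑ l ∈ (Finset.range n).image (fun d : ℕ => k + (d : ℤ) + 1) ∩
      (Finset.range n).image (fun d : ℕ => k - (d : ℤ) - 1), dp a k l :=
      Finset.sum_nonneg (fun _ _ => dp_nonneg _ _ _)
    linarith
  have h4 : ∑ l ∈ (Finset.range n).image (fun d : ℕ => k + (d : ℤ) + 1), dp a k l =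
      ∑ d ∈ Finset.range n, ((d : ℝ) + 1) ^ (-a) := by
    rw [Finset.sum_image (by intro x _ y _ h; simp only at h; omega)]
    apply Finset.sum_congr rfl
    intro d _
    unfold dp
    congr 1
    push_cast
    rw [abs_sub_comm]
    have : (k : ℝ) + d + 1 - k = d + 1 := by ring
    rw [this, abs_of_nonneg (by positivity)]
  have h5 : ∑ l ∈ (Finset.range n).image (fun d : ℕ => k - (d : ℤ) - 1), dp a k l =
      ∑ d ∈ Finset.range n, ((d : ℝ) + 1) ^ (-a) := by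
    rw [Finset.sum_image (by intro x _ y _ h; simp only at h; omega)]
    apply Finset.sum_congr rfl
    intro d _
    unfold dp
    congr 1
    push_cast
    have : (k : ℝ) - (k - d - 1) = d + 1 := by ring
    rw [this, abs_of_nonneg (by positivity)]
  rw [h4, h5] at h3
  push_cast
  linarith

/-- one-dimensional sum -/
theorem t5_one {b : ℝ} (hb : 0 ≤ b) (hb1 : b < 1) : ∀ h : ℤ, 1 ≤ h → ∀ (k : ℤ) (J : Finset ℤ),
    (∀ l ∈ J, |k - l| ≤ 2 * h) →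
    ∑ l ∈ J, ((max |k - l| 1 : ℤ) : ℝ) ^ (-b) ≤ (1 + 4 / (1 - b)) * (h : ℝ) ^ (1 - b) := by
  intro h hh k J hJ
  have hb2 : 0 < 1 - b := by linarith
  have hh1 : (1:ℝ) ≤ h := by exact_mod_cast hh
  have hh0 : (0:ℝ) < h := by linarith
  have h1 := sum_dp hb hb1 (u := 2 * h) (k := k) (J := J) (by omega) hJ
  have hnn : ∀ l : ℤ, 0 ≤ ((max |k - l| 1 : ℤ) : ℝ) ^ (-b) := by
    intro l
    apply Real.rpow_nonneg
    have : (0 : ℤ) ≤ max |k - l| 1 := le_trans zero_le_one (le_max_right _ _)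
    exact_mod_cast this
  have h2 : ∑ l ∈ J.erase k, ((max |k - l| 1 : ℤ) : ℝ) ^ (-b) = ∑ l ∈ J.erase k, dp b k l := by
    apply Finset.sum_congr rfl
    intro l hl
    rw [Finset.mem_erase] at hl
    unfold dp
    have : (1 : ℤ) ≤ |k - l| := Int.one_le_abs (sub_ne_zero.mpr (fun e => hl.1 e.symm))
    rw [max_eq_left this]
    push_cast
    rfl
  have h3 : ∑ l ∈ J, ((max |k - l| 1 : ℤ) : ℝ) ^ (-b) ≤
      1 + ∑ l ∈ J.erase k, ((max |k - l| 1 : ℤ) : ℝ) ^ (-b) := by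
    by_cases hk : k ∈ J
    · rw [← Finset.add_sum_erase _ _ hk]
      simp
    · rw [Finset.erase_eq_of_notMem hk]
      linarith
  have h4 : (1:ℝ) ≤ (h : ℝ) ^ (1 - b) := Real.one_le_rpow hh1 hb2.le
  have h5 : (2 * (h : ℝ)) ^ (1 - b) ≤ 2 * (h : ℝ) ^ (1 - b) := by
    rw [Real.mul_rpow (by norm_num) hh0.le]
    apply mul_le_mul_of_nonneg_right _ (Real.rpow_nonneg hh0.le _)
    calc (2:ℝ) ^ (1 - b) ≤ (2:ℝ) ^ (1:ℝ) :=
          Real.rpow_le_rpow_of_exponent_le (by norm_num) (by linarith)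
      _ = 2 := Real.rpow_one _
  have h6 : 2 * ((((2 * h : ℤ) : ℝ)) ^ (1 - b) / (1 - b)) ≤ 4 / (1 - b) * (h : ℝ) ^ (1 - b) := by
    push_cast
    have : (2 * (h : ℝ)) ^ (1 - b) / (1 - b) ≤ 2 * (h : ℝ) ^ (1 - b) / (1 - b) :=
      div_le_div_of_nonneg_right h5 hb2.le
    calc _ ≤ 2 * (2 * (h : ℝ) ^ (1 - b) / (1 - b)) := by linarith
      _ = _ := by ring
  rw [h2] at h3
  nlinarith

theorem t5_max_nonneg (a : ℤ) : (0:ℝ) ≤ ((max a 1 : ℤ) : ℝ) := by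
  have : (0 : ℤ) ≤ max a 1 := le_trans zero_le_one (le_max_right _ _)
  exact_mod_cast this

theorem t5_max_pos (a : ℤ) : (0:ℝ) < ((max a 1 : ℤ) : ℝ) := by
  have : (0 : ℤ) < max a 1 := lt_of_lt_of_le zero_lt_one (le_max_right _ _)
  exact_mod_cast this



/-- The square. -/
noncomputable def sq (x0 y0 h : ℤ) : Finset Vtx :=
  Finset.Icc (x0 - h) (x0 + h) ×ˢ Finset.Icc (y0 - h) (y0 + h)

/-- two-dimensional sum -/
theorem t5_two {a : ℝ} (ha : 0 ≤ a) (ha1 : a < 2) (x0 y0 h : ℤ) (hh : 1 ≤ h) (v : Vtx)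
    (hv : v ∈ sq x0 y0 h) :
    ∑ w ∈ sq x0 y0 h, ((max (sd v w) 1 : ℤ) : ℝ) ^ (-a) ≤
      (1 + 4 / (1 - a / 2)) ^ 2 * (h : ℝ) ^ (2 - a) := by
  have hh1 : (1:ℝ) ≤ h := by exact_mod_cast hh
  have hh0 : (0:ℝ) < h := by linarith
  unfold sq at hv ⊢
  rw [Finset.mem_product, Finset.mem_Icc, Finset.mem_Icc] at hv
  have b0 : 0 ≤ a / 2 := by linarith
  have b1 : a / 2 < 1 := by linarith
  have s1 := t5_one b0 b1 h hh v.1 (Finset.Icc (x0 - h) (x0 + h)) (by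
    intro l hl
    rw [Finset.mem_Icc] at hl
    rw [abs_le]
    omega)
  have s2 := t5_one b0 b1 h hh v.2 (Finset.Icc (y0 - h) (y0 + h)) (by
    intro l hl
    rw [Finset.mem_Icc] at hl
    rw [abs_le]
    omega)
  have key : ∀ w : Vtx, ((max (sd v w) 1 : ℤ) : ℝ) ^ (-a) ≤
      ((max |v.1 - w.1| 1 : ℤ) : ℝ) ^ (-(a / 2)) * ((max |v.2 - w.2| 1 : ℤ) : ℝ) ^ (-(a / 2)) := by
    intro w
    have m1 : ((max |v.1 - w.1| 1 : ℤ) : ℝ) ≤ ((max (sd v w) 1 : ℤ) : ℝ) := by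
      have : max |v.1 - w.1| 1 ≤ max (sd v w) 1 := max_le_max (le_max_left _ _) le_rfl
      exact_mod_cast this
    have m2 : ((max |v.2 - w.2| 1 : ℤ) : ℝ) ≤ ((max (sd v w) 1 : ℤ) : ℝ) := by
      have : max |v.2 - w.2| 1 ≤ max (sd v w) 1 := max_le_max (le_max_right _ _) le_rfl
      exact_mod_cast this
    have e : ((max (sd v w) 1 : ℤ) : ℝ) ^ (-a) =
        ((max (sd v w) 1 : ℤ) : ℝ) ^ (-(a / 2)) * ((max (sd v w) 1 : ℤ) : ℝ) ^ (-(a / 2)) := by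
      rw [← Real.rpow_add (t5_max_pos _)]
      congr 1
      ring
    rw [e]
    exact mul_le_mul
      (Real.rpow_le_rpow_of_nonpos (t5_max_pos _) m1 (by linarith))
      (Real.rpow_le_rpow_of_nonpos (t5_max_pos _) m2 (by linarith))
      (Real.rpow_nonneg (t5_max_nonneg _) _) (Real.rpow_nonneg (t5_max_nonneg _) _)
  have h0 : 0 ≤ ∑ l ∈ Finset.Icc (y0 - h) (y0 + h), ((max |v.2 - l| 1 : ℤ) : ℝ) ^ (-(a / 2)) :=
    Finset.sum_nonneg (fun _ _ => Real.rpow_nonneg (t5_max_nonneg _) _)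
  calc ∑ w ∈ Finset.Icc (x0 - h) (x0 + h) ×ˢ Finset.Icc (y0 - h) (y0 + h), ((max (sd v w) 1 : ℤ) : ℝ) ^ (-a)
      ≤ ∑ w ∈ Finset.Icc (x0 - h) (x0 + h) ×ˢ Finset.Icc (y0 - h) (y0 + h),
        ((max |v.1 - w.1| 1 : ℤ) : ℝ) ^ (-(a / 2)) * ((max |v.2 - w.2| 1 : ℤ) : ℝ) ^ (-(a / 2)) :=
        Finset.sum_le_sum (fun w _ => key w)
    _ = (∑ l ∈ Finset.Icc (x0 - h) (x0 + h), ((max |v.1 - l| 1 : ℤ) : ℝ) ^ (-(a / 2))) *
        ∑ l ∈ Finset.Icc (y0 - h) (y0 + h), ((max |v.2 - l| 1 : ℤ) : ℝ) ^ (-(a / 2)) := by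
        rw [Finset.sum_product, Finset.sum_mul_sum]
    _ ≤ ((1 + 4 / (1 - a / 2)) * (h : ℝ) ^ (1 - a / 2)) *
        ((1 + 4 / (1 - a / 2)) * (h : ℝ) ^ (1 - a / 2)) :=
        mul_le_mul s1 s2 h0 (h0.trans s2)
    _ = (1 + 4 / (1 - a / 2)) ^ 2 * ((h : ℝ) ^ (1 - a / 2) * (h : ℝ) ^ (1 - a / 2)) := by ring
    _ = _ := by
        rw [← Real.rpow_add hh0]
        congr 2
        ring


theorem t5_card (x0 y0 : ℤ) {h : ℤ} (hh : 0 ≤ h) : ((sq x0 y0 h).card : ℝ) = (2 * h + 1) ^ 2 := by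
  unfold sq
  rw [Finset.card_product, Int.card_Icc, Int.card_Icc]
  have h1 : ((x0 + h + 1 - (x0 - h)).toNat : ℤ) = 2 * h + 1 := by omega
  have h2 : ((y0 + h + 1 - (y0 - h)).toNat : ℤ) = 2 * h + 1 := by omega
  have h3 : (((x0 + h + 1 - (x0 - h)).toNat : ℤ) : ℝ) = ((2 * h + 1 : ℤ) : ℝ) := by rw [h1]
  have h4 : (((y0 + h + 1 - (y0 - h)).toNat : ℤ) : ℝ) = ((2 * h + 1 : ℤ) : ℝ) := by rw [h2]
  push_cast at h3 h4 ⊢
  rw [h3, h4]
  ring

/-! ### Inequalities for expectations -/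

noncomputable abbrev EE (S : Finset Edg) (f : Finset Edg → ℝ) : ℝ := Ex (fun _ => (1 / 2 : ℝ)) S f

theorem markov {S : Finset Edg} {f : Finset Edg → ℝ} (hf : ∀ F, F ⊆ S → 0 ≤ f F) {t : ℝ}
    (ht : 0 < t) : PQ (1 / 2) S (fun F => t ≤ f F) ≤ EE S f / t := by
  rw [le_div_iff₀ ht, mul_comm]
  unfold PQ Pr EE
  rw [← Ex_mul_left]
  apply Ex_mono okh
  intro F hF
  by_cases h : t ≤ f F
  · rw [ind_of h]; linarith
  · rw [ind_not_of h, mul_zero]; exact hf F hF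

/-- Paley-Zygmund on the event `D`. -/
theorem paley {S : Finset Edg} {D : Finset Edg → Prop} {f : Finset Edg → ℝ}
    (hf : ∀ F, F ⊆ S → 0 ≤ f F) (hD : ∀ F, F ⊆ S → ¬ D F → f F = 0) {m V P : ℝ}
    (hm : 0 < m) (hV : 0 < V) (hP : P = PQ (1 / 2) S D) (h1 : m * P ≤ EE S f)
    (h2 : EE S (fun F => f F * f F) ≤ V * P) :
    m ^ 2 / (4 * V) * P ≤ PQ (1 / 2) S (fun F => D F ∧ m / 2 ≤ f F) := by
  have key : EE S f ≤ EE S (fun F => m / 2 * ind (D F) + (m / (4 * V) * (f F * f F) +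
      V / m * ind (D F ∧ m / 2 ≤ f F))) := by
    apply Ex_mono okh
    intro F hF
    have h0 := hf F hF
    by_cases hDF : D F
    · rw [ind_of hDF, mul_one]
      by_cases h : m / 2 ≤ f F
      · rw [ind_of ⟨hDF, h⟩, mul_one]
        have : f F ≤ m / (4 * V) * (f F * f F) + V / m := by
          have e : m / (4 * V) * (f F * f F) + V / m - f F =
              (m * f F - 2 * V) ^ 2 / (4 * V * m) := by
            field_simp
            ring
          have : 0 ≤ (m * f F - 2 * V) ^ 2 / (4 * V * m) := by positivity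
          linarith
        linarith
      · rw [ind_not_of (fun hh => h hh.2), mul_zero]
        push Not at h
        have : 0 ≤ m / (4 * V) * (f F * f F) := by positivity
        linarith
    · rw [hD F hF hDF, ind_not_of hDF, ind_not_of (fun hh => hDF hh.1)]
      simp
  have e1 : EE S (fun F => m / 2 * ind (D F) + (m / (4 * V) * (f F * f F) +
      V / m * ind (D F ∧ m / 2 ≤ f F))) =
      m / 2 * P + (m / (4 * V) * EE S (fun F => f F * f F) +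
        V / m * PQ (1 / 2) S (fun F => D F ∧ m / 2 ≤ f F)) := by
    rw [hP]
    unfold EE PQ Pr
    rw [Ex_add, Ex_mul_left, Ex_add, Ex_mul_left, Ex_mul_left]
  rw [e1] at key
  have h3 : m / (4 * V) * EE S (fun F => f F * f F) ≤ m / 4 * P := by
    calc _ ≤ m / (4 * V) * (V * P) := mul_le_mul_of_nonneg_left h2 (by positivity)
      _ = m / 4 * P := by field_simp
  have h4 : m / 4 * P ≤ V / m * PQ (1 / 2) S (fun F => D F ∧ m / 2 ≤ f F) := by linarith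
  set R := PQ (1 / 2) S (fun F => D F ∧ m / 2 ≤ f F)
  have h5 : m / V * (m / 4 * P) ≤ m / V * (V / m * R) :=
    mul_le_mul_of_nonneg_left h4 (by positivity)
  have h6 : m / V * (V / m * R) = R := by field_simp
  rw [h6] at h5
  refine le_trans (le_of_eq ?_) h5
  field_simp

/-! ### Number of vertices and energy -/

/-- the vertices of the square with the event -/
noncomputable def VS (K : Finset Vtx) (G : Vtx → Finset Edg → Prop) (F : Finset Edg) :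
    Finset Vtx := by
  classical exact K.filter (fun v => G v F)

theorem VS_sub (K : Finset Vtx) (G : Vtx → Finset Edg → Prop) (F : Finset Edg) :
    VS K G F ⊆ K := by
  classical
  unfold VS
  exact Finset.filter_subset _ _

theorem VS_mem {K : Finset Vtx} {G : Vtx → Finset Edg → Prop} {F : Finset Edg} {v : Vtx}
    (h : v ∈ VS K G F) : G v F := by
  classical
  unfold VS at h
  exact (Finset.mem_filter.mp h).2

/-- the number of vertices as a sum of indicators -/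
theorem card_VS (K : Finset Vtx) (G : Vtx → Finset Edg → Prop) (F : Finset Edg) :
    ((VS K G F).card : ℝ) = ∑ v ∈ K, ind (G v F) := by
  classical
  unfold VS
  rw [Finset.card_filter]
  push_cast
  apply Finset.sum_congr rfl
  intro v _
  by_cases hv : G v F
  · rw [if_pos hv, ind_of hv]
  · rw [if_neg hv, ind_not_of hv]

/-- the energy as a sum of indicators -/
theorem EnV_VS (t : ℝ) (K : Finset Vtx) (G : Vtx → Finset Edg → Prop) (F : Finset Edg) :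
    EnV t (VS K G F) = ∑ v ∈ K, ∑ w ∈ K,
      ((max (sd v w) 1 : ℤ) : ℝ) ^ (-t) * ind (G v F ∧ G w F) := by
  classical
  unfold EnV VS
  rw [Finset.sum_filter]
  apply Finset.sum_congr rfl
  intro v _
  by_cases hv : G v F
  · rw [if_pos hv, Finset.sum_filter]
    apply Finset.sum_congr rfl
    intro w _
    by_cases hw : G w F
    · rw [if_pos hw, ind_of ⟨hv, hw⟩, mul_one]
    · rw [if_neg hw, ind_not_of (fun h => hw h.2), mul_zero]
  · rw [if_neg hv]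
    symm
    apply Finset.sum_eq_zero
    intro w _
    rw [ind_not_of (fun h => hv h.1), mul_zero]

/-- energy on `D` -/
noncomputable def EnD (t : ℝ) (K : Finset Vtx) (D : Finset Edg → Prop)
    (G : Vtx → Finset Edg → Prop) (F : Finset Edg) : ℝ :=
  ∑ v ∈ K, ∑ w ∈ K, ((max (sd v w) 1 : ℤ) : ℝ) ^ (-t) * ind (D F ∧ G v F ∧ G w F)

theorem EnD_nonneg (t : ℝ) (K : Finset Vtx) (D : Finset Edg → Prop)
    (G : Vtx → Finset Edg → Prop) (F : Finset Edg) : 0 ≤ EnD t K D G F :=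
  Finset.sum_nonneg (fun _ _ => Finset.sum_nonneg
    (fun _ _ => mul_nonneg (Real.rpow_nonneg (t5_max_nonneg _) _) (ind_nonneg _)))

theorem EnD_of (t : ℝ) (K : Finset Vtx) {D : Finset Edg → Prop}
    (G : Vtx → Finset Edg → Prop) {F : Finset Edg} (hD : D F) :
    EnD t K D G F = EnV t (VS K G F) := by
  rw [EnV_VS]
  unfold EnD
  apply Finset.sum_congr rfl
  intro v _
  apply Finset.sum_congr rfl
  intro w _
  congr 1
  apply ind_congr
  exact ⟨fun h => h.2, fun h => ⟨hD, h⟩⟩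

/-- expectation of the energy -/
theorem EE_EnD {C t : ℝ} (hC : 0 < C) (ht : 0 ≤ t) (ht1 : t < 4 / 3)
    (S : Finset Edg) (D : Finset Edg → Prop) (G : Vtx → Finset Edg → Prop) (h : ℕ) (x0 y0 : ℤ)
    (hh : 1 ≤ h)
    (h2 : ∀ v ∈ sq x0 y0 h, ∀ w ∈ sq x0 y0 h,
      PQ (1 / 2) S (fun F => D F ∧ G v F ∧ G w F) ≤
        C * ((max (sd v w) 1 : ℤ) : ℝ) ^ (-(2 / 3 : ℝ)) * (h : ℝ) ^ (-(2 / 3 : ℝ)) *
          PQ (1 / 2) S D) :
    EE S (EnD t (sq x0 y0 h) D G) ≤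
      9 * C * (1 + 4 / (1 - (t + 2 / 3) / 2)) ^ 2 * (h : ℝ) ^ (8 / 3 - t) * PQ (1 / 2) S D := by
  have hP : 0 ≤ PQ (1 / 2) S D := Pr_nonneg okh _ _
  set P := PQ (1 / 2) S D with hPdef
  have hb : 0 < 1 - (t + 2 / 3) / 2 := by linarith
  have ha0 : (0:ℝ) < h := by exact_mod_cast hh
  have ha1 : (1:ℝ) ≤ h := by exact_mod_cast hh
  have e1 : EE S (EnD t (sq x0 y0 h) D G) = ∑ v ∈ sq x0 y0 h, ∑ w ∈ sq x0 y0 h,
      ((max (sd v w) 1 : ℤ) : ℝ) ^ (-t) * PQ (1 / 2) S (fun F => D F ∧ G v F ∧ G w F) := by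
    unfold EE EnD
    rw [Ex_sum]
    apply Finset.sum_congr rfl
    intro v _
    rw [Ex_sum]
    apply Finset.sum_congr rfl
    intro w _
    rw [Ex_mul_left]
    rfl
  rw [e1]
  have h3 : ∀ v ∈ sq x0 y0 h, ∑ w ∈ sq x0 y0 h,
      ((max (sd v w) 1 : ℤ) : ℝ) ^ (-t) * PQ (1 / 2) S (fun F => D F ∧ G v F ∧ G w F) ≤
      C * (h : ℝ) ^ (-(2 / 3) : ℝ) * P *
        ((1 + 4 / (1 - (t + 2 / 3) / 2)) ^ 2 * (h : ℝ) ^ (2 - (t + 2 / 3))) := by
    intro v hv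
    have i1 := t5_two (a := t + 2 / 3) (by linarith) (by linarith) x0 y0 (h : ℤ) (by omega) v hv
    rw [Int.cast_natCast] at i1
    refine le_trans ?_ (mul_le_mul_of_nonneg_left i1
      (mul_nonneg (mul_nonneg hC.le (Real.rpow_nonneg ha0.le _)) hP))
    rw [Finset.mul_sum]
    apply Finset.sum_le_sum
    intro w hw
    have i2 := h2 v hv w hw
    have e2 : ((max (sd v w) 1 : ℤ) : ℝ) ^ (-(t + 2 / 3)) =
        ((max (sd v w) 1 : ℤ) : ℝ) ^ (-t) * ((max (sd v w) 1 : ℤ) : ℝ) ^ (-(2 / 3) : ℝ) := by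
      rw [← Real.rpow_add (t5_max_pos _)]
      congr 1
      ring
    rw [e2]
    calc _ ≤ ((max (sd v w) 1 : ℤ) : ℝ) ^ (-t) *
          (C * ((max (sd v w) 1 : ℤ) : ℝ) ^ (-(2 / 3) : ℝ) * (h : ℝ) ^ (-(2 / 3) : ℝ) * P) :=
          mul_le_mul_of_nonneg_left i2 (Real.rpow_nonneg (t5_max_nonneg _) _)
      _ = _ := by ring
  refine (Finset.sum_le_sum h3).trans ?_
  rw [Finset.sum_const, nsmul_eq_mul, t5_card x0 y0 (by omega), Int.cast_natCast]
  have e3 : (h : ℝ) ^ 2 * ((h : ℝ) ^ (-(2 / 3) : ℝ) * (h : ℝ) ^ (2 - (t + 2 / 3))) =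
      (h : ℝ) ^ (8 / 3 - t) := by
    rw [← Real.rpow_add ha0, ← Real.rpow_natCast, ← Real.rpow_add ha0]
    congr 1
    push_cast
    ring
  have h4 : (2 * (h : ℝ) + 1) ^ 2 ≤ 9 * (h : ℝ) ^ 2 := by nlinarith
  have h5 : 0 ≤ C * (h : ℝ) ^ (-(2 / 3) : ℝ) * P *
        ((1 + 4 / (1 - (t + 2 / 3) / 2)) ^ 2 * (h : ℝ) ^ (2 - (t + 2 / 3))) := by
    have := Real.rpow_nonneg ha0.le (-(2 / 3) : ℝ)
    have := Real.rpow_nonneg ha0.le (2 - (t + 2 / 3))
    positivity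
  calc (2 * (h : ℝ) + 1) ^ 2 * (C * (h : ℝ) ^ (-(2 / 3) : ℝ) * P *
        ((1 + 4 / (1 - (t + 2 / 3) / 2)) ^ 2 * (h : ℝ) ^ (2 - (t + 2 / 3))))
      ≤ (9 * (h : ℝ) ^ 2) * (C * (h : ℝ) ^ (-(2 / 3) : ℝ) * P *
        ((1 + 4 / (1 - (t + 2 / 3) / 2)) ^ 2 * (h : ℝ) ^ (2 - (t + 2 / 3)))) :=
        mul_le_mul_of_nonneg_right h4 h5
    _ = 9 * C * (1 + 4 / (1 - (t + 2 / 3) / 2)) ^ 2 *
        ((h : ℝ) ^ 2 * ((h : ℝ) ^ (-(2 / 3) : ℝ) * (h : ℝ) ^ (2 - (t + 2 / 3)))) * P := by ring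
    _ = _ := by rw [e3]

end Pool.Agent.Y997.OBL.PZ

namespace Pool.Agent.Y997.OBL.PZ

open H974 H12S Finset H984P H984N Pool.Agent.Y989.FR Pool.Agent.Y997.OBL

/-- **PZ**: second moment method with energies. -/
theorem t_PZ : S_PZ := by
  intro c C t hc hC ht ht1
  have hb0 : 0 < 1 - ((0 : ℝ) + 2 / 3) / 2 := by norm_num
  have hbt : 0 < 1 - (t + 2 / 3) / 2 := by linarith
  set C0 : ℝ := 9 * C * (1 + 4 / (1 - ((0 : ℝ) + 2 / 3) / 2)) ^ 2 with hC0d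
  set Ct : ℝ := 9 * C * (1 + 4 / (1 - (t + 2 / 3) / 2)) ^ 2 with hCtd
  have hC0 : 0 < C0 := by positivity
  have hCt : 0 < Ct := by positivity
  obtain ⟨A, hA⟩ : ∃ A : ℝ, A = 4 * c := ⟨_, rfl⟩
  have hA0 : 0 < A := by rw [hA]; positivity
  set p : ℝ := A ^ 2 / (4 * C0) / 2 with hp
  have hp0 : 0 < p := by positivity
  refine ⟨min p 1, A / 2, Ct / p, lt_min hp0 one_pos, min_le_right _ _, by positivity,
    by positivity, ?_⟩
  intro S D G h x0 y0 hh hone htwo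
  have hP : 0 ≤ PQ (1 / 2) S D := Pr_nonneg okh _ _
  have hone' : ∀ v ∈ sq x0 y0 h, c * (h : ℝ) ^ (-(2 / 3 : ℝ)) * PQ (1 / 2) S D ≤
      PQ (1 / 2) S (fun F => D F ∧ G v F) := hone
  have htwo' : ∀ v ∈ sq x0 y0 h, ∀ w ∈ sq x0 y0 h,
      PQ (1 / 2) S (fun F => D F ∧ G v F ∧ G w F) ≤
        C * ((max (sd v w) 1 : ℤ) : ℝ) ^ (-(2 / 3 : ℝ)) * (h : ℝ) ^ (-(2 / 3 : ℝ)) *
          PQ (1 / 2) S D := htwo
  have hE0 := EE_EnD (t := 0) hC le_rfl (by norm_num) S D G h x0 y0 hh htwo'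
  have hEt := EE_EnD (t := t) hC ht.le ht1 S D G h x0 y0 hh htwo'
  rw [← hC0d] at hE0
  rw [← hCtd] at hEt
  obtain ⟨P, hPd⟩ : ∃ P, P = PQ (1 / 2) S D := ⟨_, rfl⟩
  rw [← hPd] at hone' htwo' hE0 hEt hP ⊢
  refine (mul_le_mul_of_nonneg_right (min_le_left p 1) hP).trans ?_
  have hm0 : (0:ℝ) < h := by exact_mod_cast hh
  have hm1 : (1:ℝ) ≤ h := by exact_mod_cast hh
  have hU : 0 < (h : ℝ) ^ (4 / 3 : ℝ) := Real.rpow_pos_of_pos hm0 _
  have hU2 : (h : ℝ) ^ (4 / 3 : ℝ) * (h : ℝ) ^ (4 / 3 : ℝ) = (h : ℝ) ^ (8 / 3 - (0:ℝ)) := by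
    rw [← Real.rpow_add hm0]; norm_num
  set K := sq x0 y0 h with hK
  set X : Finset Edg → ℝ := fun F => ((VS K G F).card : ℝ) * ind (D F) with hX
  have hX0 : ∀ F, 0 ≤ X F := fun F => mul_nonneg (Nat.cast_nonneg _) (ind_nonneg _)
  -- first moment
  have l1 : A * (h : ℝ) ^ (4 / 3 : ℝ) * P ≤ EE S X := by
    have e1 : EE S X = ∑ v ∈ K, PQ (1 / 2) S (fun F => D F ∧ G v F) := by
      have e0 : EE S X = EE S (fun F => ∑ v ∈ K, ind (D F ∧ G v F)) := by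
        congr 1
        funext F
        rw [hX]
        simp only
        rw [card_VS, Finset.sum_mul]
        apply Finset.sum_congr rfl
        intro v _
        rw [ind_and (D F), mul_comm]
      rw [e0]
      unfold EE
      rw [Ex_sum]
      rfl
    rw [e1]
    refine le_trans ?_ (Finset.sum_le_sum hone')
    rw [Finset.sum_const, nsmul_eq_mul, hK, t5_card x0 y0 (by omega), Int.cast_natCast]
    have e3 : (h : ℝ) ^ 2 * (h : ℝ) ^ (-(2 / 3 : ℝ)) = (h : ℝ) ^ (4 / 3 : ℝ) := by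
      rw [← Real.rpow_natCast, ← Real.rpow_add hm0]
      congr 1
      norm_num
    rw [← e3]
    have h4 : 4 * (h : ℝ) ^ 2 ≤ (2 * (h : ℝ) + 1) ^ 2 := by nlinarith
    have h5 : 0 ≤ c * (h : ℝ) ^ (-(2 / 3 : ℝ)) * P := by
      have := Real.rpow_nonneg hm0.le (-(2 / 3 : ℝ))
      positivity
    calc A * ((h : ℝ) ^ 2 * (h : ℝ) ^ (-(2 / 3 : ℝ))) * P =
        4 * (h : ℝ) ^ 2 * (c * (h : ℝ) ^ (-(2 / 3 : ℝ)) * P) := by rw [hA]; ring
      _ ≤ _ := mul_le_mul_of_nonneg_right h4 h5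
  -- second moment
  have l2 : EE S (fun F => X F * X F) ≤ C0 * (h : ℝ) ^ (8 / 3 - (0:ℝ)) * P := by
    refine le_trans ?_ hE0
    unfold EE
    apply Ex_mono okh
    intro F _
    by_cases hDF : D F
    · have e4 : X F = ((VS K G F).card : ℝ) := by
        rw [hX]
        simp only
        rw [ind_of hDF, mul_one]
      rw [e4, EnD_of 0 K G hDF]
      unfold EnV
      simp only [neg_zero, Real.rpow_zero, Finset.sum_const, nsmul_eq_mul, mul_one]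
      exact le_rfl
    · have e4 : X F = 0 := by
        rw [hX]
        simp only
        rw [ind_not_of hDF, mul_zero]
      rw [e4, mul_zero]
      exact EnD_nonneg _ _ _ _ _
  have k := paley (S := S) (D := D) (f := X) (fun F _ => hX0 F)
    (fun F _ hn => by rw [hX]; simp only; rw [ind_not_of hn, mul_zero])
    (m := A * (h : ℝ) ^ (4 / 3 : ℝ)) (V := C0 * (h : ℝ) ^ (8 / 3 - (0:ℝ))) (P := P)
    (by positivity) (by positivity) hPd l1 l2
  have e3 : (A * (h : ℝ) ^ (4 / 3 : ℝ)) ^ 2 /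
      (4 * (C0 * (h : ℝ) ^ (8 / 3 - (0:ℝ)))) = 2 * p := by
    rw [← hU2, hp]
    field_simp
  rw [e3] at k
  -- energy
  have hU3 : 0 < (h : ℝ) ^ (8 / 3 - t) := Real.rpow_pos_of_pos hm0 _
  have i2 := markov (S := S) (f := EnD t K D G) (fun F _ => EnD_nonneg t K D G F)
    (t := Ct / p * (h : ℝ) ^ (8 / 3 - t)) (by positivity)
  have i3 : EE S (EnD t K D G) / (Ct / p * (h : ℝ) ^ (8 / 3 - t)) ≤ p * P := by
    rw [div_le_iff₀ (by positivity)]
    refine hEt.trans (le_of_eq ?_)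
    field_simp
  have i4 : PQ (1 / 2) S (fun F => D F ∧ A * (h : ℝ) ^ (4 / 3 : ℝ) / 2 ≤ X F) ≤
      PQ (1 / 2) S (fun F => D F ∧ ∃ V : Finset Vtx, V ⊆ K ∧
        A / 2 * (h : ℝ) ^ (4 / 3 : ℝ) ≤ (V.card : ℝ) ∧
        EnV t V ≤ Ct / p * (h : ℝ) ^ (8 / 3 - t) ∧ ∀ v ∈ V, G v F) +
      PQ (1 / 2) S (fun F => Ct / p * (h : ℝ) ^ (8 / 3 - t) ≤ EnD t K D G F) := by
    refine le_trans ?_ (Pr_or_le okh S _ _)
    apply Pr_mono okh
    rintro F _ ⟨hDF, hF⟩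
    by_cases h5 : EnD t K D G F ≤ Ct / p * (h : ℝ) ^ (8 / 3 - t)
    · left
      refine ⟨hDF, VS K G F, VS_sub K G F, ?_, ?_, fun v hv => VS_mem hv⟩
      · rw [hX] at hF
        simp only at hF
        rw [ind_of hDF, mul_one] at hF
        refine le_trans (le_of_eq ?_) hF
        ring
      · rw [← EnD_of t K G hDF]
        exact h5
    · exact Or.inr (le_of_not_ge h5)
  have i5 : p * P ≤ PQ (1 / 2) S (fun F => D F ∧ ∃ V : Finset Vtx, V ⊆ K ∧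
        A / 2 * (h : ℝ) ^ (4 / 3 : ℝ) ≤ (V.card : ℝ) ∧
        EnV t V ≤ Ct / p * (h : ℝ) ^ (8 / 3 - t) ∧ ∀ v ∈ V, G v F) := by linarith
  exact i5

end Pool.Agent.Y997.OBL.PZ
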