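import Pool.Agent.Y997.OBL.Stm
import Pool.Agent.Y989.FR.T_RNG
import Pool.Agent.H974R2.RSW2

/-!
# RN: closed ring outside of the cluster of `O` (helper87)
-/

set_option autoImplicit false

namespace Pool.Agent.Y997.OBL.RN

open H974 H12S Finset H984P H984N Pool.Agent.Y989.FR Pool.Agent.Y997.OBL
open Pool.Agent.W92.DP (DTB DLR shc)
open Pool.Agent.Y989.FR.RNG (cl_eq stop off)

/-! ### Probability of a blocked annulus -/

theorem pr_Blk_gen {κ : ℝ} (hκ : 0 < κ) {n m : ℕ} (hnm : n < m)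
    (hval : κ ≤ 1 - hh (1 / 2) ((m : ℤ) - n) (2 * m)) {S : Finset Edg} (hS : annE n m ⊆ S) :
    κ ^ 4 ≤ Pr (fun _ => (1 / 2 : ℝ)) S (Blk n m) := by
  have ok := okq (q := (1 / 2 : ℝ)) (by norm_num) (by norm_num)
  obtain ⟨s1, s2, s3, s4⟩ := ann_sub (n := n) (m := m) hnm
  have e1 := pr_LRc (1 / 2) (s1.trans hS)
  have e2 := pr_LRc (1 / 2) (s2.trans hS)
  have e3 := pr_TBc (1 / 2) (s3.trans hS)
  have e4 := pr_TBc (1 / 2) (s4.trans hS)
  have d2 : (m : ℤ) - -(m : ℤ) = 2 * m := by ring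
  have d3 : -(n : ℤ) - -(m : ℤ) = (m : ℤ) - n := by ring
  rw [d2] at e1
  rw [d3, d2] at e2
  rw [d2] at e3
  rw [d3, d2] at e4
  have i1 := Pr_harris_dd ok (LRc_incr S (n : ℤ) m (-m) m) (LRc_incr S (-(m : ℤ)) (-n) (-m) m)
  have i2 := Pr_harris_dd ok (TBc_incr S (-(m : ℤ)) m n m) (TBc_incr S (-(m : ℤ)) m (-m) (-n))
  rw [e1, e2] at i1
  rw [e3, e4] at i2
  have c1 : IncrE S (fun F => LRc (n : ℤ) m (-m) m F ∨ LRc (-(m : ℤ)) (-n) (-m) m F) :=
    fun F G hFG _ hF => hF.imp (LRc.mono hFG) (LRc.mono hFG)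
  have c2 : IncrE S (fun F => TBc (-(m : ℤ)) m n m F ∨ TBc (-(m : ℤ)) m (-m) (-n) F) :=
    fun F G hFG _ hF => hF.imp (TBc.mono hFG) (TBc.mono hFG)
  have i3 := Pr_harris_dd ok c1 c2
  rw [← Pr_not, ← Pr_not] at i3
  have j1 : Pr (fun _ => (1 / 2 : ℝ)) S (fun F => ¬ (LRc (n : ℤ) m (-m) m F ∨
      LRc (-(m : ℤ)) (-n) (-m) m F)) = Pr (fun _ => (1 / 2 : ℝ)) S
      (fun F => ¬ LRc (n : ℤ) m (-m) m F ∧ ¬ LRc (-(m : ℤ)) (-n) (-m) m F) :=
    Pr_congr (fun F _ => not_or)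
  have j2 : Pr (fun _ => (1 / 2 : ℝ)) S (fun F => ¬ (TBc (-(m : ℤ)) m n m F ∨
      TBc (-(m : ℤ)) m (-m) (-n) F)) = Pr (fun _ => (1 / 2 : ℝ)) S
      (fun F => ¬ TBc (-(m : ℤ)) m n m F ∧ ¬ TBc (-(m : ℤ)) m (-m) (-n) F) :=
    Pr_congr (fun F _ => not_or)
  rw [j1, j2] at i3
  set x := 1 - hh (1 / 2) ((m : ℤ) - n) (2 * m) with hx
  have k1 : κ * κ ≤ x * x := mul_le_mul hval hval hκ.le (hκ.le.trans hval)
  have k2 : (κ * κ) * (κ * κ) ≤ _ := mul_le_mul (k1.trans i1) (k1.trans i2) (by positivity)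
    ((by positivity : 0 ≤ κ * κ).trans (k1.trans i1))
  calc κ ^ 4 = (κ * κ) * (κ * κ) := by ring
    _ ≤ _ := k2
    _ ≤ _ := i3

theorem hh_one (k : ℕ) : (1/4 : ℝ) ^ (k + 1) ≤ hh (1/2) ((k : ℤ) + 1) 1 := by
  induction k with
  | zero =>
    have := hh_square 1 (by norm_num)
    simp only [Nat.cast_zero, zero_add, pow_one]
    linarith
  | succ k ih =>
    have h0 : (0:ℝ) ≤ 1/2 := by norm_num
    have h1 : (1/2:ℝ) ≤ 1 := by norm_num
    have g := hh_glue h0 h1 (w1 := (k : ℤ) + 1) (w2 := 2) (v := 1) (h := 1) (by norm_num)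
      (by omega) (by norm_num) (by norm_num)
    have e : (k : ℤ) + 1 + 2 - 1 = ((k + 1 : ℕ) : ℤ) + 1 := by push_cast; ring
    rw [e] at g
    have a1 := hh_half 1 (by norm_num)
    have a2 := hh_square 1 (by norm_num)
    have a3 : hh (1/2) 2 1 = 1/2 := by
      have : (1 : ℤ) + 1 = 2 := by norm_num
      rwa [this] at a1
    rw [a3] at g
    refine le_trans ?_ g
    have p1 : (0:ℝ) < (1/4)^(k + 1) := by positivity
    have p2 : (0:ℝ) ≤ hh (1/2) ((k : ℤ) + 1) 1 := p1.le.trans ih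
    rw [pow_succ]
    have p3 : (1/4 : ℝ) ^ (k + 1) * (1/4) ≤ hh (1/2) ((k : ℤ) + 1) 1 * (1/4) :=
      mul_le_mul_of_nonneg_right ih (by norm_num)
    have p4 : hh (1/2) ((k : ℤ) + 1) 1 * (1/4) ≤
        hh (1/2) ((k : ℤ) + 1) 1 * (1/2) * hh (1/2) 1 1 := by nlinarith
    exact p3.trans p4

theorem rsw_long_aux (m : ℕ) : ∃ c : ℝ, 0 < c ∧ ∀ n : ℤ, 1 ≤ n →
    c ≤ hh (1 / 2) (((m : ℤ) + 8) * n) (2 * n) := by
  induction m with
  | zero =>
    refine ⟨(1 / 2 : ℝ) ^ 47, by positivity, fun n hn => ?_⟩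
    exact rsw (n := n) (by omega) (by push_cast; omega) (by push_cast; omega) le_rfl
  | succ m ih =>
    obtain ⟨c, hc, h⟩ := ih
    refine ⟨c * (1 / 2 : ℝ) ^ 47 * (1 / 2), by positivity, fun n hn => ?_⟩
    have hm : (0 : ℤ) ≤ (m : ℤ) * n := by positivity
    have e1 : ((m : ℤ) + 8) * n = (m : ℤ) * n + 8 * n := by ring
    have k1 := h n hn
    have k2 : (1 / 2 : ℝ) ^ 47 ≤ hh (1 / 2) (8 * n) (2 * n) :=
      rsw (n := n) (by omega) (by omega) le_rfl le_rfl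
    have k3 := hh_square (2 * n) (by omega)
    have k4 := hh_glue (q := 1 / 2) (by norm_num) (by norm_num) (w1 := ((m : ℤ) + 8) * n)
      (w2 := 8 * n) (v := 2 * n) (h := 2 * n) (by omega) (by rw [e1]; omega) (by omega) (by omega)
    have k5 : hh (1 / 2) (((m : ℤ) + 8) * n + 8 * n - 2 * n) (2 * n)
        ≤ hh (1 / 2) ((((m + 1 : ℕ) : ℤ) + 8) * n) (2 * n) := by
      refine hh_mono (by norm_num) (by norm_num) ?_ ?_ le_rfl
      · have : (((m + 1 : ℕ) : ℤ) + 8) * n = (m : ℤ) * n + 9 * n := by push_cast; ring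
        rw [this]; omega
      · have : (((m + 1 : ℕ) : ℤ) + 8) * n = (m : ℤ) * n + 9 * n := by push_cast; ring
        rw [this, e1]; omega
    have h0 : (0 : ℝ) ≤ (1 / 2 : ℝ) ^ 47 := by positivity
    have hn1 := hh_nonneg (q := 1 / 2) (by norm_num) (by norm_num) (((m : ℤ) + 8) * n) (2 * n)
    have hn2 := hh_nonneg (q := 1 / 2) (by norm_num) (by norm_num) (8 * n) (2 * n)
    calc c * (1 / 2 : ℝ) ^ 47 * (1 / 2)
        ≤ hh (1 / 2) (((m : ℤ) + 8) * n) (2 * n) * hh (1 / 2) (8 * n) (2 * n) *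
          hh (1 / 2) (2 * n) (2 * n) := by
          apply mul_le_mul _ k3 (by norm_num) (mul_nonneg hn1 hn2)
          exact mul_le_mul k1 k2 h0 hn1
      _ ≤ _ := k4
      _ ≤ _ := k5

/-- Crossing probabilities of long rectangles (copied from `Pool.Agent.H389R2.LV.Rsw`). -/
theorem rsw_long (κ : ℕ) : ∃ c : ℝ, 0 < c ∧ ∀ w h : ℤ, 2 ≤ h → 0 < w → w ≤ κ * h →
    c ≤ hh (1 / 2) w h := by
  obtain ⟨c, hc, hcn⟩ := rsw_long_aux (3 * κ)
  refine ⟨c, hc, fun w h hh2 hw hwκ => ?_⟩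
  obtain ⟨n, hn1, hn2, hn3⟩ : ∃ n : ℤ, 1 ≤ n ∧ 2 * n ≤ h ∧ h ≤ 3 * n :=
    ⟨h / 2, by omega, by omega, by omega⟩
  have hκ : (0 : ℤ) ≤ κ := by positivity
  refine (hcn n hn1).trans (hh_mono (by norm_num) (by norm_num) hw ?_ hn2)
  have h1 : (κ : ℤ) * h ≤ κ * (3 * n) := mul_le_mul_of_nonneg_left hn3 hκ
  have h2 : (((3 * κ : ℕ) : ℤ) + 8) * n = κ * (3 * n) + 8 * n := by push_cast; ring
  rw [h2]
  linarith

/-- crossing the short way of the rectangles of the annulus -/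
theorem short (q : ℕ) : ∃ κ : ℝ, 0 < κ ∧ ∀ h : ℕ, 1 ≤ h →
    κ ≤ 1 - hh (1 / 2) (2 * (h : ℤ)) (2 * ((q * h + 10 * h : ℕ) : ℤ)) := by
  obtain ⟨c, hc, hr⟩ := rsw_long (2 * q + 21)
  refine ⟨min c ((1/4 : ℝ) ^ (2 * q + 20 + 1)), by positivity, fun h hh1 => ?_⟩
  have hd := hh_dual (q := 1 / 2) (w := 2 * (h : ℤ)) (h := 2 * ((q * h + 10 * h : ℕ) : ℤ))
    (by omega) (by positivity)
  have e1 : (1:ℝ) - 1/2 = 1/2 := by norm_num
  rw [e1] at hd
  have e2 : 1 - hh (1 / 2) (2 * (h : ℤ)) (2 * ((q * h + 10 * h : ℕ) : ℤ)) =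
      hh (1 / 2) (2 * ((q * h + 10 * h : ℕ) : ℤ) + 1) (2 * (h : ℤ) - 1) := by linarith
  rw [e2]
  rcases Nat.lt_or_ge 1 h with h2 | h2
  · refine (min_le_left _ _).trans (hr _ _ (by omega) (by positivity) ?_)
    push_cast
    have h3 : (2 : ℤ) ≤ h := by exact_mod_cast h2
    have h4 : (0 : ℤ) ≤ q := by positivity
    nlinarith
  · obtain rfl : h = 1 := by omega
    refine (min_le_right _ _).trans ((hh_one (2 * q + 20)).trans (le_of_eq ?_))
    congr 1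
    push_cast
    ring

/-! ### Deterministic part -/

theorem Thk_mono {M B k h : ℕ} {p : ℤ} {C C' : Set Vtx} (hC : C' ⊆ C) (hT : Thk M B k h p C) :
    Thk M B k h p C' := by
  obtain ⟨x, hx, y1, h1, h2, h3⟩ := hT
  refine ⟨x, hx, y1, h1, h2, h3.mono ?_⟩
  rintro e ⟨k1, k2, k3⟩
  exact ⟨k1, fun c hc => k2 c (hC hc), fun c hc => k3 c (hC hc)⟩

theorem NoT_mono {k h : ℕ} {p : ℤ} {C C' : Set Vtx} (hC : C' ⊆ C) (hT : NoT k h p C) :
    NoT k h p C' := fun c hc => hT c (hC hc)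

theorem BBo_sub {k h : ℕ} {F : Finset Edg} (hF : F ⊆ boxE (k + 14 * h))
    (hR : ¬ Crs 0 0 (k + 8 * h) (k + 10 * h) (↑(F \ Pool.Agent.Y989.FR.RNG.KK (k + 14 * h) F) : Set Edg)) :
    BBo k h (↑F : Set Edg) ⊆ cl (k + 14 * h) (↑F : Set Edg) := by
  rintro c ⟨hc, w, hw, hcw⟩
  by_contra hcc
  apply hR
  have h1 := (off hF (G := (↑F : Set Edg) ∩ ↑(boxE (k + 10 * h))) Set.inter_subset_left hcc
    hcw).1
  refine ⟨c, w, ?_, ?_, h1⟩
  · unfold sd at hc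
    rw [max_le_iff, abs_le, abs_le] at hc
    unfold inR
    push_cast
    simp only at hc
    omega
  · obtain ⟨h2, h3, h4⟩ := hw
    push_cast at h2 h3 h4 ⊢
    simp only [sub_zero] at h2 h3 h4
    rcases h4 with h4 | h4
    · rcases abs_eq (by positivity : (0:ℤ) ≤ (k:ℤ) + 10 * h) |>.1 h4 with h5 | h5
      · right; left; omega
      · left; omega
    · rcases abs_eq (by positivity : (0:ℤ) ≤ (k:ℤ) + 10 * h) |>.1 h4 with h5 | h5
      · right; right; right; omega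
      · right; right; left; omega

theorem Tb_ends {k h : ℕ} {p : ℤ} {e : Edg} (he : e ∈ Tb k h p) :
    |(src e).1 - p| ≤ 8 * h ∧ (src e).2 ≤ -(k : ℤ) + 4 * h := by
  obtain ⟨x, y, b⟩ := e
  unfold Tb at he
  cases b
  · rw [mem_RE_false] at he
    simp only [src_mk, abs_le]
    omega
  · rw [mem_RE_true] at he
    simp only [src_mk, abs_le]
    omega

/-- the cluster avoids the tube -/
theorem aro {k h : ℕ} {p : ℤ} {F : Set Edg} (hN : NoT k h p (cl (k + 14 * h) F))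
    (hw : ∃ w ∈ bdB (0, 0) (k + 14 * h), w ∈ cl (k + 14 * h) F) : Aro k h p F := by
  obtain ⟨w, hw1, hw2⟩ := hw
  refine ⟨w, hw1, ?_⟩
  have hw2' : Reach (F ∩ ↑(boxE (k + 14 * h))) (0, 0) w := hw2
  clear hw1 hw2
  induction hw2' with
  | refl => exact Reach.refl _ _
  | @tail b c hb hs ih =>
    refine ih.trans ?_
    obtain ⟨e, he, hc⟩ := hs
    refine Adj.reach ⟨e, ⟨he, ?_⟩, hc⟩
    intro heT
    have hbc : b ∈ cl (k + 14 * h) F := hb
    have hcc : c ∈ cl (k + 14 * h) F :=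
      Reach.trans (F := F ∩ ↑(boxE (k + 14 * h))) hb (Adj.reach ⟨e, he, hc⟩)
    have h1 := Tb_ends (Finset.mem_coe.1 heT)
    rcases hc with ⟨h2, -⟩ | ⟨h2, -⟩
    · rw [h2] at h1
      exact hN b hbc h1
    · rw [h2] at h1
      exact hN c hcc h1

theorem det {M B k h : ℕ} {p : ℤ} {F : Finset Edg} (hF : F ⊆ boxE (k + 14 * h))
    (hP : PG M B k h p (↑F : Set Edg))
    (hR : ¬ Crs 0 0 (k + 8 * h) (k + 10 * h) (↑(F \ Pool.Agent.Y989.FR.RNG.KK (k + 14 * h) F) : Set Edg)) :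
    Zo M B k h p (↑F : Set Edg) ∧ Aro k h p (↑F : Set Edg) := by
  obtain ⟨h1, h2, h3⟩ := hP
  have h4 := BBo_sub hF hR
  exact ⟨⟨Thk_mono h4 h2, NoT_mono h4 h3⟩, aro h3 h1⟩

/-! ### Locality -/

theorem box_mono {a b : ℕ} (hab : a ≤ b) : boxE a ⊆ boxE b := by
  unfold boxE
  exact RE_subset (by omega) (by omega) (by omega) (by omega)

theorem coe_inter_box {a b : ℕ} (hab : a ≤ b) (F : Finset Edg) :
    ((↑(F ∩ boxE b) : Set Edg) ∩ ↑(boxE a)) = (↑F : Set Edg) ∩ ↑(boxE a) := by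
  ext e
  simp only [Set.mem_inter_iff, Finset.mem_coe, Finset.mem_inter]
  constructor
  · rintro ⟨⟨h1, -⟩, h2⟩; exact ⟨h1, h2⟩
  · rintro ⟨h1, h2⟩; exact ⟨⟨h1, box_mono hab h2⟩, h2⟩

theorem cl_local {m : ℕ} (F : Finset Edg) :
    cl m (↑(F ∩ boxE m) : Set Edg) = cl m (↑F : Set Edg) := by
  unfold cl
  rw [coe_inter_box le_rfl]

theorem BBo_local {k h : ℕ} (F : Finset Edg) :
    BBo k h (↑(F ∩ boxE (k + 14 * h)) : Set Edg) = BBo k h (↑F : Set Edg) := by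
  unfold BBo
  rw [coe_inter_box (by omega)]

theorem PG_local {M B k h : ℕ} {p : ℤ} (F : Finset Edg) :
    PG M B k h p (↑F : Set Edg) ↔ PG M B k h p (↑(F ∩ boxE (k + 14 * h)) : Set Edg) := by
  unfold PG
  rw [cl_local]

theorem ZA_local {M B k h : ℕ} {p : ℤ} (F : Finset Edg) :
    (Zo M B k h p (↑F : Set Edg) ∧ Aro k h p (↑F : Set Edg)) ↔
      (Zo M B k h p (↑(F ∩ boxE (k + 14 * h)) : Set Edg) ∧
        Aro k h p (↑(F ∩ boxE (k + 14 * h)) : Set Edg)) := by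
  unfold Zo Aro
  rw [BBo_local, coe_inter_box le_rfl]

theorem PG_congr {M B k h : ℕ} {p : ℤ} {F F' : Set Edg}
    (hc : cl (k + 14 * h) F' = cl (k + 14 * h) F) : PG M B k h p F → PG M B k h p F' := by
  unfold PG
  rw [hc]
  exact id

/-! ### The result -/

theorem crs_blk {a b : ℕ} (hab : a < b) {F : Finset Edg} (h : Crs 0 0 a b ↑F) :
    ¬ Blk a b F := by
  obtain ⟨x, y, hx, hy, hr⟩ := h
  refine not_blk_of_reach (R1 := a) (R2 := (b : ℤ)) (by exact_mod_cast hab) ?_ hr ?_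
  · simpa using hx
  · simpa using hy

/-- RN -/
theorem t_RN : S_RN := by
  intro q _
  obtain ⟨κ, hκ, hS⟩ := short q
  refine ⟨κ ^ 4, pow_pos hκ 4, ?_⟩
  intro M B h p _ hh1 _ S hSub
  have ok : Ok (fun _ : Edg => (1 / 2 : ℝ)) := fun _ => ⟨by norm_num, by norm_num⟩
  have e1 : PQ (1 / 2) S (fun F => PG M B (q * h) h p (↑F : Set Edg)) =
      PQ (1 / 2) (boxE (q * h + 14 * h)) (fun F => PG M B (q * h) h p (↑F : Set Edg)) :=
    Pr_local hSub (fun F _ => PG_local F)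
  have e2 : PQ (1 / 2) S (fun F => Zo M B (q * h) h p (↑F : Set Edg) ∧
        Aro (q * h) h p (↑F : Set Edg)) =
      PQ (1 / 2) (boxE (q * h + 14 * h)) (fun F => Zo M B (q * h) h p (↑F : Set Edg) ∧
        Aro (q * h) h p (↑F : Set Edg)) :=
    Pr_local hSub (fun F _ => ZA_local F)
  rw [e1, e2]
  have h1 := markov_ge ok (stop (q * h + 14 * h))
    (A := fun F => PG M B (q * h) h p (↑F : Set Edg))
    (B := fun F => ¬ Crs 0 0 (q * h + 8 * h) (q * h + 10 * h) (↑F : Set Edg))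
    (fun F F' _ _ h hA => PG_congr (cl_eq h) hA)
    (fun F G hFG hG hF => hG (by
      obtain ⟨x, y, a, b, c⟩ := hF
      exact ⟨x, y, a, b, Reach.mono (by exact_mod_cast hFG) c⟩))
  have h2 : κ ^ 4 ≤ PQ (1 / 2) (boxE (q * h + 14 * h))
      (fun F => ¬ Crs 0 0 (q * h + 8 * h) (q * h + 10 * h) (↑F : Set Edg)) := by
    have hval := hS h hh1
    have e3 : ((q * h + 10 * h : ℕ) : ℤ) - (q * h + 8 * h : ℕ) = 2 * (h : ℤ) := by
      push_cast; ring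
    rw [← e3] at hval
    have h3 := pr_Blk_gen hκ (n := q * h + 8 * h) (m := q * h + 10 * h) (by omega) hval
      (S := boxE (q * h + 14 * h)) (by
        unfold annE
        exact Finset.sdiff_subset.trans (box_mono (by omega)))
    refine h3.trans (Pr_mono ok ?_)
    intro F _ hB hC
    exact crs_blk (by omega) hC hB
  have h4 : PQ (1 / 2) (boxE (q * h + 14 * h)) (fun F => PG M B (q * h) h p (↑F : Set Edg) ∧
      ¬ Crs 0 0 (q * h + 8 * h) (q * h + 10 * h)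
        (↑(F \ Pool.Agent.Y989.FR.RNG.KK (q * h + 14 * h) F) : Set Edg)) ≤
      PQ (1 / 2) (boxE (q * h + 14 * h)) (fun F => Zo M B (q * h) h p (↑F : Set Edg) ∧
        Aro (q * h) h p (↑F : Set Edg)) := by
    apply Pr_mono ok
    rintro F hF ⟨a1, a3⟩
    exact det hF a1 a3
  have h5 : 0 ≤ PQ (1 / 2) (boxE (q * h + 14 * h))
      (fun F => PG M B (q * h) h p (↑F : Set Edg)) := Pr_nonneg ok _ _
  calc κ ^ 4 * PQ (1 / 2) (boxE (q * h + 14 * h))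
        (fun F => PG M B (q * h) h p (↑F : Set Edg))
      ≤ PQ (1 / 2) (boxE (q * h + 14 * h))
          (fun F => ¬ Crs 0 0 (q * h + 8 * h) (q * h + 10 * h) (↑F : Set Edg)) *
        PQ (1 / 2) (boxE (q * h + 14 * h)) (fun F => PG M B (q * h) h p (↑F : Set Edg)) :=
        mul_le_mul_of_nonneg_right h2 h5
    _ = PQ (1 / 2) (boxE (q * h + 14 * h)) (fun F => PG M B (q * h) h p (↑F : Set Edg)) *
        PQ (1 / 2) (boxE (q * h + 14 * h))
          (fun F => ¬ Crs 0 0 (q * h + 8 * h) (q * h + 10 * h) (↑F : Set Edg)) := mul_comm _ _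
    _ ≤ _ := h1
    _ ≤ _ := h4

end Pool.Agent.Y997.OBL.RN
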