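import Pool.Agent.Y997.OBL.Stm
import Pool.Agent.H974R2.Circ
import Pool.Agent.H973R2.Long

/-!
# The slit event without success has small probability
-/

set_option autoImplicit false

namespace Pool.Agent.Y997.OBL.SEJ

open H974 H12S Finset H984P H984N Pool.Agent.Y989.FR Pool.Agent.Y997.OBL
open Pool.Agent.W92.DP (DTB DLR shc)

theorem okh : Ok (fun _ : Edg => (1 / 2 : ℝ)) := H973.okhalf

/-! ### Annuli -/

theorem blk_box (n : ℕ) : blk (0, 0) n = boxE n := by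
  unfold blk boxE
  simp

theorem blk_le {a b : ℕ} (h : a ≤ b) : blk (0, 0) a ⊆ blk (0, 0) b := by
  rw [blk_box, blk_box]
  exact boxE_mono h

theorem AE_sub {a b m : ℕ} (h : b ≤ m) {e : Edg} (he : e ∈ AE (0, 0) a b) : e ∈ boxE m := by
  unfold AE at he
  have h1 := (Finset.mem_sdiff.1 (Finset.mem_coe.1 he)).1
  rw [← blk_box]
  exact blk_le h h1

theorem AE_disj {a b c d : ℕ} (h : b ≤ c) {e : Edg} (he : e ∈ AE (0, 0) a b) :
    e ∉ AE (0, 0) c d := by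
  intro he'
  unfold AE at he he'
  have h1 := (Finset.mem_sdiff.1 (Finset.mem_coe.1 he)).1
  exact (Finset.mem_sdiff.1 (Finset.mem_coe.1 he')).2 (blk_le h h1)

/-! ### Explored edges -/

theorem mem_KnF {m : ℕ} {F : Finset Edg} {e : Edg} : e ∈ KnF m F ↔ e ∈ Kn m (↑F : Set Edg) := by
  classical
  unfold KnF
  rw [Finset.mem_filter]
  exact ⟨fun h => h.2, fun h => ⟨h.1.1, h⟩⟩

theorem KnF_sub (m : ℕ) (F : Finset Edg) : KnF m F ⊆ boxE m := by
  classical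
  unfold KnF
  exact Finset.filter_subset _ _

theorem Kn_congr {m : ℕ} {F F' : Set Edg} (h : WF m F' = WF m F) : Kn m F' = Kn m F := by
  unfold Kn
  rw [h]

theorem XX_congr {m : ℕ} {F F' : Set Edg} (h : WF m F' = WF m F)
    (h2 : ∀ e ∈ Kn m F, (e ∈ F ↔ e ∈ F')) : XX m F' = XX m F := by
  unfold XX
  have h3 : F' ∩ Kn m F' = F ∩ Kn m F := by
    rw [Kn_congr h]
    ext e
    constructor
    · rintro ⟨h4, h5⟩
      exact ⟨(h2 e h5).2 h4, h5⟩
    · rintro ⟨h4, h5⟩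
      exact ⟨(h2 e h5).1 h4, h5⟩
  rw [h3]

/-- the stopping property -/
theorem glue {m : ℕ} (h8 : S_KN) {F η : Finset Edg} (hη : η ⊆ boxE m \ KnF m F) :
    KnF m (F ∩ KnF m F ∪ η) = KnF m F ∧
      XX m (↑(F ∩ KnF m F ∪ η) : Set Edg) = XX m (↑F : Set Edg) ∧
      (F ∩ KnF m F ∪ η) ∩ KnF m F = F ∩ KnF m F := by
  have hk : ∀ e ∈ Kn m (↑F : Set Edg), (e ∈ (↑F : Set Edg) ↔
      e ∈ (↑(F ∩ KnF m F ∪ η) : Set Edg)) := by
    intro e he
    have he' := mem_KnF.2 he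
    simp only [Finset.mem_coe, Finset.mem_union, Finset.mem_inter]
    constructor
    · intro h; exact Or.inl ⟨h, he'⟩
    · rintro (h | h)
      · exact h.1
      · exact absurd he' (Finset.mem_sdiff.1 (hη h)).2
  have hW := h8 m _ _ hk
  refine ⟨?_, XX_congr hW hk, ?_⟩
  · ext e
    rw [mem_KnF, mem_KnF, Kn_congr hW]
  · ext e
    simp only [Finset.mem_union, Finset.mem_inter]
    constructor
    · rintro ⟨h | h, h2⟩
      · exact h
      · exact absurd h2 (Finset.mem_sdiff.1 (hη h)).2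
    · intro h
      exact ⟨Or.inl h, h.2⟩

/-! ### Locality -/

theorem reach_congr {F F' G : Set Edg} (h : ∀ e ∈ G, (e ∈ F ↔ e ∈ F')) {u v : Vtx} :
    Reach (F ∩ G) u v ↔ Reach (F' ∩ G) u v := by
  have : F ∩ G = F' ∩ G := by
    ext e
    constructor
    · rintro ⟨a, b⟩; exact ⟨(h e b).1 a, b⟩
    · rintro ⟨a, b⟩; exact ⟨(h e b).2 a, b⟩
  rw [this]

/-- the parameters of one scale -/
structure Par (B q A h m : ℕ) (p : ℤ) : Prop where
  hB : 1 ≤ B
  hq : 64 ≤ q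
  hA : 8 ≤ A
  hh : 1 ≤ h
  hm : 8 * (A * (q * h)) ≤ m
  hp : |p| ≤ (q * h : ℕ)

theorem sucX_congr (h9 : S_LOC) {c0 E0 t : ℝ} {M B q A h m : ℕ} {p : ℤ} (P : Par B q A h m p)
    (X : Set Vtx) {F F' : Finset Edg}
    (hF : ∀ e ∈ AE (0, 0) (A * (q * h)) (8 * (A * (q * h))), (e ∈ F ↔ e ∈ F')) :
    SucX c0 E0 t M B (q * h) h (A * (q * h)) p X F → SucX c0 E0 t M B (q * h) h (A * (q * h)) p X F' := by
  have h64 : 64 * h ≤ q * h := Nat.mul_le_mul_right h P.hq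
  have h8a : 8 * (q * h) ≤ A * (q * h) := Nat.mul_le_mul_right _ P.hA
  have hL := fun v hv => h9 M B (q * h) h (A * (q * h)) m p X v P.hB P.hh h64 h8a P.hm P.hp hv
  rintro ⟨h1, V, hV, hc, hE, hG⟩
  have hv0 : ((3 * ((A * (q * h) : ℕ) : ℤ), 4 * ((q * h : ℕ) : ℤ)) : Vtx) ∈ Qc (A * (q * h)) (q * h) h := by
    unfold Qc
    rw [Finset.mem_product, Finset.mem_Icc, Finset.mem_Icc]
    constructor <;> constructor <;> simp
  refine ⟨((hL _ hv0).2.2.2.1 F F' hF).1 h1, V, hV, hc, hE, ?_⟩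
  intro v hv
  obtain ⟨h2, x, hx, h3⟩ := hG v hv
  refine ⟨((hL v (hV hv)).2.2.1 ↑F ↑F' (fun e he => ?_)).1 h2, x, hx, ?_⟩
  · simpa using hF e he
  · exact (reach_congr (fun e he => by simpa using hF e he)).1 h3

theorem suc_congr (h9 : S_LOC) {c0 E0 t : ℝ} {M B q A h m : ℕ} {p : ℤ} (P : Par B q A h m p)
    {F F' : Finset Edg} (hF : ∀ e ∈ boxE m, (e ∈ F ↔ e ∈ F')) :
    Suc c0 E0 t M B (q * h) h (A * (q * h)) m p F → Suc c0 E0 t M B (q * h) h (A * (q * h)) m p F' := by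
  have h64 : 64 * h ≤ q * h := Nat.mul_le_mul_right h P.hq
  have h8a : 8 * (q * h) ≤ A * (q * h) := Nat.mul_le_mul_right _ P.hA
  have hL := fun v hv => h9 M B (q * h) h (A * (q * h)) m p ∅ v P.hB P.hh h64 h8a P.hm P.hp hv
  have hF2 : ∀ e ∈ AE (0, 0) (A * (q * h)) (8 * (A * (q * h))), (e ∈ F ↔ e ∈ F') :=
    fun e he => hF e (AE_sub P.hm he)
  rintro ⟨h1, V, hV, hc, hE, hG⟩
  have hv0 : ((3 * ((A * (q * h) : ℕ) : ℤ), 4 * ((q * h : ℕ) : ℤ)) : Vtx) ∈ Qc (A * (q * h)) (q * h) h := by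
    unfold Qc
    rw [Finset.mem_product, Finset.mem_Icc, Finset.mem_Icc]
    constructor <;> constructor <;> simp
  refine ⟨((hL _ hv0).2.2.2.1 F F' hF2).1 h1, V, hV, hc, hE, ?_⟩
  intro v hv
  obtain ⟨h2, h3⟩ := hG v hv
  refine ⟨((hL v (hV hv)).2.2.1 ↑F ↑F' (fun e he => ?_)).1 h2, ?_⟩
  · simpa using hF2 e he
  · exact (reach_congr (fun e he => by simpa using hF e (Finset.mem_coe.1 he))).1 h3

theorem se_congr {m : ℕ} {F F' : Set Edg} (hF : ∀ e ∈ boxE m, (e ∈ F ↔ e ∈ F')) :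
    SE m F → SE m F' := by
  have h1 : ∀ u v : Vtx, Reach (F ∩ ↑(boxE m)) u v ↔ Reach (F' ∩ ↑(boxE m)) u v :=
    fun u v => reach_congr (fun e he => hF e (Finset.mem_coe.1 he))
  rintro ⟨⟨u, hu, h2⟩, h3⟩
  exact ⟨⟨u, hu, (h1 _ _).1 h2⟩, fun r hr h4 => h3 r hr ((h1 _ _).2 h4)⟩

/-- success with respect to `X` implies success -/
theorem suc_of_sucX {c0 E0 t : ℝ} {M B q A h m : ℕ} {p : ℤ} (P : Par B q A h m p)
    {F : Finset Edg}
    (hS : SucX c0 E0 t M B (q * h) h (A * (q * h)) p (XX m (↑F : Set Edg)) F) :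
    Suc c0 E0 t M B (q * h) h (A * (q * h)) m p F := by
  obtain ⟨h1, V, hV, hc, hE, hG⟩ := hS
  refine ⟨h1, V, hV, hc, hE, ?_⟩
  intro v hv
  obtain ⟨h2, x, hx, h3⟩ := hG v hv
  refine ⟨h2, ?_⟩
  have hx' : Reach ((↑F : Set Edg) ∩ Kn m (↑F : Set Edg)) (0, 0) x := hx
  have h4 : Reach ((↑F : Set Edg) ∩ ↑(boxE m)) (0, 0) x := by
    refine Reach.mono ?_ hx'
    intro e he
    exact ⟨he.1, Finset.mem_coe.2 he.2.1.1⟩
  have h5 : Reach ((↑F : Set Edg) ∩ ↑(boxE m)) v x := by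
    refine Reach.mono ?_ h3
    intro e he
    exact ⟨he.1, Finset.mem_coe.2 (AE_sub P.hm he.2)⟩
  exact h4.trans h5.symm


/-! ### Probabilities -/

theorem PQ_split (S : Finset Edg) (X Y : Finset Edg → Prop) :
    PQ (1 / 2) S X = PQ (1 / 2) S (fun F => X F ∧ Y F) + PQ (1 / 2) S (fun F => X F ∧ ¬ Y F) := by
  unfold PQ Pr
  rw [← Ex_add]
  apply Ex_congr
  intro F _
  rw [ind_and, ind_and, ind_not]
  ring

theorem PQ_false (S : Finset Edg) {X : Finset Edg → Prop} (h : ∀ F, F ⊆ S → ¬ X F) :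
    PQ (1 / 2) S X = 0 := by
  have h1 := Pr_not (p := fun _ : Edg => (1 / 2 : ℝ)) S X
  have h2 : Pr (fun _ : Edg => (1 / 2 : ℝ)) S (fun F => ¬ X F) = 1 := Pr_true S h
  show Pr (fun _ : Edg => (1 / 2 : ℝ)) S X = 0
  linarith

/-- iteration over the scales -/
theorem iter (T : Finset Edg) (SE' : Finset Edg → Prop) (Sj : ℕ → Finset Edg → Prop)
    (N : Finset ℕ) (δ : ℝ) (hδ1 : δ ≤ 1) (J : ℕ)
    (hstep : ∀ n ∈ N, n < J → δ * PQ (1 / 2) T (fun η => SE' η ∧ ∀ i ∈ N, i < n → ¬ Sj i η) ≤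
      PQ (1 / 2) T (fun η => (SE' η ∧ ∀ i ∈ N, i < n → ¬ Sj i η) ∧ Sj n η)) :
    ∀ n ≤ J, PQ (1 / 2) T (fun η => SE' η ∧ ∀ i ∈ N, i < n → ¬ Sj i η) ≤
      (1 - δ) ^ (N.filter (fun i => i < n)).card * PQ (1 / 2) T SE' := by
  intro n
  induction n with
  | zero =>
    intro _
    have h1 : N.filter (fun i => i < 0) = ∅ := by
      ext i; simp
    rw [h1, Finset.card_empty, pow_zero, one_mul]
    exact Pr_mono okh (fun F _ h => h.1)
  | succ n ih =>
    intro hn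
    have ih' := ih (by omega)
    have hle : ∀ η, (SE' η ∧ ∀ i ∈ N, i < n + 1 → ¬ Sj i η) →
        (SE' η ∧ ∀ i ∈ N, i < n → ¬ Sj i η) := fun η h => ⟨h.1, fun i hi hin => h.2 i hi (by omega)⟩
    by_cases hnN : n ∈ N
    · have h2 := hstep n hnN (by omega)
      have h3 := PQ_split T (fun η => SE' η ∧ ∀ i ∈ N, i < n → ¬ Sj i η) (Sj n)
      have h4 : PQ (1 / 2) T (fun η => SE' η ∧ ∀ i ∈ N, i < n + 1 → ¬ Sj i η) ≤
          PQ (1 / 2) T (fun η => (SE' η ∧ ∀ i ∈ N, i < n → ¬ Sj i η) ∧ ¬ Sj n η) :=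
        Pr_mono okh (fun F _ h => ⟨hle F h, h.2 n hnN (by omega)⟩)
      have h5 : (N.filter (fun i => i < n + 1)).card = (N.filter (fun i => i < n)).card + 1 := by
        have : N.filter (fun i => i < n + 1) = insert n (N.filter (fun i => i < n)) := by
          ext i
          simp only [Finset.mem_filter, Finset.mem_insert]
          constructor
          · rintro ⟨a, b⟩
            by_cases hi : i = n
            · exact Or.inl hi
            · exact Or.inr ⟨a, by omega⟩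
          · rintro (a | a)
            · subst a; exact ⟨hnN, by omega⟩
            · exact ⟨a.1, by omega⟩
        rw [this, Finset.card_insert_of_notMem (by simp)]
      rw [h5, pow_succ]
      have h6 : PQ (1 / 2) T (fun η => (SE' η ∧ ∀ i ∈ N, i < n → ¬ Sj i η) ∧ ¬ Sj n η) ≤
          (1 - δ) * PQ (1 / 2) T (fun η => SE' η ∧ ∀ i ∈ N, i < n → ¬ Sj i η) := by
        linarith
      have h7 := mul_le_mul_of_nonneg_left ih' (by linarith : 0 ≤ 1 - δ)
      calc _ ≤ _ := h4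
        _ ≤ _ := h6
        _ ≤ _ := h7
        _ = _ := by ring
    · have h5 : N.filter (fun i => i < n + 1) = N.filter (fun i => i < n) := by
        apply Finset.filter_congr
        intro i hi
        constructor
        · intro h
          have : i ≠ n := fun h' => hnN (h' ▸ hi)
          omega
        · intro h; omega
      rw [h5]
      exact (Pr_mono okh (fun F _ h => hle F h)).trans ih'


/-- one scale, for a given set of explored edges -/
def SCj (δ c0 E0 t : ℝ) (M B q A h m : ℕ) (p : ℤ) : Prop :=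
  ∀ F0 : Finset Edg, F0 ⊆ boxE m → SE m (↑F0 : Set Edg) →
    NiceZ (A * (q * h)) (8 * (q * h)) (XX m (↑F0 : Set Edg)) →
    ∀ U : Finset Edg → Prop,
      (∀ η η' : Finset Edg, (∀ e, e ∉ AE (0, 0) (A * (q * h)) (8 * (A * (q * h))) →
        (e ∈ η ↔ e ∈ η')) → (U η ↔ U η')) →
      δ * PQ (1 / 2) (boxE m \ KnF m F0)
          (fun η => SE m (↑(F0 ∩ KnF m F0 ∪ η) : Set Edg) ∧ U η) ≤
        PQ (1 / 2) (boxE m \ KnF m F0)
          (fun η => (SE m (↑(F0 ∩ KnF m F0 ∪ η) : Set Edg) ∧ U η) ∧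
            SucX c0 E0 t M B (q * h) h (A * (q * h)) p (XX m (↑F0 : Set Edg))
              (F0 ∩ KnF m F0 ∪ η))

open Classical in
/-- the nice scales -/
noncomputable def nice (A q h J : ℕ) (X : Set Vtx) : Finset ℕ :=
  (Finset.range J).filter (fun j => NiceZ (A * (q * (64 ^ j * h))) (8 * (q * (64 ^ j * h))) X)

theorem mem_nice {A q h J : ℕ} {X : Set Vtx} {j : ℕ} : j ∈ nice A q h J X ↔
    j < J ∧ NiceZ (A * (q * (64 ^ j * h))) (8 * (q * (64 ^ j * h))) X := by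
  classical
  unfold nice
  rw [Finset.mem_filter, Finset.mem_range]

theorem scale_le {A q h i n : ℕ} (hin : i < n) :
    8 * (A * (q * (64 ^ i * h))) ≤ A * (q * (64 ^ n * h)) := by
  have h1 : 64 ^ (i + 1) ≤ 64 ^ n := Nat.pow_le_pow_right (by norm_num) hin
  have h2 : 8 * 64 ^ i ≤ 64 ^ n := by
    rw [pow_succ] at h1
    have h3 : 0 < 64 ^ i := by positivity
    omega
  calc 8 * (A * (q * (64 ^ i * h))) = (8 * 64 ^ i) * (A * (q * h)) := by ring
    _ ≤ 64 ^ n * (A * (q * h)) := Nat.mul_le_mul_right _ h2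
    _ = A * (q * (64 ^ n * h)) := by ring

theorem cond (h8 : S_KN) (h9 : S_LOC) {c0 E0 t δ : ℝ} (hδ0 : 0 < δ) (hδ1 : δ ≤ 1)
    {M B q A h m J : ℕ} {p : ℕ → ℤ}
    (P : ∀ j < J, Par B q A (64 ^ j * h) m (p j))
    (hSC : ∀ j < J, SCj δ c0 E0 t M B q A (64 ^ j * h) m (p j))
    {F : Finset Edg} (hF : F ⊆ boxE m)
    (hN : J / 2 ≤ (nice A q h J (XX m (↑F : Set Edg))).card) :
    PQ (1 / 2) (boxE m \ KnF m F) (fun η => SE m (↑(F ∩ KnF m F ∪ η) : Set Edg) ∧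
      ∀ j < J, ¬ Suc c0 E0 t M B (q * (64 ^ j * h)) (64 ^ j * h) (A * (q * (64 ^ j * h))) m (p j)
        (F ∩ KnF m F ∪ η)) ≤
      (1 - δ) ^ (J / 2) * PQ (1 / 2) (boxE m \ KnF m F)
        (fun η => SE m (↑(F ∩ KnF m F ∪ η) : Set Edg)) := by
  set K := KnF m F with hK
  set X := XX m (↑F : Set Edg) with hX
  set N := nice A q h J X with hNdef
  have hr0 : 0 ≤ (1 - δ) ^ (J / 2) := pow_nonneg (by linarith) _
  by_cases hex : ∃ η0, η0 ⊆ boxE m \ K ∧ SE m (↑(F ∩ K ∪ η0) : Set Edg)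
  · obtain ⟨η0, hη0, hSE0⟩ := hex
    obtain ⟨g1, g2, g3⟩ := glue h8 hη0
    rw [← hK] at g1 g3
    rw [← hK, ← hX] at g2
    have hF0 : F ∩ K ∪ η0 ⊆ boxE m :=
      Finset.union_subset (Finset.inter_subset_left.trans hF) (hη0.trans Finset.sdiff_subset)
    have hstep : ∀ n ∈ N, n < J → δ * PQ (1 / 2) (boxE m \ K)
        (fun η => SE m (↑(F ∩ K ∪ η) : Set Edg) ∧ ∀ i ∈ N, i < n →
          ¬ SucX c0 E0 t M B (q * (64 ^ i * h)) (64 ^ i * h) (A * (q * (64 ^ i * h))) (p i) X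
            (F ∩ K ∪ η)) ≤
        PQ (1 / 2) (boxE m \ K)
        (fun η => (SE m (↑(F ∩ K ∪ η) : Set Edg) ∧ ∀ i ∈ N, i < n →
          ¬ SucX c0 E0 t M B (q * (64 ^ i * h)) (64 ^ i * h) (A * (q * (64 ^ i * h))) (p i) X
            (F ∩ K ∪ η)) ∧
          SucX c0 E0 t M B (q * (64 ^ n * h)) (64 ^ n * h) (A * (q * (64 ^ n * h))) (p n) X
            (F ∩ K ∪ η)) := by
      intro n hn hnJ
      have h1 := hSC n hnJ (F ∩ K ∪ η0) hF0 hSE0
      rw [g1, g2, g3] at h1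
      refine h1 (mem_nice.1 hn).2 _ ?_
      have key : ∀ η η' : Finset Edg,
          (∀ e, e ∉ AE (0, 0) (A * (q * (64 ^ n * h))) (8 * (A * (q * (64 ^ n * h)))) →
            (e ∈ η ↔ e ∈ η')) →
          (∀ i ∈ N, i < n → ¬ SucX c0 E0 t M B (q * (64 ^ i * h)) (64 ^ i * h)
            (A * (q * (64 ^ i * h))) (p i) X (F ∩ K ∪ η)) →
          (∀ i ∈ N, i < n → ¬ SucX c0 E0 t M B (q * (64 ^ i * h)) (64 ^ i * h)
            (A * (q * (64 ^ i * h))) (p i) X (F ∩ K ∪ η')) := by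
        intro η η' he hU i hi hin hs
        apply hU i hi hin
        refine sucX_congr h9 (P i (mem_nice.1 hi).1) X (fun e hee => ?_) hs
        have h2 := he e (AE_disj (scale_le hin) hee)
        simp only [Finset.mem_union, h2]
      intro η η' he
      exact ⟨key η η' he, key η' η (fun e hee => (he e hee).symm)⟩
    have hit := iter (boxE m \ K) (fun η => SE m (↑(F ∩ K ∪ η) : Set Edg))
      (fun i η => SucX c0 E0 t M B (q * (64 ^ i * h)) (64 ^ i * h) (A * (q * (64 ^ i * h))) (p i) X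
            (F ∩ K ∪ η)) N δ hδ1 J hstep J (le_refl J)
    have hcard : (N.filter (fun i => i < J)).card = N.card := by
      congr 1
      apply Finset.filter_true_of_mem
      intro i hi
      exact (mem_nice.1 hi).1
    rw [hcard] at hit
    have hpow : (1 - δ) ^ N.card ≤ (1 - δ) ^ (J / 2) :=
      pow_le_pow_of_le_one (by linarith) (by linarith) hN
    have hnn : 0 ≤ PQ (1 / 2) (boxE m \ K) (fun η => SE m (↑(F ∩ K ∪ η) : Set Edg)) :=
      Pr_nonneg okh _ _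
    refine le_trans ?_ (hit.trans (mul_le_mul_of_nonneg_right hpow hnn))
    apply Pr_mono okh
    rintro η hη ⟨hS, hno⟩
    refine ⟨hS, ?_⟩
    intro i hi _ hs
    obtain ⟨e1, e2, e3⟩ := glue h8 hη
    rw [← hK, ← hX] at e2
    apply hno i (mem_nice.1 hi).1
    apply suc_of_sucX (P i (mem_nice.1 hi).1)
    rw [e2]
    exact hs
  · rw [PQ_false (boxE m \ K)]
    · exact mul_nonneg hr0 (Pr_nonneg okh _ _)
    · intro η hη h'
      exact hex ⟨η, hη, h'.1⟩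

theorem main2 (h5 : S_STOP) (h8 : S_KN) (h9 : S_LOC) {c0 E0 t δ : ℝ} (hδ0 : 0 < δ) (hδ1 : δ ≤ 1)
    {M B q A h m J : ℕ} {p : ℕ → ℤ}
    (P : ∀ j < J, Par B q A (64 ^ j * h) m (p j))
    (hSC : ∀ j < J, SCj δ c0 E0 t M B q A (64 ^ j * h) m (p j)) :
    PQ (1 / 2) (boxE m) (fun F => (SE m (↑F : Set Edg) ∧
      ∀ j < J, ¬ Suc c0 E0 t M B (q * (64 ^ j * h)) (64 ^ j * h) (A * (q * (64 ^ j * h))) m (p j)
        F) ∧ J / 2 ≤ (nice A q h J (XX m (↑F : Set Edg))).card) ≤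
      (1 - δ) ^ (J / 2) * PQ (1 / 2) (boxE m) (fun F => SE m (↑F : Set Edg)) := by
  have hr0 : 0 ≤ (1 - δ) ^ (J / 2) := pow_nonneg (by linarith) _
  apply h5 (boxE m) (KnF m) _ _ _ hr0 (fun F _ => KnF_sub m F)
  · intro F F' _ _ h
    have hW := h8 m (↑F : Set Edg) (↑F' : Set Edg) (fun e he => by
      simpa using h e (mem_KnF.2 he))
    ext e
    rw [mem_KnF, mem_KnF, Kn_congr hW]
  · intro F hF
    by_cases hN : J / 2 ≤ (nice A q h J (XX m (↑F : Set Edg))).card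
    · exact (Pr_mono okh (fun η _ h' => h'.1)).trans (cond h8 h9 hδ0 hδ1 P hSC hF hN)
    · rw [PQ_false (boxE m \ KnF m F)]
      · exact mul_nonneg hr0 (Pr_nonneg okh _ _)
      · intro η hη h'
        apply hN
        rw [← (glue h8 hη).2.1]
        exact h'.2


open Classical in
theorem card_nice (A q h J : ℕ) (X : Set Vtx) :
    ((Finset.range J).filter (fun j => ¬ NiceZ (64 ^ j * (A * (q * h))) (8 * (64 ^ j * (q * h)))
      X)).card + (nice A q h J X).card = J := by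
  have e1 : ∀ j : ℕ, A * (q * (64 ^ j * h)) = 64 ^ j * (A * (q * h)) := fun j => by ring
  have e2 : ∀ j : ℕ, 8 * (q * (64 ^ j * h)) = 8 * (64 ^ j * (q * h)) := fun j => by ring
  unfold nice
  simp only [e1, e2]
  rw [add_comm, Finset.card_filter_add_card_filter_not, Finset.card_range]

theorem t_SEJ (h1 : S_PIG) (h2 : S_RN) (h3 : S_TPJ) (h4 : S_SC) (h5 : S_STOP) (h6 : S_FEW)
    (h7 : S_AA) (h8 : S_KN) (h9 : S_LOC) : S_SEJ := by
  classical
  intro t ε ht0 ht1 hε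
  obtain ⟨M, B, q, h0, c1, hM, hB, hq, hh0, hc1, H1⟩ := h1
  have hq64 : 64 ≤ q := by
    have a1 : 8 ^ 1 ≤ 8 ^ B := Nat.pow_le_pow_right (by norm_num) hB
    have a2 : 16 * 16 * 8 ≤ 16 * M * 8 ^ B :=
      Nat.mul_le_mul (Nat.mul_le_mul_left 16 hM) (by simpa using a1)
    omega
  obtain ⟨c2, hc2, H2⟩ := h2 q hq64
  obtain ⟨c3, hc3, H3⟩ := h3 q hq64
  obtain ⟨C, A0, hC, H6⟩ := h6
  obtain ⟨A, hA0, hA128⟩ : ∃ A : ℕ, A0 ≤ A ∧ 128 ≤ A :=
    ⟨max A0 128, le_max_left _ _, le_max_right _ _⟩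
  obtain ⟨δ, c0, E0, hδ0, hδ1, hc0, hE0, H4⟩ := h4 t (c3 * (c2 * c1)) q A ht0 ht1 (by positivity)
    hq64 (by omega)
  obtain ⟨C', hC', H7⟩ := h7
  obtain ⟨n1, hn1⟩ := exists_pow_lt_of_lt_one (show 0 < ε / (2 * C) by positivity)
    (show (1 / 2 : ℝ) < 1 by norm_num)
  obtain ⟨n2, hn2⟩ := exists_pow_lt_of_lt_one (show 0 < ε / (2 * C') by positivity)
    (show 1 - δ < 1 by linarith)
  set J : ℕ := n1 + 2 * n2 with hJ
  refine ⟨M, B, q, A, J, h0, c0, E0, ⟨hM, hB, hq64, hA128, hh0⟩, hc0, hE0, ?_⟩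
  intro h hh
  have hhj : ∀ j : ℕ, h ≤ 64 ^ j * h := fun j => Nat.le_mul_of_pos_left h (by positivity)
  choose p hp using fun j : ℕ => H1 (64 ^ j * h) (hh.trans (hhj j))
  refine ⟨p, fun j => (hp j).1, ?_⟩
  intro S hS
  set m : ℕ := 64 ^ J * (A * (q * h)) with hm
  have hmm : A * (q * (64 ^ J * h)) = m := by rw [hm]; ring
  have h1h : 1 ≤ h := hh0.trans hh
  have hm1 : 1 ≤ m := by
    rw [hm]
    have : 0 < 64 ^ J * (A * (q * h)) := by positivity
    omega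
  have P : ∀ j < J, Par B q A (64 ^ j * h) m (p j) := fun j hj =>
    ⟨hB, hq64, by omega, h1h.trans (hhj j), by rw [← hmm]; exact scale_le hj, (hp j).1⟩
  have hSC : ∀ j < J, SCj δ c0 E0 t M B q A (64 ^ j * h) m (p j) := by
    intro j hj F0 hF0 hSE hN U hU
    refine H4 M B (64 ^ j * h) m (p j) (by omega) hB (P j hj).hh (hp j).1 ?_ (P j hj).hm F0 hF0
      hSE hN U hU
    have a := (hp j).2 (boxE (q * (64 ^ j * h) + 14 * (64 ^ j * h))) (Finset.Subset.refl _)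
    have b := H2 M B (64 ^ j * h) (p j) hB (P j hj).hh (hp j).1
      (boxE (q * (64 ^ j * h) + 14 * (64 ^ j * h))) (Finset.Subset.refl _)
    have c := H3 M B (64 ^ j * h) (p j) hB (P j hj).hh (hp j).1
      (boxE (q * (64 ^ j * h) + 14 * (64 ^ j * h))) (Finset.Subset.refl _)
    have a' := mul_le_mul_of_nonneg_left (mul_le_mul_of_nonneg_left a hc2.le) hc3.le
    have b' := mul_le_mul_of_nonneg_left b hc3.le
    calc c3 * (c2 * c1) * ((64 ^ j * h : ℕ) : ℝ) ^ (-(2 / 3 : ℝ)) =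
        c3 * (c2 * (c1 * ((64 ^ j * h : ℕ) : ℝ) ^ (-(2 / 3 : ℝ)))) := by ring
      _ ≤ _ := a'
      _ ≤ _ := b'
      _ ≤ _ := c
  -- localisation
  have hloc : PQ (1 / 2) S (fun F => SE m (↑F : Set Edg) ∧
        ∀ j < J, ¬ Suc c0 E0 t M B (q * (64 ^ j * h)) (64 ^ j * h) (A * (q * (64 ^ j * h)))
          m (p j) F) =
      PQ (1 / 2) (boxE m) (fun F => SE m (↑F : Set Edg) ∧
        ∀ j < J, ¬ Suc c0 E0 t M B (q * (64 ^ j * h)) (64 ^ j * h) (A * (q * (64 ^ j * h)))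
          m (p j) F) := by
    apply Pr_local hS
    intro F _
    have hF : ∀ e ∈ boxE m, (e ∈ F ↔ e ∈ F ∩ boxE m) := by
      intro e he
      simp only [Finset.mem_inter, he, and_true]
    have hF' : ∀ e ∈ boxE m, (e ∈ F ∩ boxE m ↔ e ∈ F) := fun e he => (hF e he).symm
    have hFs : ∀ e ∈ boxE m, (e ∈ (↑F : Set Edg) ↔ e ∈ (↑(F ∩ boxE m) : Set Edg)) := by
      intro e he
      rw [Finset.mem_coe, Finset.mem_coe]
      exact hF e he
    constructor
    · rintro ⟨h1, h2⟩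
      exact ⟨se_congr hFs h1, fun j hj hs => h2 j hj (suc_congr h9 (P j hj) hF' hs)⟩
    · rintro ⟨h1, h2⟩
      exact ⟨se_congr (fun e he => (hFs e he).symm) h1,
        fun j hj hs => h2 j hj (suc_congr h9 (P j hj) hF hs)⟩
  rw [hloc]
  have H6' := H6 A (q * h) J hA0 (by
    have : 0 < q * h := by positivity
    omega) (boxE m) (Finset.Subset.refl _)
  have H7' := H7 m hm1 (boxE m) (Finset.Subset.refl _)
  have HM := main2 h5 h8 h9 hδ0 hδ1 P hSC
  have hmR : (0 : ℝ) < (m : ℝ) := by exact_mod_cast hm1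
  have hpow : (1 - δ) ^ (J / 2) ≤ (1 - δ) ^ n2 :=
    pow_le_pow_of_le_one (by linarith) (by linarith) (by omega)
  have hpow1 : (1 / 2 : ℝ) ^ J ≤ (1 / 2) ^ n1 :=
    pow_le_pow_of_le_one (by norm_num) (by norm_num) (by omega)
  have hr0 : 0 ≤ (1 - δ) ^ (J / 2) := pow_nonneg (by linarith) _
  -- the two terms
  have T1 : C / (m : ℝ) * (1 / 2) ^ J ≤ ε / 2 / m := by
    have e1 : C * (1 / 2) ^ J ≤ ε / 2 := by
      have := mul_le_mul_of_nonneg_left (hpow1.trans hn1.le) hC.le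
      calc C * (1 / 2) ^ J ≤ C * (ε / (2 * C)) := this
        _ = ε / 2 := by field_simp
    calc C / (m : ℝ) * (1 / 2) ^ J = (C * (1 / 2) ^ J) / m := by ring
      _ ≤ ε / 2 / m := div_le_div_of_nonneg_right e1 hmR.le
  have T2 : (1 - δ) ^ (J / 2) * PQ (1 / 2) (boxE m) (fun F => SE m (↑F : Set Edg)) ≤
      ε / 2 / m := by
    have e1 : (1 - δ) ^ (J / 2) * C' ≤ ε / 2 := by
      have := mul_le_mul_of_nonneg_right (hpow.trans hn2.le) hC'.le
      calc (1 - δ) ^ (J / 2) * C' ≤ (ε / (2 * C')) * C' := this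
        _ = ε / 2 := by field_simp
    calc _ ≤ (1 - δ) ^ (J / 2) * (C' / m) := mul_le_mul_of_nonneg_left H7' hr0
      _ = ((1 - δ) ^ (J / 2) * C') / m := by ring
      _ ≤ ε / 2 / m := div_le_div_of_nonneg_right e1 hmR.le
  have hfin : PQ (1 / 2) (boxE m) (fun F => SE m (↑F : Set Edg) ∧
        ∀ j < J, ¬ Suc c0 E0 t M B (q * (64 ^ j * h)) (64 ^ j * h) (A * (q * (64 ^ j * h)))
          m (p j) F) ≤ C / (m : ℝ) * (1 / 2) ^ J +
      (1 - δ) ^ (J / 2) * PQ (1 / 2) (boxE m) (fun F => SE m (↑F : Set Edg)) := by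
    refine le_trans ?_ (add_le_add H6' HM)
    refine le_trans ?_ (Pr_or_le okh _ _ _)
    apply Pr_mono okh
    intro F _ hF
    by_cases hJN : J / 2 ≤ (nice A q h J (XX m (↑F : Set Edg))).card
    · exact Or.inr ⟨hF, hJN⟩
    · refine Or.inl ⟨hF.1, ?_⟩
      have hc := card_nice A q h J (XX m (↑F : Set Edg))
      rw [← hm]
      omega
  calc _ ≤ _ := hfin
    _ ≤ ε / 2 / m + ε / 2 / m := add_le_add T1 T2
    _ = ε / m := by ring

end Pool.Agent.Y997.OBL.SEJ
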