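import Pool.Agent.Y997.OBL.Stm
import Pool.Agent.Y989.FR.T_TWO3

/-!
# T3: behind the barriers the free edges of the middle region do not matter (written by helper275)
-/

set_option autoImplicit false

namespace Pool.Agent.Y997.OBL.T3

open H974 H12S Finset H984P H984N Pool.Agent.Y989.FR Pool.Agent.Y997.OBL
open Pool.Agent.Y989.FR.TWO3 (BX re_ends re_of_ends adj_near mem_bdB_iff bdB_of_step lastX firstX
  bdB_BX)

/-- crossing of an annulus, ending on the outer boundary or outside of it -/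
theorem annY {G : Set Edg} {c : ℤ × ℤ} {d k : ℕ} (hdk : d < k) {x w : Vtx} (hx : BX c d x)
    (hw : ¬ BX c k w ∨ w ∈ bdB c k) (h : Reach G x w) :
    ∃ u ∈ bdB c d, ∃ y ∈ bdB c k, Reach (G ∩ AE c d k) u y := by
  have hnd : ¬ BX c d w := by
    intro hb
    rcases hw with hw | hw
    · apply hw
      unfold BX inR at hb ⊢
      omega
    · have h2 := (mem_bdB_iff.1 hw).2
      unfold BX inR at hb
      omega
  rcases lastX hx h with h1 | ⟨u, hu, h1, h2⟩
  · exact absurd h1 hnd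
  · have hsub : (G \ ↑(blk c d)) ∩ ↑(blk c k) ⊆ G ∩ AE c d k := by
      rintro e ⟨⟨h4, h5⟩, h6⟩
      refine ⟨h4, ?_⟩
      show e ∈ (↑(blk c k \ blk c d) : Set Edg)
      rw [Finset.coe_sdiff]
      exact ⟨h6, h5⟩
    rcases firstX (bdB_BX hdk.le hu) h2 with h3 | ⟨y, hy, h3⟩
    · rcases hw with hw | hw
      · exact absurd h3.1 hw
      · exact ⟨u, hu, w, hw, h3.2.mono hsub⟩
    · exact ⟨u, hu, y, hy, h3.mono hsub⟩

section

variable {m a k : ℕ} {F : Set Edg}

/-- the free edges of `F` with both ends in the region above -/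
def GG (m : ℕ) (F : Set Edg) : Set Edg :=
  {e | (e ∈ F \ Kn m F ∧ e ∈ boxE m) ∧ src e ∈ UpV m (XX m F) ∧ tgt e ∈ UpV m (XX m F)}

theorem GG_sub : GG m F ⊆ F \ Kn m F := fun _ h => h.1.1

theorem mem_box {e : Edg} : e ∈ boxE m ↔ inR (-m) m (-m) m (src e) ∧ inR (-m) m (-m) m (tgt e) :=
  ⟨fun h => re_ends h, fun h => re_of_ends h.1 h.2⟩

/-- the ends of an edge of the middle annulus -/
theorem ends_AE (ham : 8 * a ≤ m) {e : Edg} (he : e ∈ AE (0, 0) (2 * a) (4 * a)) : e ∈ boxE m ∧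
    ∀ z, (z = src e ∨ z = tgt e) → BX (0, 0) (4 * a) z ∧
      (¬ BX (0, 0) (2 * a) z ∨ z ∈ bdB (0, 0) (2 * a)) := by
  have he' : e ∈ (↑(blk (0, 0) (4 * a) \ blk (0, 0) (2 * a)) : Set Edg) := he
  rw [Finset.coe_sdiff] at he'
  obtain ⟨h1, h2⟩ := he'
  have h1' := re_ends (Finset.mem_coe.1 h1)
  have h2' : ¬ (BX (0, 0) (2 * a) (src e) ∧ BX (0, 0) (2 * a) (tgt e)) := fun h =>
    h2 (Finset.mem_coe.2 (re_of_ends h.1 h.2))
  have hadj : Adj Set.univ (src e) (tgt e) := ⟨e, trivial, Or.inl ⟨rfl, rfl⟩⟩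
  have hadj' : Adj Set.univ (tgt e) (src e) := ⟨e, trivial, Or.inr ⟨rfl, rfl⟩⟩
  refine ⟨?_, ?_⟩
  · rw [mem_box]
    unfold inR at h1' ⊢
    simp only at h1'
    omega
  · rintro z (rfl | rfl)
    · refine ⟨h1'.1, ?_⟩
      by_cases h3 : BX (0, 0) (2 * a) (src e)
      · exact Or.inr (bdB_of_step hadj h3 fun h => h2' ⟨h3, h⟩)
      · exact Or.inl h3
    · refine ⟨h1'.2, ?_⟩
      by_cases h3 : BX (0, 0) (2 * a) (tgt e)
      · exact Or.inr (bdB_of_step hadj' h3 fun h => h2' ⟨h, h3⟩)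
      · exact Or.inl h3

/-- The neighbour above of a vertex of the half-line. -/
theorem above (hUP : ∀ j : ℤ, 1 ≤ j → j < m → (j, -1) ∉ UpV m (XX m F)) {G : Set Edg} {v w : Vtx}
    (hadj : Adj G v w) (hv : v ∈ UpV m (XX m F)) (hw : w ∈ ray m) (h1 : 2 ≤ w.1)
    (h2 : w.1 < m) : v = (w.1, 1) := by
  have hn := adj_near hadj
  obtain ⟨v1, v2⟩ := v
  obtain ⟨w1, w2⟩ := w
  have hw' : w2 = 0 ∧ 1 ≤ w1 ∧ w1 ≤ m := hw
  have hvr : ¬ (v2 = 0 ∧ 1 ≤ v1 ∧ v1 ≤ m) := hv.2.1
  simp only at hn h1 h2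
  by_cases h3 : v2 = -1
  · exfalso
    have h4 : v1 = w1 := by omega
    apply hUP w1 (by omega) h2
    rw [← h4, ← h3]
    exact hv
  · simp only [Prod.mk.injEq]
    omega

/-- A free path of `F` from the middle annulus cannot reach the half-line. -/
theorem no_exit (hk : 1 ≤ k) (hka : 2 * k ≤ a) (ham : 8 * a ≤ m)
    (hDD : DD a k (F \ Kn m F))
    (hUP : ∀ j : ℤ, 1 ≤ j → j < m → (j, -1) ∉ UpV m (XX m F)) {v w z : Vtx} {e0 : Edg}
    (he0 : e0 ∈ MM m a k (XX m F)) (hz : z = src e0 ∨ z = tgt e0) (hv : v ∈ UpV m (XX m F))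
    (hvz : Reach (GG m F) v z) (hadj : Adj (F \ Kn m F) v w) (hw : w ∈ ray m) : False := by
  obtain ⟨hD1, hD2, hD3⟩ := hDD
  have hE := (ends_AE ham he0.1).2 z hz
  -- the path stays between the radii `a` and `8 a`
  have far : ∀ y, Reach (F \ Kn m F) y z → ¬ BX (0, 0) a y := by
    intro y hy hb
    obtain ⟨u, hu, y', hy', h3⟩ := annY (by omega : a < 2 * a) hb hE.2 hy
    exact hD1 u hu y' hy' h3
  have near : ∀ y, Reach (F \ Kn m F) y z → BX (0, 0) (8 * a) y ∧ y ∉ bdB (0, 0) (8 * a) := by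
    intro y hy
    by_contra hcon
    rw [not_and_or, not_not] at hcon
    obtain ⟨u, hu, y', hy', h3⟩ := annY (by omega : 4 * a < 8 * a) hE.1 hcon hy.symm
    exact hD2 u hu y' hy' h3
  have hvz' := hvz.mono (GG_sub (m := m) (F := F))
  have hwz : Reach (F \ Kn m F) w z := hadj.symm.reach.trans hvz'
  have hw' : w.2 = 0 ∧ 1 ≤ w.1 ∧ w.1 ≤ m := hw
  have hw1 : (a : ℤ) < w.1 := by
    by_contra hcon
    apply far w hwz
    unfold BX inR
    simp only
    omega
  have hw8 : w.1 < 8 * a := by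
    have h1 := near w hwz
    rw [mem_bdB_iff] at h1
    have h2 := h1.1
    have h3 := h1.2
    unfold BX inR at h2 h3
    simp only at h2 h3
    push_cast at h2 h3
    by_contra hcon
    apply h3
    omega
  have hva : v = (w.1, 1) := above hUP hadj hv hw (by omega) (by omega)
  -- the first step
  have hstep : Reach ((F \ Kn m F) ∩ ↑(RE ((a : ℤ) + 1) (8 * a) 0 k)) (w.1, 0) v := by
    have h1 : Adj ((F \ Kn m F) ∩ ↑(RE ((a : ℤ) + 1) (8 * a) 0 k)) v w := by
      obtain ⟨e, he, hc⟩ := hadj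
      refine ⟨e, ⟨he, Finset.mem_coe.2 ?_⟩, hc⟩
      have b1 : inR ((a : ℤ) + 1) (8 * a) 0 k v := by
        rw [hva]
        unfold inR
        simp only
        omega
      have b2 : inR ((a : ℤ) + 1) (8 * a) 0 k w := by
        unfold inR
        omega
      rcases hc with ⟨h3, h4⟩ | ⟨h3, h4⟩
      · exact re_of_ends (by rw [h3]; exact b1) (by rw [h4]; exact b2)
      · exact re_of_ends (by rw [h3]; exact b2) (by rw [h4]; exact b1)
    have h2 : w = (w.1, 0) := Prod.ext rfl hw'.1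
    have h3 := h1.symm.reach
    rw [h2] at h3
    exact h3
  -- the invariant
  have key : ∀ y, Reach (GG m F) v y → ((a : ℤ) + 1 ≤ y.1 ∧ y.1 < 8 * a) ∧
      (1 ≤ y.2 ∧ y.2 < k) ∧ Reach ((F \ Kn m F) ∩ ↑(RE ((a : ℤ) + 1) (8 * a) 0 k)) (w.1, 0) y := by
    intro y hy
    induction hy with
    | refl =>
      have hk2 : (1 : ℤ) < k := by
        by_contra hcon
        have hk1 : (k : ℤ) = 1 := by omega
        apply hD3 w.1 w.1
        rw [hva] at hstep
        rw [hk1]
        rw [hk1] at hstep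
        exact hstep
      rw [hva] at hstep ⊢
      simp only
      exact ⟨by omega, by omega, hstep⟩
    | @tail y y' hvy hs ih =>
      obtain ⟨⟨i1, i2⟩, ⟨i3, i4⟩, i5⟩ := ih
      have hyy : Reach (F \ Kn m F) y' z :=
        (hs.mono GG_sub).symm.reach.trans ((Reach.mono GG_sub hvy).symm.trans hvz')
      have hf := far y' hyy
      have hn := near y' hyy
      rw [mem_bdB_iff] at hn
      have hn1 := hn.1
      have hn2 := hn.2
      have hray : ¬ (y'.2 = 0 ∧ 1 ≤ y'.1 ∧ y'.1 ≤ m) := by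
        obtain ⟨e, he, hc⟩ := hs
        rcases hc with ⟨_, h4⟩ | ⟨h3, _⟩
        · rw [← h4]; exact he.2.2.2.1
        · rw [← h3]; exact he.2.1.2.1
      have hadjn := adj_near hs
      unfold BX inR at hf hn1 hn2
      simp only at hf hn1 hn2
      push_cast at hf hn1 hn2
      have hx : (a : ℤ) + 1 ≤ y'.1 ∧ y'.1 < 8 * a := by omega
      have hy0 : 1 ≤ y'.2 ∧ y'.2 ≤ k := by omega
      have hst : Adj ((F \ Kn m F) ∩ ↑(RE ((a : ℤ) + 1) (8 * a) 0 k)) y y' := by
        obtain ⟨e, he, hc⟩ := hs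
        refine ⟨e, ⟨he.1.1, Finset.mem_coe.2 ?_⟩, hc⟩
        have b1 : inR ((a : ℤ) + 1) (8 * a) 0 k y := by
          unfold inR
          omega
        have b2 : inR ((a : ℤ) + 1) (8 * a) 0 k y' := by
          unfold inR
          omega
        rcases hc with ⟨h3, h4⟩ | ⟨h3, h4⟩
        · exact re_of_ends (by rw [h3]; exact b1) (by rw [h4]; exact b2)
        · exact re_of_ends (by rw [h3]; exact b2) (by rw [h4]; exact b1)
      have hre := i5.trans hst.reach
      refine ⟨hx, ⟨hy0.1, ?_⟩, hre⟩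
      by_contra hcon
      have hyk : y'.2 = k := by omega
      apply hD3 w.1 y'.1
      have : y' = (y'.1, (k : ℤ)) := Prod.ext rfl hyk
      rw [← this]
      exact hre
  obtain ⟨⟨z1, z2⟩, ⟨z3, z4⟩, _⟩ := key z hvz
  -- the edge `e0` is in the rectangle
  apply he0.2.1
  have hadj0 : Adj Set.univ (src e0) (tgt e0) := ⟨e0, trivial, Or.inl ⟨rfl, rfl⟩⟩
  have hn0 := adj_near hadj0
  show e0 ∈ RE (a : ℤ) (8 * a) 0 k
  apply re_of_ends
  · rcases hz with hz | hz
    · rw [← hz]; unfold inR; omega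
    · rw [← hz] at hn0; unfold inR; omega
  · rcases hz with hz | hz
    · rw [← hz] at hn0; unfold inR; omega
    · rw [← hz]; unfold inR; omega

/-- An edge of `MM` does not meet the half-line. -/
theorem MM_ray (hk : 1 ≤ k) (ham : 8 * a ≤ m) (ha : 2 ≤ a)
    (hUP : ∀ j : ℤ, 1 ≤ j → j < m → (j, -1) ∉ UpV m (XX m F)) {v w : Vtx} {e : Edg}
    (he : e ∈ MM m a k (XX m F)) (hc : (src e = v ∧ tgt e = w) ∨ (src e = w ∧ tgt e = v))
    (hv : v ∈ UpV m (XX m F)) (hw : w ∈ ray m) : False := by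
  have hz : w = src e ∨ w = tgt e := by
    rcases hc with ⟨_, h⟩ | ⟨h, _⟩
    · exact Or.inr h.symm
    · exact Or.inl h.symm
  have hE := (ends_AE ham he.1).2 w hz
  have hw' : w.2 = 0 ∧ 1 ≤ w.1 ∧ w.1 ≤ m := hw
  have h1 := hE.1
  have h2 := hE.2
  rw [mem_bdB_iff] at h2
  unfold BX inR at h1 h2
  simp only at h1 h2
  push_cast at h1 h2
  have hva : v = (w.1, 1) := above (G := {e}) hUP ⟨e, rfl, hc⟩ hv hw (by omega) (by omega)
  apply he.2.1
  show e ∈ RE (a : ℤ) (8 * a) 0 k
  have b1 : inR (a : ℤ) (8 * a) 0 k v := by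
    rw [hva]
    unfold inR
    simp only
    omega
  have b2 : inR (a : ℤ) (8 * a) 0 k w := by
    unfold inR
    omega
  rcases hc with ⟨h3, h4⟩ | ⟨h3, h4⟩
  · exact re_of_ends (by rw [h3]; exact b1) (by rw [h4]; exact b2)
  · exact re_of_ends (by rw [h3]; exact b2) (by rw [h4]; exact b1)

end

theorem t_T3' (h2 : S_F1) (h3 : S_UP) : S_T3 := by
  intro m a k F F' hk hka ham hSE hDD hFF
  have hm : 1 ≤ m := by omega
  obtain ⟨-, hUb, hUc, hUd, hUe⟩ := h3 m F hm hSE
  -- edges of `MM`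
  have hMMbox : ∀ e ∈ MM m a k (XX m F), e ∈ boxE m := fun e he => (ends_AE ham he.1).1
  have hMMK : ∀ e ∈ MM m a k (XX m F), e ∉ Kn m F := fun e he => (hUb e (hMMbox e he) he.2.2).1
  refine ⟨?_, ?_⟩
  · obtain ⟨u, hu, hX⟩ := h2 m F hm hSE
    refine ⟨u, hu, ?_⟩
    have hX' : Reach (F ∩ Kn m F) (0, 0) u := hX
    refine hX'.mono ?_
    rintro e ⟨he1, he2⟩
    exact ⟨(hFF e fun h => hMMK e h he2).1 he1, he2.1.1⟩
  · -- the invariant along the path
    have key : ∀ v, Reach (F' ∩ ↑(boxE m)) (0, 0) v → Reach (F ∩ ↑(boxE m)) (0, 0) v ∨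
        (v ∈ UpV m (XX m F) ∧ ∃ e0 ∈ MM m a k (XX m F), ∃ z, (z = src e0 ∨ z = tgt e0) ∧
          Reach (GG m F) v z) := by
      intro v hv
      have hXC : ∀ x ∈ XX m F, Reach (F ∩ ↑(boxE m)) (0, 0) x := by
        intro x hx
        have hx' : Reach (F ∩ Kn m F) (0, 0) x := hx
        exact Reach.mono (fun e he => ⟨he.1, Finset.mem_coe.2 he.2.1.1⟩ :
          F ∩ Kn m F ⊆ F ∩ ↑(boxE m)) hx'
      induction hv with
      | refl => exact Or.inl (Reach.refl _ _)
      | @tail v w _ hs ih =>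
        obtain ⟨e, ⟨heF', hebox⟩, hc⟩ := hs
        have hebox' : e ∈ boxE m := Finset.mem_coe.1 hebox
        -- the other end of an edge with an end in the upper region
        have hnext : v ∈ UpV m (XX m F) →
            w ∈ UpV m (XX m F) ∨ w ∈ XX m F ∨ w ∈ ray m := by
          intro hv
          rcases hc with ⟨h5, h6⟩ | ⟨h5, h6⟩
          · have := hUc e hebox' (by rw [h5]; exact hv)
            rwa [h6] at this
          · have := hUd e hebox' (by rw [h6]; exact hv)
            rwa [h5] at this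
        by_cases heM : e ∈ MM m a k (XX m F)
        · -- an edge of `MM`
          have hw0 : w = src e ∨ w = tgt e := by
            rcases hc with ⟨_, h⟩ | ⟨h, _⟩
            · exact Or.inr h.symm
            · exact Or.inl h.symm
          by_cases hwU : w ∈ UpV m (XX m F)
          · exact Or.inr ⟨hwU, e, heM, w, hw0, Reach.refl _ _⟩
          · have hvU : v ∈ UpV m (XX m F) := by
              rcases heM.2.2 with h | h
              · rcases hc with ⟨h5, h6⟩ | ⟨h5, h6⟩
                · rwa [h5] at h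
                · rw [h5] at h; exact absurd h hwU
              · rcases hc with ⟨h5, h6⟩ | ⟨h5, h6⟩
                · rw [h6] at h; exact absurd h hwU
                · rwa [h6] at h
            rcases hnext hvU with h | h | h
            · exact absurd h hwU
            · exact Or.inl (hXC w h)
            · exact (MM_ray hk ham (by omega) hUe heM hc hvU h).elim
        · have heF : e ∈ F := (hFF e heM).2 heF'
          have hadj : Adj (F ∩ ↑(boxE m)) v w := ⟨e, ⟨heF, hebox⟩, hc⟩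
          rcases ih with ih | ⟨hvU, e0, he0, z, hz, hr⟩
          · exact Or.inl (ih.trans hadj.reach)
          · have heK : e ∉ Kn m F := by
              refine (hUb e hebox' ?_).1
              rcases hc with ⟨h5, _⟩ | ⟨_, h6⟩
              · left; rw [h5]; exact hvU
              · right; rw [h6]; exact hvU
            rcases hnext hvU with h | h | h
            · refine Or.inr ⟨h, e0, he0, z, hz, ?_⟩
              have : Adj (GG m F) w v := by
                refine ⟨e, ⟨⟨⟨heF, heK⟩, hebox'⟩, ?_, ?_⟩, hc.symm⟩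
                · rcases hc with ⟨h5, _⟩ | ⟨h5, _⟩
                  · rw [h5]; exact hvU
                  · rw [h5]; exact h
                · rcases hc with ⟨_, h6⟩ | ⟨_, h6⟩
                  · rw [h6]; exact h
                  · rw [h6]; exact hvU
              exact this.reach.trans hr
            · exact Or.inl (hXC w h)
            · have hadj' : Adj (F \ Kn m F) v w := ⟨e, ⟨heF, heK⟩, hc⟩
              exact (no_exit hk hka ham hDD hUe he0 hz hvU hr hadj' h).elim
    intro r hr hreach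
    rcases key r hreach with h | ⟨h, _⟩
    · exact hSE.2 r hr h
    · exact h.2.1 hr

theorem t_T3 (_ : S_KN) (h2 : S_F1) (h3 : S_UP) : S_T3 := t_T3' h2 h3

end Pool.Agent.Y997.OBL.T3
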