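import Pool.Agent.Y997.OBL.Stm

/-!
# OBL-T4: the arc leads to the explored cluster through free edges
-/

set_option autoImplicit false

namespace Pool.Agent.Y997.OBL.T4

open H974 H12S Finset H984P H984N Pool.Agent.Y989.FR Pool.Agent.Y997.OBL
open Pool.Agent.W92.DP (DTB DLR shc)

/-- Translation of a path. -/
theorem reach_tr {v : Vtx} {G G' : Set Edg}
    (h : ∀ x y b, ((x, y, b) : Edg) ∈ G → ((x + v.1, y + v.2, b) : Edg) ∈ G') {u w : Vtx}
    (hr : Reach G u w) : Reach G' (u.1 + v.1, u.2 + v.2) (w.1 + v.1, w.2 + v.2) := by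
  induction hr with
  | refl => exact Reach.refl _ _
  | @tail w w' _ hs ih =>
    refine ih.trans (Adj.reach ?_)
    obtain ⟨⟨x, y, b⟩, he, hc⟩ := hs
    refine ⟨(x + v.1, y + v.2, b), h x y b he, ?_⟩
    cases b
    · simp only [src_mk, tgt_false] at hc ⊢
      rcases hc with ⟨h1, h2⟩ | ⟨h1, h2⟩
      · left; rw [← h1, ← h2]; constructor <;> (ext <;> simp <;> omega)
      · right; rw [← h1, ← h2]; constructor <;> (ext <;> simp <;> omega)
    · simp only [src_mk, tgt_true] at hc ⊢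
      rcases hc with ⟨h1, h2⟩ | ⟨h1, h2⟩
      · left; rw [← h1, ← h2]; constructor <;> (ext <;> simp <;> omega)
      · right; rw [← h1, ← h2]; constructor <;> (ext <;> simp <;> omega)

/-- A path from the left to the right and a path from below to above meet. -/
theorem meet_gen {G P1 P2 : Set Edg} {a b c d : ℤ} (hab : a < b) (hcd : c < d)
    (hP1 : P1 ⊆ G) (hP2 : P2 ⊆ G)
    (l1 : ∀ x y, ((x, y, true) : Edg) ∈ P1 → a ≤ x → x < b → c ≤ y ∧ y ≤ d)
    (l2 : ∀ x y, ((x, y, false) : Edg) ∈ P1 → a < x → x < b → c ≤ y ∧ y < d)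
    (t1 : ∀ x y, ((x, y, false) : Edg) ∈ P2 → c ≤ y → y < d → a ≤ x ∧ x ≤ b)
    (t2 : ∀ x y, ((x, y, true) : Edg) ∈ P2 → c < y → y < d → a ≤ x ∧ x < b)
    {u u' w w' : Vtx} (hL : Reach P1 u u') (hu : u.1 ≤ a) (hu' : b ≤ u'.1)
    (hT : Reach P2 w w') (hw : w.2 ≤ c) (hw' : d ≤ w'.2) : Reach G u w := by
  obtain ⟨y1, y2, k1, k2, k3, k4⟩ := sub_LR hab l1 l2 hL hu hu'
  obtain ⟨x1, x2, n1, n2, n3, n4⟩ := sub_TB hcd t1 t2 hT hw hw'
  have m := crossings_meet hab hcd.le (F := G) k2 n1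
    (k3.mono (by rintro e ⟨h1, h2⟩; exact ⟨hP1 h1, h2⟩))
    (n3.mono (by rintro e ⟨h1, h2⟩; exact ⟨hP2 h1, h2⟩))
  exact (k4.mono hP1).trans ((m.mono Set.inter_subset_left).trans (n4.mono hP2).symm)

/-- The edges allowed for the path. -/
def Al (ω : Finset Edg) (m a k h : ℕ) (p : ℤ) : Set Edg :=
  {e | e ∈ ω ∧ e ∈ AE (0, 0) (2 * a) (4 * a) ∧ e ∉ RE (a : ℤ) (8 * a) 0 k ∧ e ∉ Tc a k h p ∧
    src e ∉ ray m ∧ tgt e ∉ ray m}

theorem exit {m a k h : ℕ} {p : ℤ} {F : Set Edg} {ω : Finset Edg} (hup : S_UP) (hm : 1 ≤ m)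
    (ham : 8 * a ≤ m) (hSE : SE m F) {v y : Vtx} (hv : v ∈ UpV m (XX m F))
    (hy : y ∉ UpV m (XX m F)) (hr : Reach (Al ω m a k h p) v y) :
    ∃ x ∈ XX m F, Reach ((↑ω : Set Edg) ∩ (MM m a k (XX m F) \ ↑(Tc a k h p))) v x := by
  obtain ⟨-, -, hc, hd, -⟩ := hup m F hm hSE
  have key : ∀ w, Reach (Al ω m a k h p) v w →
      (∃ x ∈ XX m F, Reach ((↑ω : Set Edg) ∩ (MM m a k (XX m F) \ ↑(Tc a k h p))) v x) ∨
      (w ∈ UpV m (XX m F) ∧
        Reach ((↑ω : Set Edg) ∩ (MM m a k (XX m F) \ ↑(Tc a k h p))) v w) := by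
    intro w hw
    induction hw with
    | refl => exact Or.inr ⟨hv, Reach.refl _ _⟩
    | @tail w w' _ hs ih =>
      rcases ih with ih | ⟨ih1, ih2⟩
      · exact Or.inl ih
      · obtain ⟨e, ⟨e1, e2, e3, e4, e5, e6⟩, hcase⟩ := hs
        have hbox : e ∈ boxE m := by
          have h2 : e ∈ blk (0, 0) (4 * a) := by
            have := e2
            simp only [AE, Finset.coe_sdiff, Set.mem_sdiff, Finset.mem_coe] at this
            exact this.1
          obtain ⟨x, y, b⟩ := e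
          cases b
          · simp only [blk, boxE, mem_RE_false] at h2 ⊢
            push_cast at h2
            omega
          · simp only [blk, boxE, mem_RE_true] at h2 ⊢
            push_cast at h2
            omega
        rcases hcase with ⟨h1, h2⟩ | ⟨h1, h2⟩
        · have hMM : e ∈ (↑ω : Set Edg) ∩ (MM m a k (XX m F) \ ↑(Tc a k h p)) :=
            ⟨e1, ⟨e2, e3, Or.inl (h1 ▸ ih1)⟩, e4⟩
          have hr' := ih2.trans (Adj.reach (⟨e, hMM, Or.inl ⟨h1, h2⟩⟩ : Adj _ w w'))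
          rcases hc e hbox (h1 ▸ ih1) with h3 | h3 | h3
          · exact Or.inr ⟨h2 ▸ h3, hr'⟩
          · exact Or.inl ⟨w', h2 ▸ h3, hr'⟩
          · exact absurd h3 e6
        · have hMM : e ∈ (↑ω : Set Edg) ∩ (MM m a k (XX m F) \ ↑(Tc a k h p)) :=
            ⟨e1, ⟨e2, e3, Or.inr (h2 ▸ ih1)⟩, e4⟩
          have hr' := ih2.trans (Adj.reach (⟨e, hMM, Or.inr ⟨h1, h2⟩⟩ : Adj _ w w'))
          rcases hd e hbox (h2 ▸ ih1) with h3 | h3 | h3
          · exact Or.inr ⟨h1 ▸ h3, hr'⟩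
          · exact Or.inl ⟨w', h1 ▸ h3, hr'⟩
          · exact absurd h3 e5
  rcases key y hr with h | h
  · exact h
  · exact absurd h.1 hy

/-- Membership in the allowed set, horizontal edges. -/
theorem al_true {ω : Finset Edg} {m a k h : ℕ} {p x y : ℤ} (h0 : ((x, y, true) : Edg) ∈ ω)
    (h1 : -(4 * (a : ℤ)) ≤ x ∧ x < 4 * a ∧ -(4 * (a : ℤ)) ≤ y ∧ y ≤ 4 * a)
    (h2 : ¬ (-(2 * (a : ℤ)) ≤ x ∧ x < 2 * a ∧ -(2 * (a : ℤ)) ≤ y ∧ y ≤ 2 * a))
    (h3 : ¬ ((a : ℤ) ≤ x ∧ x < 8 * a ∧ 0 ≤ y ∧ y ≤ k))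
    (h4 : ¬ (3 * (a : ℤ) + p - 7 * h ≤ x ∧ x < 3 * (a : ℤ) + p + 7 * h ∧ 0 ≤ y ∧
      y ≤ 3 * (k : ℤ) + 2 * h))
    (h5 : y ≠ 0 ∨ x + 1 < 1) : ((x, y, true) : Edg) ∈ Al ω m a k h p := by
  refine ⟨h0, ?_, ?_, ?_, ?_, ?_⟩
  · simp only [AE, Finset.coe_sdiff, Set.mem_sdiff, Finset.mem_coe, blk, mem_RE_true]
    push_cast
    constructor
    · omega
    · omega
  · rw [mem_RE_true]; exact h3
  · rw [Tc, mem_RE_true]; exact h4
  · rintro ⟨h6, h7, -⟩
    simp only [src_mk] at h6 h7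
    omega
  · rintro ⟨h6, h7, -⟩
    simp only [tgt_true] at h6 h7
    omega

/-- Membership in the allowed set, vertical edges. -/
theorem al_false {ω : Finset Edg} {m a k h : ℕ} {p x y : ℤ} (h0 : ((x, y, false) : Edg) ∈ ω)
    (h1 : -(4 * (a : ℤ)) ≤ x ∧ x ≤ 4 * a ∧ -(4 * (a : ℤ)) ≤ y ∧ y < 4 * a)
    (h2 : ¬ (-(2 * (a : ℤ)) ≤ x ∧ x ≤ 2 * a ∧ -(2 * (a : ℤ)) ≤ y ∧ y < 2 * a))
    (h3 : ¬ ((a : ℤ) ≤ x ∧ x ≤ 8 * a ∧ 0 ≤ y ∧ y < k))
    (h4 : ¬ (3 * (a : ℤ) + p - 7 * h ≤ x ∧ x ≤ 3 * (a : ℤ) + p + 7 * h ∧ 0 ≤ y ∧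
      y < 3 * (k : ℤ) + 2 * h))
    (h5 : (y ≠ 0 ∧ y + 1 ≠ 0) ∨ x < 1) : ((x, y, false) : Edg) ∈ Al ω m a k h p := by
  refine ⟨h0, ?_, ?_, ?_, ?_, ?_⟩
  · simp only [AE, Finset.coe_sdiff, Set.mem_sdiff, Finset.mem_coe, blk, mem_RE_false]
    push_cast
    constructor
    · omega
    · omega
  · rw [mem_RE_false]; exact h3
  · rw [Tc, mem_RE_false]; exact h4
  · rintro ⟨h6, h7, -⟩
    simp only [src_mk] at h6 h7
    omega
  · rintro ⟨h6, h7, -⟩
    simp only [tgt_false] at h6 h7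
    omega

/-- Gluing of the arc. -/
theorem arc_path {ω : Finset Edg} {m a k h : ℕ} {p : ℤ} (hh : 1 ≤ h) (hk : 64 * h ≤ k)
    (ha : 8 * k ≤ a) (hp : |p| ≤ k) (hA : Arc a k h ω) {v s t : Vtx}
    (hv1 : |v.1 - 3 * (a : ℤ)| ≤ h) (hv2 : |v.2 - 4 * (k : ℤ)| ≤ h)
    (hs : s.1 ≤ v.1 - k) (ht : v.1 + k ≤ t.1)
    (hst : Reach ((↑ω : Set Edg) ∩ ↑(RE (v.1 - k) (v.1 + k) (v.2 + k + 12 * h)
      (v.2 + k + 14 * h))) s t) :
    ∃ x : ℤ, 3 * (a : ℤ) - h ≤ x ∧ x ≤ 3 * (a : ℤ) + h ∧ Reach (Al ω m a k h p) s (x, -1) := by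
  obtain ⟨⟨x1, x1', a1, a2, a3⟩, ⟨y2, y2', b1, b2, b3⟩, ⟨x3, x3', c1, c2, c3⟩,
    ⟨y4, y4', d1, d2, d3⟩, ⟨x5, x5', e1, e2, e3⟩⟩ := hA
  rw [abs_le] at hv1 hv2 hp
  have hh' : (1 : ℤ) ≤ h := by exact_mod_cast hh
  have hk' : 64 * (h : ℤ) ≤ k := by exact_mod_cast hk
  have ha' : 8 * (k : ℤ) ≤ a := by exact_mod_cast ha
  -- the edges of the pieces are allowed
  have s0 : (↑ω : Set Edg) ∩ ↑(RE (v.1 - k) (v.1 + k) (v.2 + k + 12 * h) (v.2 + k + 14 * h)) ⊆
      Al ω m a k h p := by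
    rintro ⟨x, y, _ | _⟩ ⟨g1, g2⟩
    · simp only [Finset.mem_coe, mem_RE_false] at g1 g2
      exact al_false g1 (by omega) (by omega) (by omega) (by omega) (by omega)
    · simp only [Finset.mem_coe, mem_RE_true] at g1 g2
      exact al_true g1 (by omega) (by omega) (by omega) (by omega) (by omega)
  have s1 : (↑ω : Set Edg) ∩ ↑(TBE (3 * (a : ℤ) - h) (3 * (a : ℤ) + h) (5 * (k : ℤ) + 11 * h)
      (3 * (a : ℤ) + h)) ⊆ Al ω m a k h p := by
    rintro ⟨x, y, _ | _⟩ ⟨g1, g2⟩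
    · simp only [Finset.mem_coe, mem_TBE_false] at g1 g2
      exact al_false g1 (by omega) (by omega) (by omega) (by omega) (by omega)
    · simp only [Finset.mem_coe, mem_TBE_true] at g1 g2
      exact al_true g1 (by omega) (by omega) (by omega) (by omega) (by omega)
  have s2 : (↑ω : Set Edg) ∩ ↑(LRE (-(3 * (a : ℤ)) - h) (3 * (a : ℤ) + h) (3 * (a : ℤ) - h)
      (3 * (a : ℤ) + h)) ⊆ Al ω m a k h p := by
    rintro ⟨x, y, _ | _⟩ ⟨g1, g2⟩
    · simp only [Finset.mem_coe, mem_LRE_false] at g1 g2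
      exact al_false g1 (by omega) (by omega) (by omega) (by omega) (by omega)
    · simp only [Finset.mem_coe, mem_LRE_true] at g1 g2
      exact al_true g1 (by omega) (by omega) (by omega) (by omega) (by omega)
  have s3 : (↑ω : Set Edg) ∩ ↑(TBE (-(3 * (a : ℤ)) - h) (-(3 * (a : ℤ)) + h)
      (-(3 * (a : ℤ)) - h) (3 * (a : ℤ) + h)) ⊆ Al ω m a k h p := by
    rintro ⟨x, y, _ | _⟩ ⟨g1, g2⟩
    · simp only [Finset.mem_coe, mem_TBE_false] at g1 g2
      exact al_false g1 (by omega) (by omega) (by omega) (by omega) (by omega)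
    · simp only [Finset.mem_coe, mem_TBE_true] at g1 g2
      exact al_true g1 (by omega) (by omega) (by omega) (by omega) (by omega)
  have s4 : (↑ω : Set Edg) ∩ ↑(LRE (-(3 * (a : ℤ)) - h) (3 * (a : ℤ) + h)
      (-(3 * (a : ℤ)) - h) (-(3 * (a : ℤ)) + h)) ⊆ Al ω m a k h p := by
    rintro ⟨x, y, _ | _⟩ ⟨g1, g2⟩
    · simp only [Finset.mem_coe, mem_LRE_false] at g1 g2
      exact al_false g1 (by omega) (by omega) (by omega) (by omega) (by omega)
    · simp only [Finset.mem_coe, mem_LRE_true] at g1 g2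
      exact al_true g1 (by omega) (by omega) (by omega) (by omega) (by omega)
  have s5 : (↑ω : Set Edg) ∩ ↑(TBE (3 * (a : ℤ) - h) (3 * (a : ℤ) + h)
      (-(3 * (a : ℤ)) - h) (-1)) ⊆ Al ω m a k h p := by
    rintro ⟨x, y, _ | _⟩ ⟨g1, g2⟩
    · simp only [Finset.mem_coe, mem_TBE_false] at g1 g2
      exact al_false g1 (by omega) (by omega) (by omega) (by omega) (by omega)
    · simp only [Finset.mem_coe, mem_TBE_true] at g1 g2
      exact al_true g1 (by omega) (by omega) (by omega) (by omega) (by omega)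
  -- the pieces meet
  have m1 : Reach (Al ω m a k h p) s (x1, 5 * (k : ℤ) + 11 * h) :=
    meet_gen (a := 3 * (a : ℤ) - h) (b := 3 * (a : ℤ) + h) (c := v.2 + k + 12 * h)
      (d := v.2 + k + 14 * h) (by omega) (by omega) s0 s1
      (by rintro x y ⟨-, g⟩ _ _; simp only [Finset.mem_coe, mem_RE_true] at g; omega)
      (by rintro x y ⟨-, g⟩ _ _; simp only [Finset.mem_coe, mem_RE_false] at g; omega)
      (by rintro x y ⟨-, g⟩ _ _; simp only [Finset.mem_coe, mem_TBE_false] at g; omega)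
      (by rintro x y ⟨-, g⟩ _ _; simp only [Finset.mem_coe, mem_TBE_true] at g; omega)
      hst (by omega) (by omega) a3 (by simp only; omega) (by simp only; omega)
  have m2 : Reach (Al ω m a k h p) (-(3 * (a : ℤ)) - h, y2) (x1, 5 * (k : ℤ) + 11 * h) :=
    meet_gen (a := 3 * (a : ℤ) - h) (b := 3 * (a : ℤ) + h) (c := 3 * (a : ℤ) - h)
      (d := 3 * (a : ℤ) + h) (by omega) (by omega) s2 s1
      (by rintro x y ⟨-, g⟩ _ _; simp only [Finset.mem_coe, mem_LRE_true] at g; omega)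
      (by rintro x y ⟨-, g⟩ _ _; simp only [Finset.mem_coe, mem_LRE_false] at g; omega)
      (by rintro x y ⟨-, g⟩ _ _; simp only [Finset.mem_coe, mem_TBE_false] at g; omega)
      (by rintro x y ⟨-, g⟩ _ _; simp only [Finset.mem_coe, mem_TBE_true] at g; omega)
      b3 (by simp only; omega) (by simp only; omega) a3 (by simp only; omega)
      (by simp only; omega)
  have m3 : Reach (Al ω m a k h p) (-(3 * (a : ℤ)) - h, y2) (x3, -(3 * (a : ℤ)) - h) :=
    meet_gen (a := -(3 * (a : ℤ)) - h) (b := -(3 * (a : ℤ)) + h) (c := 3 * (a : ℤ) - h)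
      (d := 3 * (a : ℤ) + h) (by omega) (by omega) s2 s3
      (by rintro x y ⟨-, g⟩ _ _; simp only [Finset.mem_coe, mem_LRE_true] at g; omega)
      (by rintro x y ⟨-, g⟩ _ _; simp only [Finset.mem_coe, mem_LRE_false] at g; omega)
      (by rintro x y ⟨-, g⟩ _ _; simp only [Finset.mem_coe, mem_TBE_false] at g; omega)
      (by rintro x y ⟨-, g⟩ _ _; simp only [Finset.mem_coe, mem_TBE_true] at g; omega)
      b3 (by simp only; omega) (by simp only; omega) c3 (by simp only; omega)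
      (by simp only; omega)
  have m4 : Reach (Al ω m a k h p) (-(3 * (a : ℤ)) - h, y4) (x3, -(3 * (a : ℤ)) - h) :=
    meet_gen (a := -(3 * (a : ℤ)) - h) (b := -(3 * (a : ℤ)) + h) (c := -(3 * (a : ℤ)) - h)
      (d := -(3 * (a : ℤ)) + h) (by omega) (by omega) s4 s3
      (by rintro x y ⟨-, g⟩ _ _; simp only [Finset.mem_coe, mem_LRE_true] at g; omega)
      (by rintro x y ⟨-, g⟩ _ _; simp only [Finset.mem_coe, mem_LRE_false] at g; omega)
      (by rintro x y ⟨-, g⟩ _ _; simp only [Finset.mem_coe, mem_TBE_false] at g; omega)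
      (by rintro x y ⟨-, g⟩ _ _; simp only [Finset.mem_coe, mem_TBE_true] at g; omega)
      d3 (by simp only; omega) (by simp only; omega) c3 (by simp only; omega)
      (by simp only; omega)
  have m5 : Reach (Al ω m a k h p) (-(3 * (a : ℤ)) - h, y4) (x5, -(3 * (a : ℤ)) - h) :=
    meet_gen (a := 3 * (a : ℤ) - h) (b := 3 * (a : ℤ) + h) (c := -(3 * (a : ℤ)) - h)
      (d := -(3 * (a : ℤ)) + h) (by omega) (by omega) s4 s5
      (by rintro x y ⟨-, g⟩ _ _; simp only [Finset.mem_coe, mem_LRE_true] at g; omega)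
      (by rintro x y ⟨-, g⟩ _ _; simp only [Finset.mem_coe, mem_LRE_false] at g; omega)
      (by rintro x y ⟨-, g⟩ _ _; simp only [Finset.mem_coe, mem_TBE_false] at g; omega)
      (by rintro x y ⟨-, g⟩ _ _; simp only [Finset.mem_coe, mem_TBE_true] at g; omega)
      d3 (by simp only; omega) (by simp only; omega) e3 (by simp only; omega)
      (by simp only; omega)
  exact ⟨x5', e2.1, e2.2, m1.trans (m2.symm.trans (m3.trans (m4.symm.trans
    (m5.trans (e3.mono s5)))))⟩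

theorem t_T4 (h1 : S_UP) (h2 : S_ZU) : S_T4 := by
  intro M B k h a m p F ω v hB hh hk ha ham hp hSE hZ hv hG hA
  refine ⟨hG, ?_⟩
  have hh' : (1 : ℤ) ≤ h := by exact_mod_cast hh
  have hk' : 64 * (h : ℤ) ≤ k := by exact_mod_cast hk
  have ha' : 8 * (k : ℤ) ≤ a := by exact_mod_cast ha
  have hm' : 8 * (a : ℤ) ≤ m := by exact_mod_cast ham
  obtain ⟨-, s, t, ⟨q1, q2, q3⟩, ⟨q4, q5, q6⟩, q7, q8⟩ := hG
  have hv' := hv
  simp only [Qc, Finset.mem_product, Finset.mem_Icc] at hv'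
  obtain ⟨⟨v1, v2⟩, v3, v4⟩ := hv'
  have hpp := hp
  rw [abs_le] at hpp
  have r1 := reach_tr (v := v) (G' := (↑ω : Set Edg) ∩ ↑(RE (v.1 - k) (v.1 + k)
    (v.2 + k + 12 * h) (v.2 + k + 14 * h))) (by
      rintro x y (_ | _) ⟨g1, g2⟩
      · refine ⟨g1, ?_⟩
        simp only [Finset.mem_coe, mem_RE_false] at g2 ⊢
        omega
      · refine ⟨g1, ?_⟩
        simp only [Finset.mem_coe, mem_RE_true] at g2 ⊢
        omega) q7
  have r2 := reach_tr (v := v) (G' := Al ω m a k h p) (by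
      rintro x y (_ | _) ⟨⟨g1, g2⟩, g3⟩
      · simp only [Finset.mem_coe, Tb, boxE, mem_RE_false, not_and_or] at g2 g3
        push_cast at g2
        refine al_false g1 (by omega) (by omega) (by omega) (by omega) (by omega)
      · simp only [Finset.mem_coe, Tb, boxE, mem_RE_true, not_and_or] at g2 g3
        push_cast at g2
        refine al_true g1 (by omega) (by omega) (by omega) (by omega) (by omega)) q8
  obtain ⟨x, x1, x2, hx⟩ := arc_path (m := m) hh hk ha hp hA (v := v)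
    (by rw [abs_le]; omega) (by rw [abs_le]; omega) (by simp only; omega) (by simp only; omega) r1
  have hvU : v ∈ UpV m (XX m F) :=
    h2 m a (8 * k) (XX m F) (by omega) (by omega) ham ha hZ v (by omega) (by omega)
      (by omega) (by push_cast; omega)
  have hxU : ((x, -1) : Vtx) ∉ UpV m (XX m F) :=
    (h1 m F (by omega) hSE).2.2.2.2 x (by omega) (by omega)
  simp only [zero_add] at r2
  exact exit h1 (by omega) ham hSE hvU hxU (r2.trans hx)

end Pool.Agent.Y997.OBL.T4
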