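import Pool.Agent.Y997.OBL.Stm
import Pool.Agent.Y989.FR.T_TWO3
import Pool.Agent.Y989.FR.T_ONE3

/-!
# OBL-TP3: two-point upper bound for three arms; the event at a vertex implies three arms
(written by helper888)
-/

set_option autoImplicit false

namespace Pool.Agent.Y997.OBL.TP3

open H974 H12S Finset H984P H984N Pool.Agent.Y989.FR Pool.Agent.Y997.OBL
open Pool.Agent.W92.DP (DTB DLR shc)
open Pool.Agent.Y989.FR.TWO3 (BX re_ends re_of_ends mem_bdB_iff lastX firstX bdB_BX annX sd_nonneg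
  sd_self locF sup_bd disj_blk num hok)
open Pool.Agent.Y989.FR.ONE3 (reach_sh src_trl tgt_trl bdB_sh blk_sh)

theorem ae_mono {c : ℤ × ℤ} {d d' k' k : ℕ} (hd : d ≤ d') (hk : k' ≤ k) :
    AE c d' k' ⊆ AE c d k := by
  intro e he
  unfold AE at he ⊢
  rw [Finset.mem_coe, Finset.mem_sdiff] at he ⊢
  have h1 : blk c k' ⊆ blk c k := by
    unfold blk
    apply RE_subset <;> omega
  have h2 : blk c d ⊆ blk c d' := by
    unfold blk
    apply RE_subset <;> omega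
  exact ⟨h1 he.1, fun h => he.2 (h2 h)⟩

/-- a path which crosses the big annulus crosses the small one -/
theorem ann2 {G : Set Edg} {c : ℤ × ℤ} {d d' k' k : ℕ} (hd : d ≤ d') (hdk : d' ≤ k')
    (hk : k' ≤ k) {x w : Vtx} (hx : x ∈ bdB c d) (hw : w ∈ bdB c k) (h : Reach G x w) :
    ∃ u ∈ bdB c d', Reach G x u ∧ ∃ y ∈ bdB c k', Reach (G ∩ AE c d' k') u y := by
  have hwk : BX c k' w → w ∈ bdB c k' := by
    intro h1
    have h2 := (mem_bdB_iff.1 hw).2
    rw [mem_bdB_iff]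
    refine ⟨h1, ?_⟩
    unfold BX inR at h1
    omega
  rcases lastX (bdB_BX hd hx) h with h1 | ⟨u, hu, h1, h2⟩
  · have h3 : BX c k' w := by
      unfold BX inR at h1 ⊢
      omega
    have h4 : w ∈ bdB c d' := by
      have h2 := (mem_bdB_iff.1 hw).2
      rw [mem_bdB_iff]
      refine ⟨h1, ?_⟩
      unfold BX inR at h1
      omega
    exact ⟨w, h4, h, w, hwk h3, Reach.refl _ _⟩
  · have key : ∀ y, Reach ((G \ ↑(blk c d')) ∩ ↑(blk c k')) u y → Reach (G ∩ AE c d' k') u y := by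
      intro y h3
      refine h3.mono ?_
      rintro e ⟨⟨h4, h5⟩, h6⟩
      refine ⟨h4, ?_⟩
      show e ∈ (↑(blk c k' \ blk c d') : Set Edg)
      rw [Finset.coe_sdiff]
      exact ⟨h6, h5⟩
    rcases firstX (bdB_BX hdk hu) h2 with h3 | ⟨y, hy, h3⟩
    · exact ⟨u, hu, h1, w, hwk h3.1, key _ h3.2⟩
    · exact ⟨u, hu, h1, y, hy, key _ h3⟩

theorem A3v_mono {c : ℤ × ℤ} {d d' k' k : ℕ} (hd : d ≤ d') (hdk : d' ≤ k') (hk : k' ≤ k)
    {F : Set Edg} (h : A3v c d k F) : A3v c d' k' F := by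
  obtain ⟨u, hu, ⟨w, hw, hwu⟩, x, hx, y, hy, hxy⟩ := h
  obtain ⟨u', hu', huu', y', hy', h1⟩ := ann2 hd hdk hk hu hw hwu
  obtain ⟨x', hx', -, z, hz, h2⟩ := ann2 hd hdk hk hx hy hxy
  have hsub : Clu c d' k' F u' ⊆ Clu c d k F u := by
    intro t ht
    have h3 : Reach (F ∩ AE c d k) u' t := Reach.mono
      (Set.inter_subset_inter_right _ (ae_mono hd hk)) ht
    exact huu'.trans h3
  refine ⟨u', hu', ⟨y', hy', h1.mono ?_⟩, x', hx', z, hz, h2.mono ?_⟩
  · rintro e ⟨⟨h3, -⟩, h4⟩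
    exact ⟨h3, h4⟩
  · rintro e ⟨⟨-, h3, h4⟩, h5⟩
    exact ⟨h5, fun h => h3 (hsub h), fun h => h4 (hsub h)⟩

theorem t_TP3 (h : Pool.Agent.Y989.FR.S_U3) : S_TP3 := by
  obtain ⟨C, hC, hU⟩ := h
  refine ⟨131072 * (1 + C) ^ 3, by positivity, ?_⟩
  intro k v w S hk hvw hSv hSw
  obtain ⟨r, hr⟩ : ∃ r : ℕ, (r : ℤ) = sd v w := ⟨(sd v w).toNat, Int.toNat_of_nonneg (sd_nonneg _ _)⟩
  obtain ⟨⟨s1, s2, s3, s4⟩, s5⟩ := sup_bd (v := v) (w := w) (r := r) (by rw [hr]; rfl)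
  have hrk : r ≤ k := by
    rw [← hr] at hvw
    exact_mod_cast hvw
  have hk0 : (0 : ℝ) < k := by exact_mod_cast (by omega : 0 < k)
  set R : ℝ := ((max (sd v w) 1 : ℤ) : ℝ) with hR
  have hR1 : (1 : ℝ) ≤ R := by
    rw [hR]
    exact_mod_cast le_max_right _ _
  have hR0 : (0 : ℝ) < R := by linarith
  have hD : 0 ≤ R ^ (-(2 / 3) : ℝ) * (k : ℝ) ^ (-(2 / 3) : ℝ) := by positivity
  have hC1 : C ≤ (1 + C) ^ 3 := by nlinarith [mul_pos hC hC, mul_pos (mul_pos hC hC) hC]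
  have hC2 : C ^ 2 ≤ (1 + C) ^ 3 := by nlinarith [mul_pos hC hC, mul_pos (mul_pos hC hC) hC]
  have hC3 : C ^ 3 ≤ (1 + C) ^ 3 := by
    apply pow_le_pow_left₀ hC.le
    linarith
  have hC4 : 1 ≤ (1 + C) ^ 3 := by
    apply one_le_pow₀
    linarith
  rw [mul_assoc]
  by_cases hk1 : k = 1
  · -- trivial bound
    have hR' : R = 1 := by
      have h2 : R ≤ 1 := by
        rw [hR]
        have : max (sd v w) 1 ≤ 1 := by
          rw [← hr]
          omega
        exact_mod_cast this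
      linarith
    refine (Pr_le_one hok _ _).trans ?_
    rw [hR', hk1]
    norm_num
    nlinarith
  have hk2 : 2 ≤ k := by omega
  by_cases hr16 : r ≤ 8
  · -- one event
    have h1 := hU v 2 k (by omega) hk2 S hSv
    have h2 : Pr (fun _ => (1 / 2 : ℝ)) S (fun F => A3v v 2 k ↑F ∧ A3v w 2 k ↑F) ≤
        PQ (1 / 2) S (fun F => A3v v 2 k (↑F : Set Edg)) := by
      apply Pr_mono hok
      rintro F _ ⟨hF, -⟩
      exact hF
    have hR16 : R ≤ 8 := by
      rw [hR]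
      have : max (sd v w) 1 ≤ 8 := by
        rw [← hr]
        omega
      exact_mod_cast this
    have h3 := num (x := ((2 : ℕ) : ℝ) / k) hR0 hk0 (by positivity) (by
      rw [div_le_div_iff₀ hk0 (by positivity)]
      push_cast
      have h5 : R * k ≤ 8 * k := by gcongr
      nlinarith)
    refine (h2.trans h1).trans ?_
    calc C * (((2 : ℕ) : ℝ) / k) ^ (2 / 3 : ℝ)
        ≤ (1 + C) ^ 3 * (131072 * (R ^ (-(2 / 3) : ℝ) * (k : ℝ) ^ (-(2 / 3) : ℝ))) := by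
          apply mul_le_mul hC1 h3 (by positivity) (by positivity)
      _ = _ := by ring
  · have hRr : R = r := by
      rw [hR, ← hr]
      have : max (r : ℤ) 1 = r := by omega
      rw [this]
      norm_num
    have hr0 : (0 : ℝ) < r := by exact_mod_cast (by omega : 0 < r)
    obtain ⟨j, hj⟩ : ∃ j : ℕ, j = r / 4 := ⟨_, rfl⟩
    have hj2 : 2 ≤ j := by omega
    have hjK : j ≤ k := by omega
    have hjr : 2 * j < r := by omega
    have hj0 : (0 : ℝ) < j := by exact_mod_cast (by omega : 0 < j)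
    have hjr6 : (r : ℝ) ≤ 6 * j := by
      have : r ≤ 6 * j := by omega
      exact_mod_cast this
    have sk : ∀ c : ℤ × ℤ, blk c j ⊆ blk c k := by
      intro c
      unfold blk
      apply RE_subset <;> omega
    have hs1 : blk v j ⊆ S := (sk v).trans hSv
    have hs2 : blk w j ⊆ S := (sk w).trans hSw
    have hd12 : Disjoint (blk v j) (blk w j) := disj_blk hjr s5
    have h1 := hU v 2 j (by omega) hj2 S hs1
    have h1' := hU w 2 j (by omega) hj2 S hs2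
    have hA1 : ∀ F, F ⊆ S → (A3v v 2 j (↑F : Set Edg) ↔
        A3v v 2 j (↑(F ∩ blk v j) : Set Edg)) := fun F _ => locF Finset.sdiff_subset F
    have hA2 : ∀ F, F ⊆ S → (A3v w 2 j (↑F : Set Edg) ↔
        A3v w 2 j (↑(F ∩ blk w j) : Set Edg)) := fun F _ => locF Finset.sdiff_subset F
    have hp0 : 0 ≤ (((2 : ℕ) : ℝ) / j) ^ (2 / 3 : ℝ) := by positivity
    have e1 : (2 : ℝ) / j ≤ 12 / r := by
      rw [div_le_div_iff₀ hj0 hr0]; linarith
    by_cases hrK : 2 * r ≤ k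
    · -- three events
      have h3 := hU v (2 * r) k (by omega) hrK S hSv
      have hT3 : blk v k \ blk v (2 * r) ⊆ S := Finset.sdiff_subset.trans hSv
      have sub1 : blk v j ⊆ blk v (2 * r) := by
        unfold blk
        apply RE_subset <;> push_cast <;> omega
      have sub2 : blk w j ⊆ blk v (2 * r) := by
        unfold blk
        apply RE_subset <;> push_cast <;> omega
      have hd13 : Disjoint (blk v j) (blk v k \ blk v (2 * r)) :=
        Finset.disjoint_of_subset_left sub1 Finset.disjoint_sdiff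
      have hd23 : Disjoint (blk w j) (blk v k \ blk v (2 * r)) :=
        Finset.disjoint_of_subset_left sub2 Finset.disjoint_sdiff
      have hA3 : ∀ F, F ⊆ S → (A3v v (2 * r) k (↑F : Set Edg) ↔
          A3v v (2 * r) k (↑(F ∩ (blk v k \ blk v (2 * r))) : Set Edg)) := fun F _ =>
        locF (Finset.Subset.refl _) F
      have i2 := Pr_indep (p := fun _ => (1 / 2 : ℝ)) hs2 hT3 hd23
        (A := fun F => A3v w 2 j (↑F : Set Edg)) (B := fun F => A3v v (2 * r) k (↑F : Set Edg))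
        hA2 hA3
      have hA23 : ∀ F, F ⊆ S →
          ((A3v w 2 j (↑F : Set Edg) ∧ A3v v (2 * r) k (↑F : Set Edg)) ↔
          (A3v w 2 j (↑(F ∩ (blk w j ∪ (blk v k \ blk v (2 * r)))) : Set Edg) ∧
            A3v v (2 * r) k (↑(F ∩ (blk w j ∪ (blk v k \ blk v (2 * r)))) : Set Edg))) := by
        intro F _
        exact and_congr
          (locF (Finset.sdiff_subset.trans Finset.subset_union_left) F)
          (locF Finset.subset_union_right F)
      have i1 := Pr_indep (p := fun _ => (1 / 2 : ℝ)) hs1 (Finset.union_subset hs2 hT3)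
        (Finset.disjoint_union_right.2 ⟨hd12, hd13⟩)
        (A := fun F => A3v v 2 j (↑F : Set Edg))
        (B := fun F => A3v w 2 j (↑F : Set Edg) ∧ A3v v (2 * r) k (↑F : Set Edg))
        hA1 hA23
      have h2 : Pr (fun _ => (1 / 2 : ℝ)) S (fun F => A3v v 2 k ↑F ∧ A3v w 2 k ↑F) ≤
          Pr (fun _ => (1 / 2 : ℝ)) S (fun F => A3v v 2 j (↑F : Set Edg) ∧
            (A3v w 2 j (↑F : Set Edg) ∧ A3v v (2 * r) k (↑F : Set Edg))) := by
        apply Pr_mono hok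
        rintro F _ ⟨hF, hF'⟩
        exact ⟨A3v_mono le_rfl hj2 hjK hF, A3v_mono le_rfl hj2 hjK hF',
          A3v_mono (by omega) hrK le_rfl hF⟩
      rw [i1, i2] at h2
      have hq0 : 0 ≤ (((2 * r : ℕ) : ℝ) / k) ^ (2 / 3 : ℝ) := by positivity
      have h4 := num (x := (((2 : ℕ) : ℝ) / j) * ((((2 : ℕ) : ℝ) / j) *
        (((2 * r : ℕ) : ℝ) / k))) hr0 hk0 (by positivity) (by
          push_cast
          have e3 : (2 : ℝ) / j * (2 / j * (2 * r / k)) ≤ 12 / r * (12 / r * (2 * r / k)) := by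
            gcongr
          refine e3.trans ?_
          rw [div_mul_div_comm, div_mul_div_comm, div_le_div_iff₀ (by positivity) (by positivity)]
          have : 0 ≤ (r : ℝ) * r * k := by positivity
          nlinarith)
      rw [Real.mul_rpow (by positivity) (by positivity),
        Real.mul_rpow (by positivity) (by positivity)] at h4
      refine h2.trans ?_
      have h5 : Pr (fun _ => (1 / 2 : ℝ)) S (fun F => A3v v 2 j (↑F : Set Edg)) *
          (Pr (fun _ => (1 / 2 : ℝ)) S (fun F => A3v w 2 j (↑F : Set Edg)) *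
          Pr (fun _ => (1 / 2 : ℝ)) S (fun F => A3v v (2 * r) k (↑F : Set Edg))) ≤
          (C * (((2 : ℕ) : ℝ) / j) ^ (2 / 3 : ℝ)) * ((C * (((2 : ℕ) : ℝ) / j) ^ (2 / 3 : ℝ)) *
          (C * (((2 * r : ℕ) : ℝ) / k) ^ (2 / 3 : ℝ))) := by
        refine mul_le_mul h1 (mul_le_mul h1' h3 (Pr_nonneg hok _ _) (by positivity))
          (mul_nonneg (Pr_nonneg hok _ _) (Pr_nonneg hok _ _)) (by positivity)
      refine h5.trans ?_
      rw [hRr]
      calc (C * (((2 : ℕ) : ℝ) / j) ^ (2 / 3 : ℝ)) * ((C * (((2 : ℕ) : ℝ) / j) ^ (2 / 3 : ℝ)) *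
          (C * (((2 * r : ℕ) : ℝ) / k) ^ (2 / 3 : ℝ)))
          = C ^ 3 * ((((2 : ℕ) : ℝ) / j) ^ (2 / 3 : ℝ) * ((((2 : ℕ) : ℝ) / j) ^ (2 / 3 : ℝ) *
            (((2 * r : ℕ) : ℝ) / k) ^ (2 / 3 : ℝ))) := by ring
        _ ≤ (1 + C) ^ 3 * (131072 * ((r : ℝ) ^ (-(2 / 3) : ℝ) * (k : ℝ) ^ (-(2 / 3) : ℝ))) := by
          apply mul_le_mul hC3 h4 (by positivity) (by positivity)
        _ = _ := by ring
    · -- two events
      have i1 := Pr_indep (p := fun _ => (1 / 2 : ℝ)) hs1 hs2 hd12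
        (A := fun F => A3v v 2 j (↑F : Set Edg))
        (B := fun F => A3v w 2 j (↑F : Set Edg)) hA1 hA2
      have h2 : Pr (fun _ => (1 / 2 : ℝ)) S (fun F => A3v v 2 k ↑F ∧ A3v w 2 k ↑F) ≤
          Pr (fun _ => (1 / 2 : ℝ)) S (fun F => A3v v 2 j (↑F : Set Edg) ∧
            A3v w 2 j (↑F : Set Edg)) := by
        apply Pr_mono hok
        rintro F _ ⟨hF, hF'⟩
        exact ⟨A3v_mono le_rfl hj2 hjK hF, A3v_mono le_rfl hj2 hjK hF'⟩
      rw [i1] at h2
      have hrkR : (k : ℝ) ≤ 2 * r := by exact_mod_cast (by omega : k ≤ 2 * r)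
      have hjj : (r : ℝ) * k ≤ 32768 * (j * j) := by
        have e5 : (k : ℝ) ≤ 12 * j := by linarith
        calc (r : ℝ) * k ≤ (6 * j) * (12 * j) := by gcongr
          _ ≤ _ := by nlinarith
      have h4 := num (x := (((2 : ℕ) : ℝ) / j) * (((2 : ℕ) : ℝ) / j)) hr0 hk0
        (by positivity) (by
          push_cast
          rw [div_mul_div_comm, div_le_div_iff₀ (by positivity) (by positivity)]
          nlinarith)
      rw [Real.mul_rpow (by positivity) (by positivity)] at h4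
      refine h2.trans ?_
      have h5 : Pr (fun _ => (1 / 2 : ℝ)) S (fun F => A3v v 2 j (↑F : Set Edg)) *
          Pr (fun _ => (1 / 2 : ℝ)) S (fun F => A3v w 2 j (↑F : Set Edg)) ≤
          (C * (((2 : ℕ) : ℝ) / j) ^ (2 / 3 : ℝ)) *
            (C * (((2 : ℕ) : ℝ) / j) ^ (2 / 3 : ℝ)) :=
        mul_le_mul h1 h1' (Pr_nonneg hok _ _) (by positivity)
      refine h5.trans ?_
      rw [hRr]
      calc (C * (((2 : ℕ) : ℝ) / j) ^ (2 / 3 : ℝ)) * (C * (((2 : ℕ) : ℝ) / j) ^ (2 / 3 : ℝ))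
          = C ^ 2 * ((((2 : ℕ) : ℝ) / j) ^ (2 / 3 : ℝ) * (((2 : ℕ) : ℝ) / j) ^ (2 / 3 : ℝ)) := by
            ring
        _ ≤ (1 + C) ^ 3 * (131072 * ((r : ℝ) ^ (-(2 / 3) : ℝ) * (k : ℝ) ^ (-(2 / 3) : ℝ))) := by
          apply mul_le_mul hC2 h4 (by positivity) (by positivity)
        _ = _ := by ring

/-! ### The event at `v` implies three arms -/

theorem A3v_sh {v : Vtx} {d k : ℕ} {F : Set Edg} (h : A3v (0, 0) d k (shc v F)) :
    A3v v d k F := by
  have hae : ∀ e, e ∈ AE (0, 0) d k → (trl v.1 v.2).φ e ∈ AE v d k := by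
    intro e he
    unfold AE at he ⊢
    rw [Finset.mem_coe, Finset.mem_sdiff] at he ⊢
    rw [blk_sh, blk_sh]
    exact he
  have hae' : ∀ e, (trl v.1 v.2).φ e ∈ AE v d k → e ∈ AE (0, 0) d k := by
    intro e he
    unfold AE at he ⊢
    rw [Finset.mem_coe, Finset.mem_sdiff] at he ⊢
    rw [blk_sh, blk_sh] at he
    exact he
  obtain ⟨u, hu, ⟨w, hw, hwu⟩, x, hx, y, hy, hxy⟩ := h
  have hclu : ∀ t, (trl v.1 v.2).ψ t ∈ Clu v d k F ((trl v.1 v.2).ψ u) →
      t ∈ Clu (0, 0) d k (shc v F) u := by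
    intro t ht
    have h1 := (trl v.1 v.2).inv.reach ht
    have h2 : (trl v.1 v.2).inv.ψ ((trl v.1 v.2).ψ u) = u := (trl v.1 v.2).ψ.symm_apply_apply u
    have h3 : (trl v.1 v.2).inv.ψ ((trl v.1 v.2).ψ t) = t := (trl v.1 v.2).ψ.symm_apply_apply t
    rw [h2, h3] at h1
    refine h1.mono ?_
    rintro _ ⟨e, ⟨h4, h5⟩, rfl⟩
    have h6 : (trl v.1 v.2).φ ((trl v.1 v.2).inv.φ e) = e := (trl v.1 v.2).φ.apply_symm_apply e
    refine ⟨?_, hae' _ (by rw [h6]; exact h5)⟩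
    show (trl v.1 v.2).φ ((trl v.1 v.2).inv.φ e) ∈ F
    rw [h6]
    exact h4
  refine ⟨(trl v.1 v.2).ψ u, bdB_sh.2 hu, ⟨(trl v.1 v.2).ψ w, bdB_sh.2 hw, ?_⟩,
    (trl v.1 v.2).ψ x, bdB_sh.2 hx, (trl v.1 v.2).ψ y, bdB_sh.2 hy, ?_⟩
  · refine reach_sh ?_ hwu
    rintro e ⟨h1, h2⟩
    exact ⟨h1, hae e h2⟩
  · refine reach_sh ?_ hxy
    rintro e ⟨h1, h2, h3⟩
    refine ⟨hae e h1, ?_, ?_⟩
    · rw [src_trl]
      exact fun h => h2 (hclu _ h)
    · rw [tgt_trl]
      exact fun h => h3 (hclu _ h)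

theorem sd_le_of_BX {k : ℕ} {u : Vtx} (h : BX (0, 0) k u) : sd u (0, 0) ≤ k := by
  unfold BX inR at h
  unfold sd
  simp only [zero_sub, zero_add, sub_zero] at h ⊢
  exact max_le (abs_le.2 ⟨h.1.1, h.1.2⟩) (abs_le.2 ⟨h.2.1, h.2.2⟩)

theorem blk_zero (m : ℕ) : blk (0, 0) m = boxE m := by
  unfold blk boxE
  simp

theorem t_IMP : S_IMP := by
  intro M B k h p v F hM hB hh hk hG
  obtain ⟨⟨hT, -⟩, s, t, hs, -, -, hr⟩ := hG
  apply A3v_sh
  generalize shc v F = G at hT hr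
  obtain ⟨x, hx, y1, -, -, hxy⟩ := hT
  have hr' : Reach G (0, 0) s := hr.mono (by
    rintro e ⟨⟨h1, -⟩, -⟩
    exact h1)
  have hOO : BX (0, 0) 2 (0, 0) := by
    unfold BX inR
    simp
  have hs10 : ¬ BX (0, 0) (k + 10 * h) s := by
    unfold BX inR
    push_cast
    omega
  have hs2 : ¬ BX (0, 0) 2 s := by
    unfold BX inR
    push_cast
    omega
  have hsj : ¬ BX (0, 0) (k / 2) s := by
    unfold BX inR
    push_cast
    omega
  rcases lastX hOO hr' with h1 | ⟨u, hu, -, h2⟩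
  · exact absurd h1 hs2
  obtain ⟨y8, hy8, h8⟩ : ∃ y8 ∈ bdB (0, 0) (k + 10 * h),
      Reach (G ∩ ↑(blk (0, 0) (k + 10 * h))) u y8 := by
    rcases firstX (k := k + 10 * h) (bdB_BX (by omega) hu) h2 with h3 | ⟨y8, hy8, h3⟩
    · exact absurd h3.1 hs10
    · exact ⟨y8, hy8, h3.mono (Set.inter_subset_inter_left _ Set.sdiff_subset)⟩
  obtain ⟨yj, hyj, hj1⟩ : ∃ yj ∈ bdB (0, 0) (k / 2), Reach (G ∩ AE (0, 0) 2 (k / 2)) u yj := by
    rcases firstX (k := k / 2) (bdB_BX (by omega) hu) h2 with h3 | ⟨yj, hyj, h3⟩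
    · exact absurd h3.1 hsj
    · refine ⟨yj, hyj, h3.mono ?_⟩
      rintro e ⟨⟨h4, h5⟩, h6⟩
      refine ⟨h4, ?_⟩
      show e ∈ (↑(blk (0, 0) (k / 2) \ blk (0, 0) 2) : Set Edg)
      rw [Finset.coe_sdiff]
      exact ⟨h6, h5⟩
  have hsub : ∀ t, t ∈ Clu (0, 0) 2 (k / 2) G u → t ∈ BBo k h G := by
    intro t ht
    have h3 : Reach (G ∩ AE (0, 0) 2 (k / 2)) u t := ht
    have hBX : BX (0, 0) (k / 2) t := by
      clear ht
      induction h3 with
      | refl => exact bdB_BX (by omega) hu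
      | @tail a b hab hs ih =>
        obtain ⟨e, ⟨-, he⟩, hc⟩ := hs
        unfold AE at he
        rw [Finset.mem_coe, Finset.mem_sdiff] at he
        have h4 := re_ends he.1
        rcases hc with ⟨h5, h6⟩ | ⟨h5, h6⟩
        · rw [← h6]; exact h4.2
        · rw [← h5]; exact h4.1
    refine ⟨(sd_le_of_BX hBX).trans (by omega), y8, hy8, ?_⟩
    rw [← blk_zero]
    refine Reach.trans ?_ h8
    refine Reach.symm (h3.mono ?_)
    rintro e ⟨h4, h5⟩
    refine ⟨h4, ?_⟩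
    unfold AE at h5
    rw [Finset.mem_coe, Finset.mem_sdiff] at h5
    rw [Finset.mem_coe]
    have : blk (0, 0) (k / 2) ⊆ blk (0, 0) (k + 10 * h) := by
      unfold blk
      apply RE_subset <;> push_cast <;> omega
    exact this h5.1
  have hyj2 : ¬ BX (0, 0) (k / 2) (y1, -(k : ℤ)) := by
    unfold BX inR
    push_cast
    omega
  obtain ⟨p', hp', q, hq, hpq⟩ := annX (by omega) (bdB_BX le_rfl hx) hyj2 hxy
  refine ⟨u, hu, ⟨yj, hyj, hj1⟩, p', hp', q, hq, hpq.mono ?_⟩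
  rintro e ⟨⟨-, h6, h7⟩, h8'⟩
  have key : ∀ t, t ∈ BBo k h G → ¬ Awy M B k (0, 0) t t := by
    intro t _ h9
    unfold Awy at h9
    rw [sd_self, mul_zero] at h9
    exact absurd h9 (not_lt.2 (pow_nonneg (sd_nonneg _ _) _))
  exact ⟨h8', fun h => key _ (hsub _ h) (h6 _ (hsub _ h)),
    fun h => key _ (hsub _ h) (h7 _ (hsub _ h))⟩

end Pool.Agent.Y997.OBL.TP3
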