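import Pool.Agent.Y997.OBL.Stm
import Pool.Agent.H985R3.IL.IL2

/-!
# OBL-TPJ: open arc around the box
-/

set_option autoImplicit false

namespace Pool.Agent.Y997.OBL.TPJ

open Pool.Agent.Y997.OBL
open H974 H12S Finset H984P H984N Pool.Agent.Y989.FR
open Pool.Agent.W92.DP (DTB DLR shc)

/-! ### Crossings of the same rectangle -/

theorem meet {G G1 G2 : Set Edg} (hG1 : G1 ⊆ G) (hG2 : G2 ⊆ G) {a b c d : ℤ} (hab : a < b)
    (hcd : c < d)
    (hH1 : ∀ x y, ((x, y, true) : Edg) ∈ G1 → a ≤ x → x < b → c ≤ y ∧ y ≤ d)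
    (hV1 : ∀ x y, ((x, y, false) : Edg) ∈ G1 → a < x → x < b → c ≤ y ∧ y < d)
    {u v : Vtx} (h1 : Reach G1 u v) (hu : u.1 ≤ a) (hv : b ≤ v.1)
    (hV2 : ∀ x y, ((x, y, false) : Edg) ∈ G2 → c ≤ y → y < d → a ≤ x ∧ x ≤ b)
    (hH2 : ∀ x y, ((x, y, true) : Edg) ∈ G2 → c < y → y < d → a ≤ x ∧ x < b)
    {u' v' : Vtx} (h2 : Reach G2 u' v') (hu' : u'.2 ≤ c) (hv' : d ≤ v'.2) : Reach G u u' := by
  obtain ⟨y1, y2, k1, k2, k3, k4⟩ := sub_LR hab hH1 hV1 h1 hu hv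
  obtain ⟨x1, x2, l1, l2, l3, l4⟩ := sub_TB hcd hV2 hH2 h2 hu' hv'
  have m := crossings_meet hab hcd.le (F := G) k2 l1
    (k3.mono (by rintro e ⟨h7, h8⟩; exact ⟨hG1 h7, h8⟩))
    (l3.mono (by rintro e ⟨h7, h8⟩; exact ⟨hG2 h7, h8⟩))
  exact (k4.mono hG1).trans ((m.mono Set.inter_subset_left).trans (l4.symm.mono hG2))

/-- A path in the strip below the box stays on one side of the tube. -/
theorem side {G : Set Edg} {a b c d p q : ℤ} (hcd : c < d) (hpq : p + 2 ≤ q)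
    (hG : ∀ x y, ((x, y, true) : Edg) ∈ G → c ≤ y → y ≤ d → x < p ∨ q ≤ x)
    (hG' : ∀ x y, ((x, y, false) : Edg) ∈ G → c ≤ y → y < d → x < p ∨ q < x ∨ x = p ∨ x = q)
    {x1 x2 : ℤ} (h : Reach (G ∩ ↑(TBE a b c d)) (x1, c) (x2, d)) :
    (x1 ≤ p ∧ x2 ≤ p ∧ Reach (G ∩ ↑(TBE a p c d)) (x1, c) (x2, d)) ∨
      (q ≤ x1 ∧ q ≤ x2 ∧ Reach (G ∩ ↑(TBE q b c d)) (x1, c) (x2, d)) := by
  have hL : x1 ≤ p → ∀ w, Reach (G ∩ ↑(TBE a b c d)) (x1, c) w →
      w.1 ≤ p ∧ Reach (G ∩ ↑(TBE a p c d)) (x1, c) w := by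
    intro h1 w hw
    induction hw with
    | refl => exact ⟨h1, Reach.refl _ _⟩
    | @tail w w' _ hs ih =>
      obtain ⟨⟨x0, y0, bo⟩, ⟨heG, heR⟩, hcase⟩ := hs
      obtain ⟨ih1, ih2⟩ := ih
      have key : w'.1 ≤ p ∧ ((x0, y0, bo) : Edg) ∈ TBE a p c d := by
        cases bo
        · simp only [src_mk, tgt_false] at hcase
          rw [mem_coe, mem_TBE_false] at heR
          rw [mem_TBE_false]
          have h3 := hG' x0 y0 heG heR.2.2.1 heR.2.2.2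
          rcases hcase with ⟨h4, h5⟩ | ⟨h4, h5⟩
          · rw [← h4] at ih1; rw [← h5]; simp only at ih1 ⊢; omega
          · rw [← h5] at ih1; rw [← h4]; simp only at ih1 ⊢; omega
        · simp only [src_mk, tgt_true] at hcase
          rw [mem_coe, mem_TBE_true] at heR
          rw [mem_TBE_true]
          have h3 := hG x0 y0 heG heR.2.2.1.le heR.2.2.2.le
          rcases hcase with ⟨h4, h5⟩ | ⟨h4, h5⟩
          · rw [← h4] at ih1; rw [← h5]; simp only at ih1 ⊢; omega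
          · rw [← h5] at ih1; rw [← h4]; simp only at ih1 ⊢; omega
      exact ⟨key.1, ih2.trans (Adj.reach ⟨_, ⟨heG, key.2⟩, hcase⟩)⟩
  have hR : q ≤ x1 → ∀ w, Reach (G ∩ ↑(TBE a b c d)) (x1, c) w →
      q ≤ w.1 ∧ Reach (G ∩ ↑(TBE q b c d)) (x1, c) w := by
    intro h1 w hw
    induction hw with
    | refl => exact ⟨h1, Reach.refl _ _⟩
    | @tail w w' _ hs ih =>
      obtain ⟨⟨x0, y0, bo⟩, ⟨heG, heR⟩, hcase⟩ := hs
      obtain ⟨ih1, ih2⟩ := ih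
      have key : q ≤ w'.1 ∧ ((x0, y0, bo) : Edg) ∈ TBE q b c d := by
        cases bo
        · simp only [src_mk, tgt_false] at hcase
          rw [mem_coe, mem_TBE_false] at heR
          rw [mem_TBE_false]
          have h3 := hG' x0 y0 heG heR.2.2.1 heR.2.2.2
          rcases hcase with ⟨h4, h5⟩ | ⟨h4, h5⟩
          · rw [← h4] at ih1; rw [← h5]; simp only at ih1 ⊢; omega
          · rw [← h5] at ih1; rw [← h4]; simp only at ih1 ⊢; omega
        · simp only [src_mk, tgt_true] at hcase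
          rw [mem_coe, mem_TBE_true] at heR
          rw [mem_TBE_true]
          have h3 := hG x0 y0 heG heR.2.2.1.le heR.2.2.2.le
          rcases hcase with ⟨h4, h5⟩ | ⟨h4, h5⟩
          · rw [← h4] at ih1; rw [← h5]; simp only at ih1 ⊢; omega
          · rw [← h5] at ih1; rw [← h4]; simp only at ih1 ⊢; omega
      exact ⟨key.1, ih2.trans (Adj.reach ⟨_, ⟨heG, key.2⟩, hcase⟩)⟩
  have hst : x1 ≤ p ∨ q ≤ x1 := by
    rcases Relation.ReflTransGen.cases_head h with h1 | ⟨w, ⟨⟨x0, y0, bo⟩, ⟨heG, heR⟩, hcase⟩, -⟩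
    · simp only [Prod.mk.injEq] at h1
      omega
    · cases bo
      · simp only [src_mk, tgt_false] at hcase
        rw [mem_coe, mem_TBE_false] at heR
        have h3 := hG' x0 y0 heG heR.2.2.1 heR.2.2.2
        rcases hcase with ⟨h4, h5⟩ | ⟨h4, h5⟩
        · simp only [Prod.mk.injEq] at h4; omega
        · simp only [Prod.mk.injEq] at h5; omega
      · simp only [src_mk, tgt_true] at hcase
        rw [mem_coe, mem_TBE_true] at heR
        rcases hcase with ⟨h4, h5⟩ | ⟨h4, h5⟩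
        · simp only [Prod.mk.injEq] at h4; omega
        · simp only [Prod.mk.injEq] at h5; omega
  rcases hst with h1 | h1
  · have := hL h1 _ h
    exact Or.inl ⟨h1, this.1, this.2⟩
  · have := hR h1 _ h
    exact Or.inr ⟨h1, this.1, this.2⟩

/-! ### The five crossings -/

/-- The five crossings. -/
def XE (k h : ℕ) (p : ℤ) (F : Finset Edg) : Prop :=
  LRc (-(k : ℤ) - 14 * h) (p - 8 * h) (-(k : ℤ) - 14 * h) (-(k : ℤ) - 12 * h) F ∧
  TBc (-(k : ℤ) - 14 * h) (-(k : ℤ) - 12 * h) (-(k : ℤ) - 14 * h) ((k : ℤ) + 14 * h) F ∧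
  LRc (-(k : ℤ) - 14 * h) ((k : ℤ) + 14 * h) ((k : ℤ) + 12 * h) ((k : ℤ) + 14 * h) F ∧
  TBc ((k : ℤ) + 12 * h) ((k : ℤ) + 14 * h) (-(k : ℤ) - 14 * h) ((k : ℤ) + 14 * h) F ∧
  LRc (p + 8 * h) ((k : ℤ) + 14 * h) (-(k : ℤ) - 14 * h) (-(k : ℤ) - 12 * h) F

theorem XE.mono {k h : ℕ} {p : ℤ} {F G : Finset Edg} (hFG : F ⊆ G) (hF : XE k h p F) :
    XE k h p G :=
  ⟨hF.1.mono hFG, hF.2.1.mono hFG, hF.2.2.1.mono hFG, hF.2.2.2.1.mono hFG, hF.2.2.2.2.mono hFG⟩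

theorem det {k h : ℕ} {p : ℤ} (hh : 1 ≤ h) (hk : 1 ≤ k) (hp : |p| ≤ k) {F : Finset Edg}
    (hA : Aro k h p (↑F : Set Edg)) (hX : XE k h p F) : Top k h p (↑F : Set Edg) := by
  have hp1 := (abs_le.1 hp).1
  have hp2 := (abs_le.1 hp).2
  obtain ⟨X1, X2, X3, X4, X5⟩ := hX
  obtain ⟨y1, y1', a1, b1, r1⟩ := X1
  obtain ⟨x2, x2', a2, b2, r2⟩ := X2
  obtain ⟨y3, y3', a3, b3, r3⟩ := X3
  obtain ⟨x4, x4', a4, b4, r4⟩ := X4
  obtain ⟨y5, y5', a5, b5, r5⟩ := X5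
  set G : Set Edg := (↑F ∩ ↑(boxE (k + 14 * h))) \ ↑(Tb k h p) with hGdef
  have hGt : ∀ x y, ((x, y, true) : Edg) ∈ G ↔ ((x, y, true) ∈ F ∧
      (-((k : ℤ) + 14 * h) ≤ x ∧ x < (k : ℤ) + 14 * h ∧ -((k : ℤ) + 14 * h) ≤ y ∧ y ≤ (k : ℤ) + 14 * h)) ∧
      ¬ (p - 8 * h ≤ x ∧ x < p + 8 * h ∧ -(k : ℤ) - 14 * h ≤ y ∧ y ≤ -(k : ℤ) + 4 * h) := by
    intro x y
    rw [hGdef]
    unfold boxE Tb
    rw [Set.mem_sdiff, Set.mem_inter_iff, mem_coe, mem_coe, mem_coe, mem_RE_true, mem_RE_true]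
    push_cast
    rfl
  have hGf : ∀ x y, ((x, y, false) : Edg) ∈ G ↔ ((x, y, false) ∈ F ∧
      (-((k : ℤ) + 14 * h) ≤ x ∧ x ≤ (k : ℤ) + 14 * h ∧ -((k : ℤ) + 14 * h) ≤ y ∧ y < (k : ℤ) + 14 * h)) ∧
      ¬ (p - 8 * h ≤ x ∧ x ≤ p + 8 * h ∧ -(k : ℤ) - 14 * h ≤ y ∧ y < -(k : ℤ) + 4 * h) := by
    intro x y
    rw [hGdef]
    unfold boxE Tb
    rw [Set.mem_sdiff, Set.mem_inter_iff, mem_coe, mem_coe, mem_coe, mem_RE_false, mem_RE_false]
    push_cast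
    rfl
  have up : ∀ {E : Finset Edg}, (∀ e ∈ E, e ∈ F → e ∈ G) → (↑F : Set Edg) ∩ ↑E ⊆ G ∩ ↑E := by
    intro E hE e he
    exact ⟨hE e (mem_coe.1 he.2) (mem_coe.1 he.1), he.2⟩
  have r1 := r1.mono (up (by
    rintro ⟨x, y, _ | _⟩ he hF
    · rw [mem_LRE_false] at he; rw [hGf]; refine ⟨⟨hF, ?_⟩, ?_⟩ <;> omega
    · rw [mem_LRE_true] at he; rw [hGt]; refine ⟨⟨hF, ?_⟩, ?_⟩ <;> omega))
  have r2 := r2.mono (up (by
    rintro ⟨x, y, _ | _⟩ he hF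
    · rw [mem_TBE_false] at he; rw [hGf]; refine ⟨⟨hF, ?_⟩, ?_⟩ <;> omega
    · rw [mem_TBE_true] at he; rw [hGt]; refine ⟨⟨hF, ?_⟩, ?_⟩ <;> omega))
  have r3 := r3.mono (up (by
    rintro ⟨x, y, _ | _⟩ he hF
    · rw [mem_LRE_false] at he; rw [hGf]; refine ⟨⟨hF, ?_⟩, ?_⟩ <;> omega
    · rw [mem_LRE_true] at he; rw [hGt]; refine ⟨⟨hF, ?_⟩, ?_⟩ <;> omega))
  have r4 := r4.mono (up (by
    rintro ⟨x, y, _ | _⟩ he hF
    · rw [mem_TBE_false] at he; rw [hGf]; refine ⟨⟨hF, ?_⟩, ?_⟩ <;> omega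
    · rw [mem_TBE_true] at he; rw [hGt]; refine ⟨⟨hF, ?_⟩, ?_⟩ <;> omega))
  have r5 := r5.mono (up (by
    rintro ⟨x, y, _ | _⟩ he hF
    · rw [mem_LRE_false] at he; rw [hGf]; refine ⟨⟨hF, ?_⟩, ?_⟩ <;> omega
    · rw [mem_LRE_true] at he; rw [hGt]; refine ⟨⟨hF, ?_⟩, ?_⟩ <;> omega))
  -- consecutive crossings meet
  have m12 : Reach G (-(k : ℤ) - 14 * h, y1) (x2, -(k : ℤ) - 14 * h) :=
    meet (G := G) Set.inter_subset_left Set.inter_subset_left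
      (a := -(k : ℤ) - 14 * h) (b := -(k : ℤ) - 12 * h) (c := -(k : ℤ) - 14 * h)
      (d := -(k : ℤ) - 12 * h) (by omega) (by omega)
      (by rintro x y ⟨-, he⟩ _ _; rw [mem_coe, mem_LRE_true] at he; omega)
      (by rintro x y ⟨-, he⟩ _ _; rw [mem_coe, mem_LRE_false] at he; omega) r1 le_rfl
      (by simp only; omega)
      (by rintro x y ⟨-, he⟩ _ _; rw [mem_coe, mem_TBE_false] at he; omega)
      (by rintro x y ⟨-, he⟩ _ _; rw [mem_coe, mem_TBE_true] at he; omega) r2 le_rfl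
      (by simp only; omega)
  have m32 : Reach G (-(k : ℤ) - 14 * h, y3) (x2, -(k : ℤ) - 14 * h) :=
    meet (G := G) Set.inter_subset_left Set.inter_subset_left
      (a := -(k : ℤ) - 14 * h) (b := -(k : ℤ) - 12 * h) (c := (k : ℤ) + 12 * h)
      (d := (k : ℤ) + 14 * h) (by omega) (by omega)
      (by rintro x y ⟨-, he⟩ _ _; rw [mem_coe, mem_LRE_true] at he; omega)
      (by rintro x y ⟨-, he⟩ _ _; rw [mem_coe, mem_LRE_false] at he; omega) r3 le_rfl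
      (by simp only; omega)
      (by rintro x y ⟨-, he⟩ _ _; rw [mem_coe, mem_TBE_false] at he; omega)
      (by rintro x y ⟨-, he⟩ _ _; rw [mem_coe, mem_TBE_true] at he; omega) r2
      (by simp only; omega) le_rfl
  have m34 : Reach G (-(k : ℤ) - 14 * h, y3) (x4, -(k : ℤ) - 14 * h) :=
    meet (G := G) Set.inter_subset_left Set.inter_subset_left
      (a := (k : ℤ) + 12 * h) (b := (k : ℤ) + 14 * h) (c := (k : ℤ) + 12 * h)
      (d := (k : ℤ) + 14 * h) (by omega) (by omega)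
      (by rintro x y ⟨-, he⟩ _ _; rw [mem_coe, mem_LRE_true] at he; omega)
      (by rintro x y ⟨-, he⟩ _ _; rw [mem_coe, mem_LRE_false] at he; omega) r3
      (by simp only; omega) le_rfl
      (by rintro x y ⟨-, he⟩ _ _; rw [mem_coe, mem_TBE_false] at he; omega)
      (by rintro x y ⟨-, he⟩ _ _; rw [mem_coe, mem_TBE_true] at he; omega) r4
      (by simp only; omega) le_rfl
  have m54 : Reach G (p + 8 * h, y5) (x4, -(k : ℤ) - 14 * h) :=
    meet (G := G) Set.inter_subset_left Set.inter_subset_left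
      (a := (k : ℤ) + 12 * h) (b := (k : ℤ) + 14 * h) (c := -(k : ℤ) - 14 * h)
      (d := -(k : ℤ) - 12 * h) (by omega) (by omega)
      (by rintro x y ⟨-, he⟩ _ _; rw [mem_coe, mem_LRE_true] at he; omega)
      (by rintro x y ⟨-, he⟩ _ _; rw [mem_coe, mem_LRE_false] at he; omega) r5
      (by simp only; omega) le_rfl
      (by rintro x y ⟨-, he⟩ _ _; rw [mem_coe, mem_TBE_false] at he; omega)
      (by rintro x y ⟨-, he⟩ _ _; rw [mem_coe, mem_TBE_true] at he; omega) r4 le_rfl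
      (by simp only; omega)
  have m13 : Reach G (-(k : ℤ) - 14 * h, y1) (-(k : ℤ) - 14 * h, y3) := m12.trans m32.symm
  have m53 : Reach G (p + 8 * h, y5) (-(k : ℤ) - 14 * h, y3) := m54.trans m34.symm
  -- the path meets one of the crossings
  have hO : Reach G (0, 0) (-(k : ℤ) - 14 * h, y3) := by
    obtain ⟨w, hw, hr⟩ := hA
    have hw' : (w.1 = -(k : ℤ) - 14 * h ∨ w.1 = (k : ℤ) + 14 * h ∨ w.2 = -(k : ℤ) - 14 * h ∨
        w.2 = (k : ℤ) + 14 * h) := by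
      unfold bdB at hw
      rw [Set.mem_ofPred_eq] at hw
      obtain ⟨h1, h2, h3⟩ := hw
      simp only [sub_zero] at h1 h2 h3
      push_cast at h1 h2 h3
      rcases h3 with h3 | h3
      · rcases (abs_eq (by positivity)).1 h3 with h4 | h4 <;> omega
      · rcases (abs_eq (by positivity)).1 h3 with h4 | h4 <;> omega
    change Reach G (0, 0) w at hr
    rcases hw' with h1 | h1 | h1 | h1
    · -- left
      have := meet (G := G) (G1 := G) (le_refl _) Set.inter_subset_left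
        (a := -(k : ℤ) - 14 * h) (b := -(k : ℤ) - 12 * h) (c := -(k : ℤ) - 14 * h)
        (d := (k : ℤ) + 14 * h) (by omega) (by omega)
        (by intro x y he _ _; rw [hGt] at he; omega)
        (by intro x y he _ _; rw [hGf] at he; omega) hr.symm h1.le
        (by simp only; omega)
        (by rintro x y ⟨-, he⟩ _ _; rw [mem_coe, mem_TBE_false] at he; omega)
        (by rintro x y ⟨-, he⟩ _ _; rw [mem_coe, mem_TBE_true] at he; omega) r2 le_rfl le_rfl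
      exact (hr.trans this).trans m32.symm
    · -- right
      have := meet (G := G) (G1 := G) (le_refl _) Set.inter_subset_left
        (a := (k : ℤ) + 12 * h) (b := (k : ℤ) + 14 * h) (c := -(k : ℤ) - 14 * h)
        (d := (k : ℤ) + 14 * h) (by omega) (by omega)
        (by intro x y he _ _; rw [hGt] at he; omega)
        (by intro x y he _ _; rw [hGf] at he; omega) hr (by simp only; omega) h1.ge
        (by rintro x y ⟨-, he⟩ _ _; rw [mem_coe, mem_TBE_false] at he; omega)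
        (by rintro x y ⟨-, he⟩ _ _; rw [mem_coe, mem_TBE_true] at he; omega) r4 le_rfl le_rfl
      exact this.trans m34.symm
    · -- bottom
      obtain ⟨z1, z2, l1, l2, l3, l4⟩ := sub_TB (G := G) (a := -(k : ℤ) - 14 * h)
        (b := (k : ℤ) + 14 * h) (c := -(k : ℤ) - 14 * h) (d := -(k : ℤ) - 12 * h) (by omega)
        (by intro x y he _ _; rw [hGf] at he; omega)
        (by intro x y he _ _; rw [hGt] at he; omega) hr.symm h1.le (by simp only; omega)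
      rcases side (p := p - 8 * h) (q := p + 8 * h) (by omega) (by omega)
        (by intro x y he _ _; rw [hGt] at he; omega)
        (by intro x y he _ _; rw [hGf] at he; omega) l3 with ⟨s1, s2, s3⟩ | ⟨s1, s2, s3⟩
      · have m := crossings_meet (by omega) (by omega) (F := G) b1 ⟨l1.1, s1⟩ r1 s3
        exact (hr.trans l4).trans ((m.symm.mono Set.inter_subset_left).trans m13)
      · have m := crossings_meet (by omega) (by omega) (F := G) b5 ⟨s1, l1.2⟩ r5 s3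
        exact (hr.trans l4).trans ((m.symm.mono Set.inter_subset_left).trans m53)
    · -- top
      have := meet (G := G) (G2 := G) Set.inter_subset_left (le_refl _)
        (a := -(k : ℤ) - 14 * h) (b := (k : ℤ) + 14 * h) (c := (k : ℤ) + 12 * h)
        (d := (k : ℤ) + 14 * h) (by omega) (by omega)
        (by rintro x y ⟨-, he⟩ _ _; rw [mem_coe, mem_LRE_true] at he; omega)
        (by rintro x y ⟨-, he⟩ _ _; rw [mem_coe, mem_LRE_false] at he; omega) r3 le_rfl le_rfl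
        (by intro x y he _ _; rw [hGf] at he; omega)
        (by intro x y he _ _; rw [hGt] at he; omega) hr (by simp only; omega) h1.ge
      exact this.symm
  -- the crossing above the box
  obtain ⟨z1, z2, l1, l2, l3, l4⟩ := sub_LR (a := -(k : ℤ)) (b := (k : ℤ)) (c := (k : ℤ) + 12 * h)
    (d := (k : ℤ) + 14 * h) (by omega)
    (by rintro x y ⟨-, he⟩ _ _; rw [mem_coe, mem_LRE_true] at he; omega)
    (by rintro x y ⟨-, he⟩ _ _; rw [mem_coe, mem_LRE_false] at he; omega) r3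
    (by simp only; omega) (by simp only; omega)
  refine ⟨(-(k : ℤ), z1), ((k : ℤ), z2), ⟨rfl, l1.1, l1.2⟩, ⟨rfl, l2.1, l2.2⟩, ?_, ?_⟩
  · refine l3.mono ?_
    rintro e ⟨⟨⟨⟨h1, -⟩, -⟩, -⟩, h2⟩
    exact ⟨h1, LRE_subset_RE h2⟩
  · exact hO.trans (l4.mono Set.inter_subset_left)

/-! ### Probability -/

theorem Zo_congr {M B k h : ℕ} {p : ℤ} {F G : Set Edg}
    (hFG : ∀ e ∈ boxE (k + 10 * h), e ∈ F ↔ e ∈ G) (hF : Zo M B k h p F) : Zo M B k h p G := by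
  have h1 : F ∩ ↑(boxE (k + 10 * h)) = G ∩ ↑(boxE (k + 10 * h)) := by
    ext e
    constructor
    · rintro ⟨h1, h2⟩
      exact ⟨(hFG e h2).1 h1, h2⟩
    · rintro ⟨h1, h2⟩
      exact ⟨(hFG e h2).2 h1, h2⟩
  have h2 : BBo k h F = BBo k h G := by
    unfold BBo
    rw [h1]
  unfold Zo at hF ⊢
  rw [← h2]
  exact hF

theorem pr_XE (q : ℕ) : ∃ c : ℝ, 0 < c ∧ ∀ (h : ℕ) (p : ℤ), 1 ≤ h → |p| ≤ (q * h : ℕ) →
    ∀ S : Finset Edg, boxE (q * h + 14 * h) ⊆ S → c ≤ PQ (1/2) S (XE (q * h) h p) := by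
  obtain ⟨δ, hδ, hr⟩ := H985IL.IL2.rswK (q + 14)
  refine ⟨δ * (δ * (δ * (δ * δ))), by positivity, ?_⟩
  intro h p hh1 hp S hS
  set k := q * h with hk
  have hp1 := (abs_le.1 hp).1
  have hp2 := (abs_le.1 hp).2
  have hkz : (k : ℤ) + 14 * h = ((q + 14 : ℕ) : ℤ) * h := by
    rw [hk]; push_cast; ring
  have hE : ∀ E : Finset Edg, E ⊆ RE (-((k : ℤ) + 14 * h)) ((k : ℤ) + 14 * h)
      (-((k : ℤ) + 14 * h)) ((k : ℤ) + 14 * h) → E ⊆ S := by
    intro E hE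
    refine hE.trans (le_trans (le_of_eq ?_) hS)
    unfold boxE
    push_cast
    rfl
  have p1 : δ ≤ PQ (1/2) S (LRc (-(k : ℤ) - 14 * h) (p - 8 * h) (-(k : ℤ) - 14 * h)
      (-(k : ℤ) - 12 * h)) := by
    have e : PQ (1/2) S (LRc (-(k : ℤ) - 14 * h) (p - 8 * h) (-(k : ℤ) - 14 * h)
      (-(k : ℤ) - 12 * h)) = hh (1/2) (p - 8 * h - (-(k : ℤ) - 14 * h))
      (-(k : ℤ) - 12 * h - (-(k : ℤ) - 14 * h)) := pr_LRc (1/2) (hE _ (by
        rintro ⟨x, y, _ | _⟩ he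
        · rw [mem_LRE_false] at he; rw [mem_RE_false]; omega
        · rw [mem_LRE_true] at he; rw [mem_RE_true]; omega))
    rw [e]
    refine hr _ _ (by omega) (by omega) ?_
    rw [show -(k : ℤ) - 12 * h - (-(k : ℤ) - 14 * h) = 2 * h by ring, show ((q + 14 : ℕ) : ℤ) * (2 * h) =
      2 * (((q + 14 : ℕ) : ℤ) * h) by ring, ← hkz]
    omega
  have p2 : δ ≤ PQ (1/2) S (TBc (-(k : ℤ) - 14 * h) (-(k : ℤ) - 12 * h) (-(k : ℤ) - 14 * h)
      ((k : ℤ) + 14 * h)) := by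
    have e : PQ (1/2) S (TBc (-(k : ℤ) - 14 * h) (-(k : ℤ) - 12 * h) (-(k : ℤ) - 14 * h)
      ((k : ℤ) + 14 * h)) = hh (1/2) ((k : ℤ) + 14 * h - (-(k : ℤ) - 14 * h))
      (-(k : ℤ) - 12 * h - (-(k : ℤ) - 14 * h)) := pr_TBc (1/2) (hE _ (by
        rintro ⟨x, y, _ | _⟩ he
        · rw [mem_TBE_false] at he; rw [mem_RE_false]; omega
        · rw [mem_TBE_true] at he; rw [mem_RE_true]; omega))
    rw [e]
    refine hr _ _ (by omega) (by omega) ?_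
    rw [show -(k : ℤ) - 12 * h - (-(k : ℤ) - 14 * h) = 2 * h by ring, show ((q + 14 : ℕ) : ℤ) * (2 * h) =
      2 * (((q + 14 : ℕ) : ℤ) * h) by ring, ← hkz]
    omega
  have p3 : δ ≤ PQ (1/2) S (LRc (-(k : ℤ) - 14 * h) ((k : ℤ) + 14 * h) ((k : ℤ) + 12 * h)
      ((k : ℤ) + 14 * h)) := by
    have e : PQ (1/2) S (LRc (-(k : ℤ) - 14 * h) ((k : ℤ) + 14 * h) ((k : ℤ) + 12 * h)
      ((k : ℤ) + 14 * h)) = hh (1/2) ((k : ℤ) + 14 * h - (-(k : ℤ) - 14 * h))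
      ((k : ℤ) + 14 * h - ((k : ℤ) + 12 * h)) := pr_LRc (1/2) (hE _ (by
        rintro ⟨x, y, _ | _⟩ he
        · rw [mem_LRE_false] at he; rw [mem_RE_false]; omega
        · rw [mem_LRE_true] at he; rw [mem_RE_true]; omega))
    rw [e]
    refine hr _ _ (by omega) (by omega) ?_
    rw [show (k : ℤ) + 14 * h - ((k : ℤ) + 12 * h) = 2 * h by ring, show ((q + 14 : ℕ) : ℤ) * (2 * h) =
      2 * (((q + 14 : ℕ) : ℤ) * h) by ring, ← hkz]
    omega
  have p4 : δ ≤ PQ (1/2) S (TBc ((k : ℤ) + 12 * h) ((k : ℤ) + 14 * h) (-(k : ℤ) - 14 * h)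
      ((k : ℤ) + 14 * h)) := by
    have e : PQ (1/2) S (TBc ((k : ℤ) + 12 * h) ((k : ℤ) + 14 * h) (-(k : ℤ) - 14 * h)
      ((k : ℤ) + 14 * h)) = hh (1/2) ((k : ℤ) + 14 * h - (-(k : ℤ) - 14 * h))
      ((k : ℤ) + 14 * h - ((k : ℤ) + 12 * h)) := pr_TBc (1/2) (hE _ (by
        rintro ⟨x, y, _ | _⟩ he
        · rw [mem_TBE_false] at he; rw [mem_RE_false]; omega
        · rw [mem_TBE_true] at he; rw [mem_RE_true]; omega))
    rw [e]
    refine hr _ _ (by omega) (by omega) ?_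
    rw [show (k : ℤ) + 14 * h - ((k : ℤ) + 12 * h) = 2 * h by ring, show ((q + 14 : ℕ) : ℤ) * (2 * h) =
      2 * (((q + 14 : ℕ) : ℤ) * h) by ring, ← hkz]
    omega
  have p5 : δ ≤ PQ (1/2) S (LRc (p + 8 * h) ((k : ℤ) + 14 * h) (-(k : ℤ) - 14 * h)
      (-(k : ℤ) - 12 * h)) := by
    have e : PQ (1/2) S (LRc (p + 8 * h) ((k : ℤ) + 14 * h) (-(k : ℤ) - 14 * h)
      (-(k : ℤ) - 12 * h)) = hh (1/2) ((k : ℤ) + 14 * h - (p + 8 * h))
      (-(k : ℤ) - 12 * h - (-(k : ℤ) - 14 * h)) := pr_LRc (1/2) (hE _ (by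
        rintro ⟨x, y, _ | _⟩ he
        · rw [mem_LRE_false] at he; rw [mem_RE_false]; omega
        · rw [mem_LRE_true] at he; rw [mem_RE_true]; omega))
    rw [e]
    refine hr _ _ (by omega) (by omega) ?_
    rw [show -(k : ℤ) - 12 * h - (-(k : ℤ) - 14 * h) = 2 * h by ring, show ((q + 14 : ℕ) : ℤ) * (2 * h) =
      2 * (((q + 14 : ℕ) : ℤ) * h) by ring, ← hkz]
    omega
  have i4 := TBc_incr S ((k : ℤ) + 12 * h) ((k : ℤ) + 14 * h) (-(k : ℤ) - 14 * h) ((k : ℤ) + 14 * h)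
  have i5 := LRc_incr S (p + 8 * h) ((k : ℤ) + 14 * h) (-(k : ℤ) - 14 * h) (-(k : ℤ) - 12 * h)
  have i3 := LRc_incr S (-(k : ℤ) - 14 * h) ((k : ℤ) + 14 * h) ((k : ℤ) + 12 * h) ((k : ℤ) + 14 * h)
  have i2 := TBc_incr S (-(k : ℤ) - 14 * h) (-(k : ℤ) - 12 * h) (-(k : ℤ) - 14 * h) ((k : ℤ) + 14 * h)
  have i1 := LRc_incr S (-(k : ℤ) - 14 * h) (p - 8 * h) (-(k : ℤ) - 14 * h) (-(k : ℤ) - 12 * h)
  have hand : ∀ {A B : Finset Edg → Prop}, IncrE S A → IncrE S B → δ ≤ PQ (1/2) S A →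
      ∀ {r : ℝ}, 0 ≤ r → r ≤ PQ (1/2) S B → δ * r ≤ PQ (1/2) S (fun F => A F ∧ B F) := by
    intro A B hA hB hAp r hr0 hBp
    have h1 : PQ (1/2) S A * PQ (1/2) S B ≤ PQ (1/2) S (fun F => A F ∧ B F) :=
      Pr_harris H973.okhalf hA hB
    exact (mul_le_mul hAp hBp hr0 (hδ.le.trans hAp)).trans h1
  have iand : ∀ {A B : Finset Edg → Prop}, IncrE S A → IncrE S B →
      IncrE S (fun F => A F ∧ B F) :=
    fun hA hB F G hFG hG h => ⟨hA F G hFG hG h.1, hB F G hFG hG h.2⟩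
  have q4 := hand i4 i5 p4 hδ.le p5
  have q3 := hand i3 (iand i4 i5) p3 (by positivity) q4
  have q2 := hand i2 (iand i3 (iand i4 i5)) p2 (by positivity) q3
  have q1 := hand i1 (iand i2 (iand i3 (iand i4 i5))) p1 (by positivity) q2
  exact q1

/-- The region of the five crossings. -/
noncomputable def UU (k h : ℕ) : Finset Edg := boxE (k + 14 * h) \ boxE (k + 10 * h)

theorem mem_UU_true {k h : ℕ} {x y : ℤ} : ((x, y, true) : Edg) ∈ UU k h ↔
    (-((k : ℤ) + 14 * h) ≤ x ∧ x < (k : ℤ) + 14 * h ∧ -((k : ℤ) + 14 * h) ≤ y ∧ y ≤ (k : ℤ) + 14 * h) ∧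
    ¬ (-((k : ℤ) + 10 * h) ≤ x ∧ x < (k : ℤ) + 10 * h ∧ -((k : ℤ) + 10 * h) ≤ y ∧ y ≤ (k : ℤ) + 10 * h) := by
  unfold UU boxE
  rw [Finset.mem_sdiff, mem_RE_true, mem_RE_true]
  push_cast
  rfl

theorem mem_UU_false {k h : ℕ} {x y : ℤ} : ((x, y, false) : Edg) ∈ UU k h ↔
    (-((k : ℤ) + 14 * h) ≤ x ∧ x ≤ (k : ℤ) + 14 * h ∧ -((k : ℤ) + 14 * h) ≤ y ∧ y < (k : ℤ) + 14 * h) ∧
    ¬ (-((k : ℤ) + 10 * h) ≤ x ∧ x ≤ (k : ℤ) + 10 * h ∧ -((k : ℤ) + 10 * h) ≤ y ∧ y < (k : ℤ) + 10 * h) := by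
  unfold UU boxE
  rw [Finset.mem_sdiff, mem_RE_false, mem_RE_false]
  push_cast
  rfl

theorem XE_local {k h : ℕ} {p : ℤ} (hh : 1 ≤ h) (hp : |p| ≤ k) (F : Finset Edg) :
    XE k h p F ↔ XE k h p (F ∩ UU k h) := by
  have hp1 := (abs_le.1 hp).1
  have hp2 := (abs_le.1 hp).2
  unfold XE
  rw [← LRc_local (S := UU k h), ← TBc_local (S := UU k h), ← LRc_local (S := UU k h),
    ← TBc_local (S := UU k h), ← LRc_local (S := UU k h)]
  · rintro ⟨x, y, _ | _⟩ he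
    · rw [mem_LRE_false] at he; rw [mem_UU_false]; omega
    · rw [mem_LRE_true] at he; rw [mem_UU_true]; omega
  · rintro ⟨x, y, _ | _⟩ he
    · rw [mem_TBE_false] at he; rw [mem_UU_false]; omega
    · rw [mem_TBE_true] at he; rw [mem_UU_true]; omega
  · rintro ⟨x, y, _ | _⟩ he
    · rw [mem_LRE_false] at he; rw [mem_UU_false]; omega
    · rw [mem_LRE_true] at he; rw [mem_UU_true]; omega
  · rintro ⟨x, y, _ | _⟩ he
    · rw [mem_TBE_false] at he; rw [mem_UU_false]; omega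
    · rw [mem_TBE_true] at he; rw [mem_UU_true]; omega
  · rintro ⟨x, y, _ | _⟩ he
    · rw [mem_LRE_false] at he; rw [mem_UU_false]; omega
    · rw [mem_LRE_true] at he; rw [mem_UU_true]; omega

theorem t_TPJ : S_TPJ := by
  intro q hq
  obtain ⟨c, hc, hX⟩ := pr_XE q
  refine ⟨c, hc, ?_⟩
  intro M B h p hB hh hp S hS
  have hXp := hX h p hh hp S hS
  have g1 : PQ (1/2) S (fun F => Zo M B (q * h) h p ↑F ∧ Aro (q * h) h p ↑F) *
      PQ (1/2) S (XE (q * h) h p) ≤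
      PQ (1/2) S (fun F => (Zo M B (q * h) h p ↑F ∧ Aro (q * h) h p ↑F) ∧ XE (q * h) h p F) := by
    apply H934F.t1a S (UU (q * h) h)
      (fun F => Zo M B (q * h) h p ↑F ∧ Aro (q * h) h p ↑F) (XE (q * h) h p)
      (Finset.sdiff_subset.trans hS)
    · rintro F G _ hFG hGF ⟨h1, h2⟩
      refine ⟨Zo_congr ?_ h1, ?_⟩
      · intro e he
        rw [mem_coe, mem_coe]
        refine ⟨fun h3 => hFG h3, fun h3 => ?_⟩
        rcases Finset.mem_union.1 (hGF h3) with h4 | h4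
        · exact h4
        · exact absurd he (Finset.mem_sdiff.1 h4).2
      · obtain ⟨w, hw, hr⟩ := h2
        refine ⟨w, hw, hr.mono ?_⟩
        rintro e ⟨⟨h3, h4⟩, h5⟩
        exact ⟨⟨mem_coe.2 (hFG (mem_coe.1 h3)), h4⟩, h5⟩
    · intro F G hFG hF
      exact hF.mono hFG
    · intro F
      exact XE_local hh hp F
  have q0 : 0 ≤ PQ (1/2) S (fun F => Zo M B (q * h) h p ↑F ∧ Aro (q * h) h p ↑F) :=
    Pr_nonneg H973.okhalf _ _
  calc c * PQ (1/2) S (fun F => Zo M B (q * h) h p ↑F ∧ Aro (q * h) h p ↑F)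
      ≤ PQ (1/2) S (fun F => Zo M B (q * h) h p ↑F ∧ Aro (q * h) h p ↑F) *
        PQ (1/2) S (XE (q * h) h p) := by
        rw [mul_comm]
        exact mul_le_mul_of_nonneg_left hXp q0
    _ ≤ _ := g1
    _ ≤ _ := by
        apply Pr_mono H973.okhalf
        rintro F _ ⟨⟨h1, h2⟩, h3⟩
        have hk : 1 ≤ q * h := Nat.mul_pos (by omega) hh
        exact ⟨h1, det hh hk hp h2 h3⟩

end Pool.Agent.Y997.OBL.TPJ
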