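import Pool.Agent.Y997.OBL.Stm

/-!
# The region above the explored cluster (S_UP, S_ZU)
-/

set_option autoImplicit false

namespace Pool.Agent.Y997.OBL.UP

open H974 H12S Finset H984P H984N Pool.Agent.Y989.FR Pool.Agent.Y997.OBL
open Pool.Agent.W92.DP (DTB DLR shc)

/-! ### The chain of the slit -/

theorem vb_slit {m : ℕ} (hm : 1 ≤ m) (v : Vtx) :
    H985T.vb (fun e => b2 (e ∈ slit m)) v = b2 (((0, 0) : Vtx) = v) + b2 ((((m : ℤ), 0) : Vtx) = v) := by
  obtain ⟨x, y⟩ := v
  unfold H985T.vb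
  have h3 : b2 ((x, y, false) ∈ slit m) = 0 := b2_not_of (fun h => by simp [slit] at h)
  have h4 : b2 ((x, y - 1, false) ∈ slit m) = 0 := b2_not_of (fun h => by simp [slit] at h)
  simp only [h3, h4, add_zero]
  by_cases hy : y = 0
  · subst hy
    have e1 : b2 (((x, 0, true) : Edg) ∈ slit m) = b2 (0 ≤ x ∧ x < m) :=
      b2_congr (by simp [slit])
    have e2 : b2 (((x - 1, 0, true) : Edg) ∈ slit m) = b2 (0 ≤ x - 1 ∧ x - 1 < m) :=
      b2_congr (by simp [slit])
    have e3 : b2 (((0, 0) : Vtx) = (x, 0)) = b2 (x = 0) :=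
      b2_congr (by simp [Prod.ext_iff, eq_comm])
    have e4 : b2 ((((m : ℤ), 0) : Vtx) = (x, 0)) = b2 (x = m) :=
      b2_congr (by simp [Prod.ext_iff, eq_comm])
    rw [e1, e2, e3, e4]
    by_cases hx0 : x = 0
    · rw [b2_of (show 0 ≤ x ∧ x < (m : ℤ) by omega),
        b2_not_of (show ¬ (0 ≤ x - 1 ∧ x - 1 < (m : ℤ)) by omega), b2_of hx0,
        b2_not_of (show ¬ x = (m : ℤ) by omega)]
    · by_cases hxm : x = m
      · rw [b2_not_of (show ¬ (0 ≤ x ∧ x < (m : ℤ)) by omega),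
          b2_of (show (0 ≤ x - 1 ∧ x - 1 < (m : ℤ)) by omega), b2_not_of hx0, b2_of hxm]
      · rw [b2_not_of hx0, b2_not_of hxm]
        by_cases h : 0 ≤ x ∧ x < (m : ℤ)
        · rw [b2_of h, b2_of (show (0 ≤ x - 1 ∧ x - 1 < (m : ℤ)) by omega), zmod2_add_self,
            add_zero]
        · rw [b2_not_of h, b2_not_of (show ¬ (0 ≤ x - 1 ∧ x - 1 < (m : ℤ)) by omega)]
  · have e1 : b2 (((x, y, true) : Edg) ∈ slit m) = 0 := b2_not_of (fun h => hy h.2.1)
    have e2 : b2 (((x - 1, y, true) : Edg) ∈ slit m) = 0 := b2_not_of (fun h => hy h.2.1)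
    have e3 : b2 (((0, 0) : Vtx) = (x, y)) = 0 :=
      b2_not_of (fun h => hy (congrArg Prod.snd h).symm)
    have e4 : b2 ((((m : ℤ), 0) : Vtx) = (x, y)) = 0 :=
      b2_not_of (fun h => hy (congrArg Prod.snd h).symm)
    rw [e1, e2, e3, e4]

/-! ### Faces and edges of the box -/

/-- the nearest inner face -/
def clmp (m : ℕ) (f : Vtx) : Vtx :=
  (max (-(m : ℤ)) (min ((m : ℤ) - 1) f.1), max (-(m : ℤ)) (min ((m : ℤ) - 1) f.2))

theorem clmp_inF {m : ℕ} {f : Vtx} (h : InF m f) : clmp m f = f := by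
  obtain ⟨x, y⟩ := f
  obtain ⟨⟨h1, h2⟩, h3, h4⟩ := h
  simp only at h1 h2 h3 h4
  unfold clmp
  simp only [Prod.mk.injEq]
  omega

theorem mem_boxE_true {m : ℕ} {x y : ℤ} :
    ((x, y, true) : Edg) ∈ boxE m ↔ -(m : ℤ) ≤ x ∧ x < m ∧ -(m : ℤ) ≤ y ∧ y ≤ m := by
  unfold boxE
  rw [mem_RE_true]

theorem mem_boxE_false {m : ℕ} {x y : ℤ} :
    ((x, y, false) : Edg) ∈ boxE m ↔ -(m : ℤ) ≤ x ∧ x ≤ m ∧ -(m : ℤ) ≤ y ∧ y < m := by
  unfold boxE
  rw [mem_RE_false]

theorem faces_box {m : ℕ} (hm : 1 ≤ m) {e : Edg} (he : e ∈ boxE m) :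
    (InF m (dsrc e) ∧ InF m (dtgt e)) ∨ clmp m (dsrc e) = clmp m (dtgt e) := by
  obtain ⟨x, y, b⟩ := e
  cases b
  · rw [mem_boxE_false] at he
    simp only [dsrc_false, dtgt_mk, InF, clmp, Prod.mk.injEq, true_and, and_true, true_or, or_true]
    omega
  · rw [mem_boxE_true] at he
    simp only [dsrc_true, dtgt_mk, InF, clmp, Prod.mk.injEq, true_and, and_true, true_or, or_true]
    omega

theorem inner_face {m : ℕ} (hm : 1 ≤ m) {e : Edg} (he : e ∈ boxE m) :
    InF m (dsrc e) ∨ InF m (dtgt e) := by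
  obtain ⟨x, y, b⟩ := e
  cases b
  · rw [mem_boxE_false] at he
    simp only [dsrc_false, dtgt_mk, InF, true_and, and_true, true_or, or_true]
    omega
  · rw [mem_boxE_true] at he
    simp only [dsrc_true, dtgt_mk, InF, true_and, and_true, true_or, or_true]
    omega

theorem box_of_inner {m : ℕ} {e : Edg} (h1 : InF m (dsrc e)) (h2 : InF m (dtgt e)) :
    e ∈ boxE m := by
  obtain ⟨x, y, b⟩ := e
  cases b
  · rw [mem_boxE_false]
    simp only [dsrc_false, dtgt_mk, InF, true_and, and_true, true_or, or_true] at h1 h2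
    omega
  · rw [mem_boxE_true]
    simp only [dsrc_true, dtgt_mk, InF, true_and, and_true, true_or, or_true] at h1 h2
    omega

theorem corner_faces (e : Edg) : H985T.corner (src e) (dsrc e) ∧ H985T.corner (src e) (dtgt e) ∧
    H985T.corner (tgt e) (dsrc e) ∧ H985T.corner (tgt e) (dtgt e) := by
  obtain ⟨x, y, b⟩ := e
  cases b
  · simp only [H985T.corner, dsrc_false, dtgt_mk, src_mk, tgt_false, true_and, and_true, true_or, or_true]
    omega
  · simp only [H985T.corner, dsrc_true, dtgt_mk, src_mk, tgt_true, true_and, and_true, true_or, or_true]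
    omega

/-! ### The explored cluster -/

theorem XX_O (m : ℕ) (F : Set Edg) : ((0, 0) : Vtx) ∈ XX m F := Reach.refl _ _

theorem Kn_box {m : ℕ} {F : Set Edg} {e : Edg} (he : e ∈ Kn m F) : e ∈ boxE m := he.1.1

theorem XX_ray {m : ℕ} {F : Set Edg} (h : SE m F) {v : Vtx} (hv : v ∈ XX m F) : v ∉ ray m := by
  intro hr
  have h1 : F ∩ Kn m F ⊆ F ∩ ↑(boxE m) := fun e he => ⟨he.1, Kn_box he.2⟩
  exact h.2 v hr (Reach.mono h1 hv)

theorem XX_path {m : ℕ} {F : Set Edg} {u : Vtx} (hu : u ∈ XX m F) :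
    Reach {e | e ∈ F ∩ Kn m F ∧ src e ∈ XX m F ∧ tgt e ∈ XX m F} (0, 0) u := by
  have hu' : Relation.ReflTransGen (Adj (F ∩ Kn m F)) (0, 0) u := hu
  induction hu' with
  | refl => exact Reach.refl _ _
  | @tail b c hab hbc ih =>
    have hb : b ∈ XX m F := hab
    have hc : c ∈ XX m F := Relation.ReflTransGen.tail hab hbc
    refine Relation.ReflTransGen.tail (ih hb) ?_
    obtain ⟨e, he, hcase⟩ := hbc
    refine ⟨e, ⟨he, ?_⟩, hcase⟩
    rcases hcase with ⟨h1, h2⟩ | ⟨h1, h2⟩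
    · exact ⟨h1 ▸ hb, h2 ▸ hc⟩
    · exact ⟨h1 ▸ hc, h2 ▸ hb⟩

/-- the potential -/
theorem exists_psi (hF1 : S_F1) {m : ℕ} {F : Set Edg} (hm : 1 ≤ m) (h : SE m F) :
    ∃ (ψ : Vtx → ZMod 2) (c : ZMod 2), (∀ f ∈ UpF m (XX m F), ψ f = c + 1) ∧
      (∀ f ∈ WF m F, ψ f = c) ∧
      ∀ e ∈ boxE m, ¬ (InF m (dsrc e) ∧ InF m (dtgt e)) → ψ (dsrc e) = ψ (dtgt e) := by
  obtain ⟨u, hu1, hu2⟩ := hF1 m F hm h
  obtain ⟨Z1, hZ1, hZb⟩ := H985T.chain_of_reach (XX_path hu2)
  have hX0 : ∀ e, ¬ (src e ∈ XX m F ∧ tgt e ∈ XX m F) → Z1 e = 0 := by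
    intro e he
    by_contra hne
    exact he (hZ1 e hne).2
  have hF0 : ∀ e, e ∉ F → Z1 e = 0 := by
    intro e he
    by_contra hne
    exact he (hZ1 e hne).1.1
  obtain ⟨Z, hZ⟩ : ∃ Z : Edg → ZMod 2, Z = fun e => Z1 e + b2 (e ∈ slit m) := ⟨_, rfl⟩
  have hZv : ∀ i j : ℤ, -(m : ℤ) < i → i ≤ (m : ℤ) - 1 → -(m : ℤ) < j → j ≤ (m : ℤ) - 1 →
      H985T.vb Z (i, j) = 0 := by
    intro i j h1 h2 h3 h4
    have e1 : H985T.vb Z (i, j) = H985T.vb Z1 (i, j) +
        H985T.vb (fun e => b2 (e ∈ slit m)) (i, j) := by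
      rw [hZ]; unfold H985T.vb; ring
    rw [e1, hZb, vb_slit hm]
    have e2 : b2 (u = (i, j)) = 0 := by
      apply b2_not_of
      rintro rfl
      obtain ⟨h5, h6, h7⟩ := hu1
      simp only [sub_zero] at h5 h6 h7
      rcases h7 with h7 | h7
      · rcases abs_cases i with h8 | h8 <;> omega
      · rcases abs_cases j with h8 | h8 <;> omega
    have e3 : b2 ((((m : ℤ), 0) : Vtx) = (i, j)) = 0 := by
      apply b2_not_of
      intro h5
      have := congrArg Prod.fst h5
      simp only at this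
      omega
    rw [e2, e3, add_zero, zmod2_add_self]
  obtain ⟨φ, hφ⟩ := H985T.local_exact (Z := Z) hZv
  have hφ' : ∀ e : Edg, InF m (dsrc e) → InF m (dtgt e) → Z e = φ (dsrc e) + φ (dtgt e) := by
    intro e h1 h2
    exact hφ e h1.1.1 (by have := h2.1.2; omega) h1.2.1 (by have := h2.2.2; omega)
  have hconst : ∀ e : Edg, InF m (dsrc e) → InF m (dtgt e) → Z e = 0 → φ (dsrc e) = φ (dtgt e) := by
    intro e h1 h2 h3
    have h4 := hφ' e h1 h2
    rw [h3] at h4
    have h5 := zmod2_add_self (φ (dtgt e))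
    linear_combination -h4 - h5
  -- the faces below the half-line
  have hbelow : ∀ k : ℕ, (k : ℤ) < m → φ ((k : ℤ), -1) = φ (0, -1) := by
    intro k
    induction k with
    | zero => intro _; rfl
    | succ k ih =>
      intro hk
      rw [← ih (by push_cast at hk; omega)]
      have h1 := hconst (((k : ℤ) + 1, -1, false) : Edg)
        (by simp only [dsrc_false, InF]; push_cast at hk; omega)
        (by simp only [dtgt_mk, InF]; push_cast at hk; omega) (by
          rw [hZ]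
          simp only
          rw [hX0, zero_add]
          · apply b2_not_of; intro h; simp [slit] at h
          · rintro ⟨_, h2⟩
            apply XX_ray h h2
            simp only [tgt_false, ray, Set.mem_ofPred_eq, true_and, and_true]
            push_cast at hk
            omega)
      simp only [dsrc_false, dtgt_mk] at h1
      have e1 : (k : ℤ) + 1 - 1 = k := by ring
      rw [e1] at h1
      push_cast
      exact h1.symm
  have hbelow' : ∀ k : ℤ, 0 ≤ k → k < m → φ (k, -1) = φ (0, -1) := by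
    intro k h1 h2
    obtain ⟨k', rfl⟩ := Int.eq_ofNat_of_zero_le h1
    exact hbelow k' h2
  have habove : ∀ k : ℤ, 0 ≤ k → k < m → φ (k, 0) = φ (0, -1) + 1 := by
    intro k h1 h2
    have h3 := hφ' ((k, 0, true) : Edg) (by simp only [dsrc_true, InF]; omega)
      (by simp only [dtgt_mk, InF]; omega)
    rw [hZ] at h3
    simp only [dsrc_true, dtgt_mk, zero_sub] at h3
    rw [hX0, zero_add, b2_of, hbelow' k h1 h2] at h3
    · have h5 := zmod2_add_self (φ (0, -1))
      linear_combination -h3 - h5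
    · exact ⟨rfl, rfl, h1, h2⟩
    · rintro ⟨_, h4⟩
      apply XX_ray h h4
      simp only [tgt_true, ray, Set.mem_ofPred_eq, true_and, and_true]
      omega
  refine ⟨fun f => φ (clmp m f), φ (0, -1), ?_, ?_, ?_⟩
  · rintro f ⟨hf, k, hk1, hk2, hk⟩
    simp only
    rw [clmp_inF hf]
    have key : ∀ g, DReach {e | (e ∈ boxE m ∧ InF m (dsrc e) ∧ InF m (dtgt e)) ∧ e ∉ slit m ∧
        ¬ (src e ∈ XX m F ∧ tgt e ∈ XX m F)} (k, 0) g → φ g = φ (0, -1) + 1 := by
      intro g hg
      induction hg with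
      | refl => exact habove k hk1 hk2
      | @tail b c _ hbc ih =>
        obtain ⟨e, ⟨⟨he1, he2, he3⟩, he4, he5⟩, hcase⟩ := hbc
        have h1 := hconst e he2 he3 (by
          rw [hZ]; simp only; rw [hX0 e he5, zero_add, b2_not_of he4])
        rcases hcase with ⟨h2, h3⟩ | ⟨h2, h3⟩
        · rw [← h3, ← h1, h2, ih]
        · rw [← h2, h1, h3, ih]
    exact key f hk
  · rintro f ⟨k, hk1, hk2, hk⟩
    have key : ∀ g, DReach ((↑(boxE m) \ slit m) \ F) (k, -1) g → φ (clmp m g) = φ (0, -1) := by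
      intro g hg
      induction hg with
      | refl =>
        rw [clmp_inF (by simp only [InF]; omega)]
        exact hbelow' k hk1 hk2
      | @tail b c _ hbc ih =>
        obtain ⟨e, ⟨⟨he1, he4⟩, he5⟩, hcase⟩ := hbc
        have h1 : φ (clmp m (dsrc e)) = φ (clmp m (dtgt e)) := by
          rcases faces_box hm he1 with ⟨h2, h3⟩ | h2
          · rw [clmp_inF h2, clmp_inF h3]
            exact hconst e h2 h3 (by rw [hZ]; simp only; rw [hF0 e he5, zero_add, b2_not_of he4])
          · rw [h2]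
        rcases hcase with ⟨h2, h3⟩ | ⟨h2, h3⟩
        · rw [← h3, ← h1, h2, ih]
        · rw [← h2, h1, h3, ih]
    exact key f hk
  · intro e he h1
    rcases faces_box hm he with h2 | h2
    · exact absurd h2 h1
    · simp only
      rw [h2]

/-! ### The faces around a vertex of the region above -/

theorem not_slit_of_end {m : ℕ} {X : Set Vtx} (hO : ((0, 0) : Vtx) ∈ X) {v : Vtx} (hv : v ∉ X)
    (hr : v ∉ ray m) {e : Edg} (he : src e = v ∨ tgt e = v) : e ∉ slit m := by
  obtain ⟨x, y, b⟩ := e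
  rintro ⟨h1, h2, h3, h4⟩
  simp only at h1 h2 h3 h4
  subst h1
  subst h2
  rcases he with he | he
  · simp only [src_mk] at he
    by_cases hx : x = 0
    · subst hx
      exact hv (he ▸ hO)
    · apply hr
      rw [← he]
      simp only [ray, Set.mem_ofPred_eq, true_and, and_true]
      omega
  · simp only [tgt_true] at he
    apply hr
    rw [← he]
    simp only [ray, Set.mem_ofPred_eq, true_and, and_true]
    omega

theorem upF_step {m : ℕ} {X : Set Vtx} (hO : ((0, 0) : Vtx) ∈ X) {v : Vtx} (hv : v ∉ X)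
    (hr : v ∉ ray m) {e : Edg} (he : src e = v ∨ tgt e = v) {f g : Vtx}
    (hfg : (dsrc e = f ∧ dtgt e = g) ∨ (dsrc e = g ∧ dtgt e = f)) (hf : f ∈ UpF m X)
    (hg : InF m g) : g ∈ UpF m X := by
  obtain ⟨hf1, k, hk1, hk2, hk⟩ := hf
  refine ⟨hg, k, hk1, hk2, Relation.ReflTransGen.tail hk ⟨e, ?_, hfg⟩⟩
  have h1 : InF m (dsrc e) := by
    rcases hfg with ⟨h1, _⟩ | ⟨h1, _⟩
    · rw [h1]; exact hf1
    · rw [h1]; exact hg
  have h2 : InF m (dtgt e) := by
    rcases hfg with ⟨_, h1⟩ | ⟨_, h1⟩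
    · rw [h1]; exact hg
    · rw [h1]; exact hf1
  refine ⟨⟨box_of_inner h1 h2, h1, h2⟩, not_slit_of_end hO hv hr he, ?_⟩
  rintro ⟨h3, h4⟩
  rcases he with he | he
  · exact hv (he ▸ h3)
  · exact hv (he ▸ h4)

theorem upF_around {m : ℕ} {X : Set Vtx} (hO : ((0, 0) : Vtx) ∈ X) {v : Vtx}
    (hv : v ∈ UpV m X) {g : Vtx} (hg : InF m g) (hc : H985T.corner v g) : g ∈ UpF m X := by
  obtain ⟨hv1, hv2, f, hf, hfc⟩ := hv
  obtain ⟨a, b⟩ := v
  obtain ⟨x, y⟩ := f
  obtain ⟨x', y'⟩ := g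
  have hfi : InF m (x, y) := hf.1
  simp only [H985T.corner] at hc hfc
  simp only [InF] at hg hfi
  -- horizontal step
  have h1 : ((x', y) : Vtx) ∈ UpF m X := by
    by_cases hx : x = x'
    · rw [← hx]; exact hf
    · refine upF_step hO hv1 hv2 (e := (a, y, false)) (f := (x, y)) ?_ ?_ hf ?_
      · simp only [src_mk, tgt_false, Prod.mk.injEq, true_and, and_true, true_or, or_true]; omega
      · simp only [dsrc_false, dtgt_mk, Prod.mk.injEq, true_and, and_true, true_or, or_true]; omega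
      · simp only [InF]; omega
  by_cases hy : y = y'
  · rw [← hy]; exact h1
  · refine upF_step hO hv1 hv2 (e := (x', b, true)) (f := (x', y)) ?_ ?_ h1 ?_
    · simp only [src_mk, tgt_true, Prod.mk.injEq, true_and, and_true, true_or, or_true]; omega
    · simp only [dsrc_true, dtgt_mk, Prod.mk.injEq, true_and, and_true, true_or, or_true]; omega
    · simp only [InF]; omega

theorem t_UP (hF1 : S_F1) : S_UP := by
  intro m F hm h
  obtain ⟨ψ, c, hψ1, hψ2, hψ3⟩ := exists_psi hF1 hm h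
  have hne : c ≠ c + 1 := by
    intro h1
    have h2 : (1 : ZMod 2) = 0 := by linear_combination -h1
    exact absurd h2 (by decide)
  have hO := XX_O m F
  have ha : ∀ f ∈ UpF m (XX m F), f ∉ WF m F := by
    intro f hf hW
    exact hne ((hψ2 f hW).symm.trans (hψ1 f hf))
  have hcd : ∀ e ∈ boxE m, (src e ∈ UpV m (XX m F) ∨ tgt e ∈ UpV m (XX m F)) →
      ∀ g, (g = dsrc e ∨ g = dtgt e) → InF m g → g ∈ UpF m (XX m F) := by
    intro e _ hv g hg hgi
    obtain ⟨h1, h2, h3, h4⟩ := corner_faces e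
    rcases hv with hv | hv
    · rcases hg with rfl | rfl
      · exact upF_around hO hv hgi h1
      · exact upF_around hO hv hgi h2
    · rcases hg with rfl | rfl
      · exact upF_around hO hv hgi h3
      · exact upF_around hO hv hgi h4
  refine ⟨ha, ?_, ?_, ?_, ?_⟩
  · intro e he hv
    have hcd' := hcd e he hv
    refine ⟨?_, ?_⟩
    · rintro ⟨_, hW⟩
      by_cases hin : InF m (dsrc e) ∧ InF m (dtgt e)
      · rcases hW with hW | hW
        · exact ha _ (hcd' _ (Or.inl rfl) hin.1) hW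
        · exact ha _ (hcd' _ (Or.inr rfl) hin.2) hW
      · have h1 := hψ3 e he hin
        have h2 : ψ (dsrc e) = c := by
          rcases hW with hW | hW
          · exact hψ2 _ hW
          · rw [h1]; exact hψ2 _ hW
        rcases inner_face hm he with h3 | h3
        · exact hne (h2.symm.trans (hψ1 _ (hcd' _ (Or.inl rfl) h3)))
        · exact hne ((h2.symm.trans h1).trans (hψ1 _ (hcd' _ (Or.inr rfl) h3)))
    · rcases hv with hv | hv
      · exact not_slit_of_end hO hv.1 hv.2.1 (Or.inl rfl)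
      · exact not_slit_of_end hO hv.1 hv.2.1 (Or.inr rfl)
  · intro e he hv
    by_cases h1 : tgt e ∈ XX m F
    · exact Or.inr (Or.inl h1)
    · by_cases h2 : tgt e ∈ ray m
      · exact Or.inr (Or.inr h2)
      · obtain ⟨_, _, h3, h4⟩ := corner_faces e
        rcases inner_face hm he with h5 | h5
        · exact Or.inl ⟨h1, h2, _, hcd e he (Or.inl hv) _ (Or.inl rfl) h5, h3⟩
        · exact Or.inl ⟨h1, h2, _, hcd e he (Or.inl hv) _ (Or.inr rfl) h5, h4⟩
  · intro e he hv
    by_cases h1 : src e ∈ XX m F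
    · exact Or.inr (Or.inl h1)
    · by_cases h2 : src e ∈ ray m
      · exact Or.inr (Or.inr h2)
      · obtain ⟨h3, h4, _, _⟩ := corner_faces e
        rcases inner_face hm he with h5 | h5
        · exact Or.inl ⟨h1, h2, _, hcd e he (Or.inr hv) _ (Or.inl rfl) h5, h3⟩
        · exact Or.inl ⟨h1, h2, _, hcd e he (Or.inr hv) _ (Or.inr rfl) h5, h4⟩
  · intro k hk1 hk2 hv
    have h1 : InF m ((k, -1) : Vtx) := by simp only [InF]; omega
    have h2 : H985T.corner ((k, -1) : Vtx) ((k, -1) : Vtx) := ⟨Or.inl rfl, Or.inl rfl⟩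
    exact ha _ (upF_around hO hv h1 h2) ⟨k, by omega, hk2, DReach.refl _ _⟩

theorem t_ZU : S_ZU := by
  intro m a H X ha hH ham hHa hN v hv1 hv2 hv3 hv4
  obtain ⟨x, y⟩ := v
  simp only at hv1 hv2 hv3 hv4
  refine ⟨fun h => hN _ h ⟨hv1, hv2, by simp only; omega, hv4⟩, ?_, (x - 1, y - 1), ?_, ?_⟩
  · intro h
    have := h.1
    simp only at this
    omega
  · refine ⟨by simp only [InF]; omega, x - 1, by omega, by omega, ?_⟩
    have key : ∀ j : ℕ, (j : ℤ) + 1 ≤ H → DReach {e | (e ∈ boxE m ∧ InF m (dsrc e) ∧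
        InF m (dtgt e)) ∧ e ∉ slit m ∧ ¬ (src e ∈ X ∧ tgt e ∈ X)} (x - 1, 0) (x - 1, (j : ℤ)) := by
      intro j
      induction j with
      | zero => intro _; exact DReach.refl _ _
      | succ j ih =>
        intro hj
        push_cast at hj
        refine Relation.ReflTransGen.tail (ih (by omega)) ⟨(x - 1, (j : ℤ) + 1, true), ?_, ?_⟩
        · refine ⟨⟨?_, ?_, ?_⟩, ?_, ?_⟩
          · rw [mem_boxE_true]; omega
          · simp only [dsrc_true, InF]; omega
          · simp only [dtgt_mk, InF]; omega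
          · intro h
            have := h.2.1
            simp only at this
            omega
          · rintro ⟨_, h⟩
            simp only [tgt_true, sub_add_cancel] at h
            exact hN _ h ⟨hv1, hv2, by simp only; omega, by simp only; omega⟩
        · left
          simp only [dsrc_true, dtgt_mk, Prod.mk.injEq, Nat.cast_add, Nat.cast_one, true_and, and_true, true_or, or_true]
          omega
    have h1 := key (y - 1).toNat (by omega)
    have h2 : (((y - 1).toNat : ℕ) : ℤ) = y - 1 := Int.toNat_of_nonneg (by omega)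
    rw [h2] at h1
    exact h1
  · simp only [H985T.corner, and_true, or_true]

end Pool.Agent.Y997.OBL.UP
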