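import Pool.Agent.Y989.FR.All
import Pool.Agent.Y997.OBL.T_PIG
import Pool.Agent.Y997.OBL.T_RN
import Pool.Agent.Y997.OBL.T_TPJ
import Pool.Agent.Y997.OBL.T_GA
import Pool.Agent.Y997.OBL.T_TP3
import Pool.Agent.Y997.OBL.T_KNF
import Pool.Agent.Y997.OBL.T_UP
import Pool.Agent.Y997.OBL.T_T3
import Pool.Agent.Y997.OBL.T_T4
import Pool.Agent.Y997.OBL.T_LOC
import Pool.Agent.Y997.OBL.T_DPR
import Pool.Agent.Y997.OBL.T_HARS
import Pool.Agent.Y997.OBL.T_PZ
import Pool.Agent.Y997.OBL.T_SC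
import Pool.Agent.Y997.OBL.T_NCL
import Pool.Agent.Y997.OBL.T_HP
import Pool.Agent.Y997.OBL.T_AA
import Pool.Agent.Y997.OBL.T_NZ
import Pool.Agent.Y997.OBL.T_FEW
import Pool.Agent.Y997.OBL.T_SEJ
import Pool.Agent.Y997.OBL.T_DL
import Pool.Agent.Y997.OBL.T_CLR
import Pool.Agent.Y997.OBL.T_OGD
import Pool.Agent.Y997.OBL.T_NRE
import Pool.Agent.Y997.OBL.T_OVER
import Pool.Agent.Y997.OBL.T_OSW
import Pool.Agent.Y997.OBL.T_GEOU
import Pool.Agent.Y997.OBL.T_LGC
import Pool.Agent.Y997.OBL.T_CURO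
import Pool.Agent.Y997.OBL.T_LIMO
import Pool.Agent.Y997.OB.Main

/-!
# Outer boundary of the largest critical cluster: all the steps together
-/

set_option autoImplicit false

namespace Pool.Agent.Y997.OBL

open H974 H12S Finset H984P H984N H342P H342L H342T MeasureTheory Filter Topology Measure
open Pool.Agent.W822.PD (Tr Sq)
open scoped ENNReal

/-! ### One vertex -/

theorem a_PIG : S_PIG :=
  PIG.t_PIG (Pool.Agent.Y989.FR.ACC.t_ACC Pool.Agent.Y989.FR.a_L3)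
    (Pool.Agent.Y989.FR.a_THK Pool.Agent.Y989.FR.a_JR Pool.Agent.Y989.FR.a_U3)

theorem a_TP3 : S_TP3 := TP3.t_TP3 Pool.Agent.Y989.FR.a_U3

/-! ### One scale -/

theorem a_UP : S_UP := UP.t_UP KNF.t_F1
theorem a_T3 : S_T3 := T3.t_T3 KNF.t_KN KNF.t_F1 a_UP
theorem a_T4 : S_T4 := T4.t_T4 a_UP UP.t_ZU
theorem a_LOC : S_LOC := LOC.t_LOC UP.t_ZU

theorem a_SC : S_SC :=
  SC.t_SC KNF.t_KN KNF.t_F1 a_UP UP.t_ZU a_T3 a_T4 a_LOC GA.t_GA a_TP3 TP3.t_IMP DPR.t_DPR
    HARS.t_HAR PZ.t_PZ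

/-! ### All scales -/

theorem a_HP : S_HP := HP.t_HP NCL.t_NCL
theorem a_AA : S_AA := AA.t_AA NCL.t_NCL
theorem a_FEW : S_FEW := FEW.t_FEW a_AA a_HP NZ.t_NZ

theorem a_SEJ : S_SEJ :=
  SEJ.t_SEJ a_PIG RN.t_RN TPJ.t_TPJ a_SC HARS.t_STOP a_FEW a_AA KNF.t_KN a_LOC

/-! ### The box -/

theorem a_OVER : S_OVER :=
  OVER.t_OVER a_SEJ (OGD.t_OGD CLR.t_CLR DL.t_DL) (NRE.t_NRP a_HP) NRE.t_ENP

theorem a_OPAR : S_OPAR := OSW.t_OSW a_OVER

/-! ### The limit -/

/-- **lower bound for the limits** -/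
theorem a_LIMO : S_LIMO :=
  LIMO.t_LIMO a_OPAR GEOU.t_QCU GEOU.t_GEOU LGC.t_LGC CURO.t_CURO Pool.Agent.Y989.FR.CHN.t_CHN

theorem conn_far {R : ℝ} (hR : 0 ≤ R) : IsConnected {w : ℂ | R < ‖w‖} := by
  have h1 : IsConnected ({0}ᶜ : Set ℂ) := by
    refine isConnected_compl_singleton_of_one_lt_rank ?_ 0
    rw [Complex.rank_real_complex]
    norm_num
  have h2 : ContinuousOn (fun z : ℂ => z + ((R / ‖z‖ : ℝ) : ℂ) * z) ({0}ᶜ : Set ℂ) := by
    refine continuousOn_id.add (ContinuousOn.mul ?_ continuousOn_id)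
    refine Complex.continuous_ofReal.comp_continuousOn ?_
    exact continuousOn_const.div continuous_norm.continuousOn
      (fun z hz => norm_ne_zero_iff.2 hz)
  have h3 := h1.image _ h2
  convert h3 using 1
  ext w
  constructor
  · intro hw
    have hw : R < ‖w‖ := hw
    have hw0 : 0 < ‖w‖ := lt_of_le_of_lt hR hw
    have hw1 : (0 : ℝ) < (‖w‖ - R) / ‖w‖ := by
      apply div_pos _ hw0
      linarith
    refine ⟨(((‖w‖ - R) / ‖w‖ : ℝ) : ℂ) * w, ?_, ?_⟩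
    · simp only [Set.mem_compl_iff, Set.mem_singleton_iff, mul_eq_zero, not_or]
      refine ⟨?_, norm_ne_zero_iff.1 hw0.ne'⟩
      exact_mod_cast hw1.ne'
    · simp only
      have h4 : ‖(((‖w‖ - R) / ‖w‖ : ℝ) : ℂ) * w‖ = ‖w‖ - R := by
        rw [norm_mul, Complex.norm_real, Real.norm_eq_abs, abs_of_pos hw1]
        field_simp
      rw [h4, ← mul_assoc, ← add_mul, ← Complex.ofReal_mul, ← Complex.ofReal_add]
      have h5 : (‖w‖ - R) / ‖w‖ + R / (‖w‖ - R) * ((‖w‖ - R) / ‖w‖) = 1 := by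
        have : ‖w‖ - R ≠ 0 := by linarith
        field_simp
        ring
      rw [h5, Complex.ofReal_one, one_mul]
  · rintro ⟨z, hz, rfl⟩
    have hz0 : 0 < ‖z‖ := norm_pos_iff.2 hz
    have h4 : z + ((R / ‖z‖ : ℝ) : ℂ) * z = ((1 + R / ‖z‖ : ℝ) : ℂ) * z := by
      push_cast; ring
    have h5 : 0 < 1 + R / ‖z‖ := by positivity
    show R < ‖z + ((R / ‖z‖ : ℝ) : ℂ) * z‖
    rw [h4, norm_mul, Complex.norm_real, Real.norm_eq_abs, abs_of_pos h5, add_mul, one_mul,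
      div_mul_cancel₀ _ hz0.ne']
    linarith

theorem OBd_sub {K : Set ℂ} (hK : IsCompact K) :
    OBd K ⊆ ⋃ x : ℂ, frontier (connectedComponentIn Kᶜ x) := by
  obtain ⟨R0, hR0⟩ := hK.isBounded.subset_closedBall 0
  set R : ℝ := max R0 0 with hRdef
  have hR : ∀ z ∈ K, ‖z‖ ≤ R := fun z hz => by
    have := hR0 hz
    rw [mem_closedBall_zero_iff] at this
    exact this.trans (le_max_left _ _)
  have hconn := conn_far (le_max_right R0 0)
  rw [← hRdef] at hconn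
  obtain ⟨x, hx⟩ := hconn.nonempty
  have hfar : {w : ℂ | R < ‖w‖} ⊆ Kᶜ := fun w hw h => absurd (hR w h) (not_le.2 hw)
  have hsub : {w : ℂ | R < ‖w‖} ⊆ connectedComponentIn Kᶜ x :=
    hconn.isPreconnected.subset_connectedComponentIn hx hfar
  have hbc : ∀ S : Set ℂ, (∀ w ∈ S, ‖w‖ ≤ R) → Bornology.IsBounded S := fun S hS =>
    Metric.isBounded_closedBall.subset (fun w hw => mem_closedBall_zero_iff.2 (hS w hw))
  have heq : {z | z ∉ K ∧ ¬ Bornology.IsBounded (connectedComponentIn Kᶜ z)} =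
      connectedComponentIn Kᶜ x := by
    ext z
    constructor
    · rintro ⟨hz, hb⟩
      have h1 : ∃ y ∈ connectedComponentIn Kᶜ z, R < ‖y‖ := by
        by_contra hcon
        push Not at hcon
        exact hb (hbc _ hcon)
      obtain ⟨y, hy1, hy2⟩ := h1
      have h2 : y ∈ connectedComponentIn Kᶜ x := hsub hy2
      rw [connectedComponentIn_eq h2, ← connectedComponentIn_eq hy1]
      exact mem_connectedComponentIn hz
    · intro hz
      refine ⟨connectedComponentIn_subset _ _ hz, fun hb => ?_⟩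
      rw [← connectedComponentIn_eq hz] at hb
      have h3 := hb.subset hsub
      have h4 : Bornology.IsBounded (Set.univ : Set ℂ) := by
        have h5 : (Set.univ : Set ℂ) = {w : ℂ | R < ‖w‖} ∪ {w : ℂ | ‖w‖ ≤ R} := by
          ext w
          simp only [Set.mem_univ, Set.mem_union, Set.mem_ofPred_eq, true_iff]
          exact lt_or_ge R ‖w‖
        rw [h5]
        exact h3.union (hbc _ (fun w hw => hw))
      exact NormedSpace.unbounded_univ ℝ ℂ h4
  unfold OBd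
  rw [heq]
  exact Set.subset_iUnion (fun x : ℂ => frontier (connectedComponentIn Kᶜ x)) x

theorem e43 : (4 / 3 : ℝ≥0∞) = ENNReal.ofReal (4 / 3) := by
  rw [ENNReal.ofReal_div_of_pos (by norm_num)]; norm_num

variable {sel : (n : ℕ) → Finset Plain.Edge → ℤ × ℤ} {γ : (n : ℕ) → Finset Plain.Edge → Curve}

/-- **The dimension of the outer boundary.** -/
theorem main (hT : Tr sel γ) {k : ℕ → ℕ} (hk : Tendsto k atTop atTop)
    {μ : ProbabilityMeasure Curve} (hμ : Tendsto (fun i => lawOf (k i) (γ (k i))) atTop (𝓝 μ)) :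
    ∀ᵐ c : Curve ∂(μ : Measure Curve), dimH (OBd (Set.range c.path)) = 4 / 3 ∧
      dimH (⋃ x : ℂ, frontier (connectedComponentIn (Set.range c.path)ᶜ x)) = 4 / 3 := by
  have hlow : ∀ᵐ c : Curve ∂(μ : Measure Curve), ∀ n : ℕ,
      ENNReal.ofReal (4 / 3 - 1 / ((n : ℝ) + 2)) ≤ dimH (OBd (Set.range c.path)) := by
    rw [ae_all_iff]
    intro n
    have hn : (0 : ℝ) ≤ n := Nat.cast_nonneg n
    have h1 : 1 / ((n : ℝ) + 2) ≤ 1 / 2 := one_div_le_one_div_of_le (by norm_num) (by linarith)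
    have h2 : 0 < 1 / ((n : ℝ) + 2) := by positivity
    exact a_LIMO sel γ hT k hk μ hμ (4 / 3 - 1 / ((n : ℝ) + 2)) (by linarith) (by linarith)
  filter_upwards [(Pool.Agent.Y997.OB.main hT hk hμ).1, hlow] with c hc hq
  have h2 : Tendsto (fun n : ℕ => ENNReal.ofReal (4 / 3 - 1 / ((n : ℝ) + 2))) atTop
      (𝓝 (ENNReal.ofReal (4 / 3 - 0))) := by
    refine ENNReal.tendsto_ofReal (tendsto_const_nhds.sub ?_)
    have h3 : Tendsto (fun n : ℕ => (n : ℝ) + 2) atTop atTop :=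
      tendsto_atTop_add_const_right _ _ tendsto_natCast_atTop_atTop
    exact (tendsto_const_nhds (x := (1 : ℝ))).div_atTop h3
  rw [sub_zero, ← e43] at h2
  have h3 : 4 / 3 ≤ dimH (OBd (Set.range c.path)) := le_of_tendsto' h2 hq
  have h4 := dimH_mono (OBd_sub (isCompact_range c.path.continuous))
  exact ⟨le_antisymm hc.1 h3, le_antisymm hc.2 (h3.trans h4)⟩

end Pool.Agent.Y997.OBL
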