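import Pool.Agent.Y989.FR.Stm
import Pool.Agent.W92.DP.Defs
import Pool.Agent.H342R2.Per.Model

/-!
# Outer boundary of the largest critical cluster, lower bound: definitions

Everything is at `p = 1/2`, `O = (0, 0)`.  `sd` (sup distance): `H984N`; `blk`, `bdB`, `PQ`: `H12S`;
`AE`, `A3v`, `Awy`, `cl`, `Acc`, `TkA`, `InF`: `Pool.Agent.Y989.FR`; `DTB`, `shc`:
`Pool.Agent.W92.DP`.
-/

set_option autoImplicit false

namespace Pool.Agent.Y997.OBL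

open H974 H12S Finset H984P H984N Pool.Agent.Y989.FR
open Pool.Agent.W92.DP (DTB DLR shc)

/-! ### One vertex -/

/-- The vertices near `O` which are joined to distance `k + 10 h`. -/
def BBo (k h : ℕ) (F : Set Edg) : Set Vtx :=
  {c | sd c (0, 0) ≤ k + 8 * h ∧
    ∃ w ∈ bdB (0, 0) (k + 10 * h), Reach (F ∩ ↑(boxE (k + 10 * h))) c w}

/-- A thick path (keeping away from `C`) from distance `2` to the point `(y1, -k)`, `y1` near `p`. -/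
def Thk (M B k h : ℕ) (p : ℤ) (C : Set Vtx) : Prop :=
  ∃ x ∈ bdB (0, 0) 2, ∃ y1 : ℤ, |y1 - p| ≤ h ∧ |y1| ≤ k ∧
    Reach {e | e ∈ AE (0, 0) 2 k ∧ (∀ c ∈ C, Awy M B k (0, 0) c (src e)) ∧
      ∀ c ∈ C, Awy M B k (0, 0) c (tgt e)} x (y1, -(k : ℤ))

/-- No vertex of `C` in the column `|x - p| ≤ 8 h` below the height `-k + 4 h`. -/
def NoT (k h : ℕ) (p : ℤ) (C : Set Vtx) : Prop :=
  ∀ c ∈ C, ¬ (|c.1 - p| ≤ 8 * h ∧ c.2 ≤ -(k : ℤ) + 4 * h)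

/-- The tube. -/
noncomputable def Tb (k h : ℕ) (p : ℤ) : Finset Edg :=
  RE (p - 8 * h) (p + 8 * h) (-(k : ℤ) - 14 * h) (-(k : ℤ) + 4 * h)

/-- The event given by the accessibility of `O`. -/
def PG (M B k h : ℕ) (p : ℤ) (F : Set Edg) : Prop :=
  (∃ w ∈ bdB (0, 0) (k + 14 * h), w ∈ cl (k + 14 * h) F) ∧ Thk M B k h p (cl (k + 14 * h) F) ∧
    NoT k h p (cl (k + 14 * h) F)

/-- Decreasing part of the one-vertex event. -/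
def Zo (M B k h : ℕ) (p : ℤ) (F : Set Edg) : Prop :=
  Thk M B k h p (BBo k h F) ∧ NoT k h p (BBo k h F)

/-- `O` is joined to distance `k + 14 h` off the tube. -/
def Aro (k h : ℕ) (p : ℤ) (F : Set Edg) : Prop :=
  ∃ w ∈ bdB (0, 0) (k + 14 * h), Reach ((F ∩ ↑(boxE (k + 14 * h))) \ ↑(Tb k h p)) (0, 0) w

/-- `O` is joined, off the tube, to a left-right crossing above the box. -/
def Top (k h : ℕ) (p : ℤ) (F : Set Edg) : Prop :=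
  ∃ s t : Vtx, (s.1 = -(k : ℤ) ∧ (k : ℤ) + 12 * h ≤ s.2 ∧ s.2 ≤ (k : ℤ) + 14 * h) ∧
    (t.1 = (k : ℤ) ∧ (k : ℤ) + 12 * h ≤ t.2 ∧ t.2 ≤ (k : ℤ) + 14 * h) ∧
    Reach (F ∩ ↑(RE (-(k : ℤ)) k ((k : ℤ) + 12 * h) ((k : ℤ) + 14 * h))) s t ∧
    Reach ((F ∩ ↑(boxE (k + 14 * h))) \ ↑(Tb k h p)) (0, 0) s

/-- The event at the vertex `v`. -/
def Gv (M B k h : ℕ) (p : ℤ) (v : Vtx) (F : Set Edg) : Prop :=
  Zo M B k h p (shc v F) ∧ Top k h p (shc v F)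

/-! ### One scale, `k = q h`, `a = A k` -/

/-- The core. -/
noncomputable def Qc (a k h : ℕ) : Finset Vtx :=
  Finset.Icc (3 * (a : ℤ) - h) (3 * (a : ℤ) + h) ×ˢ Finset.Icc (4 * (k : ℤ) - h) (4 * (k : ℤ) + h)

/-- The common tube. -/
noncomputable def Tc (a k h : ℕ) (p : ℤ) : Finset Edg :=
  RE (3 * (a : ℤ) + p - 7 * h) (3 * (a : ℤ) + p + 7 * h) 0 (3 * (k : ℤ) + 2 * h)

/-- The closed legs in the common tube. -/
def Leg (a k h : ℕ) (p : ℤ) (F : Finset Edg) : Prop :=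
  DTB (3 * (a : ℤ) + p - 6 * h) (3 * (a : ℤ) + p - 4 * h) 1 (3 * (k : ℤ) + 2 * h) F ∧
    DTB (3 * (a : ℤ) + p + 4 * h) (3 * (a : ℤ) + p + 6 * h) 1 (3 * (k : ℤ) + 2 * h) F

/-- The open arc around `O`, from the core to the lower side of the half-line. -/
def Arc (a k h : ℕ) (F : Finset Edg) : Prop :=
  TBc (3 * (a : ℤ) - h) (3 * (a : ℤ) + h) (5 * (k : ℤ) + 11 * h) (3 * (a : ℤ) + h) F ∧
  LRc (-(3 * (a : ℤ)) - h) (3 * (a : ℤ) + h) (3 * (a : ℤ) - h) (3 * (a : ℤ) + h) F ∧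
  TBc (-(3 * (a : ℤ)) - h) (-(3 * (a : ℤ)) + h) (-(3 * (a : ℤ)) - h) (3 * (a : ℤ) + h) F ∧
  LRc (-(3 * (a : ℤ)) - h) (3 * (a : ℤ) + h) (-(3 * (a : ℤ)) - h) (-(3 * (a : ℤ)) + h) F ∧
  TBc (3 * (a : ℤ) - h) (3 * (a : ℤ) + h) (-(3 * (a : ℤ)) - h) (-1) F

/-- No open crossing of the annulus. -/
def NoC (r R : ℕ) (F : Set Edg) : Prop :=
  ∀ u ∈ bdB (0, 0) r, ∀ w ∈ bdB (0, 0) R, ¬ Reach (F ∩ AE (0, 0) r R) u w

/-- No vertical open crossing of the strip above the half-line. -/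
def NoS (a k : ℕ) (F : Set Edg) : Prop :=
  ∀ x x' : ℤ, ¬ Reach (F ∩ ↑(RE ((a : ℤ) + 1) (8 * a) 0 k)) (x, 0) (x', (k : ℤ))

/-- The barriers. -/
def DD (a k : ℕ) (F : Set Edg) : Prop := NoC a (2 * a) F ∧ NoC (4 * a) (8 * a) F ∧ NoS a k F

/-! ### The slit -/

/-- The edges of the half-line. -/
def slit (m : ℕ) : Set Edg := {e | e.2.2 = true ∧ e.2.1 = 0 ∧ 0 ≤ e.1 ∧ e.1 < m}

/-- The vertices of the half-line (without `O`). -/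
def ray (m : ℕ) : Set Vtx := {v | v.2 = 0 ∧ 1 ≤ v.1 ∧ v.1 ≤ m}

/-- The faces reached from the faces below the half-line by closed edges. -/
def WF (m : ℕ) (F : Set Edg) : Set Vtx :=
  {f | ∃ k : ℤ, 0 ≤ k ∧ k < m ∧ DReach ((↑(boxE m) \ slit m) \ F) (k, -1) f}

/-- The explored edges. -/
def Kn (m : ℕ) (F : Set Edg) : Set Edg :=
  {e | (e ∈ boxE m ∧ e ∉ slit m) ∧ (dsrc e ∈ WF m F ∨ dtgt e ∈ WF m F)}

/-- The vertices joined to `O` by explored open edges. -/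
def XX (m : ℕ) (F : Set Edg) : Set Vtx := {v | Reach (F ∩ Kn m F) (0, 0) v}

/-- The cluster of `O` in the box reaches the boundary and avoids the half-line. -/
def SE (m : ℕ) (F : Set Edg) : Prop :=
  (∃ u ∈ bdB (0, 0) m, Reach (F ∩ ↑(boxE m)) (0, 0) u) ∧
    ∀ r ∈ ray m, ¬ Reach (F ∩ ↑(boxE m)) (0, 0) r

/-- The faces above `X` and the half-line. -/
def UpF (m : ℕ) (X : Set Vtx) : Set Vtx :=
  {f | InF m f ∧ ∃ k : ℤ, 0 ≤ k ∧ k < m ∧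
    DReach {e | (e ∈ boxE m ∧ InF m (dsrc e) ∧ InF m (dtgt e)) ∧ e ∉ slit m ∧
      ¬ (src e ∈ X ∧ tgt e ∈ X)} (k, 0) f}

/-- The vertices above `X` and the half-line. -/
def UpV (m : ℕ) (X : Set Vtx) : Set Vtx :=
  {v | v ∉ X ∧ v ∉ ray m ∧ ∃ f ∈ UpF m X, H985T.corner v f}

/-- No vertex of `X` in the rectangle above the half-line. -/
def NiceZ (a H : ℕ) (X : Set Vtx) : Prop :=
  ∀ v ∈ X, ¬ ((a : ℤ) ≤ v.1 ∧ v.1 ≤ 8 * a ∧ 0 ≤ v.2 ∧ v.2 ≤ H)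

/-- The free edges of the middle region. -/
def MM (m a k : ℕ) (X : Set Vtx) : Set Edg :=
  {e | e ∈ AE (0, 0) (2 * a) (4 * a) ∧ e ∉ RE (a : ℤ) (8 * a) 0 k ∧
    (src e ∈ UpV m X ∨ tgt e ∈ UpV m X)}

/-- The event at `v`, and `v` is joined to `X` by free edges. -/
def Gs (M B k h a m : ℕ) (p : ℤ) (X : Set Vtx) (v : Vtx) (F : Set Edg) : Prop :=
  Gv M B k h p v F ∧ ∃ x ∈ X, Reach (F ∩ (MM m a k X \ ↑(Tc a k h p))) v x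

/-- Energy of a set of vertices. -/
noncomputable def EnV (t : ℝ) (V : Finset Vtx) : ℝ :=
  ∑ v ∈ V, ∑ w ∈ V, ((max (sd v w) 1 : ℤ) : ℝ) ^ (-t)

/-- Success at one scale, with respect to the set `X`. -/
def SucX (c0 E0 t : ℝ) (M B k h a : ℕ) (p : ℤ) (X : Set Vtx) (F : Finset Edg) : Prop :=
  Leg a k h p F ∧ ∃ V : Finset Vtx, V ⊆ Qc a k h ∧ c0 * (h : ℝ) ^ (4 / 3 : ℝ) ≤ (V.card : ℝ) ∧
    EnV t V ≤ E0 * (h : ℝ) ^ (8 / 3 - t) ∧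
    ∀ v ∈ V, Gv M B k h p v ↑F ∧ ∃ x ∈ X, Reach (↑F ∩ AE (0, 0) a (8 * a)) v x

/-- Success at one scale. -/
def Suc (c0 E0 t : ℝ) (M B k h a m : ℕ) (p : ℤ) (F : Finset Edg) : Prop :=
  Leg a k h p F ∧ ∃ V : Finset Vtx, V ⊆ Qc a k h ∧ c0 * (h : ℝ) ^ (4 / 3 : ℝ) ≤ (V.card : ℝ) ∧
    EnV t V ≤ E0 * (h : ℝ) ^ (8 / 3 - t) ∧
    ∀ v ∈ V, Gv M B k h p v ↑F ∧ Reach (↑F ∩ ↑(boxE m)) (0, 0) v

open Classical in
/-- The explored edges, as a finite set. -/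
noncomputable def KnF (m : ℕ) (F : Finset Edg) : Finset Edg :=
  (boxE m).filter (fun e => e ∈ Kn m (↑F : Set Edg))

/-! ### Half-plane -/

/-- A cluster of the box `[x0 - 4 R, x0 + 4 R] × [0, 4 R]` avoids the lower side, comes to distance
`r` from it in the window `|x - x0| ≤ R` and reaches another side. -/
def HPW (x0 : ℤ) (r R : ℕ) (F : Set Edg) : Prop :=
  ∃ u w : Vtx, (|u.1 - x0| ≤ R ∧ 0 ≤ u.2 ∧ u.2 ≤ r) ∧
    (|w.1 - x0| ≤ 4 * R ∧ 0 ≤ w.2 ∧ w.2 ≤ 4 * R) ∧ (|w.1 - x0| = 4 * R ∨ w.2 = 4 * R) ∧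
    Reach (F ∩ ↑(RE (x0 - 4 * R) (x0 + 4 * R) 0 (4 * R))) u w ∧
    ∀ s : ℤ, |s - x0| ≤ 4 * R → ¬ Reach (F ∩ ↑(RE (x0 - 4 * R) (x0 + 4 * R) 0 (4 * R))) u (s, 0)

/-- Such an event near the interval `[a, 8 a]` of the half-line. -/
def NNe (a k : ℕ) (F : Set Edg) : Prop :=
  ∃ i : ℤ, (a : ℤ) ≤ (a / 16 : ℕ) * i + (a / 16 : ℕ) ∧ (a / 16 : ℕ) * i ≤ 8 * (a : ℤ) ∧
    HPW ((a / 16 : ℕ) * i) (8 * k) (a / 16) F

/-! ### The thick path to the half-line -/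

/-- The cluster of `v`. -/
def CV (F : Set Edg) (v : Vtx) : Set Vtx := {c | Reach F v c}

/-- `x` keeps away from `C`, seen from `v`, at the scale `k`. -/
def Kee (M B k : ℕ) (v : Vtx) (C : Set Vtx) (x : Vtx) : Prop := ∀ c ∈ C, Awy M B k v c x

/-- The same, truncated: `x` keeps away from `C`, seen from `w`, at the scale `n`. -/
def KeO (M B n : ℕ) (w : Vtx) (C : Set Vtx) (x : Vtx) : Prop :=
  ∀ c ∈ C, (min (sd x w) (n : ℤ)) ^ B < (M : ℤ) * (n : ℤ) ^ (B - 1) * sd x c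

/-- A thick path leads from `w` to distance `4 n`. -/
def ThO (M B n : ℕ) (C : Set Vtx) (w : Vtx) : Prop :=
  ∃ x ∈ bdB w 2, ∃ y : Vtx, 4 * (n : ℤ) ≤ sd y (0, 0) ∧
    Reach {e | KeO M B n w C (src e) ∧ KeO M B n w C (tgt e)} x y

/-- Many vertices of the cluster of `v` from which thick paths start, with small energy. -/
def RTh (t c E : ℝ) (M B n : ℕ) (v : Vtx) (F : Set Edg) : Prop :=
  ∃ V : Finset Vtx, c * (n : ℝ) ^ (4 / 3 : ℝ) ≤ (V.card : ℝ) ∧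
    EnV t V ≤ E * (n : ℝ) ^ (8 / 3 - t) ∧ ∀ w ∈ V, Reach F v w ∧ ThO M B n (CV F v) w

/-! ### Lines of the box `{0, …, n}²` -/

/-- The same below the line `y = 0`. -/
def HPWd (x0 : ℤ) (r R : ℕ) (F : Set Edg) : Prop :=
  ∃ u w : Vtx, (|u.1 - x0| ≤ R ∧ -(r : ℤ) ≤ u.2 ∧ u.2 ≤ 0) ∧
    (|w.1 - x0| ≤ 4 * R ∧ -(4 * (R : ℤ)) ≤ w.2 ∧ w.2 ≤ 0) ∧
    (|w.1 - x0| = 4 * R ∨ w.2 = -(4 * (R : ℤ))) ∧
    Reach (F ∩ ↑(RE (x0 - 4 * R) (x0 + 4 * R) (-(4 * (R : ℤ))) 0)) u w ∧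
    ∀ s : ℤ, |s - x0| ≤ 4 * R →
      ¬ Reach (F ∩ ↑(RE (x0 - 4 * R) (x0 + 4 * R) (-(4 * (R : ℤ))) 0)) u (s, 0)

/-- A cluster comes close to the line at the height `y0` and avoids it. -/
def Nr (n e0 R : ℕ) (y0 : ℤ) (F : Set Edg) : Prop :=
  ∃ i : ℤ, 4 * (R : ℤ) ≤ R * i ∧ R * i ≤ (n : ℤ) - 4 * R ∧
    (HPW (R * i) e0 R (shc (0, y0) F) ∨ HPWd (R * i) e0 R (shc (0, y0) F))

/-- A cluster of radius at least `k` comes close to an end of the line. -/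
def EndE (n m k : ℕ) (y0 : ℤ) (F : Set Edg) : Prop :=
  ∃ x : Vtx, (x = (0, y0) ∨ x = ((n : ℤ), y0)) ∧ ∃ u w : Vtx,
    inR (x.1 - m) (x.1 + m) (x.2 - m) (x.2 + m) u ∧ H342P.Far x k w ∧ Reach F u w

/-- `(x, y0)` is the rightmost vertex of the cluster of `v` on the line at the height `y0`. -/
def Rm (F : Set Edg) (v : Vtx) (x y0 : ℤ) : Prop :=
  Reach F v (x, y0) ∧ ∀ x' : ℤ, x < x' → ¬ Reach F v (x', y0)

end Pool.Agent.Y997.OBL
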