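import Pool.Agent.Y997.OBL.Defs

/-!
# Outer boundary of the largest critical cluster, lower bound: the steps
(every step is a `Prop`; nothing is assumed)
-/

set_option autoImplicit false

namespace Pool.Agent.Y997.OBL

open H974 H12S Finset H984P H984N Pool.Agent.Y989.FR
open Pool.Agent.W92.DP (DTB DLR shc)

/-! ### One vertex -/

/-- PIG: choice of the exit of the thick path. -/
def S_PIG : Prop := ∃ (M B q h0 : ℕ) (c : ℝ), 16 ≤ M ∧ 1 ≤ B ∧ 16 * M * 8 ^ B ≤ q ∧ 1 ≤ h0 ∧ 0 < c ∧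
  ∀ h : ℕ, h0 ≤ h → ∃ p : ℤ, |p| ≤ (q * h : ℕ) ∧ ∀ S : Finset Edg, boxE (q * h + 14 * h) ⊆ S →
    c * (h : ℝ) ^ (-(2 / 3 : ℝ)) ≤ PQ (1 / 2) S (fun F => PG M B (q * h) h p ↑F)

/-- RN: closed ring outside of the cluster of `O`. -/
def S_RN : Prop := ∀ q : ℕ, 64 ≤ q → ∃ c : ℝ, 0 < c ∧ ∀ (M B h : ℕ) (p : ℤ), 1 ≤ B → 1 ≤ h →
  |p| ≤ (q * h : ℕ) → ∀ S : Finset Edg, boxE (q * h + 14 * h) ⊆ S →
    c * PQ (1 / 2) S (fun F => PG M B (q * h) h p ↑F) ≤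
      PQ (1 / 2) S (fun F => Zo M B (q * h) h p ↑F ∧ Aro (q * h) h p ↑F)

/-- TPJ: open arc around the box. -/
def S_TPJ : Prop := ∀ q : ℕ, 64 ≤ q → ∃ c : ℝ, 0 < c ∧ ∀ (M B h : ℕ) (p : ℤ), 1 ≤ B → 1 ≤ h →
  |p| ≤ (q * h : ℕ) → ∀ S : Finset Edg, boxE (q * h + 14 * h) ⊆ S →
    c * PQ (1 / 2) S (fun F => Zo M B (q * h) h p ↑F ∧ Aro (q * h) h p ↑F) ≤
      PQ (1 / 2) S (fun F => Zo M B (q * h) h p ↑F ∧ Top (q * h) h p ↑F)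

/-- GA: the event at a vertex of the core, and the arc. -/
def S_GA : Prop := ∀ q A : ℕ, 64 ≤ q → 8 ≤ A → ∃ c : ℝ, 0 < c ∧ ∀ (M B h : ℕ) (p : ℤ), 1 ≤ B →
  1 ≤ h → |p| ≤ (q * h : ℕ) → ∀ v ∈ Qc (A * (q * h)) (q * h) h, ∀ S : Finset Edg,
  boxE (4 * (A * (q * h))) ⊆ S →
    c * PQ (1 / 2) (boxE (q * h + 14 * h)) (fun F => Zo M B (q * h) h p ↑F ∧ Top (q * h) h p ↑F) ≤
      PQ (1 / 2) S (fun F => Gv M B (q * h) h p v ↑F ∧ Arc (A * (q * h)) (q * h) h F)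

/-- TP3: three arms at two vertices. -/
def S_TP3 : Prop := ∃ C : ℝ, 0 < C ∧ ∀ (k : ℕ) (v w : Vtx) (S : Finset Edg), 1 ≤ k →
  sd v w ≤ k → blk v k ⊆ S → blk w k ⊆ S →
    PQ (1 / 2) S (fun F => A3v v 2 k ↑F ∧ A3v w 2 k ↑F) ≤
      C * ((max (sd v w) 1 : ℤ) : ℝ) ^ (-(2 / 3 : ℝ)) * (k : ℝ) ^ (-(2 / 3 : ℝ))

/-- IMP: the event at `v` implies three arms. -/
def S_IMP : Prop := ∀ (M B k h : ℕ) (p : ℤ) (v : Vtx) (F : Set Edg), 1 ≤ M → 1 ≤ B →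
  1 ≤ h → 64 * h ≤ k → Gv M B k h p v F → A3v v 2 (k / 2) F

/-! ### The slit -/

/-- KN: the explored edges are a stopping set. -/
def S_KN : Prop := ∀ (m : ℕ) (F F' : Set Edg), (∀ e ∈ Kn m F, (e ∈ F ↔ e ∈ F')) → WF m F' = WF m F

/-- F1: the explored open edges join `O` to the boundary. -/
def S_F1 : Prop := ∀ (m : ℕ) (F : Set Edg), 1 ≤ m → SE m F → ∃ u ∈ bdB (0, 0) m, u ∈ XX m F

/-- UP: the region above. -/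
def S_UP : Prop := ∀ (m : ℕ) (F : Set Edg), 1 ≤ m → SE m F →
  (∀ f ∈ UpF m (XX m F), f ∉ WF m F) ∧
  (∀ e ∈ boxE m, (src e ∈ UpV m (XX m F) ∨ tgt e ∈ UpV m (XX m F)) → e ∉ Kn m F ∧ e ∉ slit m) ∧
  (∀ e ∈ boxE m, src e ∈ UpV m (XX m F) →
    tgt e ∈ UpV m (XX m F) ∨ tgt e ∈ XX m F ∨ tgt e ∈ ray m) ∧
  (∀ e ∈ boxE m, tgt e ∈ UpV m (XX m F) →
    src e ∈ UpV m (XX m F) ∨ src e ∈ XX m F ∨ src e ∈ ray m) ∧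
  ∀ k : ℤ, 1 ≤ k → k < m → (k, -1) ∉ UpV m (XX m F)

/-- ZU: the nice rectangle is in the region above. -/
def S_ZU : Prop := ∀ (m a H : ℕ) (X : Set Vtx), 1 ≤ a → 1 ≤ H → 8 * a ≤ m → H ≤ a → NiceZ a H X →
  ∀ v : Vtx, (a : ℤ) ≤ v.1 → v.1 ≤ 8 * a → 1 ≤ v.2 → v.2 ≤ H → v ∈ UpV m X

/-- T3: behind the barriers the free edges of the middle region do not matter. -/
def S_T3 : Prop := ∀ (m a k : ℕ) (F F' : Set Edg), 1 ≤ k → 2 * k ≤ a → 8 * a ≤ m → SE m F →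
  DD a k (F \ Kn m F) → (∀ e, e ∉ MM m a k (XX m F) → (e ∈ F ↔ e ∈ F')) → SE m F'

/-- T4: the arc leads to `X` through free edges. -/
def S_T4 : Prop := ∀ (M B k h a m : ℕ) (p : ℤ) (F : Set Edg) (ω : Finset Edg) (v : Vtx), 1 ≤ B →
  1 ≤ h → 64 * h ≤ k → 8 * k ≤ a → 8 * a ≤ m → |p| ≤ k → SE m F → NiceZ a (8 * k) (XX m F) →
  v ∈ Qc a k h → Gv M B k h p v (↑ω : Set Edg) → Arc a k h ω →
    Gs M B k h a m p (XX m F) v (↑ω : Set Edg)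

/-- LOC: on which edges the events depend, and monotonicity in the common tube. -/
def S_LOC : Prop := ∀ (M B k h a m : ℕ) (p : ℤ) (X : Set Vtx) (v : Vtx), 1 ≤ B → 1 ≤ h →
  64 * h ≤ k → 8 * k ≤ a → 8 * a ≤ m → |p| ≤ k → v ∈ Qc a k h →
  (NiceZ a (8 * k) X → ∀ F F' : Set Edg,
    (∀ e, e ∈ MM m a k X ∪ ↑(Tc a k h p) → (e ∈ F ↔ e ∈ F')) →
      (Gs M B k h a m p X v F ↔ Gs M B k h a m p X v F')) ∧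
  (∀ F F' : Set Edg, F' ⊆ F → (∀ e, e ∉ Tc a k h p → (e ∈ F ↔ e ∈ F')) →
      Gs M B k h a m p X v F → Gs M B k h a m p X v F') ∧
  (∀ F F' : Set Edg, (∀ e ∈ AE (0, 0) a (8 * a), (e ∈ F ↔ e ∈ F')) →
      (Gv M B k h p v F ↔ Gv M B k h p v F')) ∧
  (∀ F F' : Finset Edg, (∀ e ∈ AE (0, 0) a (8 * a), (e ∈ F ↔ e ∈ F')) →
      (Leg a k h p F ↔ Leg a k h p F')) ∧
  (NiceZ a (8 * k) X → ↑(blk v (k / 2)) ⊆ MM m a k X \ ↑(Tc a k h p))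

/-! ### Probability -/

/-- DPR: the barriers and the legs have positive probability. -/
def S_DPR : Prop := ∀ q A : ℕ, 64 ≤ q → 8 ≤ A → ∃ δ : ℝ, 0 < δ ∧ ∀ (h : ℕ) (p : ℤ), 1 ≤ h →
  |p| ≤ (q * h : ℕ) → ∀ S : Finset Edg,
    δ ≤ PQ (1 / 2) S (fun F => DD (A * (q * h)) (q * h) ↑F ∧ Leg (A * (q * h)) (q * h) h p F)

/-- HAR: Harris inequality with parameters. -/
def S_HAR : Prop := ∀ (S S1 S2 : Finset Edg) (f g : Finset Edg → Prop), S1 ⊆ S → S2 ⊆ S →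
  Disjoint S1 S2 →
  (∀ η η' : Finset Edg, η ⊆ S → η' ⊆ S → (∀ e, e ∉ S1 → (e ∈ η ↔ e ∈ η')) → (f η ↔ f η')) →
  (∀ η η' : Finset Edg, η ⊆ S → η' ⊆ S → (∀ e ∈ S1 ∪ S2, (e ∈ η ↔ e ∈ η')) → (g η ↔ g η')) →
  (∀ η η' : Finset Edg, η ⊆ S → η' ⊆ η → (∀ e, e ∉ S2 → (e ∈ η ↔ e ∈ η')) → f η → f η') →
  (∀ η η' : Finset Edg, η ⊆ S → η' ⊆ η → (∀ e, e ∉ S2 → (e ∈ η ↔ e ∈ η')) → g η → g η') →
  PQ (1 / 2) S f * PQ (1 / 2) S g ≤ PQ (1 / 2) S (fun η => f η ∧ g η)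

/-- PZ: second moment method with energies. -/
def S_PZ : Prop := ∀ c C t : ℝ, 0 < c → 0 < C → 0 < t → t < 4 / 3 →
  ∃ δ c0 E0 : ℝ, 0 < δ ∧ δ ≤ 1 ∧ 0 < c0 ∧ 0 < E0 ∧
  ∀ (S : Finset Edg) (D : Finset Edg → Prop) (G : Vtx → Finset Edg → Prop) (h : ℕ) (x0 y0 : ℤ),
    1 ≤ h →
    (∀ v ∈ Finset.Icc (x0 - h) (x0 + h) ×ˢ Finset.Icc (y0 - h) (y0 + h),
      c * (h : ℝ) ^ (-(2 / 3 : ℝ)) * PQ (1 / 2) S D ≤ PQ (1 / 2) S (fun F => D F ∧ G v F)) →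
    (∀ v ∈ Finset.Icc (x0 - h) (x0 + h) ×ˢ Finset.Icc (y0 - h) (y0 + h),
      ∀ w ∈ Finset.Icc (x0 - h) (x0 + h) ×ˢ Finset.Icc (y0 - h) (y0 + h),
      PQ (1 / 2) S (fun F => D F ∧ G v F ∧ G w F) ≤
        C * ((max (sd v w) 1 : ℤ) : ℝ) ^ (-(2 / 3 : ℝ)) * (h : ℝ) ^ (-(2 / 3 : ℝ)) *
          PQ (1 / 2) S D) →
    δ * PQ (1 / 2) S D ≤ PQ (1 / 2) S (fun F => D F ∧ ∃ V : Finset Vtx,
      V ⊆ Finset.Icc (x0 - h) (x0 + h) ×ˢ Finset.Icc (y0 - h) (y0 + h) ∧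
      c0 * (h : ℝ) ^ (4 / 3 : ℝ) ≤ (V.card : ℝ) ∧ EnV t V ≤ E0 * (h : ℝ) ^ (8 / 3 - t) ∧
      ∀ v ∈ V, G v F)

/-- SC: one scale, conditionally on the explored edges and on the other scales. -/
def S_SC : Prop := ∀ (t c : ℝ) (q A : ℕ), 0 < t → t < 4 / 3 → 0 < c → 64 ≤ q → 8 ≤ A →
  ∃ δ c0 E0 : ℝ, 0 < δ ∧ δ ≤ 1 ∧ 0 < c0 ∧ 0 < E0 ∧
  ∀ (M B h m : ℕ) (p : ℤ), 1 ≤ M → 1 ≤ B → 1 ≤ h → |p| ≤ (q * h : ℕ) →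
    c * (h : ℝ) ^ (-(2 / 3 : ℝ)) ≤ PQ (1 / 2) (boxE (q * h + 14 * h))
      (fun F => Zo M B (q * h) h p ↑F ∧ Top (q * h) h p ↑F) →
    8 * (A * (q * h)) ≤ m → ∀ F0 : Finset Edg, F0 ⊆ boxE m → SE m (↑F0 : Set Edg) →
    NiceZ (A * (q * h)) (8 * (q * h)) (XX m (↑F0 : Set Edg)) →
    ∀ U : Finset Edg → Prop,
      (∀ η η' : Finset Edg, (∀ e, e ∉ AE (0, 0) (A * (q * h)) (8 * (A * (q * h))) →
        (e ∈ η ↔ e ∈ η')) → (U η ↔ U η')) →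
      δ * PQ (1 / 2) (boxE m \ KnF m F0)
          (fun η => SE m (↑(F0 ∩ KnF m F0 ∪ η) : Set Edg) ∧ U η) ≤
        PQ (1 / 2) (boxE m \ KnF m F0)
          (fun η => (SE m (↑(F0 ∩ KnF m F0 ∪ η) : Set Edg) ∧ U η) ∧
            SucX c0 E0 t M B (q * h) h (A * (q * h)) p (XX m (↑F0 : Set Edg))
              (F0 ∩ KnF m F0 ∪ η))

/-- STOP: averaging over a stopping set. -/
def S_STOP : Prop := ∀ (S : Finset Edg) (K : Finset Edg → Finset Edg) (A B : Finset Edg → Prop)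
  (r : ℝ), 0 ≤ r → (∀ F, F ⊆ S → K F ⊆ S) →
  (∀ F F', F ⊆ S → F' ⊆ S → (∀ e ∈ K F, (e ∈ F ↔ e ∈ F')) → K F' = K F) →
  (∀ F, F ⊆ S → PQ (1 / 2) (S \ K F) (fun η => A (F ∩ K F ∪ η)) ≤
    r * PQ (1 / 2) (S \ K F) (fun η => B (F ∩ K F ∪ η))) →
  PQ (1 / 2) S A ≤ r * PQ (1 / 2) S B

/-- NCL: the number of clusters which cross an annulus. -/
def S_NCL : Prop := ∃ C : ℝ, 0 < C ∧ ∀ (c : ℤ × ℤ) (R N : ℕ) (S : Finset Edg)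
  (E : ℕ → Finset Edg → Prop) (u : ℕ → Finset Edg → Vtx), 1 ≤ R →
  (∀ F, F ⊆ S → ∀ j < N, E j F → sd (u j F) c ≤ R ∧
    ∃ w ∈ bdB c (2 * R), Reach (↑F ∩ ↑(blk c (2 * R))) (u j F) w) →
  (∀ F, F ⊆ S → ∀ j < N, ∀ i < j, E i F → E j F →
    ¬ Reach (↑F ∩ ↑(blk c (2 * R))) (u i F) (u j F)) →
  ∑ j ∈ Finset.range N, PQ (1 / 2) S (E j) ≤ C

/-- HP: clusters which come close to a line and avoid it. -/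
def S_HP : Prop := ∃ C : ℝ, 0 < C ∧ ∀ (x0 : ℤ) (r R : ℕ), 1 ≤ r → r ≤ R →
  ∀ S : Finset Edg, RE (x0 - 4 * R) (x0 + 4 * R) 0 (4 * R) ⊆ S →
    PQ (1 / 2) S (fun F => HPW x0 r R ↑F) ≤ C * ((r : ℝ) / R)

/-- NZ: if the rectangle is not nice, some cluster comes close to the half-line. -/
def S_NZ : Prop := ∀ (m a k : ℕ) (F : Set Edg), 1 ≤ k → 128 * k ≤ a → 9 * a ≤ m → SE m F →
  ¬ NiceZ a (8 * k) (XX m F) → NNe a k F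

/-- AA: the slit event has probability at most `C / m`. -/
def S_AA : Prop := ∃ C : ℝ, 0 < C ∧ ∀ m : ℕ, 1 ≤ m → ∀ S : Finset Edg, boxE m ⊆ S →
  PQ (1 / 2) S (fun F => SE m ↑F) ≤ C / m

open Classical in
/-- FEW: many scales are nice. -/
def S_FEW : Prop := ∃ (C : ℝ) (A0 : ℕ), 0 < C ∧ ∀ (A k J : ℕ), A0 ≤ A → 1 ≤ k →
  ∀ S : Finset Edg, boxE (64 ^ J * (A * k)) ⊆ S →
    PQ (1 / 2) S (fun F => SE (64 ^ J * (A * k)) (↑F : Set Edg) ∧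
      J ≤ 2 * ((Finset.range J).filter (fun j => ¬ NiceZ (64 ^ j * (A * k)) (8 * (64 ^ j * k))
        (XX (64 ^ J * (A * k)) (↑F : Set Edg)))).card) ≤
      C / ((64 ^ J * (A * k) : ℕ) : ℝ) * (1 / 2) ^ J

/-- SEJ: the slit event without success has small probability. -/
def S_SEJ : Prop := ∀ t ε : ℝ, 0 < t → t < 4 / 3 → 0 < ε →
  ∃ (M B q A J h0 : ℕ) (c0 E0 : ℝ), (16 ≤ M ∧ 1 ≤ B ∧ 64 ≤ q ∧ 128 ≤ A ∧ 1 ≤ h0) ∧ 0 < c0 ∧ 0 < E0 ∧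
  ∀ h : ℕ, h0 ≤ h → ∃ p : ℕ → ℤ, (∀ j, |p j| ≤ (q * (64 ^ j * h) : ℕ)) ∧
    ∀ S : Finset Edg, boxE (64 ^ J * (A * (q * h))) ⊆ S →
      PQ (1 / 2) S (fun F => SE (64 ^ J * (A * (q * h))) (↑F : Set Edg) ∧
        ∀ j < J, ¬ Suc c0 E0 t M B (q * (64 ^ j * h)) (64 ^ j * h) (A * (q * (64 ^ j * h)))
          (64 ^ J * (A * (q * h))) (p j) F) ≤ ε / ((64 ^ J * (A * (q * h)) : ℕ) : ℝ)

/-! ### Deterministic conclusion -/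

/-- DL: from a vertex with the event `Gv` a thick path leads to the half-line. -/
def S_DL : Prop := ∀ (M B q k h a s : ℕ) (p : ℤ) (F : Finset Edg) (v : Vtx), 1 ≤ M → 1 ≤ B →
  1 ≤ h → 64 ≤ q → k = q * h → 8 * k ≤ a → |p| ≤ k → v ∈ Qc a k h → 1 ≤ s →
  Gv M B k h p v (↑F : Set Edg) → Leg a k h p F → v ∈ CV (↑F : Set Edg) (0, 0) →
  (∀ x : ℤ, 1 ≤ x → (x, 0) ∉ CV (↑F : Set Edg) (0, 0)) →
  (∀ x : ℤ, (a : ℤ) ≤ x → ∀ c ∈ CV (↑F : Set Edg) (0, 0), (h : ℤ) ≤ s * sd (x, 0) c) →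
  ∃ x ∈ bdB v 2, ∃ x1 : ℤ, 2 * (a : ℤ) ≤ x1 ∧ x1 ≤ 4 * (a : ℤ) ∧
    Reach {e | Kee (M + 8 * q * s + 1) B k v (CV (↑F : Set Edg) (0, 0)) (src e) ∧
      Kee (M + 8 * q * s + 1) B k v (CV (↑F : Set Edg) (0, 0)) (tgt e)} x (x1, 0)

end Pool.Agent.Y997.OBL
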