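import Pool.Agent.Y997.OBL.Stm
import Pool.Agent.W822.PD.Stm

/-!
# Outer boundary of the largest critical cluster, lower bound: the steps in the box `{0, …, n}²`
(every step is a `Prop`; nothing is assumed).  `IsMax n F v` : the cluster of `v` has the largest
diameter (`H342P`); `tr z F` : `e ∈ tr z F ↔ e + z ∈ F` (`Pool.Agent.W822.PD`).
-/

set_option autoImplicit false

namespace Pool.Agent.Y997.OBL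

open H974 H12S Finset H984P H984N H342P Pool.Agent.Y989.FR
open Pool.Agent.W92.DP (DTB DLR shc)
open Pool.Agent.W822.PD (tr)

/-- CLR: away from its last point `(x1, y0)` on the line, the cluster keeps away from the line. -/
def S_CLR : Prop := ∀ (n m L R e0 : ℕ) (F : Finset Edg) (v : Vtx) (x1 y0 : ℤ), F ⊆ RE 0 n 0 n →
  1 ≤ e0 → e0 ≤ R → 4 * R ≤ m → m ≤ L → (L : ℤ) ≤ y0 → y0 ≤ (n : ℤ) - L → 0 ≤ x1 →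
  (∃ w, Reach (↑F : Set Edg) v w ∧ (w.2 ≤ y0 - L ∨ y0 + L ≤ w.2)) →
  Rm (↑F : Set Edg) v x1 y0 → ¬ EndE n m L y0 (↑F : Set Edg) → ¬ Nr n e0 R y0 (↑F : Set Edg) →
  ∀ x : ℤ, x1 + 6 * R ≤ x → ∀ c ∈ CV (↑F : Set Edg) v, (e0 : ℤ) ≤ sd (x, y0) c

/-- OGD: deterministic step in the box. -/
def S_OGD : Prop := ∀ (t c0 E0 : ℝ) (M B q A J h s M2 n m L R e0 : ℕ) (p : ℕ → ℤ)
  (F : Finset Edg) (v : Vtx), (1 ≤ M ∧ 1 ≤ B ∧ 64 ≤ q ∧ 128 ≤ A ∧ 1 ≤ h ∧ 1 ≤ s) →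
  (∀ j, |p j| ≤ (q * (64 ^ j * h) : ℕ)) → m = 64 ^ J * (A * (q * h)) → 1 ≤ e0 → e0 ≤ R →
  8 * R ≤ A * (q * h) → m ≤ L → 64 ^ J * h ≤ s * e0 → n < M2 * e0 → F ⊆ RE 0 n 0 n →
  (∃ u w, Reach (↑F : Set Edg) v u ∧ Reach (↑F : Set Edg) v w ∧ 3 * (L : ℤ) ≤ w.2 - u.2) →
  ∃ y0 : ℤ, (∃ i : ℕ, y0 = i * L) ∧ (L : ℤ) ≤ y0 ∧ y0 ≤ (n : ℤ) - L ∧
    (EndE n m L y0 (↑F : Set Edg) ∨ Nr n e0 R y0 (↑F : Set Edg) ∨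
      (∃ x : ℤ, (m : ℤ) ≤ x ∧ x ≤ (n : ℤ) - m ∧ SE m (↑(tr (x, y0) F) : Set Edg) ∧
        ∀ j < J, ¬ Suc c0 E0 t M B (q * (64 ^ j * h)) (64 ^ j * h) (A * (q * (64 ^ j * h))) m (p j)
          (tr (x, y0) F)) ∨
      ∃ (j : ℕ) (V : Finset Vtx), j < J ∧ c0 * ((64 ^ j * h : ℕ) : ℝ) ^ (4 / 3 : ℝ) ≤ (V.card : ℝ) ∧
        EnV t V ≤ E0 * ((64 ^ j * h : ℕ) : ℝ) ^ (8 / 3 - t) ∧
        ∀ w ∈ V, Reach (↑F : Set Edg) v w ∧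
          ThO (M + 8 * q * s + 1 + M2) B n (CV (↑F : Set Edg) v) w)

/-- NRP: no cluster comes close to a fixed line without touching it. -/
def S_NRP : Prop := ∃ C : ℝ, 0 < C ∧ ∀ (n e0 R : ℕ) (y0 : ℤ), 1 ≤ e0 → e0 ≤ R →
  4 * (R : ℤ) ≤ y0 → y0 ≤ (n : ℤ) - 4 * R →
    PQ (1 / 2) (RE 0 n 0 n) (fun F => Nr n e0 R y0 ↑F) ≤ C * ((n : ℝ) / R) * ((e0 : ℝ) / R)

/-- ENP: no large cluster comes close to the ends of a fixed line. -/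
def S_ENP : Prop := ∃ C : ℝ, 0 < C ∧ ∀ (n m L : ℕ) (y0 : ℤ), 1 ≤ m → m ≤ L → 0 ≤ y0 → y0 ≤ n →
    PQ (1 / 2) (RE 0 n 0 n) (fun F => EndE n m L y0 ↑F) ≤ C * ((m : ℝ) / L) ^ (1 / 3 : ℝ)

/-- OVER: clusters of large vertical extent have many accessible vertices. -/
def S_OVER : Prop := ∀ t : ℝ, 0 < t → t < 4 / 3 → ∀ δ ρ : ℝ, 0 < δ → 0 < ρ →
  ∃ (M B : ℕ) (c E : ℝ), 1 ≤ M ∧ 1 ≤ B ∧ 0 < c ∧ 0 < E ∧ ∃ n0 : ℕ, ∀ n : ℕ, n0 ≤ n →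
    PQ (1 / 2) (RE 0 n 0 n) (fun F => ∃ v : Vtx,
      (∃ u w : Vtx, Reach (↑F : Set Edg) v u ∧ Reach (↑F : Set Edg) v w ∧
        ρ * n ≤ ((w.2 - u.2 : ℤ) : ℝ)) ∧ ¬ RTh t c E M B n v (↑F : Set Edg)) ≤ δ

/-- OPAR: the largest cluster has many accessible vertices. -/
def S_OPAR : Prop := ∀ t : ℝ, 0 < t → t < 4 / 3 → ∀ δ : ℝ, 0 < δ →
  ∃ (M B : ℕ) (c E : ℝ), 1 ≤ M ∧ 1 ≤ B ∧ 0 < c ∧ 0 < E ∧ ∃ n0 : ℕ, ∀ n : ℕ, n0 ≤ n →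
    Pr (fun _ => (1 / 2 : ℝ)) (RE 0 n 0 n) (fun F => ∃ v : Vtx, IsMax n (↑F : Set Edg) v ∧
      ¬ RTh t c E M B n v (↑F : Set Edg)) ≤ δ

end Pool.Agent.Y997.OBL
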