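import Pool.Agent.Y997.OBL.StmG
import Pool.Agent.W822.PD.StmC
import Pool.Agent.H389R2.Dim.Lower

/-!
# Outer boundary of the largest critical cluster, lower bound: the passage to the limit
(every step is a `Prop`; nothing is assumed)
-/

set_option autoImplicit false

namespace Pool.Agent.Y997.OBL

open H974 H12S Finset H984P H984N H342P H342L H342T MeasureTheory Filter Topology
open Pool.Agent.W822.PD (Sqc Tr)
open scoped ENNReal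

/-- The outer boundary of `K`. -/
def OBd (K : Set ℂ) : Set ℂ :=
  frontier {z | z ∉ K ∧ ¬ Bornology.IsBounded (connectedComponentIn Kᶜ z)}

/-- Pairs `(f, z)`: the curve `f` passes at distance `e` of `z`, and some chain of `N + 1` points
with steps at most `e` leads from `z` to the distance `4` and keeps away from `f`. -/
def Qu (M R e : ℝ) (B N : ℕ) : Set (C(unitInterval, ℂ) × ℂ) :=
  {p | (∀ s, ‖p.1 s‖ ≤ 2) ∧ ‖p.2‖ ≤ 2 ∧ (∃ s, dist (p.1 s) p.2 ≤ e) ∧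
    ∃ x : Fin (N + 1) → ℂ, (∀ i, ‖x i‖ ≤ R) ∧ dist (x 0) p.2 ≤ e ∧ 4 ≤ ‖x (Fin.last N)‖ + e ∧
    (∀ i : Fin N, dist (x i.castSucc) (x i.succ) ≤ e) ∧
    ∀ i s, (min (dist (x i) p.2) 1) ^ B ≤ M * dist (x i) (p.1 s) + e}

/-- QCU: these sets are closed. -/
def S_QCU : Prop := ∀ (M R e : ℝ) (B N : ℕ), IsClosed (Qu M R e B N)

/-- GEOU: in the limit `z` lies on the outer boundary. -/
def S_GEOU : Prop := ∀ (M R : ℝ) (B : ℕ) (N : ℕ → ℕ) (f : C(unitInterval, ℂ)) (z : ℂ), 0 < M →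
  1 ≤ B → (∀ k : ℕ, (f, z) ∈ Qu M R (1 / ((k : ℝ) + 1)) B (N k)) → z ∈ OBd (Set.range f)

/-- LGC: abstract passage to the limit for curves modulo reparametrisation. -/
def S_LGC : Prop := ∀ (μs : ℕ → ProbabilityMeasure Curve) (μ : ProbabilityMeasure Curve),
  Tendsto μs atTop (𝓝 μ) → ∀ t : ℝ, 0 < t → ∀ T : C(unitInterval, ℂ) → Set ℂ,
  (∀ ε : ℝ≥0∞, 0 < ε → ∃ (c : ℝ) (K : Set ℂ) (Q : ℕ → Set (C(unitInterval, ℂ) × ℂ)), 0 < c ∧
    IsCompact K ∧ (∀ k, IsClosed (Q k)) ∧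
    (∀ k f (φ : unitInterval ≃o unitInterval) z, (f, z) ∈ Q k → (rep f φ, z) ∈ Q k) ∧
    (∀ f, ∀ z ∈ K, (∀ k, (f, z) ∈ Q k) → z ∈ T f) ∧
    ∀ ε' : ℝ, 0 < ε' → ∀ᶠ i in atTop,
      (μs i : Measure Curve) {γ : Curve | ¬ Pool.Agent.H389R2.Dim.Good t ε' c
        {z | z ∈ K ∧ ∀ k : ℕ, ε' ≤ 1 / ((k : ℝ) + 1) → (γ.path, z) ∈ Q k}} ≤ ε) →
  ∀ᵐ p : Curve ∂(μ : Measure Curve), ENNReal.ofReal t ≤ dimH (T p.path)

/-- `x` keeps away from the curve `c`, seen from `w`. -/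
def KeC (M B n : ℕ) (w : Vtx) (c : Curve) (x : Vtx) : Prop :=
  ∀ s, (((min (sd x w) (n : ℤ) : ℤ)) : ℝ) ^ B ≤
    M * (n : ℝ) ^ (B - 1) * (n * dist (pt n x) (c.path s) + 1)

/-- CURO: the tracing path passes near every accessible vertex. -/
def S_CURO : Prop := ∀ (n : ℕ) (F : Finset Plain.Edge) (v w : Vtx) (M B : ℕ) (c : Curve), 0 < n →
  F ⊆ Plain.edges n → inR 0 n 0 n v → IsTrace n F v c → 1 ≤ B → Reach (↑F : Set Edg) v w →
  ThO M B n (CV (↑F : Set Edg) v) w →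
  pt n w ∈ Sqc ∧ (∀ s, c.path s ∈ Sqc) ∧ (∃ s, dist (c.path s) (pt n w) ≤ 4 / n) ∧
    ∃ x ∈ bdB w 2, ∃ y : Vtx, 4 * (n : ℤ) ≤ sd y (0, 0) ∧
      Reach {e | KeC M B n w c (src e) ∧ KeC M B n w c (tgt e)} x y

/-- LIMO: lower bound for the limits. -/
def S_LIMO : Prop := ∀ (sel : (n : ℕ) → Finset Plain.Edge → ℤ × ℤ)
  (γ : (n : ℕ) → Finset Plain.Edge → Curve), Tr sel γ → ∀ (k : ℕ → ℕ), Tendsto k atTop atTop →
  ∀ μ : ProbabilityMeasure Curve, Tendsto (fun i => lawOf (k i) (γ (k i))) atTop (𝓝 μ) →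
    ∀ t : ℝ, 0 < t → t < 4 / 3 → ∀ᵐ c : Curve ∂(μ : Measure Curve),
      ENNReal.ofReal t ≤ dimH (OBd (Set.range c.path))

end Pool.Agent.Y997.OBL
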