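import Pool.Agent.Y997.OBL.StmL
import Pool.Agent.W469.PD.Cur

/-!
The tracing path passes near every vertex from which a thick path starts.
-/

set_option autoImplicit false

namespace Pool.Agent.Y997.OBL.CURO

open H974 H12S Finset H389NS H984P H984N H342P H342L H342T MeasureTheory Filter Topology
open Pool.Agent.W822.PD (Sqc Tr)
open Pool.Agent.Y997.OBL
open Pool.Agent.W469.PD.Cur (poly_at time inc_ends)

/-! ### Outer faces -/

/-- `u` is not in the cluster and the faces around `u` are outer. -/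
def PO (F : Set Edg) (v u : Vtx) : Prop := ¬ Reach F v u ∧ ∀ g, Inc u g → H342P.Outer F v g

/-- The edges at a vertex which is not in the cluster are not edges of the cluster. -/
theorem not_EC {F : Set Edg} {v u : Vtx} (hu : ¬ Reach F v u) {e : Edg}
    (he : src e = u ∨ tgt e = u) : e ∈ (EC F v)ᶜ := by
  rintro ⟨h1, h2⟩
  apply hu
  rcases he with h | h
  · rw [← h]
    exact h2
  · rw [← h]
    exact (reach_src_tgt F v h1).1 h2

theorem dstep {A : Set Edg} {e : Edg} (he : e ∈ A) : DReach A (dsrc e) (dtgt e) :=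
  DAdj.reach ⟨e, he, Or.inl ⟨rfl, rfl⟩⟩

/-- The faces around a vertex which is not in the cluster are connected. -/
theorem around {F : Set Edg} {v u : Vtx} (hu : ¬ Reach F v u) {g g' : Vtx} (hg : Inc u g)
    (hg' : Inc u g') : DReach (EC F v)ᶜ g g' := by
  obtain ⟨x, y⟩ := u
  have h1 : DReach (EC F v)ᶜ (x, y) (x - 1, y) := by
    have h := dstep (not_EC hu (e := (x, y, false)) (Or.inl rfl))
    rw [dsrc_false, dtgt_mk] at h
    exact h.symm
  have h2 : DReach (EC F v)ᶜ (x, y) (x, y - 1) := by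
    have h := dstep (not_EC hu (e := (x, y, true)) (Or.inl rfl))
    rw [dsrc_true, dtgt_mk] at h
    exact h.symm
  have h3 : DReach (EC F v)ᶜ (x, y) (x - 1, y - 1) := by
    refine h1.trans ?_
    have h := dstep (not_EC hu (e := (x - 1, y, true)) (Or.inr (by simp)))
    rw [dsrc_true, dtgt_mk] at h
    exact h.symm
  have key : ∀ g, Inc (x, y) g → DReach (EC F v)ᶜ (x, y) g := by
    rintro ⟨a, b⟩ ⟨h4, h5⟩
    simp only at h4 h5
    rcases h4 with rfl | rfl <;> rcases h5 with rfl | rfl
    · exact Relation.ReflTransGen.refl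
    · exact h2
    · exact h1
    · exact h3
  exact (key g hg).symm.trans (key g' hg')

/-- one step -/
theorem PO_step {F : Set Edg} {v u u' : Vtx} (h : PO F v u) (hu' : ¬ Reach F v u') {g : Vtx}
    (h1 : Inc u g) (h2 : Inc u' g) : PO F v u' :=
  ⟨hu', fun _ hg' => (around hu' hg' h2).trans (h.2 g h1)⟩

/-- the end of the thick path -/
theorem PO_far {n : ℕ} (hn : 0 < n) {F : Finset Plain.Edge} (hF : F ⊆ Plain.edges n) {v y : Vtx}
    (hv : v ∈ Plain.box n) (hy : 4 * (n : ℤ) ≤ sd y (0, 0)) : PO (↑F : Set Edg) v y := by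
  unfold sd at hy
  simp only [sub_zero] at hy
  have hn' : (1 : ℤ) ≤ n := by exact_mod_cast hn
  have h0 : (4 * (n : ℤ) ≤ y.1 ∨ y.1 ≤ -(4 * (n : ℤ))) ∨
      (4 * (n : ℤ) ≤ y.2 ∨ y.2 ≤ -(4 * (n : ℤ))) := by
    rcases le_max_iff.1 hy with h | h
    · left
      rcases le_abs.1 h with h | h
      · left; exact h
      · right; linarith
    · right
      rcases le_abs.1 h with h | h
      · left; exact h
      · right; linarith
  refine ⟨fun hr => ?_, fun g hg => ?_⟩
  · have h1 := CPT_box hF hv ((Plain.mem_cluster F v y).2 hr)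
    unfold Plain.box at h1
    rw [Finset.mem_product, Finset.mem_Icc, Finset.mem_Icc] at h1
    omega
  · rw [← Plain.outer_iff]
    apply TOPB_far hF
    unfold Inc at hg
    omega

/-- along the thick path -/
theorem PO_path {n : ℕ} (hn : 0 < n) {F : Finset Plain.Edge} (hF : F ⊆ Plain.edges n)
    {v w x y : Vtx} {M B : ℕ} (hv : v ∈ Plain.box n)
    (hy : 4 * (n : ℤ) ≤ sd y (0, 0))
    (hr : Reach {e | KeO M B n w (CV (↑F : Set Edg) v) (src e) ∧
      KeO M B n w (CV (↑F : Set Edg) v) (tgt e)} x y) : PO (↑F : Set Edg) v x := by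
  have hK : ∀ u, KeO M B n w (CV (↑F : Set Edg) v) u → ¬ Reach (↑F : Set Edg) v u := by
    intro u hu hr
    have h1 := hu u hr
    have h2 : sd u u = 0 := by
      unfold sd
      simp
    rw [h2, mul_zero] at h1
    have h3 : (0 : ℤ) ≤ min (sd u w) (n : ℤ) := by
      refine le_min ?_ (by positivity)
      unfold sd
      exact le_max_of_le_left (abs_nonneg _)
    have h4 : (0 : ℤ) ≤ (min (sd u w) (n : ℤ)) ^ B := pow_nonneg h3 B
    exact absurd h1 (not_lt.2 h4)
  unfold Reach at hr
  induction hr using Relation.ReflTransGen.head_induction_on with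
  | refl => exact PO_far hn hF hv hy
  | @head a b hab _ ih =>
    obtain ⟨e, ⟨h1, h2⟩, hor⟩ := hab
    have i1 := inc_ends (e := e) (w := a) (v2 := b) (by
      rcases hor with h | h
      · exact Or.inl h
      · exact Or.inr h)
    have i2 := inc_ends (e := e) (w := b) (v2 := a) (by
      rcases hor with h | h
      · exact Or.inr h
      · exact Or.inl h)
    refine PO_step ih ?_ i2.1 i1.1
    rcases hor with h | h
    · rw [← h.1]
      exact hK _ h1
    · rw [← h.2]
      exact hK _ h2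

/-- a vertex of the cluster near `w` with an outer face -/
theorem near {F : Set Edg} {v w : Vtx} (hw : Reach F v w) (k : ℕ) : ∀ u : Vtx,
    |u.1 - w.1| + |u.2 - w.2| = k → |u.1 - w.1| ≤ 2 → |u.2 - w.2| ≤ 2 → PO F v u →
    ∃ c' g, (|c'.1 - w.1| ≤ 2 ∧ |c'.2 - w.2| ≤ 2) ∧ Reach F v c' ∧ Inc c' g ∧
      H342P.Outer F v g := by
  induction k with
  | zero =>
    intro u h1 _ _ h4
    exfalso
    have h5 : u.1 - w.1 = 0 := by
      rw [← abs_eq_zero]
      have := abs_nonneg (u.1 - w.1)
      have := abs_nonneg (u.2 - w.2)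
      push_cast at h1
      linarith
    have h6 : u.2 - w.2 = 0 := by
      rw [← abs_eq_zero]
      have := abs_nonneg (u.1 - w.1)
      have := abs_nonneg (u.2 - w.2)
      push_cast at h1
      linarith
    have h7 : u = w := Prod.ext (by omega) (by omega)
    rw [h7] at h4
    exact h4.1 hw
  | succ k ih =>
    intro u h1 h2 h3 h4
    -- the next vertex
    have key : ∀ u' g : Vtx, |u'.1 - w.1| + |u'.2 - w.2| = k → |u'.1 - w.1| ≤ 2 →
        |u'.2 - w.2| ≤ 2 → Inc u g → Inc u' g →
        ∃ c' g, (|c'.1 - w.1| ≤ 2 ∧ |c'.2 - w.2| ≤ 2) ∧ Reach F v c' ∧ Inc c' g ∧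
          H342P.Outer F v g := by
      intro u' g k1 k2 k3 k4 k5
      by_cases hu' : Reach F v u'
      · exact ⟨u', g, ⟨k2, k3⟩, hu', k5, h4.2 g k4⟩
      · exact ih u' k1 k2 k3 (PO_step h4 hu' k4 k5)
    obtain ⟨a, b⟩ := u
    obtain ⟨p, q⟩ := w
    simp only at h1 h2 h3 key ⊢
    rcases lt_trichotomy a p with hap | hap | hap
    · refine key (a + 1, b) (a, b) ?_ ?_ h3 ?_ ?_
      · simp only
        rw [abs_of_nonpos (by omega)]
        rw [abs_of_nonpos (by omega)] at h1
        push_cast at h1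
        linarith
      · simp only
        rw [abs_le] at h2 ⊢
        omega
      · exact ⟨Or.inl rfl, Or.inl rfl⟩
      · refine ⟨Or.inr ?_, Or.inl rfl⟩
        simp
    · rcases lt_trichotomy b q with hbq | hbq | hbq
      · refine key (a, b + 1) (a, b) ?_ h2 ?_ ?_ ?_
        · simp only
          rw [abs_of_nonpos (a := b + 1 - q) (by omega)]
          rw [abs_of_nonpos (a := b - q) (by omega)] at h1
          push_cast at h1
          linarith
        · simp only
          rw [abs_le] at h3 ⊢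
          omega
        · exact ⟨Or.inl rfl, Or.inl rfl⟩
        · refine ⟨Or.inl rfl, Or.inr ?_⟩
          simp
      · exfalso
        rw [hap, hbq, sub_self, sub_self, abs_zero] at h1
        push_cast at h1
        omega
      · refine key (a, b - 1) (a, b - 1) ?_ h2 ?_ ?_ ?_
        · simp only
          rw [abs_of_nonneg (a := b - 1 - q) (by omega)]
          rw [abs_of_nonneg (a := b - q) (by omega)] at h1
          push_cast at h1
          linarith
        · simp only
          rw [abs_le] at h3 ⊢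
          omega
        · exact ⟨Or.inl rfl, Or.inr rfl⟩
        · exact ⟨Or.inl rfl, Or.inl rfl⟩
    · refine key (a - 1, b) (a - 1, b) ?_ ?_ h3 ?_ ?_
      · simp only
        rw [abs_of_nonneg (a := a - 1 - p) (by omega)]
        rw [abs_of_nonneg (a := a - p) (by omega)] at h1
        push_cast at h1
        linarith
      · simp only
        rw [abs_le] at h2 ⊢
        omega
      · exact ⟨Or.inr rfl, Or.inl rfl⟩
      · exact ⟨Or.inl rfl, Or.inl rfl⟩

/-! ### Distances -/

theorem ptd {n : ℕ} (hn : 0 < n) (u w : Vtx) :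
    ((sd u w : ℤ) : ℝ) ≤ n * dist (pt n u) (pt n w) := by
  have hn' : (0:ℝ) < n := by exact_mod_cast hn
  rw [dist_eq_norm]
  have e1 : (n : ℝ) * |(pt n u - pt n w).re| = |((u.1 : ℝ) - w.1)| := by
    rw [Complex.sub_re]
    simp only [pt]
    rw [← sub_div, abs_div, Nat.abs_cast]
    field_simp
  have e2 : (n : ℝ) * |(pt n u - pt n w).im| = |((u.2 : ℝ) - w.2)| := by
    rw [Complex.sub_im]
    simp only [pt]
    rw [← sub_div, abs_div, Nat.abs_cast]
    field_simp
  unfold sd
  push_cast
  refine max_le ?_ ?_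
  · rw [← e1]
    gcongr
    exact Complex.abs_re_le_norm _
  · rw [← e2]
    gcongr
    exact Complex.abs_im_le_norm _

theorem ptd_le {n : ℕ} (u w : Vtx) :
    dist (pt n u) (pt n w) ≤ (|((u.1 : ℝ) - w.1)| + |((u.2 : ℝ) - w.2)|) / n := by
  rw [dist_eq_norm]
  refine (Complex.norm_le_abs_re_add_abs_im _).trans ?_
  have e1 : |(pt n u - pt n w).re| = |((u.1 : ℝ) - w.1)| / n := by
    rw [Complex.sub_re]
    simp only [pt]
    rw [← sub_div, abs_div, Nat.abs_cast]
  have e2 : |(pt n u - pt n w).im| = |((u.2 : ℝ) - w.2)| / n := by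
    rw [Complex.sub_im]
    simp only [pt]
    rw [← sub_div, abs_div, Nat.abs_cast]
  rw [e1, e2, add_div]

/-- points of the scaled cluster are close to vertices of the cluster -/
theorem body_near {n : ℕ} (hn : 0 < n) {F : Finset Plain.Edge} {v : Vtx} {z : ℂ}
    (hz : z ∈ body n F v) : ∃ c ∈ Plain.cluster F v, n * dist z (pt n c) ≤ 1 := by
  have hn' : (0:ℝ) < n := by exact_mod_cast hn
  unfold body at hz
  rcases hz with hz | hz
  · obtain ⟨u, hu, hz⟩ := Set.mem_iUnion₂.1 hz
    rw [Set.mem_singleton_iff] at hz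
    refine ⟨u, hu, ?_⟩
    rw [hz, dist_self, mul_zero]
    exact zero_le_one
  · obtain ⟨e, he, hz⟩ := Set.mem_iUnion₂.1 hz
    refine ⟨Plain.fst e, he.2, ?_⟩
    have h1 : dist z (pt n (Plain.fst e)) ≤ dist (pt n (Plain.snd e)) (pt n (Plain.fst e)) := by
      unfold seg at hz
      rw [segment_eq_image'] at hz
      obtain ⟨θ, ⟨h0, h1⟩, rfl⟩ := hz
      rw [dist_eq_norm, dist_eq_norm, add_sub_cancel_left, norm_smul, Real.norm_eq_abs,
        abs_of_nonneg h0]
      exact mul_le_of_le_one_left (norm_nonneg _) h1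
    have h2 : dist (pt n (Plain.snd e)) (pt n (Plain.fst e)) ≤ 1 / n := by
      refine (ptd_le _ _).trans ?_
      gcongr
      obtain ⟨a, b, t⟩ := e
      cases t
      · simp [Plain.fst, Plain.snd]
      · simp [Plain.fst, Plain.snd]
    calc (n : ℝ) * dist z (pt n (Plain.fst e)) ≤ n * (1 / n) := by
          gcongr
          exact h1.trans h2
      _ = 1 := by field_simp

/-- **CURO.** -/
theorem t_CURO : S_CURO := by
  intro n F v w M B c hn hF hv hc _ hw hT
  have hn' : (0:ℝ) < n := by exact_mod_cast hn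
  have hvb : v ∈ Plain.box n := by
    unfold Plain.box
    rw [Finset.mem_product, Finset.mem_Icc, Finset.mem_Icc]
    exact hv
  have hbody : ∀ s, c.path s ∈ body n F v := by
    intro s
    have h1 := (t_RNG t_ORB t_POL n F v c hn hF hvb hc).2
    apply CPT_frontier_sub n F v
    have h2 : c.path s ∈ Set.range c.path := ⟨s, rfl⟩
    rw [h1] at h2
    exact h2
  obtain ⟨x, hx, y, hy, hr⟩ := hT
  refine ⟨?_, ?_, ?_, x, hx, y, hy, ?_⟩
  · obtain ⟨⟨h1, h2⟩, h3, h4⟩ := CPT_pt_box hn (CPT_box hF hvb ((Plain.mem_cluster F v w).2 hw))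
    exact ⟨h1, h2, h3, h4⟩
  · intro s
    obtain ⟨⟨h1, h2⟩, h3, h4⟩ := CPT_body_square hn hF hvb (hbody s)
    exact ⟨h1, h2, h3, h4⟩
  · have hPO := PO_path hn hF hvb hy hr
    obtain ⟨hx1, hx2, -⟩ := hx
    have hk : |x.1 - w.1| + |x.2 - w.2| = ((|x.1 - w.1| + |x.2 - w.2|).toNat : ℤ) := by
      rw [Int.toNat_of_nonneg (by positivity)]
    obtain ⟨c', g, ⟨h1, h2⟩, h3, h4, h5⟩ := near hw _ x hk (by exact_mod_cast hx1)
      (by exact_mod_cast hx2) hPO
    obtain ⟨σ, N, hN, hσ, ho, hper, -, hpath⟩ := hc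
    obtain ⟨q, hq⟩ := RNG_face h4
    obtain ⟨s, hs⟩ := t_ORB F v σ (c', q) hσ ((Plain.mem_cluster F v c').2 h3) ho (by
      rw [Plain.outer_iff, hq]; exact h5)
    rw [← RNG_mod hper] at hs
    have m1 : s % N < N := Nat.mod_lt _ hN
    obtain ⟨t, ht⟩ := time (j := s % N) hN m1.le
    refine ⟨t, ?_⟩
    rw [hpath, poly_at _ hN m1.le ht]
    simp only [hs]
    refine (ptd_le _ _).trans ?_
    gcongr
    have e1 : |((c'.1 : ℝ) - w.1)| ≤ 2 := by
      have : ((|c'.1 - w.1| : ℤ) : ℝ) ≤ ((2 : ℤ) : ℝ) := by exact_mod_cast h1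
      push_cast at this
      exact this
    have e2 : |((c'.2 : ℝ) - w.2)| ≤ 2 := by
      have : ((|c'.2 - w.2| : ℤ) : ℝ) ≤ ((2 : ℤ) : ℝ) := by exact_mod_cast h2
      push_cast at this
      exact this
    linarith
  · have hKe : ∀ u, KeO M B n w (CV (↑F : Set Edg) v) u → KeC M B n w c u := by
      intro u hu s
      obtain ⟨c0, hc0, h1⟩ := body_near hn (hbody s)
      have h2 := hu c0 ((Plain.mem_cluster F v c0).1 hc0)
      have h3 : (((min (sd u w) (n : ℤ) : ℤ)) : ℝ) ^ B ≤ M * (n : ℝ) ^ (B - 1) * (sd u c0 : ℤ) := by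
        exact_mod_cast h2.le
      refine h3.trans ?_
      gcongr
      refine (ptd hn u c0).trans ?_
      calc (n : ℝ) * dist (pt n u) (pt n c0) ≤
            n * (dist (pt n u) (c.path s) + dist (c.path s) (pt n c0)) := by
            gcongr
            exact dist_triangle _ _ _
        _ = n * dist (pt n u) (c.path s) + n * dist (c.path s) (pt n c0) := by ring
        _ ≤ n * dist (pt n u) (c.path s) + 1 := by linarith
    have hsub : {e : Edg | KeO M B n w (CV (↑F : Set Edg) v) (src e) ∧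
        KeO M B n w (CV (↑F : Set Edg) v) (tgt e)} ⊆
        {e | KeC M B n w c (src e) ∧ KeC M B n w c (tgt e)} :=
      fun e he => ⟨hKe _ he.1, hKe _ he.2⟩
    exact hr.mono hsub

end Pool.Agent.Y997.OBL.CURO
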