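import Pool.Agent.Y997.OBL.Stm

/-!
# OBL, task SC: one scale, conditionally on the explored edges and on the other scales
-/

set_option autoImplicit false

namespace Pool.Agent.Y997.OBL.SC

open H974 H12S Finset H984P H984N Pool.Agent.Y989.FR
open Pool.Agent.W92.DP (DTB DLR shc)
open Pool.Agent.Y997.OBL

theorem ok2 : Ok (fun _ : Edg => (1 / 2 : ℝ)) := fun _ => ⟨by norm_num, by norm_num⟩

/-! ### Edges -/

theorem mem_RE' {a b c d : ℤ} {e : Edg} : e ∈ RE a b c d ↔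
    (a ≤ (src e).1 ∧ (tgt e).1 ≤ b) ∧ (c ≤ (src e).2 ∧ (tgt e).2 ≤ d) := by
  obtain ⟨x, y, _ | _⟩ := e
  · simp only [mem_RE_false, src_mk, tgt_false]; omega
  · simp only [mem_RE_true, src_mk, tgt_true]; omega

theorem mem_blk' {c : ℤ × ℤ} {r : ℕ} {e : Edg} : e ∈ blk c r ↔
    (c.1 - r ≤ (src e).1 ∧ (tgt e).1 ≤ c.1 + r) ∧ (c.2 - r ≤ (src e).2 ∧ (tgt e).2 ≤ c.2 + r) := by
  unfold blk; exact mem_RE'

theorem mem_AE' {c : ℤ × ℤ} {d k : ℕ} {e : Edg} : e ∈ AE c d k ↔ e ∈ blk c k ∧ e ∉ blk c d := by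
  unfold AE
  rw [Finset.mem_coe, Finset.mem_sdiff]

theorem mem_box' {m : ℕ} {e : Edg} : e ∈ boxE m ↔
    (-(m : ℤ) ≤ (src e).1 ∧ (tgt e).1 ≤ m) ∧ (-(m : ℤ) ≤ (src e).2 ∧ (tgt e).2 ≤ m) := by
  unfold boxE; exact mem_RE'

theorem src_le (e : Edg) : (src e).1 ≤ (tgt e).1 ∧ (src e).2 ≤ (tgt e).2 ∧
    (tgt e).1 ≤ (src e).1 + 1 ∧ (tgt e).2 ≤ (src e).2 + 1 := by
  obtain ⟨x, y, _ | _⟩ := e
  · simp only [src_mk, tgt_false]; omega
  · simp only [src_mk, tgt_true]; omega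

theorem AE_box {a b m : ℕ} (h : b ≤ m) {e : Edg} (he : e ∈ AE (0, 0) a b) : e ∈ boxE m := by
  rw [mem_AE', mem_blk'] at he
  rw [mem_box']
  obtain ⟨⟨⟨h1, h2⟩, h3, h4⟩, -⟩ := he
  simp only at h1 h2 h3 h4
  omega

theorem AE_AE {a b c d : ℕ} (h : c ≤ a) (h' : b ≤ d) {e : Edg} (he : e ∈ AE (0, 0) a b) :
    e ∈ AE (0, 0) c d := by
  rw [mem_AE', mem_blk', mem_blk'] at he ⊢
  simp only at he ⊢
  omega

theorem AE_dis {a b c d : ℕ} (h : b ≤ c) {e : Edg} (he : e ∈ AE (0, 0) a b) :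
    e ∉ AE (0, 0) c d := by
  rw [mem_AE', mem_blk', mem_blk'] at he ⊢
  simp only at he ⊢
  omega

/-! ### Locality and monotonicity -/

theorem reach_iff {F F' G : Set Edg} (h : ∀ e ∈ G, (e ∈ F ↔ e ∈ F')) (u v : Vtx) :
    Reach (F ∩ G) u v ↔ Reach (F' ∩ G) u v := by
  have : F ∩ G = F' ∩ G := by
    ext e
    simp only [Set.mem_inter_iff]
    constructor
    · rintro ⟨h1, h2⟩; exact ⟨(h e h2).1 h1, h2⟩
    · rintro ⟨h1, h2⟩; exact ⟨(h e h2).2 h1, h2⟩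
  rw [this]

theorem NoC_loc {r R : ℕ} {F F' : Set Edg} (h : ∀ e ∈ AE (0, 0) r R, (e ∈ F ↔ e ∈ F')) :
    NoC r R F ↔ NoC r R F' := by
  unfold NoC
  simp only [reach_iff h]

theorem NoC_mono {r R : ℕ} {F F' : Set Edg} (h : F' ⊆ F) (hF : NoC r R F) : NoC r R F' :=
  fun u hu w hw hr => hF u hu w hw (hr.mono (Set.inter_subset_inter_left _ h))

theorem NoS_loc {a k : ℕ} {F F' : Set Edg}
    (h : ∀ e ∈ (↑(RE ((a : ℤ) + 1) (8 * a) 0 k) : Set Edg), (e ∈ F ↔ e ∈ F')) :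
    NoS a k F ↔ NoS a k F' := by
  unfold NoS
  simp only [reach_iff h]

theorem NoS_mono {a k : ℕ} {F F' : Set Edg} (h : F' ⊆ F) (hF : NoS a k F) : NoS a k F' :=
  fun x x' hr => hF x x' (hr.mono (Set.inter_subset_inter_left _ h))

theorem DD_mono {a k : ℕ} {F F' : Set Edg} (h : F' ⊆ F) (hF : DD a k F) : DD a k F' :=
  ⟨NoC_mono h hF.1, NoC_mono h hF.2.1, NoS_mono h hF.2.2⟩

theorem DTB_loc {a b c d : ℤ} {F F' : Finset Edg} (h : ∀ e ∈ LRE a b c d, (e ∈ F ↔ e ∈ F')) :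
    DTB a b c d F ↔ DTB a b c d F' := by
  have : LRE a b c d \ F = LRE a b c d \ F' := by
    ext e
    simp only [Finset.mem_sdiff]
    constructor
    · rintro ⟨h1, h2⟩; exact ⟨h1, fun h3 => h2 ((h e h1).2 h3)⟩
    · rintro ⟨h1, h2⟩; exact ⟨h1, fun h3 => h2 ((h e h1).1 h3)⟩
  unfold Pool.Agent.W92.DP.DTB
  rw [this]

theorem DTB_mono {a b c d : ℤ} {F F' : Finset Edg} (h : F' ⊆ F) (hF : DTB a b c d F) :
    DTB a b c d F' := by
  obtain ⟨x, x', h1, h2, h3⟩ := hF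
  refine ⟨x, x', h1, h2, h3.mono ?_⟩
  intro e he
  rw [Finset.mem_coe, Finset.mem_sdiff] at he ⊢
  exact ⟨he.1, fun h4 => he.2 (h h4)⟩

theorem Leg_loc {a k h : ℕ} {p : ℤ} {F F' : Finset Edg}
    (hh : ∀ e ∈ Tc a k h p, (e ∈ F ↔ e ∈ F')) : Leg a k h p F ↔ Leg a k h p F' := by
  unfold Leg
  rw [DTB_loc (F := F) (F' := F'), DTB_loc (F := F) (F' := F')]
  · intro e he
    apply hh
    have := LRE_subset_RE he
    unfold Tc
    rw [mem_RE'] at this ⊢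
    omega
  · intro e he
    apply hh
    have := LRE_subset_RE he
    unfold Tc
    rw [mem_RE'] at this ⊢
    omega

theorem Leg_mono {a k h : ℕ} {p : ℤ} {F F' : Finset Edg} (hh : F' ⊆ F) (hF : Leg a k h p F) :
    Leg a k h p F' := ⟨DTB_mono hh hF.1, DTB_mono hh hF.2⟩

theorem A3v_loc {v : Vtx} {r : ℕ} {F F' : Set Edg} (h : ∀ e ∈ blk v r, (e ∈ F ↔ e ∈ F')) :
    A3v v 2 r F ↔ A3v v 2 r F' := by
  have h1 : ∀ u, Clu v 2 r F u = Clu v 2 r F' u := by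
    intro u
    unfold Clu
    ext x
    simp only [Set.mem_ofPred_eq]
    apply reach_iff
    intro e he
    exact h e (mem_AE'.1 he).1
  unfold A3v
  simp only [h1]

/-! ### Unions -/

theorem mem_kn {m : ℕ} {F : Finset Edg} {e : Edg} :
    e ∈ KnF m F ↔ e ∈ Kn m (↑F : Set Edg) := by
  classical
  unfold KnF
  rw [Finset.mem_filter]
  exact ⟨fun h => h.2, fun h => ⟨h.1.1, h⟩⟩

section fixed

variable {m : ℕ} {F0 η η' : Finset Edg}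

theorem memF (hη : η ⊆ boxE m \ KnF m F0) {e : Edg} : e ∈ F0 ∩ KnF m F0 ∪ η ↔
    (e ∈ F0 ∧ e ∈ Kn m (↑F0 : Set Edg)) ∨ (e ∈ η ∧ e ∉ Kn m (↑F0 : Set Edg)) := by
  rw [Finset.mem_union, Finset.mem_inter, mem_kn]
  constructor
  · rintro (h | h)
    · exact Or.inl h
    · exact Or.inr ⟨h, fun h' => (Finset.mem_sdiff.1 (hη h)).2 (mem_kn.2 h')⟩
  · rintro (h | h)
    · exact Or.inl h
    · exact Or.inr h.1

theorem memF_off (hη : η ⊆ boxE m \ KnF m F0) {e : Edg} (he : e ∉ Kn m (↑F0 : Set Edg)) :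
    e ∈ F0 ∩ KnF m F0 ∪ η ↔ e ∈ η := by
  rw [memF hη]
  tauto

theorem WF_eq (hKN : S_KN) (hη : η ⊆ boxE m \ KnF m F0) :
    WF m (↑(F0 ∩ KnF m F0 ∪ η) : Set Edg) = WF m (↑F0 : Set Edg) := by
  apply hKN
  intro e he
  rw [Finset.mem_coe, Finset.mem_coe, memF hη]
  tauto

theorem Kn_eq (hKN : S_KN) (hη : η ⊆ boxE m \ KnF m F0) :
    Kn m (↑(F0 ∩ KnF m F0 ∪ η) : Set Edg) = Kn m (↑F0 : Set Edg) := by
  unfold Kn
  rw [WF_eq hKN hη]

theorem XX_eq (hKN : S_KN) (hη : η ⊆ boxE m \ KnF m F0) :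
    XX m (↑(F0 ∩ KnF m F0 ∪ η) : Set Edg) = XX m (↑F0 : Set Edg) := by
  unfold XX
  rw [Kn_eq hKN hη]
  ext v
  simp only [Set.mem_ofPred_eq]
  apply reach_iff
  intro e he
  rw [Finset.mem_coe, Finset.mem_coe, memF hη]
  tauto

theorem sdiff_eq (hKN : S_KN) (hη : η ⊆ boxE m \ KnF m F0) :
    (↑(F0 ∩ KnF m F0 ∪ η) : Set Edg) \ Kn m (↑(F0 ∩ KnF m F0 ∪ η) : Set Edg) = ↑η := by
  rw [Kn_eq hKN hη]
  ext e
  rw [Set.mem_sdiff, Finset.mem_coe, Finset.mem_coe, memF hη]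
  constructor
  · rintro ⟨h1, h2⟩; tauto
  · intro h
    have : e ∉ Kn m (↑F0 : Set Edg) := fun h' => (Finset.mem_sdiff.1 (hη h)).2 (mem_kn.2 h')
    tauto

theorem sub_un (hηη : η' ⊆ η) : F0 ∩ KnF m F0 ∪ η' ⊆ F0 ∩ KnF m F0 ∪ η :=
  Finset.union_subset_union_right hηη

/-- The slit event is decreasing. -/
theorem SE_decr (hF1 : S_F1) (hm : 1 ≤ m) (h0 : SE m (↑F0 : Set Edg)) (hηη : η' ⊆ η)
    (h : SE m (↑(F0 ∩ KnF m F0 ∪ η) : Set Edg)) : SE m (↑(F0 ∩ KnF m F0 ∪ η') : Set Edg) := by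
  refine ⟨?_, ?_⟩
  · obtain ⟨u, hu, hr⟩ := hF1 m _ hm h0
    refine ⟨u, hu, Reach.mono ?_ hr⟩
    rintro e ⟨h1, h2⟩
    refine ⟨?_, h2.1.1⟩
    rw [Finset.mem_coe, Finset.mem_union, Finset.mem_inter, mem_kn]
    exact Or.inl ⟨h1, h2⟩
  · intro r hr hh
    refine h.2 r hr (hh.mono (Set.inter_subset_inter_left _ ?_))
    exact_mod_cast sub_un hηη

end fixed

/-! ### The common tube and the middle region -/

section geo

variable {M B h k a m : ℕ} {p : ℤ} {F0 : Finset Edg}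

theorem Tc_AE (h1 : 1 ≤ h) (hk : 64 * h ≤ k) (ha : 8 * k ≤ a) (hp : |p| ≤ k) {e : Edg}
    (he : e ∈ Tc a k h p) : e ∈ AE (0, 0) a (8 * a) := by
  unfold Tc at he
  rw [mem_RE'] at he
  rw [mem_AE', mem_blk', mem_blk']
  have := abs_le.1 hp
  have h3 := src_le e
  simp only
  push_cast
  omega

theorem MM_AE {X : Set Vtx} {e : Edg} (he : e ∈ MM m a k X) : e ∈ AE (0, 0) (2 * a) (4 * a) :=
  he.1

theorem MM_Kn (hUP : S_UP) (hm1 : 1 ≤ m) (hm : 8 * a ≤ m) (h0 : SE m (↑F0 : Set Edg)) {e : Edg}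
    (he : e ∈ MM m a k (XX m (↑F0 : Set Edg))) : e ∉ Kn m (↑F0 : Set Edg) := by
  obtain ⟨-, h2, -⟩ := hUP m _ hm1 h0
  exact (h2 e (AE_box (by omega) he.1) he.2.2).1

theorem Tc_Kn (hUP : S_UP) (hZU : S_ZU) (h1 : 1 ≤ h) (hk : 64 * h ≤ k) (ha : 8 * k ≤ a)
    (hm : 8 * a ≤ m) (hp : |p| ≤ k) (h0 : SE m (↑F0 : Set Edg))
    (hN : NiceZ a (8 * k) (XX m (↑F0 : Set Edg))) {e : Edg} (he : e ∈ Tc a k h p) :
    e ∉ Kn m (↑F0 : Set Edg) := by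
  obtain ⟨-, h2, -⟩ := hUP m _ (by omega) h0
  have hb : e ∈ boxE m := AE_box hm (Tc_AE h1 hk ha hp he)
  have hp' := abs_le.1 hp
  have hU := hZU m a (8 * k) (XX m (↑F0 : Set Edg)) (by omega) (by omega) hm ha hN
  unfold Tc at he
  rw [mem_RE'] at he
  have h3 := src_le e
  by_cases hy : 1 ≤ (tgt e).2
  · refine (h2 e hb (Or.inr (hU _ ?_ ?_ hy ?_))).1
    · omega
    · omega
    · push_cast; omega
  · intro hk'
    apply hk'.1.2
    obtain ⟨x, y, _ | _⟩ := e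
    · simp only [src_mk, tgt_false] at he hy h3
      omega
    · simp only [src_mk, tgt_true] at he hy h3
      refine ⟨rfl, ?_, ?_, ?_⟩
      · show y = 0
        omega
      · show 0 ≤ x
        omega
      · show x < m
        omega

theorem Leg_F (hUP : S_UP) (hZU : S_ZU) (h1 : 1 ≤ h) (hk : 64 * h ≤ k) (ha : 8 * k ≤ a)
    (hm : 8 * a ≤ m) (hp : |p| ≤ k) (h0 : SE m (↑F0 : Set Edg))
    (hN : NiceZ a (8 * k) (XX m (↑F0 : Set Edg))) {η : Finset Edg} (hη : η ⊆ boxE m \ KnF m F0) :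
    Leg a k h p (F0 ∩ KnF m F0 ∪ η) ↔ Leg a k h p η :=
  Leg_loc (fun _ he => memF_off hη (Tc_Kn hUP hZU h1 hk ha hm hp h0 hN he))

end geo

/-! ### The events -/

/-- The environment. -/
def fE (a k h m : ℕ) (p : ℤ) (F0 : Finset Edg) (U : Finset Edg → Prop) (η : Finset Edg) : Prop :=
  (SE m (↑(F0 ∩ KnF m F0 ∪ η) : Set Edg) ∧ U η) ∧ (DD a k (↑η : Set Edg) ∧ Leg a k h p η)

/-- The event at `v`. -/
def gE (M B k h a m : ℕ) (p : ℤ) (F0 : Finset Edg) (v : Vtx) (η : Finset Edg) : Prop :=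
  Gs M B k h a m p (XX m (↑F0 : Set Edg)) v (↑(F0 ∩ KnF m F0 ∪ η) : Set Edg)

open Classical in
/-- The free edges of the middle region. -/
noncomputable def S1 (a k h m : ℕ) (p : ℤ) (F0 : Finset Edg) : Finset Edg :=
  (boxE m \ KnF m F0).filter (fun e => e ∈ MM m a k (XX m (↑F0 : Set Edg)) ∧ e ∉ Tc a k h p)

section main

variable {M B h k a m : ℕ} {p : ℤ} {F0 : Finset Edg} {U : Finset Edg → Prop}

theorem mem_S1 {e : Edg} : e ∈ S1 a k h m p F0 ↔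
    e ∈ boxE m \ KnF m F0 ∧ e ∈ MM m a k (XX m (↑F0 : Set Edg)) ∧ e ∉ Tc a k h p := by
  classical
  unfold S1
  rw [Finset.mem_filter]

theorem MM_S (hUP : S_UP) (hm1 : 1 ≤ m) (hm : 8 * a ≤ m) (h0 : SE m (↑F0 : Set Edg)) {e : Edg}
    (he : e ∈ MM m a k (XX m (↑F0 : Set Edg))) : e ∈ boxE m \ KnF m F0 := by
  rw [Finset.mem_sdiff, mem_kn]
  exact ⟨AE_box (by omega) he.1, MM_Kn hUP hm1 hm h0 he⟩

theorem Tc_S (hUP : S_UP) (hZU : S_ZU) (h1 : 1 ≤ h) (hk : 64 * h ≤ k) (ha : 8 * k ≤ a)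
    (hm : 8 * a ≤ m) (hp : |p| ≤ k) (h0 : SE m (↑F0 : Set Edg))
    (hN : NiceZ a (8 * k) (XX m (↑F0 : Set Edg))) : Tc a k h p ⊆ boxE m \ KnF m F0 := by
  intro e he
  rw [Finset.mem_sdiff, mem_kn]
  exact ⟨AE_box hm (Tc_AE h1 hk ha hp he), Tc_Kn hUP hZU h1 hk ha hm hp h0 hN he⟩

/-- (i), one direction -/
theorem f_S1' (hKN : S_KN) (hT3 : S_T3) (h1 : 1 ≤ h) (hk : 64 * h ≤ k) (ha : 8 * k ≤ a)
    (hm : 8 * a ≤ m)
    (hU : ∀ η η' : Finset Edg, (∀ e, e ∉ AE (0, 0) a (8 * a) → (e ∈ η ↔ e ∈ η')) → (U η ↔ U η'))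
    {η η' : Finset Edg} (hη : η ⊆ boxE m \ KnF m F0) (hη' : η' ⊆ boxE m \ KnF m F0)
    (he : ∀ e, e ∉ S1 a k h m p F0 → (e ∈ η ↔ e ∈ η')) (hf : fE a k h m p F0 U η) :
    fE a k h m p F0 U η' := by
  obtain ⟨⟨hs, hu⟩, hd, hl⟩ := hf
  have hoff : ∀ e, e ∉ MM m a k (XX m (↑F0 : Set Edg)) → (e ∈ η ↔ e ∈ η') := fun e h' =>
    he e (fun h'' => h' (mem_S1.1 h'').2.1)
  refine ⟨⟨?_, ?_⟩, ?_, ?_⟩
  · apply hT3 m a k (↑(F0 ∩ KnF m F0 ∪ η) : Set Edg) _ (by omega) (by omega) hm hs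
    · rw [sdiff_eq hKN hη]; exact hd
    · intro e h'
      rw [XX_eq hKN hη] at h'
      rw [Finset.mem_coe, Finset.mem_coe, memF hη, memF hη', hoff e h']
  · refine (hU η η' ?_).1 hu
    intro e h'
    exact hoff e (fun h'' => h' (AE_AE (by omega) (by omega) (MM_AE h'')))
  · refine ⟨?_, ?_, ?_⟩
    · refine (NoC_loc ?_).1 hd.1
      intro e h'
      exact hoff e (fun h'' => AE_dis (by omega) h' (MM_AE h''))
    · refine (NoC_loc ?_).1 hd.2.1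
      intro e h'
      exact hoff e (fun h'' => AE_dis (by omega) (MM_AE h'') h')
    · refine (NoS_loc ?_).1 hd.2.2
      intro e h'
      refine hoff e (fun h'' => h''.2.1 ?_)
      rw [Finset.mem_coe, mem_RE'] at h'
      rw [mem_RE']
      omega
  · refine (Leg_loc ?_).1 hl
    intro e h'
    exact he e (fun h'' => (mem_S1.1 h'').2.2 h')

/-- (i) -/
theorem f_S1 (hKN : S_KN) (hT3 : S_T3) (h1 : 1 ≤ h) (hk : 64 * h ≤ k) (ha : 8 * k ≤ a)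
    (hm : 8 * a ≤ m)
    (hU : ∀ η η' : Finset Edg, (∀ e, e ∉ AE (0, 0) a (8 * a) → (e ∈ η ↔ e ∈ η')) → (U η ↔ U η'))
    {η η' : Finset Edg} (hη : η ⊆ boxE m \ KnF m F0) (hη' : η' ⊆ boxE m \ KnF m F0)
    (he : ∀ e, e ∉ S1 a k h m p F0 → (e ∈ η ↔ e ∈ η')) :
    fE a k h m p F0 U η ↔ fE a k h m p F0 U η' :=
  ⟨f_S1' hKN hT3 h1 hk ha hm hU hη hη' he,
    f_S1' hKN hT3 h1 hk ha hm hU hη' hη (fun e h' => (he e h').symm)⟩

/-- (ii) -/
theorem f_S2 (hF1 : S_F1) (h1 : 1 ≤ h) (hk : 64 * h ≤ k) (ha : 8 * k ≤ a) (hm : 8 * a ≤ m)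
    (hp : |p| ≤ k) (h0 : SE m (↑F0 : Set Edg))
    (hU : ∀ η η' : Finset Edg, (∀ e, e ∉ AE (0, 0) a (8 * a) → (e ∈ η ↔ e ∈ η')) → (U η ↔ U η'))
    {η η' : Finset Edg} (hs : η' ⊆ η) (he : ∀ e, e ∉ Tc a k h p → (e ∈ η ↔ e ∈ η'))
    (hf : fE a k h m p F0 U η) : fE a k h m p F0 U η' := by
  obtain ⟨⟨hs', hu⟩, hd, hl⟩ := hf
  refine ⟨⟨SE_decr hF1 (by omega) h0 hs hs', ?_⟩, DD_mono (by exact_mod_cast hs) hd,
    Leg_mono hs hl⟩
  refine (hU η η' ?_).1 hu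
  intro e h'
  exact he e (fun h'' => h' (Tc_AE h1 hk ha hp h''))

/-- (iii) -/
theorem g_loc (hUP : S_UP) (hZU : S_ZU) (hLOC : S_LOC) (hB : 1 ≤ B) (h1 : 1 ≤ h)
    (hk : 64 * h ≤ k) (ha : 8 * k ≤ a) (hm : 8 * a ≤ m) (hp : |p| ≤ k)
    (h0 : SE m (↑F0 : Set Edg)) (hN : NiceZ a (8 * k) (XX m (↑F0 : Set Edg))) {v : Vtx}
    (hv : v ∈ Qc a k h) {η η' : Finset Edg} (hη : η ⊆ boxE m \ KnF m F0)
    (hη' : η' ⊆ boxE m \ KnF m F0)
    (he : ∀ e ∈ S1 a k h m p F0 ∪ Tc a k h p, (e ∈ η ↔ e ∈ η')) :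
    gE M B k h a m p F0 v η ↔ gE M B k h a m p F0 v η' := by
  refine (hLOC M B k h a m p (XX m (↑F0 : Set Edg)) v hB h1 hk ha hm hp hv).1 hN _ _ ?_
  intro e h'
  have h2 : e ∉ Kn m (↑F0 : Set Edg) := by
    rcases h' with h' | h'
    · exact MM_Kn hUP (by omega) hm h0 h'
    · exact Tc_Kn hUP hZU h1 hk ha hm hp h0 hN h'
  rw [Finset.mem_coe, Finset.mem_coe, memF_off hη h2, memF_off hη' h2]
  apply he
  rw [Finset.mem_union, mem_S1]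
  rcases h' with h' | h'
  · by_cases ht : e ∈ Tc a k h p
    · exact Or.inr ht
    · exact Or.inl ⟨MM_S hUP (by omega) hm h0 h', h', ht⟩
  · exact Or.inr h'

theorem g_S2 (hLOC : S_LOC) (hB : 1 ≤ B) (h1 : 1 ≤ h)
    (hk : 64 * h ≤ k) (ha : 8 * k ≤ a) (hm : 8 * a ≤ m) (hp : |p| ≤ k) {v : Vtx}
    (hv : v ∈ Qc a k h) {η η' : Finset Edg} (hη : η ⊆ boxE m \ KnF m F0)
    (hη' : η' ⊆ boxE m \ KnF m F0) (hs : η' ⊆ η)
    (he : ∀ e, e ∉ Tc a k h p → (e ∈ η ↔ e ∈ η')) (hg : gE M B k h a m p F0 v η) :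
    gE M B k h a m p F0 v η' := by
  refine (hLOC M B k h a m p (XX m (↑F0 : Set Edg)) v hB h1 hk ha hm hp hv).2.1 _ _ ?_ ?_ hg
  · exact_mod_cast sub_un hs
  · intro e h'
    rw [Finset.mem_coe, Finset.mem_coe, memF hη, memF hη', he e h']

/-- (iv) -/
theorem g_low (hUP : S_UP) (hZU : S_ZU) (hLOC : S_LOC) (hT4 : S_T4) (hB : 1 ≤ B) (h1 : 1 ≤ h)
    (hk : 64 * h ≤ k) (ha : 8 * k ≤ a) (hm : 8 * a ≤ m) (hp : |p| ≤ k)
    (h0 : SE m (↑F0 : Set Edg)) (hN : NiceZ a (8 * k) (XX m (↑F0 : Set Edg))) {v : Vtx}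
    (hv : v ∈ Qc a k h) :
    PQ (1 / 2) (boxE m) (fun F => Gv M B k h p v (↑F : Set Edg) ∧ Arc a k h F) ≤
      PQ (1 / 2) (boxE m \ KnF m F0) (fun η => gE M B k h a m p F0 v η) := by
  have e1 : PQ (1 / 2) (boxE m)
      (fun F => Gs M B k h a m p (XX m (↑F0 : Set Edg)) v (↑F : Set Edg)) =
      PQ (1 / 2) (boxE m \ KnF m F0)
        (fun F => Gs M B k h a m p (XX m (↑F0 : Set Edg)) v (↑F : Set Edg)) := by
    apply Pr_local Finset.sdiff_subset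
    intro F hF
    refine (hLOC M B k h a m p (XX m (↑F0 : Set Edg)) v hB h1 hk ha hm hp hv).1 hN _ _ ?_
    intro e h'
    rw [Finset.mem_coe, Finset.mem_coe, Finset.mem_inter]
    have : e ∈ boxE m \ KnF m F0 := by
      rcases h' with h' | h'
      · exact MM_S hUP (by omega) hm h0 h'
      · exact Tc_S hUP hZU h1 hk ha hm hp h0 hN h'
    tauto
  have e2 : PQ (1 / 2) (boxE m \ KnF m F0)
        (fun F => Gs M B k h a m p (XX m (↑F0 : Set Edg)) v (↑F : Set Edg)) =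
      PQ (1 / 2) (boxE m \ KnF m F0) (fun η => gE M B k h a m p F0 v η) := by
    apply Pr_congr
    intro η hη
    unfold gE
    refine (hLOC M B k h a m p (XX m (↑F0 : Set Edg)) v hB h1 hk ha hm hp hv).1 hN _ _ ?_
    intro e h'
    have h2 : e ∉ Kn m (↑F0 : Set Edg) := by
      rcases h' with h' | h'
      · exact MM_Kn hUP (by omega) hm h0 h'
      · exact Tc_Kn hUP hZU h1 hk ha hm hp h0 hN h'
    rw [Finset.mem_coe, Finset.mem_coe, memF_off hη h2]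
  rw [← e2, ← e1]
  apply Pr_mono ok2
  rintro F - ⟨hg, ha'⟩
  exact hT4 M B k h a m p (↑F0 : Set Edg) F v hB h1 hk ha hm hp h0 hN hv hg ha'

theorem blk_S1 (hUP : S_UP) (hLOC : S_LOC) (hB : 1 ≤ B) (h1 : 1 ≤ h)
    (hk : 64 * h ≤ k) (ha : 8 * k ≤ a) (hm : 8 * a ≤ m) (hp : |p| ≤ k)
    (h0 : SE m (↑F0 : Set Edg)) (hN : NiceZ a (8 * k) (XX m (↑F0 : Set Edg))) {v : Vtx}
    (hv : v ∈ Qc a k h) : blk v (k / 2) ⊆ S1 a k h m p F0 := by
  intro e he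
  have h2 := (hLOC 1 B k h a m p (XX m (↑F0 : Set Edg)) v hB h1 hk ha hm hp hv).2.2.2.2 hN
    (Finset.mem_coe.2 he)
  rw [mem_S1]
  exact ⟨MM_S hUP (by omega) hm h0 h2.1, h2.1, fun h' => h2.2 (Finset.mem_coe.2 h')⟩

theorem S1_sub : S1 a k h m p F0 ⊆ boxE m \ KnF m F0 := fun _ he => (mem_S1.1 he).1

theorem sd_Qc (hk : 64 * h ≤ k) {v w : Vtx} (hv : v ∈ Qc a k h) (hw : w ∈ Qc a k h) :
    sd v w ≤ ((k / 2 : ℕ) : ℤ) := by
  unfold Qc at hv hw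
  rw [Finset.mem_product, Finset.mem_Icc, Finset.mem_Icc] at hv hw
  unfold sd
  apply max_le <;> rw [abs_le] <;> omega

/-- (vi) -/
theorem second (hKN : S_KN) (hUP : S_UP) (hLOC : S_LOC) (hT3 : S_T3)
    (hIMP : S_IMP) {CT : ℝ} (hCT : 0 < CT)
    (hTP : ∀ (k : ℕ) (v w : Vtx) (S : Finset Edg), 1 ≤ k → sd v w ≤ k → blk v k ⊆ S →
      blk w k ⊆ S → PQ (1 / 2) S (fun F => A3v v 2 k ↑F ∧ A3v w 2 k ↑F) ≤
        CT * ((max (sd v w) 1 : ℤ) : ℝ) ^ (-(2 / 3 : ℝ)) * (k : ℝ) ^ (-(2 / 3 : ℝ)))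
    (hM : 1 ≤ M) (hB : 1 ≤ B) (h1 : 1 ≤ h)
    (hk : 64 * h ≤ k) (ha : 8 * k ≤ a) (hm : 8 * a ≤ m) (hp : |p| ≤ k)
    (h0 : SE m (↑F0 : Set Edg)) (hN : NiceZ a (8 * k) (XX m (↑F0 : Set Edg)))
    (hU : ∀ η η' : Finset Edg, (∀ e, e ∉ AE (0, 0) a (8 * a) → (e ∈ η ↔ e ∈ η')) → (U η ↔ U η'))
    {v w : Vtx} (hv : v ∈ Qc a k h) (hw : w ∈ Qc a k h) :
    PQ (1 / 2) (boxE m \ KnF m F0) (fun η => fE a k h m p F0 U η ∧
      gE M B k h a m p F0 v η ∧ gE M B k h a m p F0 w η) ≤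
      CT * ((max (sd v w) 1 : ℤ) : ℝ) ^ (-(2 / 3 : ℝ)) * (h : ℝ) ^ (-(2 / 3 : ℝ)) *
        PQ (1 / 2) (boxE m \ KnF m F0) (fE a k h m p F0 U) := by
  have hbv := blk_S1 hUP hLOC hB h1 hk ha hm hp h0 hN hv
  have hbw := blk_S1 hUP hLOC hB h1 hk ha hm hp h0 hN hw
  have hA : ∀ {x : Vtx}, x ∈ Qc a k h → ∀ {η : Finset Edg}, η ⊆ boxE m \ KnF m F0 →
      gE M B k h a m p F0 x η → A3v x 2 (k / 2) (↑η : Set Edg) := by
    intro x hx η hη hg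
    have h2 := hIMP M B k h p x _ hM hB h1 hk hg.1
    refine (A3v_loc ?_).1 h2
    intro e he
    rw [Finset.mem_coe, Finset.mem_coe]
    exact memF_off hη (MM_Kn hUP (by omega) hm h0
      (mem_S1.1 (blk_S1 hUP hLOC hB h1 hk ha hm hp h0 hN hx he)).2.1)
  have e1 : PQ (1 / 2) (boxE m \ KnF m F0) (fun η => fE a k h m p F0 U η ∧
      gE M B k h a m p F0 v η ∧ gE M B k h a m p F0 w η) ≤
      PQ (1 / 2) (boxE m \ KnF m F0) (fun η => fE a k h m p F0 U η ∧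
        (A3v v 2 (k / 2) (↑η : Set Edg) ∧ A3v w 2 (k / 2) (↑η : Set Edg))) := by
    apply Pr_mono ok2
    rintro η hη ⟨hf, hg, hg'⟩
    exact ⟨hf, hA hv hη hg, hA hw hη hg'⟩
  have e2 : PQ (1 / 2) (boxE m \ KnF m F0) (fun η => fE a k h m p F0 U η ∧
        (A3v v 2 (k / 2) (↑η : Set Edg) ∧ A3v w 2 (k / 2) (↑η : Set Edg))) =
      PQ (1 / 2) (boxE m \ KnF m F0) (fE a k h m p F0 U) *
        PQ (1 / 2) (boxE m \ KnF m F0)
          (fun η => A3v v 2 (k / 2) (↑η : Set Edg) ∧ A3v w 2 (k / 2) (↑η : Set Edg)) := by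
    apply Pr_indep (S := (boxE m \ KnF m F0) \ S1 a k h m p F0) (T := S1 a k h m p F0)
      Finset.sdiff_subset S1_sub Finset.sdiff_disjoint
    · intro η hη
      refine f_S1 hKN hT3 h1 hk ha hm hU hη (Finset.inter_subset_left.trans hη) ?_
      intro e he
      rw [Finset.mem_inter, Finset.mem_sdiff]
      constructor
      · intro h'; exact ⟨h', hη h', he⟩
      · intro h'; exact h'.1
    · intro η hη
      rw [A3v_loc (F' := (↑(η ∩ S1 a k h m p F0) : Set Edg)),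
        A3v_loc (v := w) (F' := (↑(η ∩ S1 a k h m p F0) : Set Edg))]
      · intro e he
        have := hbw he
        rw [Finset.mem_coe, Finset.mem_coe, Finset.mem_inter]
        tauto
      · intro e he
        have := hbv he
        rw [Finset.mem_coe, Finset.mem_coe, Finset.mem_inter]
        tauto
  have e3 := hTP (k / 2) v w (boxE m \ KnF m F0) (by omega) (sd_Qc hk hv hw)
    (hbv.trans S1_sub) (hbw.trans S1_sub)
  have hh : (0 : ℝ) < h := by exact_mod_cast h1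
  have e4 : ((k / 2 : ℕ) : ℝ) ^ (-(2 / 3 : ℝ)) ≤ (h : ℝ) ^ (-(2 / 3 : ℝ)) := by
    apply Real.rpow_le_rpow_of_nonpos hh
    · exact_mod_cast (by omega : h ≤ k / 2)
    · norm_num
  have e5 : (0 : ℝ) ≤ ((max (sd v w) 1 : ℤ) : ℝ) ^ (-(2 / 3 : ℝ)) := by
    apply Real.rpow_nonneg
    exact_mod_cast (le_trans zero_le_one (le_max_right _ _) : (0 : ℤ) ≤ max (sd v w) 1)
  have hnn := Pr_nonneg ok2 (boxE m \ KnF m F0) (fE a k h m p F0 U)
  calc _ ≤ _ := e1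
    _ = _ := e2
    _ ≤ PQ (1 / 2) (boxE m \ KnF m F0) (fE a k h m p F0 U) *
        (CT * ((max (sd v w) 1 : ℤ) : ℝ) ^ (-(2 / 3 : ℝ)) * (h : ℝ) ^ (-(2 / 3 : ℝ))) := by
        apply mul_le_mul_of_nonneg_left _ hnn
        refine e3.trans ?_
        exact mul_le_mul_of_nonneg_left e4 (mul_nonneg hCT.le e5)
    _ = _ := by ring

/-- (viii) -/
theorem env (hF1 : S_F1) (hHAR : S_HAR) {δ : ℝ} (h1 : 1 ≤ h)
    (hk : 64 * h ≤ k) (ha : 8 * k ≤ a) (hm : 8 * a ≤ m) (hp : |p| ≤ k)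
    (hD : δ ≤ PQ (1 / 2) (boxE m \ KnF m F0) (fun F => DD a k (↑F : Set Edg) ∧ Leg a k h p F))
    (h0 : SE m (↑F0 : Set Edg))
    (hU : ∀ η η' : Finset Edg, (∀ e, e ∉ AE (0, 0) a (8 * a) → (e ∈ η ↔ e ∈ η')) →
      (U η ↔ U η')) :
    δ * PQ (1 / 2) (boxE m \ KnF m F0)
      (fun η => SE m (↑(F0 ∩ KnF m F0 ∪ η) : Set Edg) ∧ U η) ≤
      PQ (1 / 2) (boxE m \ KnF m F0) (fE a k h m p F0 U) := by
  classical
  set S := boxE m \ KnF m F0 with hS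
  have hmem : ∀ e, e ∈ S.filter (fun e => e ∈ AE (0, 0) a (8 * a)) ↔
      e ∈ S ∧ e ∈ AE (0, 0) a (8 * a) := fun e => Finset.mem_filter
  have key := hHAR S ∅ (S.filter (fun e => e ∈ AE (0, 0) a (8 * a)))
    (fun η => SE m (↑(F0 ∩ KnF m F0 ∪ η) : Set Edg) ∧ U η)
    (fun η => DD a k (↑η : Set Edg) ∧ Leg a k h p η) (Finset.empty_subset _)
    (Finset.filter_subset _ _) (Finset.disjoint_empty_left _) ?_ ?_ ?_ ?_
  · have hnn := Pr_nonneg ok2 S (fun η => SE m (↑(F0 ∩ KnF m F0 ∪ η) : Set Edg) ∧ U η)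
    calc _ ≤ PQ (1 / 2) S (fun F => DD a k (↑F : Set Edg) ∧ Leg a k h p F) *
          PQ (1 / 2) S (fun η => SE m (↑(F0 ∩ KnF m F0 ∪ η) : Set Edg) ∧ U η) :=
          mul_le_mul_of_nonneg_right hD hnn
      _ = _ := mul_comm _ _
      _ ≤ _ := key
  · intro η η' _ _ he
    have : η = η' := by
      ext e
      exact he e (Finset.notMem_empty _)
    rw [this]
  · intro η η' hη hη' he
    have hall : ∀ e ∈ AE (0, 0) a (8 * a), (e ∈ η ↔ e ∈ η') := by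
      intro e h'
      by_cases hs : e ∈ S
      · exact he e (Finset.mem_union_right _ ((hmem e).2 ⟨hs, h'⟩))
      · exact ⟨fun h'' => absurd (hη h'') hs, fun h'' => absurd (hη' h'') hs⟩
    have i1 : DD a k (↑η : Set Edg) ↔ DD a k (↑η' : Set Edg) := by
      unfold DD
      rw [NoC_loc (F := (↑η : Set Edg)) (F' := (↑η' : Set Edg)),
        NoC_loc (r := 4 * a) (F := (↑η : Set Edg)) (F' := (↑η' : Set Edg)),
        NoS_loc (F := (↑η : Set Edg)) (F' := (↑η' : Set Edg))]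
      · intro e h'
        apply hall
        rw [Finset.mem_coe, mem_RE'] at h'
        rw [mem_AE', mem_blk', mem_blk']
        have h3 := src_le e
        simp only
        push_cast
        omega
      · intro e h'
        exact hall e (AE_AE (by omega) (by omega) h')
      · intro e h'
        exact hall e (AE_AE (by omega) (by omega) h')
    have i2 : Leg a k h p η ↔ Leg a k h p η' :=
      Leg_loc (fun e h' => hall e (Tc_AE h1 hk ha hp h'))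
    exact and_congr i1 i2
  · rintro η η' hη hs he ⟨hs', hu⟩
    refine ⟨SE_decr hF1 (by omega) h0 hs hs', (hU η η' ?_).1 hu⟩
    intro e h'
    exact he e (fun h'' => h' ((hmem e).1 h'').2)
  · rintro η η' hη hs he ⟨hd, hl⟩
    exact ⟨DD_mono (by exact_mod_cast hs) hd, Leg_mono hs hl⟩

end main

/-- The success at one scale. -/
theorem t_SC (hKN : S_KN) (hF1 : S_F1) (hUP : S_UP) (hZU : S_ZU) (hT3 : S_T3) (hT4 : S_T4)
    (hLOC : S_LOC) (hGA : S_GA) (hTP3 : S_TP3) (hIMP : S_IMP) (hDPR : S_DPR) (hHAR : S_HAR)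
    (hPZ : S_PZ) : S_SC := by
  intro t c q A ht0 ht1 hc hq hA
  obtain ⟨cG, hcG, hG⟩ := hGA q A hq hA
  obtain ⟨CT, hCT, hTP⟩ := hTP3
  obtain ⟨δ2, hδ2, hD⟩ := hDPR q A hq hA
  obtain ⟨δ1, c0, E0, hδ1, hδ1', hc0, hE0, hP⟩ := hPZ (cG * c) CT t (mul_pos hcG hc) hCT ht0 ht1
  have hδ2' : δ2 ≤ 1 := by
    refine (hD 1 0 le_rfl ?_ ∅).trans (Pr_le_one ok2 _ _)
    simp
  refine ⟨δ1 * δ2, c0, E0, mul_pos hδ1 hδ2, mul_le_one₀ hδ1' hδ2.le hδ2', hc0, hE0, ?_⟩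
  intro M B h m p hM hB h1 hp hlow hm F0 hF0 h0 hN U hU
  have hk : 64 * h ≤ q * h := Nat.mul_le_mul_right h hq
  have ha : 8 * (q * h) ≤ A * (q * h) := Nat.mul_le_mul_right _ hA
  set k := q * h with hkd
  set a := A * k with had
  have hp' : |p| ≤ (k : ℤ) := hp
  have hE := env (U := U) hF1 hHAR h1 hk ha hm hp' (hD h p h1 hp (boxE m \ KnF m F0)) h0 hU
  have hsub : Tc a k h p ⊆ boxE m \ KnF m F0 := Tc_S hUP hZU h1 hk ha hm hp' h0 hN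
  have hgl : ∀ v ∈ Qc a k h, cG * c * (h : ℝ) ^ (-(2 / 3 : ℝ)) ≤
      PQ (1 / 2) (boxE m \ KnF m F0) (fun η => gE M B k h a m p F0 v η) := by
    intro v hv
    have e1 := hG M B h p hB h1 hp v hv (boxE m) ?_
    · calc cG * c * (h : ℝ) ^ (-(2 / 3 : ℝ)) = cG * (c * (h : ℝ) ^ (-(2 / 3 : ℝ))) := by ring
        _ ≤ _ := mul_le_mul_of_nonneg_left hlow hcG.le
        _ ≤ _ := e1
        _ ≤ _ := g_low hUP hZU hLOC hT4 hB h1 hk ha hm hp' h0 hN hv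
    · intro e he
      rw [mem_box'] at he ⊢
      have h5 : ((4 * (A * (q * h)) : ℕ) : ℤ) ≤ m := by
        have : 4 * (A * (q * h)) ≤ m := by
          rw [← hkd, ← had]; omega
        exact_mod_cast this
      omega
  have hQ : Finset.Icc (3 * (a : ℤ) - h) (3 * (a : ℤ) + h) ×ˢ
      Finset.Icc (4 * (k : ℤ) - h) (4 * (k : ℤ) + h) = Qc a k h := rfl
  have key := hP (boxE m \ KnF m F0) (fE a k h m p F0 U)
    (fun v η => gE M B k h a m p F0 v η) h (3 * (a : ℤ)) (4 * (k : ℤ)) h1 ?_ ?_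
  · calc δ1 * δ2 * PQ (1 / 2) (boxE m \ KnF m F0)
          (fun η => SE m (↑(F0 ∩ KnF m F0 ∪ η) : Set Edg) ∧ U η)
        = δ1 * (δ2 * PQ (1 / 2) (boxE m \ KnF m F0)
          (fun η => SE m (↑(F0 ∩ KnF m F0 ∪ η) : Set Edg) ∧ U η)) := by ring
      _ ≤ δ1 * PQ (1 / 2) (boxE m \ KnF m F0) (fE a k h m p F0 U) :=
          mul_le_mul_of_nonneg_left hE hδ1.le
      _ ≤ _ := key
      _ ≤ _ := by
        apply Pr_mono ok2
        rintro η hη ⟨hf, V, hV1, hV2, hV3, hV4⟩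
        refine ⟨hf.1, (Leg_F hUP hZU h1 hk ha hm hp' h0 hN hη).2 hf.2.2, V, hV1, hV2, hV3, ?_⟩
        intro v hv
        obtain ⟨hg, x, hx, hr⟩ := hV4 v hv
        refine ⟨hg, x, hx, hr.mono ?_⟩
        rintro e ⟨he1, he2, -⟩
        exact ⟨he1, AE_AE (by omega) (by omega) (MM_AE he2)⟩
  · intro v hv
    rw [hQ] at hv
    have e1 := hHAR (boxE m \ KnF m F0) (S1 a k h m p F0) (Tc a k h p)
      (fE a k h m p F0 U) (fun η => gE M B k h a m p F0 v η) S1_sub hsub ?_ ?_ ?_ ?_ ?_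
    · have hnn := Pr_nonneg ok2 (boxE m \ KnF m F0) (fE a k h m p F0 U)
      calc cG * c * (h : ℝ) ^ (-(2 / 3 : ℝ)) * PQ (1 / 2) (boxE m \ KnF m F0) (fE a k h m p F0 U)
          ≤ PQ (1 / 2) (boxE m \ KnF m F0) (fun η => gE M B k h a m p F0 v η) *
            PQ (1 / 2) (boxE m \ KnF m F0) (fE a k h m p F0 U) :=
            mul_le_mul_of_nonneg_right (hgl v hv) hnn
        _ = _ := mul_comm _ _
        _ ≤ _ := e1
    · rw [Finset.disjoint_left]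
      intro e he
      exact (mem_S1.1 he).2.2
    · intro η η' hη hη' he
      exact f_S1 hKN hT3 h1 hk ha hm hU hη hη' he
    · intro η η' hη hη' he
      exact g_loc hUP hZU hLOC hB h1 hk ha hm hp' h0 hN hv hη hη' he
    · intro η η' hη hs he hf
      exact f_S2 hF1 h1 hk ha hm hp' h0 hU hs he hf
    · intro η η' hη hs he hg
      exact g_S2 hLOC hB h1 hk ha hm hp' hv hη (hs.trans hη) hs he hg
  · intro v hv w hw
    rw [hQ] at hv hw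
    exact second hKN hUP hLOC hT3 hIMP hCT hTP hM hB h1 hk ha hm hp' h0 hN hU hv hw

end Pool.Agent.Y997.OBL.SC
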